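import Pool.Agent.Lib.MP_fc2ced_ag.C.RedB
import Pool.Agent.Lib.MP_fc2ced_ag.G.Kc
import Pool.Agent.Lib.MP_fc2ced_ag.G.PBridge

/-! Coverings that are branched along an arrangement. -/

open CategoryTheory Function

namespace Pool.Agent.Lib.MP_fc2ced_ag.T.C.Rd

open K

noncomputable section

variable {k : Type} [Field k] {F : Type} [Field F] [CharZero F] {χ : Chr k F}

open MP_fc2ced_ag.T.Pt hiding X

open MvPolynomial Prj in
theorem tw_of_aff {σ ι : Type} [Fintype σ] {f : ι → MvPolynomial (Option σ) k}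
    (hf : ∀ j, ∃ d, (f j).IsHomogeneous d) (h : SS ((aff f).E (Chr.triv k F))) :
    P.TwFinite f fun _ : Unit => X none := by
  have hg : ∀ _ : Unit, ∃ d, (X none : MvPolynomial (Option σ) k).IsHomogeneous d :=
    fun _ => ⟨1, isHomogeneous_X _ _⟩
  have h0 {K : Fld k} {x : Proj f K} (c : ¬ P.OnH (fun _ : Unit => X none) x) :
      nr none x none ≠ 0 := fun e => by
    obtain ⟨o, ho⟩ := exists_nr x
    exact c ((onH_iff hg ho).2 fun _ => by rw [aeval_X, nr_eq_zero ho, e])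
  have e1 {K : Fld k} {x : Proj f K} (c : nr none x none ≠ 0) :
      (fun o => Option.elim o 1 fun i => nr none x (some i)) = nr none x :=
    funext (Option.rec (nr_one c).symm fun _ => rfl)
  have sur ⦃K : Fld k⦄ (w : σ → K) (c : (aff f).L w) : ∃ x : Proj f K,
      nr none x = (fun o => Option.elim o 1 w) ∧ nr none x none ≠ 0 ∧ (qp hf hg).L x := by
    have e : nr none (Quot.mk _ (ofV (fun o => Option.elim o 1 w) ⟨none, one_ne_zero⟩ c.2)) =
        fun o => Option.elim o 1 w := funext fun _ => div_one _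
    have e' := (congrFun e none).trans_ne one_ne_zero
    exact ⟨_, e, e', trivial, fun m => e' (by simpa using (onH_iff hg e').1 m ())⟩
  have lv ⦃K : Fld k⦄ (x : Proj f K) (a : (qp hf hg).L x) :
      (aff f).L fun i => nr none x (some i) :=
    ⟨fun _ => trivial, fun j => by rw [e1 (h0 a.2)]; exact root_nr hf (h0 a.2) j⟩
  refine schurFinite_of_qp (F := F) hf hg (.of_eqv ⟨_, IsMap.bij
    (S := qp hf hg) (S' := aff f) (e := fun _ x i => nr none x (some i)) (.of_proper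
      ⟨lv, fun _ _ φ x y _ b r i => R.nr r (h0 b.2) _⟩
      (fun _ _ _ => Finset.prod_const_one) fun _ _ φ x z a b r => ?_) lv
    (fun _ x y a b e => nr_inj (h0 a.2) ?_) fun _ w a => ?_⟩ h)
  · obtain ⟨y, e2, e3, e4⟩ := sur z b
    exact ⟨y, e4, R.of_nr hf e3 (by
      rw [e2, ← e1 (h0 a.2)]
      exact Option.rec φ.one r)⟩
  · rw [← e1 (h0 a.2), ← e1 (h0 b.2), e]
  · obtain ⟨y, e2, -, e4⟩ := sur w a
    exact ⟨y, e4, by rw [e2]; rfl⟩

variable {S : Pt k} {Γ : Type} (l : Γ → ∀ ⦃K⦄, S.X K → K) (hl : ∀ g, S.RegF (l g))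

/-- The complement of some members of the arrangement, with a monomial. -/
@[reducible] def arr (B : Finset Γ) (e : Γ → ℤ) : Pt k :=
  (S.restr (fun _ x => ∀ g ∈ B, l g x ≠ 0) (Open.conv fun _ _ φ x y a b r h g hg =>
    (hl g φ x y a b r).ne_zero (h g hg))).withF (fun _ x => ∏ g ∈ B, l g x ^ e g)
    (fun _ _ φ x y a b r => Place.prod fun g hg => rel_zpow (hl g φ x y a.1 b.1 r) (b.2 g hg) _)
    fun _ _ a => Finset.prod_ne_zero_iff.2 fun g hg => zpow_ne_zero _ (a.2 g hg)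

theorem closed_van (A B : Finset Γ) (e : Γ → ℤ) :
    (arr l hl B e).Closed fun _ x => ∀ g ∈ A, l g x = 0 :=
  fun _ _ φ x y a b r h g hg => (hl g φ x y a.1 b.1 r).eq_of φ.zero (h g hg)

/-- A stratum of the arrangement, with a monomial. -/
abbrev str (A B : Finset Γ) (e : Γ → ℤ) : Pt k :=
  (arr l hl B e).restr _ (closed_van l hl A B e).conv

/-- A monomial in the equations of the arrangement. -/
def mon (s : Finset Γ) (c : k) (e : Γ → ℕ) ⦃K : Fld k⦄ (x : S.X K) : K :=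
  algebraMap k K c * ∏ g ∈ s, l g x ^ e g

include hl in
theorem regF_mon (s : Finset Γ) (c : k) (e : Γ → ℕ) : S.RegF (mon l s c e) :=
  fun _ _ φ x y a b r => (φ.alg c).mul (Place.prod fun g _ => (hl g φ x y a b r).pow _)

variable [IsAlgClosed k] [IsAlgClosed F] {s : Finset Γ}

theorem ss_str (H : ∀ B ⊆ s, ∀ e, SS ((arr l hl B e).E χ)) {A : Finset Γ} (hA : A ⊆ s) :
    ∀ B ⊆ s, ∀ e, SS ((str l hl A B e).E χ) := by
  classical
  induction A using Finset.induction_on with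
  | empty => exact fun B hB e => (ss_all fun _ _ _ _ h => absurd h (by simp)).2 (H B hB e)
  | insert g A _ ih =>
    intro B hB e
    obtain ⟨hg, hA⟩ := Finset.insert_subset_iff.1 hA
    by_cases m : g ∈ B
    · exact ss_empty fun _ _ c => c.1.2 g m (c.2 g (by simp))
    have c : (str l hl A B e).Closed fun _ x => l g x = 0 :=
      fun _ _ φ x y a b r => (hl g φ x y a.1.1 b.1.1 r).eq_of φ.zero
    refine (ss_rr _ fun _ _ _ => (Finset.forall_mem_insert _ _ _).trans and_comm).1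
      (ss_closed c (ih hA B hB e) (Pt.ss_of_inv
        (ih hA (insert g B) (Finset.insert_subset hg hB) (update e g 0)) (fun _ x => x)
        (fun _ x => x)
        ⟨fun _ _ a => ⟨⟨a.1.1.1, (Finset.forall_mem_insert _ _ _).2 ⟨a.2, a.1.1.2⟩⟩, a.1.2⟩,
          fun _ _ _ _ _ _ _ r => r⟩
        ⟨fun _ _ a => ⟨⟨⟨a.1.1, fun g hg => a.1.2 g (Finset.mem_insert_of_mem hg)⟩, a.2⟩,
          a.1.2 g (by simp)⟩, fun _ _ _ _ _ _ _ r => r⟩
        (fun _ x _ => ?_) (fun _ _ _ => rfl) fun _ _ _ => rfl))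
    change ∏ _ ∈ _, _ = ∏ _ ∈ _, _
    rw [Finset.prod_insert m, update_self, zpow_zero, one_mul]
    exact Finset.prod_congr rfl fun g' hg' => by rw [update_of_ne (ne_of_mem_of_not_mem hg' m)]

variable {ρ : Type} [Fintype ρ] {N : ℕ}

omit [IsAlgClosed F] in
/-- Unramified coverings of a stratum. -/
theorem ss_unr (hχ : χ.Prim) (hN : χ.N = 1 * N) {A B : Finset Γ}
    (H : ∀ e, SS ((str l hl A B e).E χ)) {c : ρ → k} (hc : ∀ j, c j ≠ 0) (e : ρ → Γ → ℤ)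
    (h : ∀ j, (str l hl A B 0).RegF fun K x => algebraMap k K (c j) * ∏ g ∈ B, l g x ^ e j g) :
    SS (((str l hl A B 0).kc _ h N).E χ) := by
  have h0 (j : ρ) ⦃K : Fld k⦄ (x : S.X K) (a : ∀ g ∈ B, l g x ≠ 0) :
      algebraMap k K (c j) * ∏ g ∈ B, l g x ^ e j g ≠ 0 := mul_ne_zero ((map_ne_zero _).2 (hc j))
    (Finset.prod_ne_zero_iff.2 fun g hg => zpow_ne_zero _ (a g hg))
  refine ss_kc _ _ h hχ hN (fun j _ x a => h0 j x a.1.2) fun t =>
    ss_to (H fun g => ∑ j, e j g * t j) (fun _ x => x) (fun _ x => x)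
      ⟨fun _ x a => ⟨a, fun j => h0 j x a.1.2⟩, fun _ _ _ _ _ _ _ r => r⟩
      ⟨fun _ _ a => a.1, fun _ _ _ _ _ _ _ r => r⟩ (∏ j, c j ^ t j) (fun K x a => ?_)
      (fun _ _ _ => rfl) fun _ _ _ => rfl
  change (∏ g ∈ B, _) * ∏ j, _ = (∏ g ∈ B, _) * _
  rw [Finset.prod_congr rfl fun g hg => zpow_fsum (a.1.2 g hg) Finset.univ fun j => e j g * t j,
    Finset.prod_comm]
  simp [mul_pow, Finset.prod_mul_distrib, mul_comm, zpow_mul, Finset.prod_pow]

theorem ss_cov (hN : (N : k) ≠ 0) (h1 : ∀ ⦃K⦄ (x : S.X K), S.L x → S.f x = 1)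
    (H : ∀ χ : Chr k F, χ.Prim → ∀ B ⊆ s, ∀ e, SS ((arr l hl B e).E χ)) (c c' : ρ → k)
    (e e' : ρ → Γ → ℕ) (cv : (S.prod ((line k).pi ρ)).Conv fun _ x =>
      ∀ j, x.2 j ^ N * mon l s (c' j) (e' j) x.1 = mon l s (c j) (e j) x.1) :
    SS (((S.prod ((line k).pi ρ)).restr _ cv).E (Chr.triv k F)) := by
  classical
  obtain ⟨χ, hχ, hc, -⟩ := (Chr.prim_triv (k := k) (F := F)).exists_lift hN
  have N0 : N ≠ 0 := fun e => hN (by simp [e])
  refine .of_eqv (eqv_of_one _ χ _ fun _ x a => by simp [h1 x.1 a.1.1]) ?_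
  refine ss_of_patterns (G := s) (Z := fun g _ x => l g x.1 = 0)
    (fun g _ _ φ x y a b r => (hl g φ _ _ a.1.1 b.1.1 r.1).eq_of φ.zero) fun A₀ => ?_
  obtain ⟨A, hA, eA⟩ : ∃ A ⊆ s, ∀ ⦃K : Fld k⦄ (x : S.X K), (∀ g : s, l g x = 0 ↔ g ∈ A₀) ↔
      (∀ g ∈ s \ A, l g x ≠ 0) ∧ ∀ g ∈ A, l g x = 0 := by
    refine ⟨s.filter fun g => ∃ h, ⟨g, h⟩ ∈ A₀, Finset.filter_subset _ _, fun K x => ?_⟩
    simp only [Finset.mem_sdiff, Finset.mem_filter, Subtype.forall]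
    exact ⟨fun h => ⟨fun g hg e => hg.2 ⟨hg.1, hg.1, (h g hg.1).1 e⟩,
      fun g hg => (h g hg.1).2 hg.2.2⟩, fun h g hg =>
        ⟨fun e => by_contra fun m => h.1 g ⟨hg, fun m' => m m'.2.2⟩ e, fun m => h.2 g ⟨hg, hg, m⟩⟩⟩
  let z (c : k) (e : Γ → ℕ) : Prop := c = 0 ∨ ∃ g ∈ A, e g ≠ 0
  have z1 {K : Fld k} {x : S.X K} (a : ∀ g ∈ A, l g x = 0) {c e} (h : z c e) :
      mon l s c e x = 0 := by
    rcases h with rfl | ⟨g, hg, h⟩
    · simp [mon]
    · rw [mon, Finset.prod_eq_zero (hA hg) (by rw [a g hg, zero_pow h]), mul_zero]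
  have z2 {K : Fld k} (x : S.X K) {c e} (h : ¬ z c e) :
      mon l s c e x = algebraMap k K c * ∏ g ∈ s \ A, l g x ^ e g :=
    congrArg _ (Finset.prod_subset Finset.sdiff_subset fun g hg m => by
      rw [show e g = 0 from by_contra fun m' => h (.inr ⟨g, by simpa [hg] using m, m'⟩),
        pow_zero]).symm
  have z3 {K : Fld k} {x : S.X K} (a : ∀ g ∈ s \ A, l g x ≠ 0) {c e} (h : ¬ z c e) :
      mon l s c e x ≠ 0 := (z2 x h).trans_ne (mul_ne_zero ((map_ne_zero _).2 fun e => h (.inl e))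
        (Finset.prod_ne_zero_iff.2 fun g hg => pow_ne_zero _ (a g hg)))
  by_cases m : ∃ j, z (c' j) (e' j) ∧ ¬ z (c j) (e j)
  · obtain ⟨j, m, m'⟩ := m
    exact ss_empty fun _ x a => z3 ((eA _).1 a.2).1 m' (by
      rw [← a.1.2 j, z1 ((eA _).1 a.2).2 m, mul_zero])
  simp only [not_exists, not_and, not_not] at m
  have eq {K : Fld k} {x : S.X K} (a : ∀ g ∈ s \ A, l g x ≠ 0) {j : ρ} (h : ¬ z (c j) (e j))
      (y : K) : y ^ N * mon l s (c' j) (e' j) x = mon l s (c j) (e j) x ↔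
      y ^ N = algebraMap k K (c j / c' j) * ∏ g ∈ s \ A, l g x ^ ((e j g : ℤ) - e' j g) := by
    have h' : ¬ z (c' j) (e' j) := fun e => h (m j e)
    rw [← eq_div_iff (z3 a h'), z2 x h, z2 x h', mul_div_mul_comm, map_div₀,
      ← Finset.prod_div_distrib, Finset.prod_congr rfl fun g hg => zpow_sub₀ (a g hg) _ _]
    simp
  have H' := ss_unr l hl hχ hc (ss_str l hl (H χ hχ) hA (s \ A) Finset.sdiff_subset)
    (ρ := {j // ¬ z (c j) (e j)}) (c := fun j => c j / c' j)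
    (fun j => div_ne_zero (fun e => j.2 (.inl e)) fun e => j.2 (m j (.inl e)))
    (fun j g => (e j g : ℤ) - e' j g) fun j _ _ φ x y a b r => (φ.alg _).mul
      (Place.prod fun g hg => rel_zpow (hl g φ x y a.1.1 b.1.1 r) (b.1.2 g hg) _)
  refine Pt.ss_of_inv (ss_prod H' (ss_aff {j // z (c' j) (e' j)}))
    (fun _ x => ((x.1, fun j => x.2 j), fun j => x.2 j))
    (fun _ y => (y.1.1, fun j => if h : z (c j) (e j) then
      (if h' : z (c' j) (e' j) then y.2 ⟨j, h'⟩ else 0) else y.1.2 ⟨j, h⟩))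
    ⟨fun _ x a => ⟨⟨⟨⟨⟨a.1.1.1, ((eA _).1 a.2).1⟩, ((eA _).1 a.2).2⟩, fun _ => trivial⟩,
        fun j => (eq ((eA _).1 a.2).1 j.2 _).1 (a.1.2 j)⟩, fun _ => trivial⟩,
      fun _ _ _ _ _ _ _ r => ⟨⟨r.1, fun _ => r.2 _⟩, fun _ => r.2 _⟩⟩
    ⟨fun _ y a => ⟨⟨⟨a.1.1.1.1.1, fun _ => trivial⟩, fun j => ?_⟩,
        (eA _).2 ⟨a.1.1.1.1.2, a.1.1.1.2⟩⟩, fun _ _ φ _ _ _ _ r => ⟨r.1.1, fun j => ?_⟩⟩
    (fun _ x a => by simp [h1 x.1 a.1.1.1]) (fun _ x a => Prod.ext rfl (funext fun j => ?_))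
    fun _ y _ => Prod.ext (Prod.ext rfl (funext fun j => dif_neg j.2))
      (funext fun j => (dif_pos (m j j.2)).trans (dif_pos j.2))
  · dsimp only
    split_ifs with h h'
    · rw [z1 a.1.1.1.2 h, z1 a.1.1.1.2 h', mul_zero]
    · rw [z1 a.1.1.1.2 h, zero_pow N0, zero_mul]
    · exact (eq a.1.1.1.1.2 h _).2 (a.1.2 ⟨j, h⟩)
  · dsimp only
    split_ifs
    exacts [r.2 _, φ.zero, r.1.2 _]
  · dsimp only
    split_ifs with h h'
    · rfl
    · have := a.1.2 j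
      rw [z1 ((eA _).1 a.2).2 h, mul_eq_zero, or_iff_left (z3 ((eA _).1 a.2).1 h')] at this
      exact (pow_eq_zero_iff N0).1 this |>.symm
    · rfl

end

end Pool.Agent.Lib.MP_fc2ced_ag.T.C.Rd
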