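import Pool.Agent.Lib.MP_fc2ced_ag.C.Mat
import Pool.Agent.Lib.MP_fc2ced_ag.G.Rad

/-! Families of subspaces, their strata, and flows of rank one. -/

open Function Matrix Module

namespace Pool.Agent.Lib.MP_fc2ced_ag.T.C

open K

noncomputable section

variable {k : Type} [Field k] {F : Type} [Field F] {χ : Chr k F} {w : ℕ}

open MP_fc2ced_ag.T.Pt

/-- Subspaces. -/
abbrev Sb (w : ℕ) (K : Type) [Field K] := Submodule K (Fin w → K)

/-- The image of a subspace. -/
def im {K : Type} [Field K] (Y : Mx w K) (W : Sb w K) : Sb w K := W.map (toLin' Y)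

/-- The form `η` vanishes on the subspace. -/
def Perp {K : Type} [Field K] (η : Fin w → K) (W : Sb w K) : Prop := ∀ v ∈ W, η ⬝ᵥ v = 0

section Im
variable {K : Type} [Field K] {Y Y' : Mx w K} {W W' : Sb w K} {u v η : Fin w → K}

theorem mem_im (h : v ∈ W) : Y *ᵥ v ∈ im Y W := ⟨v, h, rfl⟩

theorem im_le : im Y W ≤ W' ↔ ∀ v ∈ W, Y *ᵥ v ∈ W' := Submodule.map_le_iff_le_comap

theorem im_mono (h : W ≤ W') : im Y W ≤ im Y W' := Submodule.map_mono h

theorem im_congr (h : ∀ v ∈ W, Y *ᵥ v = Y' *ᵥ v) : im Y W = im Y' W :=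
  le_antisymm (im_le.2 fun v hv => (h v hv).symm ▸ mem_im hv)
    (im_le.2 fun v hv => h v hv ▸ mem_im hv)

theorem im_im : im Y (im Y' W) = im (Y * Y') W := by
  rw [im, im, im, toLin'_mul, Submodule.map_comp]

theorem im_one : im 1 W = W := by rw [im, toLin'_one, Submodule.map_id]

theorem finrank_im : finrank K (im Y W) ≤ finrank K W := Submodule.finrank_map_le _ _

theorem mem_im_inv (h : Y.det ≠ 0) : v ∈ im Y⁻¹ W ↔ Y *ᵥ v ∈ W := by
  refine ⟨?_, fun hv => ?_⟩
  · rintro ⟨z, hz, rfl⟩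
    rwa [toLin'_apply, mulVec_mulVec, mul_nonsing_inv _ h.isUnit, one_mulVec]
  · have := mem_im (Y := Y⁻¹) hv
    rwa [mulVec_mulVec, nonsing_inv_mul _ h.isUnit, one_mulVec] at this

/-- The preimage does not change if the matrix is changed by a map into `W`. -/
theorem im_inv_add (h : Y.det ≠ 0) (h' : (Y + vecMulVec u η).det ≠ 0) (hu : u ∈ W) :
    im (Y + vecMulVec u η)⁻¹ W = im Y⁻¹ W := by
  ext v
  rw [mem_im_inv h', mem_im_inv h, add_mulVec, vecMulVec_mulVec, op_smul_eq_smul]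
  exact W.add_mem_iff_left (W.smul_mem _ hu)

/-- The preimage does not change if the matrix does not change on it. -/
theorem im_inv_congr (h : Y.det ≠ 0) (h' : Y'.det ≠ 0)
    (e : ∀ v ∈ im Y⁻¹ W, Y' *ᵥ v = Y *ᵥ v) : im Y'⁻¹ W = im Y⁻¹ W := by
  have a : im Y⁻¹ W ≤ im Y'⁻¹ W := fun v hv => by
    rw [mem_im_inv h', e v hv]
    exact (mem_im_inv h).1 hv
  have b := finrank_im (Y := Y) (W := im Y⁻¹ W)
  rw [im_im, mul_nonsing_inv _ h.isUnit, im_one] at b
  exact (Submodule.eq_of_le_of_finrank_le a (finrank_im.trans b)).symm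

theorem finrank_biSup {α : Type} (s : Finset α) (U : α → Sb w K) {m : ℕ}
    (h : ∀ a ∈ s, finrank K (U a) ≤ m) : finrank K ↥(⨆ a ∈ s, U a) ≤ s.card * m := by
  classical
  induction s using Finset.induction_on with
  | empty => simp
  | insert a s ha ih =>
    rw [Finset.iSup_insert, Finset.card_insert_of_notMem ha, add_mul, one_mul, add_comm]
    exact (Submodule.finrank_add_le_finrank_add_finrank _ _).trans
      (add_le_add (h a (Finset.mem_insert_self _ _))
        (ih fun b hb => h b (Finset.mem_insert_of_mem hb)))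

variable (K w) in
/-- The span of the first `m` basis vectors. -/
def Ek (m : ℕ) : Sb w K where
  carrier := {v | ∀ a : Fin w, m ≤ a → v a = 0}
  add_mem' h h' a e := by simp [h a e, h' a e]
  zero_mem' _ _ := rfl
  smul_mem' _ _ h a e := by simp [h a e]

theorem finrank_ek {m : ℕ} (h : m ≤ w) : finrank K (Ek w K m) = m := by
  have b : Bijective (LinearMap.funLeft K K (Fin.castLE h) ∘ₗ (Ek w K m).subtype) := by
    refine ⟨(injective_iff_map_eq_zero _).2 fun v hv => Subtype.ext (funext fun a => ?_),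
      fun y => ⟨⟨fun a => if e : (a : ℕ) < m then y ⟨a, e⟩ else 0, fun a e => dif_neg e.not_gt⟩,
        funext fun a => dif_pos a.2⟩⟩
    rcases lt_or_ge (a : ℕ) m with e | e
    · exact congrFun hv ⟨a, e⟩
    · exact v.2 a e
  rw [(LinearEquiv.ofBijective _ b).finrank_eq, finrank_fin_fun]

theorem keeps_ek : (∀ m < w, Keeps Y (Ek w K m)) ↔ ∀ a b : Fin w, b < a → Y a b = 0 := by
  refine ⟨fun h a b e => ?_, fun h m _ v hv a e =>
    show ∑ b, Y a b * v b = 0 from Finset.sum_eq_zero fun b _ => ?_⟩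
  · have := h (b + 1) (lt_of_le_of_lt e a.2) (Pi.single b 1)
      (fun c hc => Pi.single_eq_of_ne (Fin.ne_of_gt hc) _) a e
    rwa [mulVec_single_one] at this
  · rcases lt_or_ge b a with e' | e'
    · rw [h a b e', zero_mul]
    · rw [hv b (e.trans e'), mul_zero]

/-- The coordinates in `J` determine the vectors of `W`. -/
def Inj (J : Finset (Fin w)) (W : Sb w K) : Prop := ∀ z ∈ W, (∀ i ∈ J, z i = 0) → z = 0

/-- The coordinates in `J` are a basis of the dual of `W`. -/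
def Piv (J : Finset (Fin w)) (W : Sb w K) : Prop := Inj J W ∧ ∀ J' ⊂ J, ¬ Inj J' W

open Classical in
/-- The projection on `W` along the coordinates outside `J`. -/
def prj (J : Finset (Fin w)) (W : Sb w K) : Mx w K :=
  of fun b a => if h : a ∈ J ∧ ∃ z ∈ W, ∀ i ∈ J, z i = if i = a then 1 else 0 then
    h.2.choose b else 0

variable {J : Finset (Fin w)}

theorem Piv.exists (h : Piv J W) {a : Fin w} (ha : a ∈ J) :
    ∃ z ∈ W, ∀ i ∈ J, z i = if i = a then 1 else 0 := by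
  have := h.2 _ (Finset.erase_ssubset ha)
  simp only [Inj, not_forall] at this
  obtain ⟨z, hz, e, e'⟩ := this
  have za : z a ≠ 0 := fun c => e' (h.1 z hz fun i hi => by
    by_cases q : i = a
    · exact q ▸ c
    · exact e i (Finset.mem_erase.2 ⟨q, hi⟩))
  refine ⟨(z a)⁻¹ • z, W.smul_mem _ hz, fun i hi => ?_⟩
  split_ifs with q
  · rw [q]
    exact inv_mul_cancel₀ za
  · rw [Pi.smul_apply, e i (Finset.mem_erase.2 ⟨q, hi⟩), smul_zero]

theorem prj_col (a : Fin w) : (prj J W)ᵀ a ∈ W := by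
  by_cases h : a ∈ J ∧ ∃ z ∈ W, ∀ i ∈ J, z i = if i = a then 1 else 0
  · exact (funext fun b => dif_pos h : (prj J W)ᵀ a = h.2.choose) ▸ h.2.choose_spec.1
  · exact (funext fun b => dif_neg h : (prj J W)ᵀ a = 0) ▸ W.zero_mem

theorem prj_mem (v : Fin w → K) : prj J W *ᵥ v ∈ W := by
  rw [mulVec_eq_sum]
  exact W.sum_mem fun a _ => op_smul_eq_smul (v a) ((prj J W)ᵀ a) ▸ W.smul_mem _ (prj_col a)

theorem prj_apply (h : Piv J W) {i : Fin w} (hi : i ∈ J) (a : Fin w) :
    prj J W i a = if i = a then 1 else 0 := by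
  by_cases ha : a ∈ J
  · exact (dif_pos ⟨ha, h.exists ha⟩).trans ((h.exists ha).choose_spec.2 i hi)
  · exact (dif_neg fun c => ha c.1).trans (if_neg fun c : i = a => ha (c ▸ hi)).symm

theorem prj_fix (h : Piv J W) (hv : v ∈ W) : prj J W *ᵥ v = v := by
  refine sub_eq_zero.1 (h.1 _ (W.sub_mem (prj_mem v) hv) fun i hi => ?_)
  simp [mulVec, dotProduct, prj_apply h hi]

end Im

section SR
variable {K K' : Fld k} (φ : Place K K')

/-- Spans of finite families of vectors that specialize. -/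
def SR (W : Sb w K) (W' : Sb w K') : Prop :=
  ∃ (d : ℕ) (y : Fin d → Fin w → K) (y' : Fin d → Fin w → K'), (∀ a, φ.VR (y a) (y' a)) ∧
    W = Submodule.span K (Set.range y) ∧ W' = Submodule.span K' (Set.range y')

variable {φ} {U W : Sb w K} {U' W' : Sb w K'} {Y : Mx w K} {Y' : Mx w K'}

theorem sr_of_gr (h : φ.GR W W') : SR φ W W' := by
  obtain ⟨d, y, y', h1, h2, h3, -⟩ := h
  exact ⟨d, y, y', h1, h2, h3⟩

theorem sr_mk {α : Type} [Finite α] {y : α → Fin w → K} {y' : α → Fin w → K'}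
    (h : ∀ a, φ.VR (y a) (y' a)) :
    SR φ (Submodule.span K (Set.range y)) (Submodule.span K' (Set.range y')) := by
  obtain ⟨d, ⟨e⟩⟩ := Finite.exists_equiv_fin α
  refine ⟨d, y ∘ e.symm, y' ∘ e.symm, fun a => h _, ?_, ?_⟩
  · rw [e.symm.surjective.range_comp]
  · rw [e.symm.surjective.range_comp]

theorem vr_single (a : Fin w) : φ.VR (Pi.single a 1 : Fin w → K) (Pi.single a 1) := fun i => by
  rw [Pi.single_apply, Pi.single_apply]
  split_ifs
  exacts [φ.one, φ.zero]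

theorem ek_eq_span (L : Type) [Field L] (m : ℕ) : Ek w L m = Submodule.span L
    (Set.range fun a : {a : Fin w // (a : ℕ) < m} => (Pi.single a.1 1 : Fin w → L)) := by
  refine le_antisymm (fun v hv => ?_) (Submodule.span_le.2 (Set.range_subset_iff.2
    fun a b hb => Pi.single_eq_of_ne (fun e => ?_) _))
  · rw [pi_eq_sum_univ' v]
    refine Submodule.sum_mem _ fun a _ => ?_
    by_cases ha : (a : ℕ) < m
    · exact Submodule.smul_mem _ _ (Submodule.subset_span ⟨⟨a, ha⟩, rfl⟩)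
    · rw [hv a (not_lt.1 ha), zero_smul]
      exact zero_mem _
  · exact absurd a.2 (not_lt.2 (e ▸ hb))

theorem sr_bot : SR φ (⊥ : Sb w K) ⊥ := sr_of_gr Place.GR.bot

theorem sr_top : SR φ (⊤ : Sb w K) ⊤ := by
  rw [← (Pi.basisFun K (Fin w)).span_eq, ← (Pi.basisFun K' (Fin w)).span_eq]
  refine sr_mk fun a => ?_
  rw [Pi.basisFun_apply, Pi.basisFun_apply]
  exact vr_single a

theorem gr_ek (m : ℕ) : φ.GR (Ek w K m) (Ek w K' m) := by
  rw [ek_eq_span, ek_eq_span]
  refine Place.GR.mk' (fun a => vr_single a.1) ?_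
  have := (Pi.basisFun K' (Fin w)).linearIndependent.comp
    (Subtype.val : {a : Fin w // (a : ℕ) < m} → Fin w) Subtype.val_injective
  convert this using 2 with a
  rw [Function.comp_apply, Pi.basisFun_apply]

theorem sr_single {v : Fin w → K} {v' : Fin w → K'} (h : φ.VR v v') :
    SR φ (K ∙ v) (K' ∙ v') := by
  have := sr_mk (φ := φ) (y := fun _ : Unit => v) (y' := fun _ => v') fun _ => h
  rwa [Set.range_const, Set.range_const] at this

theorem SR.sup (h : SR φ U U') (h' : SR φ W W') : SR φ (U ⊔ W) (U' ⊔ W') := by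
  obtain ⟨d, y, y', h1, rfl, rfl⟩ := h
  obtain ⟨e, z, z', h2, rfl, rfl⟩ := h'
  rw [← Submodule.span_union, ← Submodule.span_union, ← Set.Sum.elim_range, ← Set.Sum.elim_range]
  exact sr_mk (by rintro (a | a); exacts [h1 a, h2 a])

theorem sr_biSup {α : Type} (s : Finset α) {U : α → Sb w K} {U' : α → Sb w K'}
    (h : ∀ a ∈ s, SR φ (U a) (U' a)) : SR φ (⨆ a ∈ s, U a) (⨆ a ∈ s, U' a) := by
  classical
  induction s using Finset.induction_on with
  | empty => simpa using sr_bot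
  | insert a s _ ih =>
    rw [Finset.iSup_insert, Finset.iSup_insert]
    exact (h a (Finset.mem_insert_self a s)).sup
      (ih fun b hb => h b (Finset.mem_insert_of_mem hb))

theorem SR.im (h : SR φ W W') (h' : MR φ Y Y') : SR φ (im Y W) (im Y' W') := by
  obtain ⟨d, y, y', h1, rfl, rfl⟩ := h
  rw [C.im, C.im, Submodule.map_span, Submodule.map_span, ← Set.range_comp, ← Set.range_comp]
  exact sr_mk fun a => h'.mulVec (h1 a)

theorem SR.exists_gr (h : SR φ W W') : ∃ V ≤ W, φ.GR V W' := by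
  obtain ⟨d, y, y', h1, rfl, rfl⟩ := h
  obtain ⟨κ, a, ha, hs, hl⟩ := exists_linearIndependent' K' y'
  have := Finite.of_injective a ha
  exact ⟨_, Submodule.span_mono (Set.range_comp_subset_range a y),
    hs ▸ Place.GR.mk' (y := y ∘ a) (fun b => h1 (a b)) hl⟩

theorem SR.finrank_le (h : SR φ W W') : finrank K' W' ≤ finrank K W := by
  obtain ⟨V, h1, h2⟩ := h.exists_gr
  exact h2.finrank.trans_le (Submodule.finrank_mono h1)

theorem SR.gr (h : SR φ W W') (e : finrank K' W' = finrank K W) : φ.GR W W' := by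
  obtain ⟨V, h1, h2⟩ := h.exists_gr
  exact Submodule.eq_of_le_of_finrank_eq h1 (h2.finrank.symm.trans e) ▸ h2

theorem keeps_of_gr (h : φ.GR W W') (h' : MR φ Y Y') (c : Keeps Y W) : Keeps Y' W' := by
  have h0 := h
  obtain ⟨d, y, y', h1, rfl, rfl, -⟩ := h
  have : Submodule.span K' (Set.range y') ≤
      (Submodule.span K' (Set.range y')).comap (toLin' Y') :=
    Submodule.span_le.2 (Set.range_subset_iff.2 fun a =>
      h0.mem (c _ (Submodule.subset_span ⟨a, rfl⟩)) (h'.mulVec (h1 a)))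
  exact fun v hv => this hv

theorem mr_prj {J : Finset (Fin w)} (h : φ.GR W W') (p : Piv J W) (p' : Piv J W') :
    MR φ (prj J W) (prj J W') := by
  intro b a
  rw [prj, prj, of_apply, of_apply]
  by_cases ha : a ∈ J
  · have e := And.intro ha (p.exists ha)
    have e' := And.intro ha (p'.exists ha)
    rw [dif_pos e, dif_pos e']
    obtain ⟨z1, z2⟩ := e.2.choose_spec
    obtain ⟨z3, z4⟩ := e'.2.choose_spec
    have key (i : Fin w) (hi : i ∈ J) : φ (e.2.choose i) (e'.2.choose i) := by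
      rw [z2 i hi, z4 i hi]
      split_ifs
      exacts [φ.one, φ.zero]
    obtain ⟨z, hz⟩ := h.exists_of_piv (J : Set (Fin w)) p'.1 z1 fun i hi => ⟨_, key i hi⟩
    have : z - e'.2.choose = 0 := p'.1 _ (W'.sub_mem (h.mem z1 hz) z3) fun i hi =>
      sub_eq_zero.2 (φ.func (hz i) (key i hi))
    exact sub_eq_zero.1 this ▸ hz b
  · rw [dif_neg fun e => ha e.1, dif_neg fun e => ha e.1]
    exact φ.zero

end SR

variable {S : Pt k}

variable (S w) in
/-- Families of subspaces. -/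
abbrev Fm := ∀ ⦃K : Fld k⦄, S.X K → Sb w K

variable (S) in
/-- Families that are spanned by regular vectors. -/
def RegS (W : Fm w S) : Prop :=
  ∀ ⦃K K'⦄ (φ : Place K K') (x : S.X K) (y : S.X K'), S.L x → S.L y → S.R φ x y →
    SR φ (W x) (W y)

variable (S) in
/-- Regular maps to a Grassmannian. -/
def RegG (W : Fm w S) : Prop :=
  ∀ ⦃K K'⦄ (φ : Place K K') (x : S.X K) (y : S.X K'), S.L x → S.L y → S.R φ x y →
    φ.GR (W x) (W y)

section Str
variable {G : Type} (W : G → Fm w S) (d : G → ℕ) (A : G → G → Prop)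

/-- The dimensions and the inclusions are prescribed. -/
def Str : S.Cond := fun K x =>
  (∀ g, finrank K (W g x) = d g) ∧ ∀ g g', (W g x ≤ W g' x ↔ A g g')

variable {W} (h : ∀ g, RegS S (W g))
include h

theorem conv_str : S.Conv (Str W d A) := fun _ K' _ φ φ' x y z a b c r r' h1 h2 => by
  have e : ∀ g, finrank K' (W g y) = d g := fun g =>
    le_antisymm ((h g φ x y a b r).finrank_le.trans_eq (h1.1 g))
      ((h2.1 g).ge.trans (h g φ' y z b c r').finrank_le)
  have g1 : ∀ g, φ.GR (W g x) (W g y) := fun g => (h g φ x y a b r).gr ((e g).trans (h1.1 g).symm)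
  have g2 : ∀ g, φ'.GR (W g y) (W g z) := fun g =>
    (h g φ' y z b c r').gr ((h2.1 g).trans (e g).symm)
  exact ⟨e, fun g g' => ⟨fun l => (h2.2 g g').1 ((g2 g).mono (g2 g') l),
    fun l => (g1 g).mono (g1 g') ((h1.2 g g').2 l)⟩⟩

theorem regG_str (g : G) : RegG (S.restr _ (conv_str d A h)) (W g) :=
  fun _ _ φ x y a b r => (h g φ x y a.1 b.1 r).gr ((b.2.1 g).trans (a.2.1 g).symm)

theorem uzero_str [Finite G] (H : ∀ d A, UZero ((S.restr _ (conv_str d A h)).E χ)) :
    UZero (S.E χ) := by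
  have c1 : ∀ p : G × Fin (w + 1), S.Closed fun K x => finrank K (W p.1 x) ≤ p.2 :=
    fun p _ _ φ x y a b r l => (h p.1 φ x y a b r).finrank_le.trans l
  refine uzero_of_patterns c1 fun B => ?_
  by_cases hB : ∃ (K : Fld k) (x : S.X K),
      ∀ p : G × Fin (w + 1), finrank K (W p.1 x) ≤ p.2 ↔ p ∈ B
  swap
  · exact uzero_empty fun K x a => hB ⟨K, x, a.2⟩
  obtain ⟨K₀, x₀, h0⟩ := hB
  have bd : ∀ ⦃K : Fld k⦄ (V : Sb w K), finrank K V < w + 1 := fun K V =>
    Nat.lt_succ_of_le (V.finrank_le.trans_eq (finrank_fin_fun K))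
  have key : ∀ ⦃K⦄ (x : S.X K), (∀ g, finrank K (W g x) = finrank K₀ (W g x₀)) ↔
      ∀ p : G × Fin (w + 1), finrank K (W p.1 x) ≤ p.2 ↔ p ∈ B := fun K x =>
    ⟨fun l p => by rw [l, h0], fun l g => le_antisymm
      ((l (g, ⟨_, bd (W g x₀)⟩)).2 ((h0 _).1 le_rfl)) ((h0 (g, ⟨_, bd (W g x)⟩)).2 ((l _).1 le_rfl))⟩
  have gr : ∀ g, RegG (S.restr _ (conv_pattern c1 B)) (W g) := fun g _ _ φ x y a b r =>
    (h g φ x y a.1 b.1 r).gr (((key y).2 b.2 g).trans ((key x).2 a.2 g).symm)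
  have c2 : ∀ p : G × G, (S.restr _ (conv_pattern c1 B)).Closed fun _ x => W p.1 x ≤ W p.2 x :=
    fun p _ _ φ x y a b r => (gr p.1 φ x y a b r).mono (gr p.2 φ x y a b r)
  exact uzero_of_patterns c2 fun C => uzero_restr (conv_str _ (fun g g' => (g, g') ∈ C) h)
    (fun _ x _ => and_congr (key x) ⟨fun l p => l p.1 p.2, fun l g g' => l (g, g')⟩) (H _ _)

end Str

/-- The strata given by the first closed condition that fails. -/
theorem uzero_first {Z : ℕ → S.Cond} (hZ : ∀ m, S.Closed (Z m)) (N : ℕ)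
    (cov : ∀ ⦃K⦄ (x : S.X K), S.L x → ∃ m < N, ¬ Z m x)
    (h : ∀ m < N, ∀ c : S.Conv fun _ x => (∀ m' < m, Z m' x) ∧ ¬ Z m x,
      UZero ((S.restr _ c).E χ)) : UZero (S.E χ) := by
  have cl : ∀ n, S.Closed fun _ x => ∀ m < n, Z m x :=
    fun n _ _ φ x y a b r l m hm => hZ m φ x y a b r (l m hm)
  have key : ∀ j n, n + j = N → UZero ((S.restr _ (cl n).conv).E χ) := fun j => by
    induction j with
    | zero =>
      refine fun n e => uzero_empty fun _ x a => ?_
      obtain ⟨m, h1, h2⟩ := cov x a.1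
      exact h2 (a.2 m (by omega))
    | succ j ih =>
      exact fun n e => uzero_of_closed (S := S.restr _ (cl n).conv) ((reg_restr _).closed (hZ n))
        (uzero_restr (cl (n + 1)).conv (fun _ _ _ => Nat.forall_lt_succ_right) (ih _ (by omega)))
        (uzero_restr ((cl n).conv.and (hZ n).not.conv) (fun _ _ _ => Iff.rfl) (h n (by omega) _))
  exact uzero_of_closed (cl 0) (key N 0 (by omega))
    (uzero_empty fun _ _ a => a.2 fun m hm => absurd hm m.not_lt_zero)

variable (S) in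
/-- Moves by the transformations `1 + (r - 1) z η` with `z` in `U` and `η` orthogonal to `Z`. -/
structure Rank (t : ℤ) (U Z : Fm w S)
    (mv : ∀ ⦃K : Fld k⦄, K → (Fin w → K) → (Fin w → K) → S.X K → S.X K) : Prop where
  rU : RegS S U
  rZ : RegS S Z
  ne : ∀ ⦃K⦄ (x : S.X K), S.L x → ¬ U x ≤ Z x
  one : ∀ ⦃K : Fld k⦄ (z η : Fin w → K) (x : S.X K), S.L x → mv 1 z η x = x
  spec : ∀ ⦃K : Fld k⦄ (r : K) (z η : Fin w → K) (x : S.X K), r ≠ 0 → S.L x → z ∈ U x →
    Perp η (Z x) → η ⬝ᵥ z = 1 → S.L (mv r z η x) ∧ U (mv r z η x) = U x ∧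
      Z (mv r z η x) = Z x ∧ S.f (mv r z η x) = S.f x * r ^ t ∧ mv r⁻¹ z η (mv r z η x) = x
  reg : ∀ ⦃K K'⦄ (φ : Place K K') (r : K) (r' : K') (z η : Fin w → K) (z' η' : Fin w → K')
    (x : S.X K) (y : S.X K'), φ r r' → φ.VR z z' → φ.VR η η' → S.L x → S.L y → S.R φ x y →
    S.R φ (mv r z η x) (mv r' z' η' y)

variable {t : ℤ} {U Z : Fm w S}
  {mv : ∀ ⦃K : Fld k⦄, K → (Fin w → K) → (Fin w → K) → S.X K → S.X K}

/-- Conditions that depend only on the two subspaces. -/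
theorem Rank.restr (h : Rank S t U Z mv) {C : ∀ ⦃K : Fld k⦄, Sb w K → Sb w K → Prop}
    (c : S.Conv fun _ x => C (U x) (Z x)) : Rank (S.restr _ c) t U Z mv :=
  { rU := fun _ _ φ x y a b => h.rU φ x y a.1 b.1
    rZ := fun _ _ φ x y a b => h.rZ φ x y a.1 b.1
    ne := fun _ x a => h.ne x a.1
    one := fun _ z η x a => h.one z η x a.1
    spec := fun _ r z η x hr a hz hη e => by
      obtain ⟨h1, h2, h3, h4⟩ := h.spec r z η x hr a.1 hz hη e
      exact ⟨⟨h1, show C _ _ by rw [h2, h3]; exact a.2⟩, h2, h3, h4⟩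
    reg := fun _ _ φ r r' z η z' η' x y hr hz hη a b =>
      h.reg φ r r' z η z' η' x y hr hz hη a.1 b.1 }

/-- A regular choice of the vector and of the form gives a flow. -/
theorem Rank.uzero_of (hχ : χ.ψ t ≠ 1) (h : Rank S t U Z mv)
    (z η : ∀ ⦃K : Fld k⦄, Sb w K → Sb w K → Fin w → K)
    (hs : ∀ ⦃K⦄ (x : S.X K), S.L x → z (U x) (Z x) ∈ U x ∧ Perp (η (U x) (Z x)) (Z x) ∧
      η (U x) (Z x) ⬝ᵥ z (U x) (Z x) = 1)
    (hr : ∀ ⦃K K'⦄ (φ : Place K K') (x : S.X K) (y : S.X K'), S.L x → S.L y → S.R φ x y →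
      φ.VR (z (U x) (Z x)) (z (U y) (Z y)) ∧ φ.VR (η (U x) (Z x)) (η (U y) (Z y))) :
    UZero (S.E χ) := by
  have sp := fun (K : Fld k) (r : K) (x : S.X K) hr a =>
    h.spec r _ _ x hr a (hs x a).1 (hs x a).2.1 (hs x a).2.2
  refine Flow.uzero (τ := fun _ r x => mv r (z (U x) (Z x)) (η (U x) (Z x)) x) hχ
    ⟨fun K r x e a => (sp K r x e a).1, fun _ x a => h.one _ _ x a, fun K r x e a => ?_,
      fun K r x e a => (sp K r x e a).2.2.2.1, fun _ _ φ r r' x y e _ a b c =>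
        h.reg φ r r' _ _ _ _ x y e (hr φ x y a b c).1 (hr φ x y a b c).2 a b c⟩
  obtain ⟨-, h2, h3, -, h4⟩ := sp K r x e a
  rw [h2, h3, h4]

/-- The case of regular projections. -/
theorem Rank.uzero_piv (hχ : χ.ψ t ≠ 1) (h : Rank S t U Z mv) (gU : RegG S U) (gZ : RegG S Z)
    {I J : Finset (Fin w)} (p : ∀ ⦃K⦄ (x : S.X K), S.L x → Piv I (U x) ∧ Piv J (Z x)) :
    UZero (S.E χ) := by
  have rI : ∀ ⦃K K'⦄ (φ : Place K K') (x : S.X K) (y : S.X K'), S.L x → S.L y → S.R φ x y →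
      MR φ (prj I (U x)) (prj I (U y)) := fun _ _ φ x y a b r =>
    mr_prj (gU φ x y a b r) (p x a).1 (p y b).1
  have rJ : ∀ ⦃K K'⦄ (φ : Place K K') (x : S.X K) (y : S.X K'), S.L x → S.L y → S.R φ x y →
      MR φ (1 - prj J (Z x)) (1 - prj J (Z y)) := fun _ _ φ x y a b r =>
    mr_one.sub (mr_prj (gZ φ x y a b r) (p x a).2 (p y b).2)
  have rc : ∀ q : Fin w × Fin w, S.RegF fun _ x => ((1 - prj J (Z x)) * prj I (U x)) q.1 q.2 :=
    fun q _ _ φ x y a b r => (rJ φ x y a b r).mul (rI φ x y a b r) q.1 q.2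
  refine uzero_of_patterns (fun q => (rc q).eq regF_zero) fun A => ?_
  by_cases hA : ∀ q, q ∈ A
  · refine uzero_empty fun K x a => h.ne x a.1 fun v hv => ?_
    have e : (1 - prj J (Z x)) * prj I (U x) = 0 := Matrix.ext fun i j => (a.2 (i, j)).2 (hA _)
    have e' := congrArg (· *ᵥ v) e
    simp only [← mulVec_mulVec, prj_fix (p x a.1).1 hv, zero_mulVec, sub_mulVec, one_mulVec,
      sub_eq_zero] at e'
    exact e' ▸ prj_mem v
  obtain ⟨q, hq⟩ := not_forall.1 hA
  refine (h.restr (C := fun _ U' Z' => ∀ q : Fin w × Fin w,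
      ((1 - prj J Z') * prj I U') q.1 q.2 = 0 ↔ q ∈ A) _).uzero_of hχ
    (fun _ U' Z' => (((1 - prj J Z') * prj I U') q.1 q.2)⁻¹ • fun i => prj I U' i q.2)
    (fun _ _ Z' => (1 - prj J Z') q.1) (fun K x a => ⟨Submodule.smul_mem _ _ ?_, fun v hv => ?_, ?_⟩)
    fun _ _ φ x y a b r => ⟨Place.VR.smul ((rc q φ x y a.1 b.1 r).inv fun e => hq ((b.2 q).1 e))
      fun i => rI φ x y a.1 b.1 r i q.2, rJ φ x y a.1 b.1 r q.1⟩
  · have := prj_mem (J := I) (W := U x) (Pi.single q.2 1)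
    rwa [mulVec_single_one] at this
  · change ((1 - prj J (Z x)) *ᵥ v) q.1 = 0
    rw [sub_mulVec, one_mulVec, prj_fix (p x a.1).2 hv, sub_self, Pi.zero_apply]
  · rw [dotProduct_smul]
    exact inv_mul_cancel₀ fun e => hq ((a.2 q).1 e)

/-- The case of constant dimensions. -/
theorem Rank.uzero_gr (hχ : χ.ψ t ≠ 1) (h : Rank S t U Z mv) (gU : RegG S U) (gZ : RegG S Z) :
    UZero (S.E χ) := by
  have cl : ∀ q : Bool × Finset (Fin w), S.Closed fun _ x => ¬ Inj q.2 (cond q.1 (U x) (Z x)) :=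
    fun ⟨g, J⟩ _ _ φ x y a b r l m => l <| by
      cases g
      exacts [(gZ φ x y a b r).piv J m, (gU φ x y a b r).piv J m]
  refine uzero_of_patterns cl fun B => ?_
  by_cases hB : ∀ g, (g, Finset.univ) ∉ B
  swap
  · obtain ⟨g, hg⟩ := not_forall.1 hB
    exact uzero_empty fun _ x a => (a.2 _).2 (not_not.1 hg) fun z _ e =>
      funext fun i => e i (Finset.mem_univ i)
  choose J h1 h2 using fun g => wellFounded_lt.has_min {J | (g, J) ∉ B} ⟨_, hB g⟩
  have pv : ∀ ⦃K⦄ (x : S.X K), (∀ q : Bool × Finset (Fin w),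
      ¬ Inj q.2 (cond q.1 (U x) (Z x)) ↔ q ∈ B) → ∀ g, Piv (J g) (cond g (U x) (Z x)) :=
    fun _ x a g => ⟨not_not.1 fun l => h1 g ((a (g, _)).1 l),
      fun J' e => (a (g, J')).2 (not_not.1 fun l => h2 g J' l e)⟩
  exact (h.restr (C := fun _ U' Z' => ∀ q : Bool × Finset (Fin w),
      ¬ Inj q.2 (cond q.1 U' Z') ↔ q ∈ B) _).uzero_piv hχ (fun _ _ φ x y a b => gU φ x y a.1 b.1)
    (fun _ _ φ x y a b => gZ φ x y a.1 b.1) fun _ x a => ⟨pv x a.2 true, pv x a.2 false⟩

theorem Rank.uzero (hχ : χ.ψ t ≠ 1) (h : Rank S t U Z mv) : UZero (S.E χ) := by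
  have hW : ∀ g : Bool, RegS S fun _ x => cond g (U x) (Z x) := fun g => by
    cases g
    exacts [h.rZ, h.rU]
  exact uzero_str hW fun d A => (h.restr (C := fun K U' Z' =>
    (∀ g, finrank K ↥(cond g U' Z') = d g) ∧ ∀ g g', (cond g U' Z' ≤ cond g' U' Z' ↔ A g g'))
      (conv_str d A hW)).uzero_gr hχ (regG_str d A hW true) (regG_str d A hW false)

end

end Pool.Agent.Lib.MP_fc2ced_ag.T.C
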