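import Pool.Agent.Lib.MP_fc2ced_ag.C.Defs
import Pool.Agent.Lib.MP_fc2ced_ag.C.Cells

/-! Only chains of matrices that keep a subspace count. -/

open Function Polynomial Matrix

namespace Pool.Agent.Lib.MP_fc2ced_ag.T.C

open K

noncomputable section

variable {k : Type} [Field k] {F : Type} [Field F] {χ : Chr k F} {d : Dat k} {n w : ℕ}

open MP_fc2ced_ag.T.Pt hiding X

/-- One matrix of a chain is changed by a matrix of rank one. -/
def bump {K : Type} [Field K] (i : ℕ) (u η : Fin w → K) (Y : ℕ → Mx w K) : ℕ → Mx w K :=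
  update Y i (Y i + vecMulVec u η)

section Alg
variable {K : Fld k} {Y : ℕ → Mx w K} {W : Sb w K} {i : ℕ} {r : K} {u u' z η : Fin w → K}

theorem bump_self : bump i u η Y i = Y i + vecMulVec u η := update_self ..

theorem bump_ne {l : ℕ} (e : l ≠ i) : bump i u η Y l = Y l := update_of_ne e ..

theorem bump_zero : bump i 0 η Y = Y := by
  rw [bump, zero_vecMulVec, add_zero, update_eq_self]

theorem bump_bump : bump i u' η (bump i u η Y) = bump i (u + u') η Y := by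
  rw [bump, bump_self, bump, update_idem, bump, add_vecMulVec, add_assoc]

theorem mr_bump {K' : Fld k} {φ : Place K K'} {Y' : ℕ → Mx w K'} {u' η' : Fin w → K'}
    (h : ∀ l, MR φ (Y l) (Y' l)) (hu : φ.VR u u') (hη : φ.VR η η') (l : ℕ) :
    MR φ (bump i u η Y l) (bump i u' η' Y' l) := by
  rcases eq_or_ne l i with rfl | e
  · rw [bump_self, bump_self]
    exact (h l).add (mr_vecMulVec hu hη)
  · rw [bump_ne e, bump_ne e]
    exact h l

theorem bump_lk : bump (i + 1) u η Y (i + 1) - bump (i + 1) u η Y i =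
    Y (i + 1) - Y i + vecMulVec u η := by
  rw [bump_self, bump_ne (Nat.succ_ne_self i).symm, add_sub_right_comm]

theorem keeps_bump (c : Keeps (Y i) W) (hu : u ∈ W) (l : ℕ) :
    Keeps (bump i u η Y l) W ↔ Keeps (Y l) W := by
  rcases eq_or_ne l i with rfl | e
  · rw [bump_self]
    exact iff_of_true (c.add_one hu) c
  · rw [bump_ne e]

theorem charpoly_bump (c : Keeps (Y i) W) (hu : u ∈ W) (hη : Perp η W) (l : ℕ) :
    (bump i u η Y l).charpoly = (Y l).charpoly := by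
  rcases eq_or_ne l i with rfl | e
  · rw [bump_self, c.charpoly_add_one hu hη]
  · rw [bump_ne e]

theorem bump_inv (h1 : η ⬝ᵥ z = 1) (hr : r ≠ 0) {Y' : ℕ → Mx w K}
    (e : Y' = bump (i + 1) ((r - 1) • (Y (i + 1) - Y i) *ᵥ z) η Y) :
    bump (i + 1) ((r⁻¹ - 1) • (Y' (i + 1) - Y' i) *ᵥ z) η Y' = Y := by
  rw [e, bump_lk, bump_bump, add_one_mulVec, h1, one_smul]
  convert bump_zero
  match_scalars
  field_simp
  ring

variable (h : (Xs d n w).L Y) (hi : i < n) (hk : ∀ l, i < l → l ≤ n → Keeps (Y l) W)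
  (hz : (Y (i + 1) - Y i) *ᵥ z ∈ W) (hη : Perp η W) (h1 : η ⬝ᵥ z = 1) (hr : r ≠ 0)
include h hi hk hz hη h1 hr

omit hr in
theorem clean_det {l : ℕ} (hl : l < n) {Y' : ℕ → Mx w K}
    (e : Y' = bump (i + 1) ((r - 1) • (Y (i + 1) - Y i) *ᵥ z) η Y) :
    (Y' (l + 1) - Y' l).det = (Y (l + 1) - Y l).det * if l = i then r else 1 := by
  have hu := W.smul_mem (r - 1) hz
  subst e
  split_ifs with a
  · have d0 := h.2.lk i hi
    rw [a, bump_lk, det_add_one d0, mulVec_smul, mulVec_mulVec,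
      nonsing_inv_mul _ (isUnit_iff_ne_zero.2 d0), one_mulVec, dotProduct_smul, h1, smul_eq_mul,
      mul_one, add_sub_cancel]
  · rw [mul_one, bump_ne fun b => a (Nat.succ_injective b)]
    rcases eq_or_ne l (i + 1) with rfl | b
    · rw [bump_self, sub_add_eq_sub_sub, sub_eq_add_neg _ (vecMulVec _ _), ← neg_vecMulVec]
      exact ((hk _ (by omega) hl).sub (hk _ (by omega) hl.le)).det_add_one (h.2.lk _ hl)
        (W.neg_mem hu) hη
    · rw [bump_ne b]

theorem clean_spec :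
    (Xs d n w).L (bump (i + 1) ((r - 1) • (Y (i + 1) - Y i) *ᵥ z) η Y) ∧
    (bump (i + 1) ((r - 1) • (Y (i + 1) - Y i) *ᵥ z) η Y n).charpoly = (Y n).charpoly ∧
    fX d n (bump (i + 1) ((r - 1) • (Y (i + 1) - Y i) *ᵥ z) η Y) = fX d n Y * r ^ d.b i := by
  have hu := W.smul_mem (r - 1) hz
  have c := hk (i + 1) i.lt_succ_self hi
  have cp := charpoly_bump c hu hη
  have dt := fun l (hl : l < n) => clean_det h hi hk hz hη h1 hl (r := r) rfl
  refine ⟨⟨fun l hl => ?_, ?_, fun l hl μ hμ => ?_, fun l hl => ?_, ?_⟩, cp n, ?_⟩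
  · rw [bump_ne (by omega)]
    exact h.1 l hl
  · rw [bump_ne (by omega)]
    exact h.2.comp
  · rw [cp]
    exact h.2.pt l hl μ hμ
  · rw [dt l hl]
    refine mul_ne_zero (h.2.lk l hl) ?_
    split_ifs
    exacts [hr, one_ne_zero]
  · rcases eq_or_ne n (i + 1) with rfl | e
    · rw [bump_self, c.det_add_one h.2.top hu hη]
      exact h.2.top
    · rw [bump_ne e]
      exact h.2.top
  · have e : r ^ d.b i = ∏ l ∈ Finset.range n, (if l = i then r else 1) ^ d.b l := by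
      rw [Finset.prod_eq_single_of_mem i (Finset.mem_range.2 hi) fun l _ e => by
        rw [if_neg e, _root_.one_zpow], if_pos rfl]
    rw [e, fX, fX, ← Finset.prod_mul_distrib]
    refine Finset.prod_congr rfl fun l hl => ?_
    rw [cp, dt l (Finset.mem_range.1 hl), mul_zpow, mul_assoc]

end Alg

variable {P : Pt k} {T : PC P} {C : ((Xv d n w).over T).Cond} (hC : ((Xv d n w).over T).Conv C)
  {W : Fm w ((Xv d n w).over T)}

theorem uzero_clean (hb : ∀ i < n, χ.ψ (d.b i) ≠ 1)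
    (hW : RegG (((Xv d n w).over T).restr C hC) W)
    (top : ∀ ⦃K⦄ x, (((Xv d n w).over T).restr C hC).L (K := K) x → Keeps (x.1 n) (W x))
    (ne : ∀ ⦃K⦄ x, (((Xv d n w).over T).restr C hC).L (K := K) x →
      ∃ i < n, ¬ Keeps (x.1 i) (W x))
    (st : ∀ ⦃K : Fld k⦄ (x : ((Xv d n w).over T).X K) (i : ℕ) (u η : Fin w → K),
      (((Xv d n w).over T).restr C hC).L x → i < n → (∀ l, i < l → l ≤ n → Keeps (x.1 l) (W x)) →
      u ∈ W x → Perp η (W x) → ((Xv d n w).over T).L (bump (i + 1) u η x.1, x.2) →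
      C (bump (i + 1) u η x.1, x.2) ∧ W (bump (i + 1) u η x.1, x.2) = W x) :
    UZero ((((Xv d n w).over T).restr C hC).E χ) := by
  classical
  refine uzero_of_patterns (Z := fun (l : Fin n) _ x => Keeps (x.1 l) (W x))
    (fun l _ _ φ x y a b r c => keeps_of_gr (hW φ x y a b r) (r.1 l) c) fun A => ?_
  by_cases hA : ∀ l, l ∈ A
  · refine uzero_empty fun _ x a => ?_
    obtain ⟨i, hi, c⟩ := ne x a.1
    exact c ((a.2 ⟨i, hi⟩).2 (hA _))
  obtain ⟨i, h0, hm⟩ := Set.exists_max_image Aᶜ id (Set.toFinite _) (not_forall.1 hA)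
  have hk : ∀ ⦃K : Fld k⦄ (x : ((Xv d n w).over T).X K),
      (((Xv d n w).over T).restr C hC).L x → (∀ l : Fin n, Keeps (x.1 l) (W x) ↔ l ∈ A) →
      ∀ l : ℕ, i < l → l ≤ n → Keeps (x.1 l) (W x) := fun _ x a b l l1 l2 => by
    rcases l2.eq_or_lt with e | l3
    · exact e ▸ top x a
    · exact (b ⟨l, l3⟩).2 (not_not.1 fun c => (Nat.not_le.2 l1) (hm ⟨l, l3⟩ c))
  refine Rank.uzero (hb i i.2) (U := fun _ x => im (x.1 (i + 1) - x.1 i)⁻¹ (W x)) (Z := W)
    (mv := fun _ r z η x => (bump (i + 1) ((r - 1) • (x.1 (i + 1) - x.1 i) *ᵥ z) η x.1, x.2))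
    ⟨fun _ _ φ x y a b r => ?_, fun _ _ φ x y a b r => sr_of_gr (hW φ x y a.1 b.1 r),
      fun _ x a c => h0 ((a.2 i).1 ?_), fun _ z η x _ => ?_, fun _ r z η x hr a hz hη h1 => ?_,
      fun _ _ φ r r' z η z' η' x y hr hz hη _ _ c => ⟨mr_bump c.1 (Place.VR.smul
        (hr.sub φ.one) (((c.1 _).sub (c.1 _)).mulVec hz)) hη, c.2⟩⟩
  · exact (sr_of_gr (hW φ x y a.1 b.1 r)).im
      (((r.1 _).sub (r.1 _)).inv (b.1.1.1.1.2.lk i i.2))
  · have := (hk x a.1 a.2 _ (Nat.lt_succ_self _) i.2).sub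
      (Keeps.of_inv (im_le.1 c) (a.1.1.1.1.2.lk i i.2))
    rwa [sub_sub_cancel] at this
  · rw [sub_self, zero_smul, bump_zero]
  · have d0 := a.1.1.1.1.2.lk i i.2
    have kp := hk x a.1 a.2
    have hz' := (mem_im_inv d0).1 hz
    have hu := (W x).smul_mem (r - 1) hz'
    obtain ⟨s1, s2, s3⟩ := clean_spec a.1.1.1.1 i.2 kp hz' hη h1 hr
    have l1 : ((Xv d n w).over T).L
        (bump (i + 1) ((r - 1) • (x.1 (i + 1) - x.1 i) *ᵥ z) η x.1, x.2) := by
      refine ⟨⟨s1, a.1.1.1.2⟩, ?_⟩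
      have := a.1.1.2
      dsimp only at this ⊢
      rwa [s2]
    obtain ⟨t1, t2⟩ := st x i _ η a.1 i.2 kp hu hη l1
    have d1 := s1.2.lk i i.2
    refine ⟨⟨⟨l1, t1⟩, fun l => ?_⟩, ?_, t2, ?_, Prod.ext (bump_inv h1 hr rfl) rfl⟩
    · dsimp only
      rw [t2, keeps_bump (kp _ (Nat.lt_succ_self _) i.2) hu]
      exact a.2 l
    · dsimp only
      rw [bump_lk] at d1
      rw [t2, bump_lk, im_inv_add d0 d1 hu]
    · dsimp only
      rw [s3, mul_right_comm]

end

end Pool.Agent.Lib.MP_fc2ced_ag.T.C
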