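import Pool.Agent.Lib.MP_fc2ced_ag.G.Hb
import Pool.Agent.Lib.MP_fc2ced_ag.G.Tw

/-! Towers of varieties that are parts of tensor powers. -/

open CategoryTheory Function Polynomial

namespace Pool.Agent.Lib.MP_fc2ced_ag.T.C

open K

noncomputable section

variable {k : Type} [Field k] {F : Type} [Field F] {χ : Chr k F}

open MP_fc2ced_ag.T.Pt hiding X
open G (Nm)

/-- A variety with `w` eigenvalues. -/
@[reducible] def evV (A : Pt k) {w : ℕ} (ev : ∀ ⦃K⦄, A.X K → Fin w → K)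
    (h : ∀ a, A.RegF fun _ x => ev x a) : PV k where
  S := A
  c _ x m := chiA (fun a (_ : Fin 1) => ev x a) m
  hc m _ _ φ x y a b r := Place.PR.chiA (fun c _ => h c φ x y a b r) m

variable (k) in
/-- The data of a tower. -/
structure Tow where
  A : ℕ → Pt k
  ev : ∀ w ⦃K⦄, (A w).X K → Fin w → K
  hev : ∀ w a, (A w).RegF fun _ x => ev w x a
  ne : ∀ w ⦃K⦄ (x : (A w).X K), (A w).L x → ∀ a, ev w x a ≠ 0
  pm : ∀ {w}, Equiv.Perm (Fin w) → ∀ ⦃K⦄, (A w).X K → (A w).X K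
  pm_reg : ∀ {w} (σ : Equiv.Perm (Fin w)), (A w).Reg (A w) (pm σ)
  pm_f : ∀ {w} (σ : Equiv.Perm (Fin w)) ⦃K⦄ (x : (A w).X K), (A w).L x →
    (A w).f (pm σ x) = (A w).f x
  pm_one : ∀ {w} ⦃K⦄ (x : (A w).X K), pm 1 x = x
  pm_mul : ∀ {w} (σ τ : Equiv.Perm (Fin w)) ⦃K⦄ (x : (A w).X K), pm (σ * τ) x = pm σ (pm τ x)
  ev_pm : ∀ {w} (σ : Equiv.Perm (Fin w)) ⦃K⦄ (x : (A w).X K) (a : Fin w),
    ev w (pm σ x) a = ev w x (σ.symm a)
  X : ℕ → PV k
  good : ∀ w ⦃K⦄ (x : (X w).S.X K), (X w).S.L x → GoodP w ((X w).c x w)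
  M : ℕ → ℕ → Pt k
  q : ∀ w ⦃K⦄, (A w).X K → (X w).S.X K
  pq : ∀ w, PMap (evV (A w) (ev w) (hev w)) (X w) {w} (q w)
  lq : ∀ w ⦃K⦄ (x : (A w).X K), (A w).L x → (X w).S.L (q w x)
  qq : ∀ j l ⦃K⦄, ((X j).S.X K × (X l).S.X K) × (M j l).X K → (X (j + l)).S.X K
  pqq : ∀ j l, 0 < j → 0 < l →
    PMap (((X j).ten j (X l)).tw (M j l)) (X (j + l)) {j + l} (qq j l)
  lqq : ∀ j l, 0 < j → 0 < l → ∀ ⦃K⦄ (x : ((X j).S.X K × (X l).S.X K) × (M j l).X K),
    (((X j).ten j (X l)).tw (M j l)).S.L x → (X (j + l)).S.L (qq j l x)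
  ka : ∀ j l ⦃K⦄, (A (j + l)).X K → ((A j).X K × (A l).X K) × (M j l).X K
  mka : ∀ j l, IsMap (A (j + l)) (((A j).prod (A l)).prod (M j l)) (ka j l)
  lka : ∀ j l ⦃K⦄ (x : (A (j + l)).X K), (A (j + l)).L x →
    (((A j).prod (A l)).prod (M j l)).L (ka j l x)
  ika : ∀ j l ⦃K⦄ (x x' : (A (j + l)).X K), (A (j + l)).L x → (A (j + l)).L x' →
    ka j l x = ka j l x' → x = x'
  ska : ∀ j l ⦃K⦄ (y : ((A j).X K × (A l).X K) × (M j l).X K),
    (((A j).prod (A l)).prod (M j l)).L y → ∃ x, (A (j + l)).L x ∧ ka j l x = y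
  ev_ka : ∀ j l ⦃K⦄ (x : (A (j + l)).X K),
    (ev j (ka j l x).1.1, ev l (ka j l x).1.2) = G.cut j l (ev (j + l) x)
  ka_pm : ∀ j l (σ : Equiv.Perm (Fin j)) (τ : Equiv.Perm (Fin l)) ⦃K⦄ (x : (A (j + l)).X K),
    ka j l (pm (ProdAux.pp σ τ) x) =
      ((pm σ (ka j l x).1.1, pm τ (ka j l x).1.2), (ka j l x).2)
  d : ℕ

namespace Tow

variable (D : Tow k) {w : ℕ} {P : Pt k}

/-- The source with its polynomials. -/
abbrev Av (w : ℕ) : PV k := evV (D.A w) (D.ev w) (D.hev w)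

/-- Two blocks of the source. -/
abbrev Bv (j l : ℕ) : PV k := ((D.Av j).ten j (D.Av l)).tw (D.M j l)

/-- Two blocks of the target. -/
abbrev Zv (j l : ℕ) : PV k := ((D.X j).ten j (D.X l)).tw (D.M j l)

variable (χ)

/-- The permutations. -/
abbrev op (T : PC P) (σ : Equiv.Perm (Fin w)) :
    ((D.Av w).over T).E χ ⟶ ((D.Av w).over T).E χ := ov χ (D.Av w) (D.Av w) T (D.pm σ)

variable (w) in
/-- The map from the source to the target. -/
abbrev oq (T : PC P) : ((D.Av w).over T).E χ ⟶ ((D.X w).over T).E χ :=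
  ov χ (D.Av w) (D.X w) T (D.q w)

variable (w) in
/-- The idempotent of a Young subgroup. -/
abbrev eI (I : Finset ℕ) (T : PC P) : ((D.Av w).over T).E χ ⟶ ((D.Av w).over T).E χ :=
  ∑ σ ∈ yS w I, yR F D.d w I σ • D.op χ T σ

/-- The map is an eigenvector for the permutation `σ`. -/
def Ha (T : PC P) (σ : Equiv.Perm (Fin w)) : Prop :=
  Null (D.op χ T σ ≫ D.oq χ w T - eps F D.d w σ • D.oq χ w T)

variable (w) in
/-- The map identifies the target with the image of the idempotent. -/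
def Hb (T : PC P) : Prop := Quo (𝟙 _) (D.oq χ w T) (D.eI χ w ∅ T)

/-- The map factors through two blocks. -/
def Fac : Prop := ∀ (j l : ℕ) (P : Pt k) (T : PC P), 0 < j → 0 < l → T.Dep {j + l} →
  Null (D.oq χ (j + l) T - ov χ (D.Av (j + l)) (D.Bv j l) T (D.ka j l) ≫
    ov χ (D.Bv j l) (D.Zv j l) T (fun _ x => ((D.q j x.1.1, D.q l x.1.2), x.2)) ≫
    ov χ (D.Zv j l) (D.X (j + l)) T (D.qq j l))

/-- Only the blocks given by the generalized eigenspace count. -/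
def Clean : Prop := ∀ (j l : ℕ) (P : Pt k) (T : PC P) (t : ∀ ⦃K⦄, P.X K → K) (ht : P.RegF t),
  0 < j → 0 < l → T.Dep {j + l} →
  (∀ ⦃K : Fld k⦄ (c : ℕ → K[X]) (p : P.X K), GoodP (j + l) (c (j + l)) → P.L p → T.T c p →
    (c (j + l)).rootMultiplicity (t p) = j) →
  UIso ((EigA.isMap_gen j T ht (D.Zv j l)).hom χ ≫ ov χ (D.Zv j l) (D.X (j + l)) T (D.qq j l))

variable {χ D} {T : PC P} {I : Finset ℕ} {σ τ : Equiv.Perm (Fin w)} {j l : ℕ}

theorem pend_pm (h : σ ∈ Young w I) : PEnd (D.Av w) (JI w I) (D.pm σ) := by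
  refine ⟨⟨IsMap.of_inv (D.pm_reg σ) (D.pm_reg σ⁻¹) (fun _ x a => D.pm_f σ x a)
    fun _ x _ => by rw [← D.pm_mul, inv_mul_cancel, D.pm_one], fun _ x _ _ m hm => ?_⟩,
    (D.pm_reg σ).live⟩
  change chiA (fun a (_ : Fin 1) => D.ev w (D.pm σ x) a) m =
    chiA (fun a (_ : Fin 1) => D.ev w x a) m
  unfold chiA
  refine Finset.prod_equiv σ.symm (fun c => ?_) fun c _ => by simp only [D.ev_pm]
  simp only [Finset.mem_filter, Finset.mem_univ, true_and]
  rcases hm with hm | rfl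
  · exact ((Young w I).inv_mem h m hm c).symm
  · exact iff_of_true c.2 (σ.symm c).2

theorem pend_top (σ : Equiv.Perm (Fin w)) : PEnd (D.Av w) {w} (D.pm σ) :=
  have h : PEnd (D.Av w) (JI w ∅) (D.pm σ) :=
    pend_pm (by rw [young_empty]; exact Subgroup.mem_top σ)
  ⟨h.toPMap.mono fun _ hm => Or.inr hm, h.live⟩

theorem op_one : D.op χ T (1 : Equiv.Perm (Fin w)) = 𝟙 _ := ov_id fun _ x _ => D.pm_one x

theorem op_mul (hT : T.Dep (JI w I)) (h : σ ∈ Young w I) (h' : τ ∈ Young w I) :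
    D.op χ T (σ * τ) = D.op χ T τ ≫ D.op χ T σ :=
  ((pend_pm h').toPMap.ov_comp (pend_pm h).toPMap hT (pend_pm ((Young w I).mul_mem h h')).toPMap
    (fun _ x a _ => (pend_pm h').live x a) fun _ x _ _ => (D.pm_mul σ τ x).symm).symm

theorem op_eI [CharZero F] (hT : T.Dep (JI w I)) (h : σ ∈ Young w I) :
    D.op χ T σ ≫ D.eI χ w I T = eps F D.d w σ • D.eI χ w I T := by
  rw [Preadditive.comp_sum, Finset.smul_sum]
  refine Finset.sum_equiv (Equiv.mulRight σ) (fun τ => ?_) fun τ hτ => ?_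
  · rw [GeoAux.mem_yS, GeoAux.mem_yS]
    exact ((Young w I).mul_mem_cancel_right h).symm
  · rw [Linear.comp_smul, ← op_mul hT (GeoAux.mem_yS.1 hτ) h, smul_smul]
    congr 1
    simp only [yR, Equiv.coe_mulRight, map_mul]
    linear_combination (-(Nat.card (Young w I) : F)⁻¹ * eps F D.d w τ) *
      eps_mul_self (F := F) (n := D.d) σ

theorem eI_idem [CharZero F] (hT : T.Dep (JI w I)) :
    D.eI χ w I T ≫ D.eI χ w I T = D.eI χ w I T := by
  rw [Preadditive.sum_comp, Finset.sum_congr rfl fun σ hσ => by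
    rw [Linear.smul_comp, op_eI hT (GeoAux.mem_yS.1 hσ), smul_smul], ← Finset.sum_smul,
    GeoAux.sum_yR, one_smul]

theorem pka (j l : ℕ) : PMap (D.Av (j + l)) (D.Bv j l) Set.univ (D.ka j l) := by
  refine ⟨D.mka j l, fun _ x _ _ m _ => ?_⟩
  have h := D.ev_ka j l x
  change gl j (chiA fun a (_ : Fin 1) => D.ev j (D.ka j l x).1.1 a)
    (chiA fun a (_ : Fin 1) => D.ev l (D.ka j l x).1.2 a) m =
    chiA (fun a (_ : Fin 1) => D.ev (j + l) x a) m
  rw [(Prod.mk.inj h).1, (Prod.mk.inj h).2]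
  exact G.gl_cut (fun a (_ : Fin 1) => D.ev (j + l) x a) m

theorem uiso_ka (j l : ℕ) (T : PC P) :
    UIso (ov χ (D.Av (j + l)) (D.Bv j l) T (D.ka j l)) :=
  ((pka j l).ov_bij (fun _ _ _ _ h h' => (funext fun m => h m trivial) ▸ h') (D.lka j l)
    (D.ika j l) (D.ska j l)).uiso

section HaB
variable {V V' W W' : PV k} {J J' : Set ℕ} {m : ℕ} {e : ∀ ⦃K⦄, V.S.X K → V'.S.X K}
  {e' : ∀ ⦃K⦄, W.S.X K → W'.S.X K} {c : F}

theorem hab_left {a : ∀ ⦃K⦄, V.S.X K → V.S.X K} (hT : T.Dep (addJ m J J')) (hm : m ∈ J)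
    (he : PMap V V' J e) (he' : PMap W W' J' e') (ha : PMap V V J a)
    (h : Null (ov χ V V (T.left m W) a ≫ ov χ V V' (T.left m W) e -
      c • ov χ V V' (T.left m W) e)) :
    Null (ov χ (V.ten m W) (V.ten m W) T (fun _ x => (a x.1, x.2)) ≫
      ov χ (V.ten m W) (V'.ten m W') T (fun _ x => (e x.1, e' x.2)) -
      c • ov χ (V.ten m W) (V'.ten m W') T fun _ x => (e x.1, e' x.2)) := by
  rw [← TenAux.split₂ hT hm he he', ← Category.assoc, ← Linear.smul_comp, ← Preadditive.sub_comp]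
  refine Null.comp (.of_comp_uiso (TenAux.uiso_l V' W m T) ?_) _
  rw [Preadditive.sub_comp, Linear.smul_comp, Category.assoc, ← TenAux.comm_l hT hm he,
    ← Category.assoc, ← TenAux.comm_l hT hm ha, Category.assoc, ← Linear.comp_smul,
    ← Preadditive.comp_sub]
  exact h.precomp _

theorem hab_right {a : ∀ ⦃K⦄, W.S.X K → W.S.X K} (hT : T.Dep (addJ m J J')) (hm : m ∈ J)
    (he : PMap V V' J e) (he' : PMap W W' J' e') (ha : PMap W W J' a)
    (h : Null (ov χ W W (T.right m V) a ≫ ov χ W W' (T.right m V) e' -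
      c • ov χ W W' (T.right m V) e')) :
    Null (ov χ (V.ten m W) (V.ten m W) T (fun _ x => (x.1, a x.2)) ≫
      ov χ (V.ten m W) (V'.ten m W') T (fun _ x => (e x.1, e' x.2)) -
      c • ov χ (V.ten m W) (V'.ten m W') T fun _ x => (e x.1, e' x.2)) := by
  rw [← TenAux.split₁ hT hm he he', ← Category.assoc, ← Linear.smul_comp, ← Preadditive.sub_comp]
  refine Null.comp (.of_comp_uiso (TenAux.uiso_r V W' m T) ?_) _
  rw [Preadditive.sub_comp, Linear.smul_comp, Category.assoc, ← TenAux.comm_r hT hm he',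
    ← Category.assoc, ← TenAux.comm_r hT hm ha, Category.assoc, ← Linear.comp_smul,
    ← Preadditive.comp_sub]
  exact h.precomp _

theorem hab_tw {a : ∀ ⦃K⦄, V.S.X K → V.S.X K} (M : Pt k) (hT : T.Dep J) (he : PMap V V' J e)
    (ha : PMap V V J a)
    (h : Null (ov χ V V (T.tw M) a ≫ ov χ V V' (T.tw M) e - c • ov χ V V' (T.tw M) e)) :
    Null (ov χ (V.tw M) (V.tw M) T (fun _ x => (a x.1, x.2)) ≫
      ov χ (V.tw M) (V'.tw M) T (fun _ x => (e x.1, x.2)) -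
      c • ov χ (V.tw M) (V'.tw M) T fun _ x => (e x.1, x.2)) := by
  refine .of_comp_uiso (bij_tw V' M T).uiso ?_
  rw [Preadditive.sub_comp, Linear.smul_comp, Category.assoc, ← he.comm_tw M hT,
    ← Category.assoc, ← ha.comm_tw M hT, Category.assoc, ← Linear.comp_smul,
    ← Preadditive.comp_sub]
  exact h.precomp _

end HaB

theorem hab_sub (h1 : 0 < l) : ({j + l} : Set ℕ) ⊆ addJ j {j} {l} := by
  rintro _ rfl
  exact .inr ⟨by omega, Nat.add_sub_cancel_left j l⟩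

theorem hab_of (hf : D.Fac χ) (h0 : 0 < j) (h1 : 0 < l) (hT : T.Dep {j + l})
    {ρ : Equiv.Perm (Fin (j + l))}
    {a : ∀ ⦃K⦄, (D.A j).X K × (D.A l).X K → (D.A j).X K × (D.A l).X K}
    (pa : PMap ((D.Av j).ten j (D.Av l)) ((D.Av j).ten j (D.Av l)) (addJ j {j} {l}) a)
    (he : ∀ ⦃K⦄ (x : (D.A (j + l)).X K),
      D.ka j l (D.pm ρ x) = (a (D.ka j l x).1, (D.ka j l x).2))
    (h : Null (ov χ ((D.Av j).ten j (D.Av l)) ((D.Av j).ten j (D.Av l)) (T.tw (D.M j l)) a ≫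
      ov χ ((D.Av j).ten j (D.Av l)) ((D.X j).ten j (D.X l)) (T.tw (D.M j l))
        (fun _ x => (D.q j x.1, D.q l x.2)) - eps F D.d (j + l) ρ •
      ov χ ((D.Av j).ten j (D.Av l)) ((D.X j).ten j (D.X l)) (T.tw (D.M j l))
        fun _ x => (D.q j x.1, D.q l x.2))) : D.Ha χ T ρ := by
  have h2 := hab_tw (D.M j l) (hT.mono (hab_sub h1)) ((D.pq j).ten (D.pq l) rfl) pa h
  have h3 := hf j l P T h0 h1 hT
  have h4 : D.op χ T ρ ≫ ov χ (D.Av (j + l)) (D.Bv j l) T (D.ka j l) =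
      ov χ (D.Av (j + l)) (D.Bv j l) T (D.ka j l) ≫
        ov χ (D.Bv j l) (D.Bv j l) T fun _ x => (a x.1, x.2) :=
    PMap.ov_comm (pend_top ρ).toPMap ((pka j l).mono (Set.subset_univ _))
      ((pka j l).mono (Set.subset_univ _)) ((pa.tw _).mono (hab_sub h1)) hT
      (fun _ x hx => have h5 := (pend_top (D := D) ρ).live x hx
        iff_of_true ⟨h5, D.lka j l _ h5⟩ ⟨D.lka j l x hx, he x ▸ D.lka j l _ h5⟩)
      fun _ x _ _ _ => he x
  have h5 := ((h3.precomp (D.op χ T ρ)).sub (h3.smul (eps F D.d (j + l) ρ))).add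
    ((h2.comp (ov χ (D.Zv j l) (D.X (j + l)) T (D.qq j l))).precomp
      (ov χ (D.Av (j + l)) (D.Bv j l) T (D.ka j l)))
  rw [Preadditive.comp_sub, smul_sub, Preadditive.sub_comp, Preadditive.comp_sub,
    Linear.smul_comp, Linear.comp_smul, ← Category.assoc (D.op χ T ρ), h4, Category.assoc,
    Category.assoc] at h5
  rw [Ha]
  convert h5 using 1
  abel

theorem hab_simple (hf : D.Fac χ)
    (two : ∀ (P : Pt k) (T : PC P), T.Dep {2} → D.Ha χ T (Equiv.swap (0 : Fin 2) 1))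
    (a b : Fin w) (h : (b : ℕ) = a + 1) :
    ∀ (P : Pt k) (T : PC P), T.Dep {w} → D.Ha χ T (Equiv.swap a b) := by
  induction w using Nat.strong_induction_on with
  | _ w ih =>
  intro P T hT
  have hb := b.2
  by_cases h1 : (b : ℕ) + 1 < w
  · obtain ⟨j, rfl⟩ : ∃ j, w = j + 1 := ⟨w - 1, by omega⟩
    obtain ⟨a', rfl⟩ : ∃ a' : Fin j, a = Fin.castAdd 1 a' := ⟨⟨a, by omega⟩, rfl⟩
    obtain ⟨b', rfl⟩ : ∃ b' : Fin j, b = Fin.castAdd 1 b' := ⟨⟨b, by omega⟩, rfl⟩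
    have d := (hT.mono (hab_sub (j := j) one_pos)).tw (D.M j 1)
    rw [ProdAux.swap_left]
    refine hab_of hf a'.pos one_pos hT (a := fun _ x => (D.pm (Equiv.swap a' b') x.1, x.2))
      ((pend_top _).toPMap.ten pmap_id rfl) (fun _ x => by rw [D.ka_pm, D.pm_one]) ?_
    rw [ProdAux.eps_pp, map_one, mul_one]
    exact hab_left d rfl (D.pq j) (D.pq 1) (pend_top _).toPMap
      (ih j j.lt_succ_self a' b' h _ _ (TenAux.dep_left d rfl))
  by_cases h2 : 2 < w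
  · obtain ⟨l, rfl⟩ : ∃ l, w = 1 + l := ⟨w - 1, by omega⟩
    obtain ⟨a', rfl⟩ : ∃ a' : Fin l, a = Fin.natAdd 1 a' :=
      ⟨⟨a - 1, by omega⟩, Fin.ext (by simp only [Fin.val_natAdd]; omega)⟩
    obtain ⟨b', rfl⟩ : ∃ b' : Fin l, b = Fin.natAdd 1 b' :=
      ⟨⟨b - 1, by omega⟩, Fin.ext (by simp only [Fin.val_natAdd]; omega)⟩
    simp only [Fin.val_natAdd] at h
    have d := (hT.mono (hab_sub (j := 1) a'.pos)).tw (D.M 1 l)
    rw [ProdAux.swap_right]
    refine hab_of hf one_pos a'.pos hT (a := fun _ x => (x.1, D.pm (Equiv.swap a' b') x.2))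
      (pmap_id.ten (pend_top _).toPMap rfl) (fun _ x => by rw [D.ka_pm, D.pm_one]) ?_
    rw [ProdAux.eps_pp, map_one, one_mul]
    exact hab_right d rfl (D.pq 1) (D.pq l) (pend_top _).toPMap
      (ih l (by omega) a' b' (by omega) _ _ (TenAux.dep_right d rfl))
  obtain rfl : w = 2 := by omega
  obtain rfl : a = 0 := Fin.ext (by simp only [Fin.val_zero]; omega)
  obtain rfl : b = 1 := Fin.ext (by simp only [Fin.val_one]; omega)
  exact two P T hT

/-- The eigenvector property follows from the case of two strands. -/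
theorem ha (hf : D.Fac χ)
    (two : ∀ (P : Pt k) (T : PC P), T.Dep {2} → D.Ha χ T (Equiv.swap (0 : Fin 2) 1))
    (hT : T.Dep {w}) (σ : Equiv.Perm (Fin w)) : D.Ha χ T σ := by
  refine young_induction (I := ∅) (p := fun σ => D.Ha χ T σ) ?_ (fun a b σ h hb hσ ih => ?_) σ
    (young_empty w ▸ Subgroup.mem_top _)
  · rw [Ha, op_one, map_one, one_smul, Category.id_comp, sub_self]
    exact .zero
  · have h2 := ((hab_simple hf two a b h P T hT).precomp (D.op χ T σ)).add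
      (Null.smul (eps F D.d w (Equiv.swap a b)) ih)
    rw [Ha, op_mul (HaAux.JI_empty (w := w) ▸ hT) (swap_mem_young h hb) hσ, map_mul,
      Category.assoc]
    convert h2 using 1
    rw [Preadditive.comp_sub, Linear.comp_smul, smul_sub, smul_smul, sub_add_sub_cancel]

variable [CharZero F]

omit [CharZero F] in
theorem tc_roof (w : ℕ) : IsRoof χ {w} (D.Av w) (D.Av w) (D.X w) (fun _ x => x) (D.q w) :=
  ⟨pmap_id, D.pq w, D.lq w, fun _ _ _ => by
    rw [ov_id (V := D.Av w) (a := fun _ x => x) fun _ _ _ => rfl]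
    exact .id⟩

omit [CharZero F] in
theorem tc_sub (h1 : 0 < l) : JI (j + l) {j} ⊆ addJ j {j} {l} := by
  rintro m (h | rfl)
  · rw [Finset.mem_singleton.1 h]
    exact .inl ⟨le_rfl, rfl⟩
  · exact .inr ⟨by omega, by simp⟩

omit [CharZero F] in
theorem tc_pq (j l : ℕ) : PMap (D.Bv j l) (D.Zv j l) (addJ j {j} {l})
    fun _ x => ((D.q j x.1.1, D.q l x.1.2), x.2) :=
  ((D.pq j).ten (D.pq l) rfl).tw _

omit [CharZero F] in
theorem tc_sq (h1 : 0 < l) (hT : T.Dep (JI (j + l) {j})) (σ : Equiv.Perm (Fin j))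
    (τ : Equiv.Perm (Fin l)) :
    D.op χ T (ProdAux.pp σ τ) ≫ ov χ (D.Av (j + l)) (D.Bv j l) T (D.ka j l) =
      ov χ (D.Av (j + l)) (D.Bv j l) T (D.ka j l) ≫ ov χ (D.Bv j l) (D.Bv j l) T
        fun _ x => ((D.pm σ x.1.1, D.pm τ x.1.2), x.2) := by
  have m : ProdAux.pp σ τ ∈ Young (j + l) {j} := ProdAux.pp_mem.2
    ⟨fun i hi => by have := mem_lowI.1 hi; simp only [Finset.mem_singleton] at this; omega,
      fun i hi => by have := mem_uppI.1 hi; simp only [Finset.mem_singleton] at this; omega⟩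
  have p := pend_pm (D := D) m
  refine PMap.ov_comm p.toPMap ((pka j l).mono (Set.subset_univ _))
    ((pka j l).mono (Set.subset_univ _))
    ((((pend_top σ).toPMap.ten (pend_top τ).toPMap rfl).tw _).mono (tc_sub h1)) hT
    (fun K x hx => iff_of_true ⟨p.live x hx, D.lka j l _ (p.live x hx)⟩ ⟨D.lka j l x hx, ?_⟩)
    fun K x _ _ _ => D.ka_pm j l σ τ x
  have := D.lka j l _ (p.live x hx)
  rwa [D.ka_pm] at this

theorem tc_kills (ha : ∀ σ : Equiv.Perm (Fin w), D.Ha χ T σ) :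
    Kills (𝟙 _) (D.oq χ w T) (D.eI χ w ∅ T - 𝟙 _) := by
  have e : D.eI χ w ∅ T - 𝟙 _ = ∑ σ ∈ yS w ∅, yR F D.d w ∅ σ •
      (D.op χ T σ - eps F D.d w σ • 𝟙 _) := by
    simp only [smul_sub, smul_smul, Finset.sum_sub_distrib, ← Finset.sum_smul, GeoAux.sum_yR,
      one_smul]
  rw [e]
  refine Kills.sum fun σ _ => Kills.smul (fun Θ α hα => ?_) _
  rw [Θ.Φ.map_id, Category.id_comp] at hα
  rw [hα, ← Θ.Φ.map_comp, Preadditive.sub_comp, Linear.smul_comp, Category.id_comp]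
  exact ha σ Θ

/-- The product of two blocks. -/
theorem quo_ten (h0 : 0 < j) (h1 : 0 < l)
    (hj : ∀ (P : Pt k) (T : PC P), T.Dep {j} → D.Hb χ j T)
    (hl : ∀ (P : Pt k) (T : PC P), T.Dep {l} → D.Hb χ l T) (hT : T.Dep (JI (j + l) {j})) :
    Quo (𝟙 _) (ov χ (D.Av (j + l)) (D.Bv j l) T (D.ka j l) ≫
      ov χ (D.Bv j l) (D.Zv j l) T fun _ x => ((D.q j x.1.1, D.q l x.1.2), x.2))
      (D.eI χ (j + l) {j} T) := by
  have _ := h0
  have hT' := hT.mono (tc_sub h1)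
  have top {w : ℕ} (σ : Equiv.Perm (Fin w)) : σ ∈ Young w ∅ := young_empty w ▸ Subgroup.mem_top _
  have U {w : ℕ} (h : ∀ (P : Pt k) (T : PC P), T.Dep {w} → D.Hb χ w T) :
      UQuo χ {w} (D.Av w) (D.Av w) (D.X w) (fun _ x => x) (D.q w) (yS w ∅) (yR F D.d w ∅)
        fun σ => D.pm σ := fun P T d => by
    rw [ov_id (V := D.Av w) (a := fun _ x => x) fun _ _ _ => rfl]
    exact h P T d
  have Q := UQuo.ten (tc_roof j) (tc_roof l) rfl (fun g _ => pend_top g) (fun g _ => pend_top g)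
    (U hj) (U hl) _ _ (hT'.tw (D.M j l))
  rw [ov_id (V := (D.Av j).ten j (D.Av l)) (a := fun _ x => (x.1, x.2)) fun _ _ _ => rfl] at Q
  have e1 : lowI j {j} = ∅ := Finset.eq_empty_of_forall_notMem fun i hi => by
    have := mem_lowI.1 hi
    simp only [Finset.mem_singleton] at this
    omega
  have e2 : uppI j {j} = ∅ := Finset.eq_empty_of_forall_notMem fun i hi => by
    have := mem_uppI.1 hi
    simp only [Finset.mem_singleton] at this
    omega
  have m1 : ∀ g ∈ yS j ∅ ×ˢ yS l ∅, ProdAux.pp g.1 g.2 ∈ yS (j + l) {j} := fun g _ =>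
    ProdAux.mem_yS.2 (ProdAux.pp_mem.2 ⟨e1 ▸ top _, e2 ▸ top _⟩)
  have m2 : ∀ g ∈ yS j ∅ ×ˢ yS l ∅, ∀ g' ∈ yS j ∅ ×ˢ yS l ∅,
      ProdAux.pp g.1 g.2 = ProdAux.pp g'.1 g'.2 → g = g' := fun g _ g' _ e =>
    Prod.ext (ProdAux.pp_inj e).1 (ProdAux.pp_inj e).2
  have m3 : ∀ σ ∈ yS (j + l) {j}, ∃ g, ∃ _ : g ∈ yS j ∅ ×ˢ yS l ∅, ProdAux.pp g.1 g.2 = σ := by
    intro σ hσ
    obtain ⟨s, t, rfl⟩ := ProdAux.pp_surj (Finset.mem_singleton_self j) (ProdAux.mem_yS.1 hσ)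
    exact ⟨(s, t), Finset.mem_product.2 ⟨ProdAux.mem_yS.2 (top _), ProdAux.mem_yS.2 (top _)⟩, rfl⟩
  have hc : Nat.card (Young (j + l) {j}) = Nat.card (Young j ∅) * Nat.card (Young l ∅) := by
    rw [Nat.subtype_card _ fun _ => ProdAux.mem_yS, Nat.subtype_card _ fun _ => ProdAux.mem_yS,
      Nat.subtype_card _ fun _ => ProdAux.mem_yS, ← Finset.card_product]
    exact (Finset.card_bij (fun g _ => ProdAux.pp g.1 g.2) m1 m2 m3).symm
  have u := (uiso_ka (χ := χ) (D := D) j l T).comp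
    (bij_tw ((D.Av j).ten j (D.Av l)) (D.M j l) T).uiso
  refine (Quo.uiso_iff .id .id (z := _ ≫ _) ((Category.comp_id _).trans (Category.id_comp _).symm)
    ?_ u (bij_tw ((D.X j).ten j (D.X l)) (D.M j l) T).uiso ?_).2 Q
  · rw [Category.assoc, ((D.pq j).ten (D.pq l) rfl).comm_tw _ hT', Category.assoc]
  · rw [Preadditive.sum_comp, Preadditive.comp_sum]
    refine (Finset.sum_bij (fun g _ => ProdAux.pp g.1 g.2) m1 m2 m3 fun g _ => ?_).symm
    rw [Linear.smul_comp, Linear.comp_smul, ← Category.assoc, tc_sq h1 hT, Category.assoc,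
      Category.assoc, ((pend_top g.1).toPMap.ten (pend_top g.2).toPMap rfl).comm_tw _ hT']
    congr 1
    simp only [yR, hc, ProdAux.eps_pp, Nat.cast_mul, mul_inv]
    ring

open EigA in
/-- Induction from the generalized eigenspace. -/
theorem hb_gen (hf : D.Fac χ) (hc : D.Clean χ) (h0 : 0 < j) (h1 : 0 < l)
    (ha : ∀ σ : Equiv.Perm (Fin (j + l)), D.Ha χ T σ)
    (hj : ∀ (P : Pt k) (T : PC P), T.Dep {j} → D.Hb χ j T)
    (hl : ∀ (P : Pt k) (T : PC P), T.Dep {l} → D.Hb χ l T) {t : ∀ ⦃K⦄, P.X K → K}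
    (ht : P.RegF t) (hT : T.Dep {j + l})
    (h : ∀ ⦃K : Fld k⦄ (c : ℕ → K[X]) (p : P.X K), GoodP (j + l) (c (j + l)) → P.L p → T.T c p →
      (c (j + l)).rootMultiplicity (t p) = j) : D.Hb χ (j + l) T := by
  classical
  have hle : j ≤ j + l := Nat.le_add_right _ _
  have d₀ : T.Dep (JI (j + l) ∅) := hT.mono fun _ hm => .inr hm
  have d₁ : T.Dep (JI (j + l) {j}) := hT.mono fun _ hm => .inr hm
  have d' : (gen j T ht).Dep (JI (j + l) {j}) := fun _ c c' p e t =>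
    ⟨d₁ c c' p e t.1, e j (.inl (Finset.mem_singleton_self j)) ▸ t.2⟩
  have multA ⦃K : Fld k⦄ (x : ((D.Av (j + l)).over T).X K) (a : ((D.Av (j + l)).over T).L x) :
      (chiA (fun a (_ : Fin 1) => D.ev (j + l) x.1 a) (j + l)).rootMultiplicity (t x.2) = j :=
    h _ x.2 (chiA_good fun b _ => D.ne _ _ a.1.1 b) a.1.2 a.2
  have res : IsMap ((D.Av (j + l)).over T) ((D.Av (j + l)).over (gen j T ht)) fun _ x => x := by
    refine .of_open (fun K K' φ x y a b r c => ⟨a.1, a.2, (chiA_iff hle).2 fun i =>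
      (iff_of_ge hle (multA x a) (fun i e => ?_) i).1⟩)
      (.of_proper ⟨fun _ _ a => a.2, fun _ _ _ _ _ _ _ r => r⟩ (fun _ _ _ => rfl)
        fun _ _ _ _ z _ b r => ⟨z, ⟨⟨b.1, b.2.1⟩, b⟩, r⟩)
    exact (iff_of_le hle (multA y b) ((chiA_iff hle).1 c.2.2) i).2
      ((Place.prod fun _ _ => D.hev _ i φ _ _ a.1.1 b.1.1 r.1).eq_of
        (ht φ _ _ a.1.2 b.1.2 r.2) e)
  have top (σ : Equiv.Perm (Fin (j + l))) : σ ∈ Young (j + l) ∅ :=
    young_empty (j + l) ▸ Subgroup.mem_top _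
  have hY : (Nat.card (Young (j + l) {j}) : F) ≠ 0 := Nat.cast_ne_zero.2 Nat.card_pos.ne'
  have fac := hf j l P T h0 h1 hT
  refine fun Θ α hα => Quo.induce (quo_ten h0 h1 hj hl d') .id .id
    (z := (isMap_gen j T ht _).hom χ) (a := (isMap_gen j T ht _).hom χ)
    ((Category.comp_id _).trans (Category.id_comp _).symm) ?_ (hc j l P T t ht h0 h1 hT h)
    (fun Θ α hα => tc_kills ha Θ α (hα.trans (fac.map_eq Θ).symm))
    (π := (Nat.card (Young (j + l) {j}) : F)⁻¹ • ∑ σ, eps F D.d (j + l) σ •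
      D.op χ T σ ≫ res.hom χ) ?_ ?_ Θ α (hα.trans (fac.map_eq Θ))
  · rw [← Category.assoc, gen_nat ht ((pka j l).mono (Set.subset_univ _)) d₁ d', Category.assoc,
      ← Category.assoc ((isMap_gen j T ht _).hom χ),
      gen_nat ht ((tc_pq j l).mono (tc_sub h1)) d₁ d']
    simp only [Category.assoc]
  · rw [Preadditive.sum_comp, Finset.sum_congr rfl
      (g := fun _ => (Nat.card (Young (j + l) {j}) : F)⁻¹ •
      (isMap_gen j T ht _).hom χ ≫ D.eI χ (j + l) ∅ T) fun σ hσ => ?_, Finset.sum_const,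
      ← Nat.cast_smul_eq_nsmul F, smul_smul, yS, ← Fintype.card_subtype,
      ← Nat.card_eq_fintype_card, mul_inv_cancel₀ hY, one_smul]
    rw [Linear.smul_comp, ← Category.assoc,
      ← gen_nat ht (pend_pm (Finset.mem_filter.1 hσ).2).toPMap d₁ d', Category.assoc,
      op_eI d₀ (top σ), Linear.comp_smul, smul_smul, yR, mul_assoc, eps_mul_self, mul_one]
  · have hE (σ : Equiv.Perm (Fin (j + l))) := op_eI (χ := χ) (D := D) d₀ (top σ)
    generalize D.eI χ (j + l) ∅ T = E at hE ⊢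
    refine Pt.hom_ext fun K x a => ?_
    have e (σ : Equiv.Perm (Fin (j + l))) : ((eps F D.d (j + l) σ • D.op χ T σ ≫
        res.hom χ) ≫ (isMap_gen j T ht _).hom χ ≫ E).1 K (cl F _ x) =
        if chiA (MP_fc2ced_ag.T.pm σ fun a (_ : Fin 1) => D.ev (j + l) x.1 a) j =
          (Polynomial.X - C (t x.2)) ^ j then E.1 K (cl F _ x) else 0 := by
      have h1 := pend_pm (D := D) (top σ)
      have h2 : ((D.Av (j + l)).over T).L (D.pm σ x.1, x.2) :=
        ⟨⟨h1.live x.1 a.1.1, a.1.2⟩, d₀ _ _ _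
          (fun m hm => (h1.c x.1 a.1.1 (h1.live x.1 a.1.1) m hm).symm) a.2⟩
      have h5 : (MP_fc2ced_ag.T.pm σ fun a (_ : Fin 1) => D.ev (j + l) x.1 a) =
          fun a (_ : Fin 1) => D.ev (j + l) (D.pm σ x.1) a :=
        funext fun a => funext fun _ => (D.ev_pm σ x.1 a).symm
      rw [Linear.smul_comp, Ob.smul_app, LinearMap.smul_apply, Ob.comp_apply, Ob.comp_apply,
        Ob.comp_apply, h1.toPMap.ov_cl d₀ a, res.hom_cl h2, h5]
      split_ifs with h3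
      · rw [(isMap_gen j T ht (D.Av (j + l))).hom_cl (x := (D.pm σ x.1, x.2)) ⟨h2.1, h2.2, h3⟩,
          ← h1.toPMap.ov_cl d₀ a, ← Ob.comp_apply _ E, hE, Ob.smul_app, LinearMap.smul_apply,
          smul_smul, eps_mul_self, one_smul]
      · have h4 : ¬ ((D.Av (j + l)).over (gen j T ht)).L (D.pm σ x.1, x.2) :=
          fun h4 => h3 h4.2.2
        rw [cl_dead h4, LinearMap.map_zero, LinearMap.map_zero, smul_zero]
    rw [Linear.smul_comp, Preadditive.sum_comp, Ob.smul_app, Ob.sum_app, LinearMap.smul_apply,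
      LinearMap.sum_apply, Finset.sum_congr rfl fun σ _ => e σ, ← Finset.sum_filter,
      Finset.sum_const, card_sort hle (multA x a), ← Nat.cast_smul_eq_nsmul F, smul_smul,
      inv_mul_cancel₀ hY, one_smul]

/-- The roof of a tower. -/
def tcSys (w : ℕ) (ha : ∀ (P : Pt k) (T : PC P), T.Dep {w} → ∀ σ : Equiv.Perm (Fin w),
    D.Ha χ T σ) : Sys χ w where
  A := D.Av w
  Z := D.Av w
  B := D.X w
  j _ x := x
  q := D.q w
  G := Equiv.Perm (Fin w)
  s := yS w ∅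
  r := yR F D.d w ∅
  a σ := D.pm σ
  roof := tc_roof w
  pa σ _ := pend_top σ
  gA _ x h := EigA.chiA_good fun a _ => D.ne _ x h a
  gZ _ x h := EigA.chiA_good fun a _ => D.ne _ x h a
  gB := D.good w
  kills P T hT := by
    rw [ov_id (V := D.Av w) (a := fun _ x => x) fun _ _ _ => rfl]
    exact tc_kills (ha P T hT)
  idem _ _ hT := eI_idem (HaAux.JI_empty (w := w) ▸ hT)

theorem tc_at {ha : ∀ (P : Pt k) (T : PC P), T.Dep {w} → ∀ σ : Equiv.Perm (Fin w),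
    D.Ha χ T σ} : (tcSys w ha).At T ↔ D.Hb χ w T := by
  change Quo (ov χ (D.Av w) (D.Av w) T fun _ x => x) _ _ ↔ _
  rw [ov_id (V := D.Av w) (a := fun _ x => x) fun _ _ _ => rfl]
  rfl

/-- The main theorem on towers. -/
theorem hb (hf : D.Fac χ) (hc : D.Clean χ)
    (two : ∀ (P : Pt k) (T : PC P), T.Dep {2} → D.Ha χ T (Equiv.swap (0 : Fin 2) 1))
    (norm : ∀ (w : ℕ) (P : Pt k) (T : PC P), 0 < w → Nm w T → D.Hb χ w T)
    (hw : 0 < w) (hT : T.Dep {w}) : D.Hb χ w T := by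
  induction w using Nat.strong_induction_on generalizing P with
  | _ w ih =>
  refine (tc_at (ha := fun _ _ d => ha hf two d)).1 (Sys.At.of_norm hw
    (fun P T t j ht h0 hj d h => tc_at.2 ?_) (fun P T h => tc_at.2 (norm w P T hw h)) hT)
  obtain ⟨l, rfl⟩ : ∃ l, w = j + l := ⟨w - j, by omega⟩
  have h1 : 0 < l := by omega
  exact hb_gen hf hc h0 h1 (ha hf two d) (fun _ _ e => ih j hj h0 e)
    (fun _ _ e => ih l (by omega) h1 e) ht d h

end Tow

end

end Pool.Agent.Lib.MP_fc2ced_ag.T.C
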