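import Pool.Agent.Lib.MP_fc2ced_ag.C.Defs
import Pool.Agent.Lib.MP_fc2ced_ag.C.Tow

/-! The tower of chains of matrices. -/

open CategoryTheory Function Polynomial Matrix

namespace Pool.Agent.Lib.MP_fc2ced_ag.T.C

open K

noncomputable section

variable {k : Type} [Field k] {F : Type} [Field F] {χ : Chr k F} (d : Dat k) (n w j l : ℕ)

open MP_fc2ced_ag.T.Pt hiding X

theorem hev (a : Fin w) : (As d n w).RegF fun _ x => x.1 a n := fun _ _ _ _ _ _ _ r => r.1 a n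

/-- Triangular chains with the characteristic polynomials of the last matrix. -/
abbrev Aw : PV k := evV (As d n w) (fun _ x a => x.1 a n) (hev d n w)

section QAux
variable {w j l} {K : Type} [Field K] {x : (Fin w → ℕ → K) × (ℕ → Mx w K)}

theorem det_Rx_ne (v : Fin w → K) : (Rx v).det ≠ 0 := (luni_Rx v).det ▸ one_ne_zero

theorem det_Rj_ne (A : Mx j K) : (Rj j l A.charpoly).det ≠ 0 :=
  (luni_Rj A.charpoly_monic (A.charpoly_natDegree_eq_dim.trans (Fintype.card_fin j))).det ▸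
    one_ne_zero

theorem charpoly_qm' (h : ∀ i, IsNil (x.2 i)) (i : ℕ) :
    (qm x i).charpoly = ∏ a, (X - C (x.1 a i)) :=
  (charpoly_cj (det_Rx_ne _)).trans (h i).charpoly

theorem eval_qm (h : ∀ i, IsNil (x.2 i)) (i : ℕ) (t : K) :
    (qm x i).charpoly.eval t = ∏ a, (t - x.1 a i) := by
  simp only [charpoly_qm' h, eval_prod, eval_sub, eval_X, eval_C]

theorem det_qm (h : ∀ i, IsNil (x.2 i)) (i : ℕ) : (qm x i).det = ∏ a, x.1 a i :=
  (det_cj (det_Rx_ne _)).trans (h i).det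

theorem det_qm_sub' (h : ∀ i, IsNil (x.2 i)) (i i' : ℕ) :
    (qm x i' - qm x i).det = ∏ a, (x.1 a i' - x.1 a i) := by
  have e : um x i' - um x i = diagonal (fun a => x.1 a i' - x.1 a i) + (x.2 i' - x.2 i) := by
    rw [← diagonal_sub, um, um]
    abel
  have n : IsNil (x.2 i' - x.2 i) := fun a b e => by
    rw [Matrix.sub_apply, h i a b e, h i' a b e, sub_zero]
  rw [qm, qm, ← cj_sub, det_cj (det_Rx_ne _), e, n.det]

variable (y : ((ℕ → Mx j K) × (ℕ → Mx l K)) × (ℕ → Matrix (Fin j) (Fin l) K))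

theorem charpoly_qqm' (i : ℕ) :
    (qqm j l y i).charpoly = (y.1.1 i).charpoly * (y.1.2 i).charpoly :=
  (charpoly_cj (det_Rj_ne _)).trans charpoly_blk

theorem eval_qqm (i : ℕ) (t : K) :
    (qqm j l y i).charpoly.eval t = (y.1.1 i).charpoly.eval t * (y.1.2 i).charpoly.eval t := by
  rw [charpoly_qqm', eval_mul]

theorem det_qqm (i : ℕ) : (qqm j l y i).det = (y.1.1 i).det * (y.1.2 i).det :=
  (det_cj (det_Rj_ne _)).trans det_blk

theorem det_qqm_sub (i i' : ℕ) :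
    (qqm j l y i' - qqm j l y i).det = (y.1.1 i' - y.1.1 i).det * (y.1.2 i' - y.1.2 i).det := by
  rw [qqm, qqm, ← cj_sub, det_cj (det_Rj_ne _), blk_sub, det_blk]

/-- A matrix specializes if a conjugate by a unipotent matrix does. -/
theorem mr_of_cj {K K' : Fld k} {φ : Place K K'} {R Y : Mx w K} {R' Z : Mx w K'} (h : MR φ R R')
    (u : LUni R') (r : MR φ (cj R Y) Z) : MR φ Y (cj R'⁻¹ Z) := by
  have h1 : R'.det ≠ 0 := u.det ▸ one_ne_zero
  have := (h.inv h1).cj (u.inv.det ▸ one_ne_zero) r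
  rwa [cj_inv_cj (h.det.ne_zero h1)] at this

end QAux

section Alg
variable {d n w j l} {K : Fld k} {x : (As d n w).X K}

theorem charpoly_qm (h : (As d n w).L x) (i : ℕ) :
    (qm x i).charpoly = ∏ a, (X - C (x.1 a i)) := charpoly_qm' h.2.2.2 i

theorem det_qm_sub (h : (As d n w).L x) (i i' : ℕ) :
    (qm x i' - qm x i).det = ∏ a, (x.1 a i' - x.1 a i) := det_qm_sub' h.2.2.2 i i'

theorem lq (h : (As d n w).L x) : (Xs d n w).L (qm x) := by
  refine ⟨fun i hi => ?_, ?_, fun i hi μ hμ => ?_, fun i hi => ?_, ?_⟩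
  · rw [qm, um, h.2.1 i hi, funext fun a => (h.1 a).1 i hi, diagonal_zero, add_zero, cj_zero]
  · rw [qm, um, h.2.2.1]
    exact isComp_Rx _
  · rw [eval_qm h.2.2.2]
    exact Finset.prod_ne_zero_iff.2 fun a _ => (h.1 a).2.pt i hi μ hμ
  · rw [det_qm_sub h]
    exact Finset.prod_ne_zero_iff.2 fun a _ => (h.1 a).2.lk i hi
  · rw [det_qm h.2.2.2]
    exact Finset.prod_ne_zero_iff.2 fun a _ => (h.1 a).2.top

theorem fX_qm (h : (As d n w).L x) : fX d n (qm x) = (As d n w).f x := by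
  change _ = (∏ a, fS d n (x.1 a)) * 1
  simp only [fX, fS, eval_qm h.2.2.2, det_qm_sub h, mul_one]
  rw [Finset.prod_comm]
  refine Finset.prod_congr rfl fun i _ => ?_
  rw [Finset.prod_mul_distrib, Finset.prod_zpow, Finset.prod_comm]
  simp only [Finset.prod_zpow]

theorem mr_qm {K' : Fld k} {φ : Place K K'} {y : (As d n w).X K'} (r : (As d n w).R φ x y)
    (i : ℕ) : MR φ (qm x i) (qm y i) :=
  (mr_Rx fun a => r.1 a 0).cj (det_Rx_ne _) ((mr_diagonal fun a => r.1 a i).add (r.2 i))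

/-- Properness. -/
theorem qm_lim {K' : Fld k} {φ : Place K K'} {z : (Xs d n w).X K'} (h : (As d n w).L x)
    (hz : (Xs d n w).L z) (r : (Xs d n w).R φ (qm x) z) :
    ∃ y, (As d n w).L y ∧ (As d n w).R φ x y := by
  have h0 : ∀ a, ∃ b, φ (x.1 a 0) b := fun a =>
    (r 0).charpoly.exists_root (charpoly_monic _) (by
      rw [IsRoot, eval_qm h.2.2.2]
      exact Finset.prod_eq_zero (Finset.mem_univ a) (sub_self _))
  choose v hv using h0
  obtain ⟨u, hu⟩ : ∃ u : ℕ → Mx w K', ∀ i, MR φ (um x i) (u i) :=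
    ⟨_, fun i => mr_of_cj (mr_Rx hv) (luni_Rx v) (r i)⟩
  have r1 : ∀ a i, φ (x.1 a i) (u i a a) := fun a i => (hu i a a).congr (by
    rw [um, Matrix.add_apply, diagonal_apply_eq, h.2.2.2 i a a le_rfl, add_zero]) rfl
  have r2 : ∀ i, MR φ (x.2 i) (u i - diagonal fun a => u i a a) := fun i => by
    have := (hu i).sub (mr_diagonal fun a => r1 a i)
    rwa [um, add_sub_cancel_left] at this
  obtain ⟨y, ry⟩ : ∃ y, (As d n w).R φ x y :=
    ⟨(fun a i => u i a a, fun i => u i - diagonal fun a => u i a a), r1, r2⟩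
  have n : ∀ i, IsNil (y.2 i) := fun i => (ry.2 i).isNil (h.2.2.2 i)
  have e : qm y = z := funext fun i => (mr_qm ry i).eq (r i) rfl
  subst e
  refine ⟨y, ⟨fun a => ⟨fun i hi => (ry.1 a i).eq_of φ.zero ((h.1 a).1 i hi),
    fun i hi μ hμ => ?_, fun i hi => ?_, ?_⟩, fun i hi => (ry.2 i).eq mr_zero (h.2.1 i hi),
    (ry.2 0).eq mr_sup h.2.2.1, n⟩, ry⟩
  · exact Finset.prod_ne_zero_iff.1 (eval_qm n i _ ▸ hz.2.pt i hi μ hμ) a (Finset.mem_univ a)
  · exact Finset.prod_ne_zero_iff.1 (det_qm_sub' n i _ ▸ hz.2.lk i hi) a (Finset.mem_univ a)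
  · exact Finset.prod_ne_zero_iff.1 (det_qm n _ ▸ hz.2.top) a (Finset.mem_univ a)

variable {y : (((Xs d n j).prod (Xs d n l)).prod (Mn k n j l)).X K}

theorem charpoly_qqm (h : (((Xs d n j).prod (Xs d n l)).prod (Mn k n j l)).L y) (i : ℕ) :
    (qqm j l y i).charpoly = (y.1.1 i).charpoly * (y.1.2 i).charpoly := charpoly_qqm' y i

theorem lqq (h : (((Xs d n j).prod (Xs d n l)).prod (Mn k n j l)).L y) :
    (Xs d n (j + l)).L (qqm j l y) := by
  refine ⟨fun i hi => ?_, ?_, fun i hi μ hμ => ?_, fun i hi => ?_, ?_⟩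
  · rw [qqm, h.1.1.1 i hi, h.1.2.1 i hi, h.2.1 i hi, blk_zero, cj_zero]
  · rw [qqm, h.2.2]
    exact isComp_Rj h.1.1.2.comp h.1.2.2.comp
  · rw [eval_qqm]
    exact mul_ne_zero (h.1.1.2.pt i hi μ hμ) (h.1.2.2.pt i hi μ hμ)
  · rw [det_qqm_sub]
    exact mul_ne_zero (h.1.1.2.lk i hi) (h.1.2.2.lk i hi)
  · rw [det_qqm]
    exact mul_ne_zero h.1.1.2.top h.1.2.2.top

theorem fX_qqm (h : (((Xs d n j).prod (Xs d n l)).prod (Mn k n j l)).L y) :
    fX d n (qqm j l y) = (((Xs d n j).prod (Xs d n l)).prod (Mn k n j l)).f y := by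
  change _ = fX d n y.1.1 * fX d n y.1.2 * 1
  simp only [fX, eval_qqm, det_qqm_sub, mul_one, mul_zpow, Finset.prod_mul_distrib]
  ring

theorem mr_qqm {K' : Fld k} {φ : Place K K'}
    {y' : (((Xs d n j).prod (Xs d n l)).prod (Mn k n j l)).X K'}
    (r : (((Xs d n j).prod (Xs d n l)).prod (Mn k n j l)).R φ y y') (i : ℕ) :
    MR φ (qqm j l y i) (qqm j l y' i) :=
  (mr_Rj (r.1.1 0).charpoly).cj (det_Rj_ne _) ((r.1.1 i).blk (r.2 i) (r.1.2 i))

/-- Properness. -/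
theorem qqm_lim {K' : Fld k} {φ : Place K K'} {z : (Xs d n (j + l)).X K'}
    (h : (((Xs d n j).prod (Xs d n l)).prod (Mn k n j l)).L y) (hz : (Xs d n (j + l)).L z)
    (r : (Xs d n (j + l)).R φ (qqm j l y) z) :
    ∃ y', (((Xs d n j).prod (Xs d n l)).prod (Mn k n j l)).L y' ∧
      (((Xs d n j).prod (Xs d n l)).prod (Mn k n j l)).R φ y y' := by
  obtain ⟨c, hc⟩ : ∃ c, φ.PR (y.1.1 0).charpoly c :=
    Place.PR.of_roots (charpoly_monic _) fun a ha =>
      (r 0).charpoly.exists_root (charpoly_monic _) (by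
        rw [IsRoot, eval_qqm, (isRoot_of_mem_roots ha).eq_zero, zero_mul])
  have m := hc.monic (charpoly_monic _)
  obtain ⟨u, hu⟩ : ∃ u : ℕ → Mx (j + l) K', ∀ i, MR φ (blk (y.1.1 i) (y.2 i) (y.1.2 i)) (u i) :=
    ⟨_, fun i => mr_of_cj (mr_Rj hc) (luni_Rj m.1
      (m.2.trans ((charpoly_natDegree_eq_dim _).trans (Fintype.card_fin j)))) (r i)⟩
  obtain ⟨y', ry⟩ : ∃ y', (((Xs d n j).prod (Xs d n l)).prod (Mn k n j l)).R φ y y' :=
    ⟨((fun i => ul j l (u i), fun i => lr j l (u i)), fun i => ur j l (u i)),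
      ⟨fun i a b => (hu i _ _).congr (congrFun₂ ul_blk a b) rfl,
        fun i a b => (hu i _ _).congr (congrFun₂ lr_blk a b) rfl⟩,
      fun i a b => (hu i _ _).congr (congrFun₂ ur_blk a b) rfl⟩
  have e : qqm j l y' = z := funext fun i => (mr_qqm ry i).eq (r i) rfl
  subst e
  have p := fun i hi μ hμ => mul_ne_zero_iff.1 (eval_qqm y' i _ ▸ hz.2.pt i hi μ hμ)
  have q := fun i hi => mul_ne_zero_iff.1 (det_qqm_sub y' i _ ▸ hz.2.lk i hi)
  have t := mul_ne_zero_iff.1 (det_qqm y' n ▸ hz.2.top)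
  exact ⟨y', ⟨⟨⟨fun i hi => (ry.1.1 i).eq mr_zero (h.1.1.1 i hi), (ry.1.1 0).isComp h.1.1.2.comp,
    fun i hi μ hμ => (p i hi μ hμ).1, fun i hi => (q i hi).1, t.1⟩,
    fun i hi => (ry.1.2 i).eq mr_zero (h.1.2.1 i hi), (ry.1.2 0).isComp h.1.2.2.comp,
    fun i hi μ hμ => (p i hi μ hμ).2, fun i hi => (q i hi).2, t.2⟩,
    fun i hi => (ry.2 i).eq mr_zero (h.2.1 i hi), (ry.2 0).eq mr_corner h.2.2⟩, ry⟩

end Alg

theorem pq : PMap (Aw d n w) (Xv d n w) {w} fun _ x => qm x :=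
  ⟨.of_proper ⟨fun _ _ => lq, fun _ _ _ _ _ _ _ r => mr_qm r⟩ (fun _ _ => fX_qm)
    fun _ _ _ _ _ => qm_lim, fun _ x h _ m hm => by
      rw [show m = w from hm]
      exact (charpoly_qm h n).trans (chiA_one_top _).symm⟩

theorem pqq (hj : 0 < j) (hl : 0 < l) : PMap (((Xv d n j).ten j (Xv d n l)).tw (Mn k n j l))
    (Xv d n (j + l)) {j + l} fun _ x => qqm j l x :=
  ⟨.of_proper ⟨fun _ _ => lqq, fun _ _ _ _ _ _ _ r => mr_qqm r⟩ (fun _ _ => fX_qqm)
    fun _ _ _ _ _ => qqm_lim, fun _ x h _ m hm => by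
      rw [show m = j + l from hm]
      exact (charpoly_qqm h n).trans (if_neg (by omega)).symm⟩

/-- The triangular chain with the given blocks. -/
def kai {K : Type} [Field K] (y : (((Fin j → ℕ → K) × (ℕ → Mx j K)) ×
    (Fin l → ℕ → K) × (ℕ → Mx l K)) × (ℕ → Matrix (Fin j) (Fin l) K)) :
    (Fin (j + l) → ℕ → K) × (ℕ → Mx (j + l) K) :=
  (fun c => Fin.addCases y.1.1.1 y.1.2.1 c, fun i => blk (y.1.1.2 i) (y.2 i) (y.1.2.2 i))

theorem kai_kam ⦃K : Fld k⦄ (x : (As d n (j + l)).X K) (h : (As d n (j + l)).L x) :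
    kai j l (kam j l x) = x :=
  Prod.ext (G.addCases_cut x.1) (funext fun i => (h.2.2.2 i).blk_eq)

theorem kam_kai {K : Type} [Field K] (y : (((Fin j → ℕ → K) × (ℕ → Mx j K)) ×
    (Fin l → ℕ → K) × (ℕ → Mx l K)) × (ℕ → Matrix (Fin j) (Fin l) K)) :
    kam j l (kai j l y) = y :=
  Prod.ext (Prod.ext
    (Prod.ext (funext fun c => Fin.addCases_left (motive := fun _ => ℕ → K) c)
      (funext fun _ => ul_blk))
    (Prod.ext (funext fun c => Fin.addCases_right (motive := fun _ => ℕ → K) c)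
      (funext fun _ => lr_blk)))
    (funext fun _ => ur_blk)

theorem lkai ⦃K : Fld k⦄ (y : (((As d n j).prod (As d n l)).prod (Mn k n j l)).X K)
    (h : (((As d n j).prod (As d n l)).prod (Mn k n j l)).L y) :
    (As d n (j + l)).L (kai j l y) := by
  refine ⟨fun c => ?_, fun i hi => ?_, ?_, fun i => isNil_blk.2 ⟨h.1.1.2.2.2 i, h.1.2.2.2.2 i⟩⟩
  · induction c using Fin.addCases with
    | left c => simpa only [kai, Fin.addCases_left] using h.1.1.1 c
    | right c => simpa only [kai, Fin.addCases_right] using h.1.2.1 c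
  · change blk _ _ _ = 0
    rw [h.1.1.2.1 i hi, h.1.2.2.1 i hi, h.2.1 i hi, blk_zero]
  · change blk _ _ _ = _
    rw [h.1.1.2.2.1, h.1.2.2.2.1, h.2.2, blk_sup]

theorem lka ⦃K : Fld k⦄ (x : (As d n (j + l)).X K) (h : (As d n (j + l)).L x) :
    (((As d n j).prod (As d n l)).prod (Mn k n j l)).L (kam j l x) := by
  have h0 : x.2 0 = blk (sup K j) (corner K j l) (sup K l) := h.2.2.1.trans blk_sup.symm
  have hn := fun i => isNil_blk.1 ((h.2.2.2 i).blk_eq.symm ▸ h.2.2.2 i :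
    IsNil (blk (ul j l (x.2 i)) (ur j l (x.2 i)) (lr j l (x.2 i))))
  refine ⟨⟨⟨fun _ => h.1 _, fun i hi => ?_, ?_, fun i => (hn i).1⟩,
    fun _ => h.1 _, fun i hi => ?_, ?_, fun i => (hn i).2⟩, fun i hi => ?_, ?_⟩
  · exact congrArg (ul j l) (h.2.1 i hi)
  · exact (congrArg (ul j l) h0).trans ul_blk
  · exact congrArg (lr j l) (h.2.1 i hi)
  · exact (congrArg (lr j l) h0).trans lr_blk
  · exact congrArg (ur j l) (h.2.1 i hi)
  · exact (congrArg (ur j l) h0).trans ur_blk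

theorem ika ⦃K : Fld k⦄ (x x' : (As d n (j + l)).X K) (h : (As d n (j + l)).L x)
    (h' : (As d n (j + l)).L x') (e : kam j l x = kam j l x') : x = x' := by
  rw [← kai_kam d n j l x h, e, kai_kam d n j l x' h']

theorem ska ⦃K : Fld k⦄ (y : (((As d n j).prod (As d n l)).prod (Mn k n j l)).X K)
    (h : (((As d n j).prod (As d n l)).prod (Mn k n j l)).L y) :
    ∃ x, (As d n (j + l)).L x ∧ kam j l x = y :=
  ⟨kai j l y, lkai d n j l y h, kam_kai j l y⟩

theorem mka : IsMap (As d n (j + l)) (((As d n j).prod (As d n l)).prod (Mn k n j l))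
    fun _ x => kam j l x := by
  refine .of_inv (g := fun _ y => kai j l y)
    ⟨lka d n j l, fun _ _ _ _ _ _ _ r => ⟨⟨⟨fun _ => r.1 _, fun i _ _ => r.2 i _ _⟩,
      fun _ => r.1 _, fun i _ _ => r.2 i _ _⟩, fun i _ _ => r.2 i _ _⟩⟩
    ⟨lkai d n j l, fun _ _ φ y y' _ _ r => ⟨fun c => ?_,
      fun i => (r.1.1.2 i).blk (r.2 i) (r.1.2.2 i)⟩⟩ (fun _ x _ => ?_) (kai_kam d n j l)
  · induction c using Fin.addCases with
    | left c => simpa only [kai, Fin.addCases_left] using r.1.1.1 c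
    | right c => simpa only [kai, Fin.addCases_right] using r.1.2.1 c
  · change (∏ a, fS d n (x.1 (Fin.castAdd l a))) * 1 * ((∏ a, fS d n (x.1 (Fin.natAdd j a))) * 1) *
      1 = (∏ a, fS d n (x.1 a)) * 1
    simp only [mul_one, Fin.prod_univ_add]

theorem pm_f (σ : Equiv.Perm (Fin w)) ⦃K : Fld k⦄ (x : (As d n w).X K) :
    (As d n w).f (pmm σ x) = (As d n w).f x :=
  congrArg (· * 1) (Equiv.prod_comp σ.symm fun a => fS d n (x.1 a))

theorem ka_pm (σ : Equiv.Perm (Fin j)) (τ : Equiv.Perm (Fin l)) ⦃K : Fld k⦄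
    (x : (As d n (j + l)).X K) : kam j l (pmm (ProdAux.pp σ τ) x) =
      ((pmm σ (kam j l x).1.1, pmm τ (kam j l x).1.2), (kam j l x).2) :=
  Prod.ext (Prod.ext
    (Prod.ext (funext fun _ => congrArg x.1 (ProdAux.pp_cast (s := σ.symm) (t := τ.symm) _)) rfl)
    (Prod.ext (funext fun _ => congrArg x.1 (ProdAux.pp_nat (s := σ.symm) (t := τ.symm) _)) rfl))
    rfl

/-- The tower. -/
@[reducible] def tow : Tow k where
  A := As d n
  ev _ _ x a := x.1 a n
  hev := hev d n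
  ne _ _ _ h a := (h.1 a).2.top
  pm σ _ x := pmm σ x
  pm_reg _ := ⟨fun _ _ h => ⟨fun _ => h.1 _, h.2⟩, fun _ _ _ _ _ _ _ r => ⟨fun _ => r.1 _, r.2⟩⟩
  pm_f σ _ x _ := pm_f d n _ σ x
  pm_one _ := rfl
  pm_mul _ _ _ _ := rfl
  ev_pm _ _ _ _ := rfl
  X := Xv d n
  good _ _ _ h := goodP_charpoly h.2.top
  M := Mn k n
  q _ _ x := qm x
  pq := pq d n
  lq _ _ _ := lq
  qq j l _ x := qqm j l x
  pqq := pqq d n
  lqq _ _ _ _ _ _ := lqq
  ka j l _ x := kam j l x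
  mka := mka d n
  lka := lka d n
  ika := ika d n
  ska := ska d n
  ev_ka _ _ _ _ := rfl
  ka_pm := ka_pm d n
  d := n + 1

end

end Pool.Agent.Lib.MP_fc2ced_ag.T.C
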