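import Pool.Agent.Lib.MP_fc2ced_ag.C.Clean
import Pool.Agent.Lib.MP_fc2ced_ag.C.Q

/-! The generalized eigenspace of the last matrix. -/

open CategoryTheory Function Polynomial Matrix Module

namespace Pool.Agent.Lib.MP_fc2ced_ag.T.C

open K

noncomputable section

variable {k : Type} [Field k] {F : Type} [Field F] {χ : Chr k F}

open MP_fc2ced_ag.T.Pt hiding X

section Alg
variable {K : Type} [Field K] {w j l : ℕ}

/-- The generalized eigenspace. -/
def gK (t : K) (j : ℕ) (Y : Mx w K) : Sb w K := im (aeval Y (Y.charpoly /ₘ (X - C t) ^ j)) ⊤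

variable {t : K} {Y : Mx w K} {u v η : Fin w → K}

theorem keeps_gK : Keeps Y (gK t j Y) := by
  rintro _ ⟨u, -, rfl⟩
  refine ⟨Y *ᵥ u, trivial, ?_⟩
  have e (q : K[X]) : aeval Y q * Y = Y * aeval Y q := by
    simpa only [map_mul, aeval_X] using congrArg (aeval Y) (mul_comm q X)
  simp only [toLin'_apply, mulVec_mulVec, e]

theorem gb_aeval (m : ℕ) : aeval Y ((X - C t) ^ m) = (Y - scalar (Fin w) t) ^ m := by
  rw [map_pow, map_sub, aeval_X, aeval_C]
  rfl

theorem mem_gK_of_pow (h : Y.charpoly.rootMultiplicity t = j) {m : ℕ}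
    (hv : (Y - scalar (Fin w) t) ^ m *ᵥ v = 0) : v ∈ gK t j Y := by
  have c : IsCoprime (X - C t) (Y.charpoly /ₘ (X - C t) ^ j) := by
    rw [(irreducible_X_sub_C t).coprime_iff_not_dvd, dvd_iff_isRoot, ← h]
    exact eval_divByMonic_pow_rootMultiplicity_ne_zero t Y.charpoly_monic.ne_zero
  obtain ⟨a, b, e⟩ := c.pow_left (m := m)
  refine ⟨aeval Y b *ᵥ v, trivial, ?_⟩
  have e' := congrArg (fun q => aeval Y q *ᵥ v) e
  simp only [map_add, add_mulVec, map_one, one_mulVec] at e'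
  rw [map_mul, ← mulVec_mulVec, gb_aeval, hv, mulVec_zero, zero_add, mul_comm b,
    map_mul] at e'
  rw [toLin'_apply, mulVec_mulVec, e']

theorem mem_gK (h : Y.charpoly.rootMultiplicity t = j) :
    v ∈ gK t j Y ↔ (Y - scalar (Fin w) t) ^ j *ᵥ v = 0 := by
  refine ⟨?_, mem_gK_of_pow h⟩
  rintro ⟨u, -, rfl⟩
  rw [toLin'_apply, mulVec_mulVec, ← gb_aeval, ← map_mul, ← h,
    pow_mul_divByMonic_rootMultiplicity_eq, Matrix.aeval_self_charpoly, zero_mulVec]

theorem finrank_gK [IsAlgClosed K] (h : Y.charpoly.rootMultiplicity t = j) :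
    finrank K (gK t j Y) = j := by
  have e (m : ℕ) (v : Fin w → K) : ((toLin' Y - t • (1 : End K (Fin w → K))) ^ m) v =
      (Y - scalar (Fin w) t) ^ m *ᵥ v := by
    rw [← toLin'_apply, toLin'_pow, map_sub]
    congr 3
    ext1 a
    ext b
    simp [Pi.single_apply, eq_comm]
  have : gK t j Y = End.maxGenEigenspace (toLin' Y) t := by
    ext v
    simp only [End.mem_maxGenEigenspace, e]
    exact ⟨fun hv => ⟨j, (mem_gK h).1 hv⟩, fun ⟨_, hv⟩ => mem_gK_of_pow h hv⟩
  rw [this, LinearMap.finrank_maxGenEigenspace_eq, charpoly_toLin', h]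

theorem gK_add [IsAlgClosed K] (h : Y.charpoly.rootMultiplicity t = j) (hu : u ∈ gK t j Y)
    (hη : Perp η (gK t j Y)) : gK t j (Y + vecMulVec u η) = gK t j Y := by
  have h' : (Y + vecMulVec u η).charpoly.rootMultiplicity t = j := by
    rw [keeps_gK.charpoly_add_one hu hη, h]
  have e (m : ℕ) : ∀ v ∈ gK t j Y, (Y + vecMulVec u η - scalar (Fin w) t) ^ m *ᵥ v =
      (Y - scalar (Fin w) t) ^ m *ᵥ v := by
    induction m with
    | zero => simp
    | succ m ih =>
      intro v hv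
      rw [pow_succ, pow_succ, ← mulVec_mulVec, ← mulVec_mulVec, add_sub_right_comm,
        add_one_mulVec, hη v hv, zero_smul, add_zero, ← add_sub_right_comm]
      exact ih _ (keeps_gK.sub (keeps_scalar t) v hv)
  refine (Submodule.eq_of_le_of_finrank_eq (fun v hv => (mem_gK h').2 ?_) ?_).symm
  · rw [e j v hv, (mem_gK h).1 hv]
  · rw [finrank_gK h, finrank_gK h']

variable (j l) in
/-- The subspace that belongs to a monic polynomial of degree `j`. -/
def idl (c : K[X]) : Sb (j + l) K := im (Rj j l c)⁻¹ (Ek (j + l) K j)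

variable {c c' : K[X]} {A : Mx j K} {B : Mx l K} {M : Matrix (Fin j) (Fin l) K}

theorem ga_det (m : c.Monic) (h : c.natDegree = j) : (Rj j l c).det ≠ 0 := by
  rw [(luni_Rj m h).det]
  exact one_ne_zero

theorem ga_ek {u : Fin (j + l) → K} : u ∈ Ek (j + l) K j ↔ ∀ a : Fin l, u (Fin.natAdd j a) = 0 :=
  ⟨fun h a => h _ (by simp), fun h a => Fin.addCases (motive := fun a => j ≤ a → u a = 0)
    (fun i hi => absurd i.2 (not_lt.2 hi)) (fun i _ => h i) a⟩

theorem ga_single (b : Fin j) : (Pi.single (Fin.castAdd l b) 1 : _ → K) ∈ Ek (j + l) K j :=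
  ga_ek.2 fun a => Pi.single_eq_of_ne (fun e => by
    have := congrArg Fin.val e
    have := b.2
    simp only [Fin.val_natAdd, Fin.val_castAdd] at *
    omega) _

theorem ga_mul {R : Mx w K} (h : R.det ≠ 0) (v : Fin w → K) : R *ᵥ R⁻¹ *ᵥ v = v := by
  rw [mulVec_mulVec, mul_nonsing_inv _ h.isUnit, one_mulVec]

theorem ga_mem {v : Fin (j + l) → K} (m : c.Monic) (h : c.natDegree = j) : v ∈ idl j l c ↔
    ∀ a : Fin l, ∑ b : Fin (j + l), (X ^ (a : ℕ) * c).coeff b * v b = 0 := by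
  rw [idl, mem_im_inv (ga_det m h), ga_ek]
  simp [Rj, rowM, mulVec, dotProduct]

theorem ga_rank (m : c.Monic) (h : c.natDegree = j) : j ≤ finrank K (idl j l c) := by
  have := finrank_im (Y := Rj j l c) (W := idl j l c)
  rwa [idl, im_im, mul_nonsing_inv _ (ga_det m h).isUnit, im_one, finrank_ek (Nat.le_add_right j l)]
    at this

theorem ga_low (m : c.Monic) (h : c.natDegree = j) {r : K[X]} (hr : r.degree < j)
    (H : ∀ b : Fin j, ∀ v ∈ idl j l c, ∑ b : Fin (j + l), r.coeff b * v b = 0) : r = 0 := by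
  ext b
  rcases le_or_gt j b with hb | hb
  · exact coeff_eq_zero_of_degree_lt (hr.trans_le (by exact_mod_cast hb))
  have e := fun a : Fin j => congrFun (ga_mul (ga_det (l := l) m h)
    (Pi.single (Fin.castAdd l ⟨b, hb⟩) 1)) (Fin.castAdd l a)
  have k := H ⟨b, hb⟩ _ (mem_im (ga_single ⟨b, hb⟩))
  generalize (Rj j l c)⁻¹ *ᵥ _ = v at e k
  have e' : ∀ a : Fin j, v (Fin.castAdd l a) = if a = ⟨b, hb⟩ then 1 else 0 := fun a => by
    have := e a
    rw [mulVec, dotProduct, Finset.sum_eq_single (Fin.castAdd l a) (fun x _ hx => by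
      simp [Rj, rowM, coeff_X_pow, show (x : ℕ) ≠ a from fun e => hx (Fin.ext e)]) (by simp)] at this
    simpa [Rj, rowM, Pi.single_apply, Fin.ext_iff] using this
  rw [Fin.sum_univ_add, Finset.sum_eq_zero (s := (Finset.univ : Finset (Fin l))) fun a _ => by
    rw [coeff_eq_zero_of_degree_lt (hr.trans_le (by exact_mod_cast Nat.le_add_right j a)),
      zero_mul]] at k
  simpa [e'] using k

theorem idl_inj (hl : 0 < l) (m : c.Monic) (h : c.natDegree = j) (m' : c'.Monic)
    (h' : c'.natDegree = j) (e : idl j l c = idl j l c') : c = c' := by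
  refine sub_eq_zero.1 (ga_low (l := l) m h ?_ fun _ v hv => ?_)
  · rw [← h, ← degree_eq_natDegree m.ne_zero]
    exact degree_sub_lt_left (by rw [degree_eq_natDegree m.ne_zero, degree_eq_natDegree m'.ne_zero, h, h'])
      m.ne_zero (m.trans m'.symm)
  · have h1 := (ga_mem m h).1 hv ⟨0, hl⟩
    have h2 := (ga_mem m' h').1 (e ▸ hv) ⟨0, hl⟩
    simp only [pow_zero, one_mul] at h1 h2
    simp only [coeff_sub, sub_mul, Finset.sum_sub_distrib, h1, h2, sub_zero]

theorem ga_cj {R Z : Mx w K} (h : R.det ≠ 0) (v : Fin w → K) :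
    R *ᵥ cj R Z *ᵥ v = Z *ᵥ R *ᵥ v := by
  rw [cj, ← mulVec_mulVec, ← mulVec_mulVec, ga_mul h]

theorem keeps_idl (m : c.Monic) (h : c.natDegree = j) :
    Keeps (cj (Rj j l c) (blk A M B)) (idl j l c) := fun v hv => by
  rw [idl, mem_im_inv (ga_det m h), ga_ek] at hv ⊢
  intro a
  rw [ga_cj (ga_det m h), mulVec, dotProduct, Fin.sum_univ_add]
  simp only [blk_low, hv, zero_mul, mul_zero, Finset.sum_const_zero, add_zero]

theorem exists_blk {Y : Mx (j + l) K} (m : c.Monic) (h : c.natDegree = j)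
    (hk : Keeps Y (idl j l c)) : ∃ A M B, Y = cj (Rj j l c) (blk A M B) := by
  refine ⟨_, _, _, (cj_cj_inv (ga_det m h)).symm.trans (congrArg _ (blk_eq fun a b => ?_).symm)⟩
  have := hk _ (mem_im (ga_single b))
  rw [idl, mem_im_inv (ga_det m h), ga_ek, mulVec_mulVec, mulVec_mulVec] at this
  simpa [cj, nonsing_inv_nonsing_inv _ (ga_det m h).isUnit] using this a

theorem ga_kill (m : c.Monic) (h : c.natDegree = j) :
    (∀ v ∈ idl j l c, cj (Rj j l c) (blk A M B) *ᵥ v = 0) ↔ A = 0 := by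
  have d := ga_det (l := l) m h
  refine ⟨fun H => Matrix.ext fun a b => ?_, fun e v hv => ?_⟩
  · have := ga_cj (Z := blk A M B) d ((Rj j l c)⁻¹ *ᵥ Pi.single (Fin.castAdd l b) 1)
    rw [H _ (mem_im (ga_single b)), mulVec_zero, ga_mul d] at this
    simpa [blk] using (congrFun this (Fin.castAdd l a)).symm
  · rw [idl, mem_im_inv d, ga_ek] at hv
    rw [cj, ← mulVec_mulVec, ← mulVec_mulVec, show blk A M B *ᵥ Rj j l c *ᵥ v = 0 from ?_,
      mulVec_zero]
    funext a
    rw [mulVec, dotProduct, Fin.sum_univ_add]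
    refine Fin.addCases (fun a => ?_) (fun a => ?_) a <;> simp [hv, blk, e]

theorem ga_pow {R : Mx (j + l) K} (d : R.det ≠ 0) (n : ℕ) : ∃ M' B',
    (cj R (blk A M B) - scalar _ t) ^ n = cj R (blk ((A - scalar _ t) ^ n) M' B') := by
  have e : cj R (blk A M B) - scalar _ t = cj R (blk (A - scalar _ t) (M - 0) (B - scalar _ t)) := by
    rw [← blk_sub, cj_sub, scalar_apply, scalar_apply, scalar_apply]
    congr 1
    refine .trans ?_ (congrArg _ (blk_diagonal (j := j) (l := l) fun _ => t).symm)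
    rw [cj, ← scalar_apply, Matrix.mul_assoc, scalar_commute t (Commute.all t) R,
      nonsing_inv_mul_cancel_left _ _ d.isUnit]
  induction n with
  | zero => exact ⟨_, _, by rw [pow_zero, pow_zero, blk_one, cj_one d]⟩
  | succ n ih =>
    obtain ⟨M', B', ih⟩ := ih
    exact ⟨_, _, by rw [pow_succ, ih, e, ← cj_mul d, blk_mul, pow_succ]⟩

theorem gK_blk [IsAlgClosed K] (m : c.Monic) (h : c.natDegree = j)
    (e : (A.charpoly * B.charpoly).rootMultiplicity t = j) :
    gK t j (cj (Rj j l c) (blk A M B)) = idl j l c ↔ A.charpoly = (X - C t) ^ j := by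
  have d := ga_det (l := l) m h
  rw [← charpoly_blk (C := M), ← charpoly_cj d] at e
  obtain ⟨M', B', k⟩ := ga_pow (A := A) (M := M) (B := B) (t := t) d j
  have key : idl j l c ≤ gK t j (cj (Rj j l c) (blk A M B)) ↔ (A - scalar _ t) ^ j = 0 := by
    rw [← ga_kill (M := M') (B := B') m h, ← k]
    exact forall₂_congr fun v _ => mem_gK e
  constructor
  · intro H
    have h1 := sub_eq_zero.1
      (isNilpotent_charpoly_sub_pow_of_isNilpotent ⟨j, key.1 H.ge⟩).eq_zero
    rw [charpoly_sub_scalar, Fintype.card_fin] at h1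
    have h2 := congrArg (comp · (X - C t)) h1
    simp only [Polynomial.comp_assoc] at h2
    simpa using h2
  · intro H
    refine (Submodule.eq_of_le_of_finrank_le (key.2 ?_) ((finrank_gK e).le.trans (ga_rank m h))).symm
    have := A.aeval_self_charpoly
    rwa [H, map_pow, map_sub, aeval_X, aeval_C] at this

theorem ga_row (h : IsComp Y) {z : Fin w} (hz : (z : ℕ) = 0) {p : K[X]} (hp : p.natDegree < w)
    (v : Fin w → K) : (aeval Y p *ᵥ v) z = ∑ b : Fin w, p.coeff b * v b := by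
  have e : ∀ (a : ℕ) (ha : a < w) (v : Fin w → K), (Y ^ a *ᵥ v) z = v ⟨a, ha⟩ := fun a => by
    induction a with
    | zero => exact fun ha v => by rw [pow_zero, one_mulVec, ← Fin.ext (b := ⟨0, ha⟩) hz]
    | succ a ih =>
      intro ha v
      rw [pow_succ, ← mulVec_mulVec, ih (by omega), mulVec, dotProduct,
        Finset.sum_eq_single ⟨a + 1, ha⟩ (fun b _ hb => ?_) (by simp), h _ _ ha, if_pos rfl, one_mul]
      rw [h _ _ ha, if_neg fun e => hb (Fin.ext e), zero_mul]
  rw [aeval_eq_sum_range' hp, Finset.sum_range, sum_mulVec, Finset.sum_apply]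
  exact Finset.sum_congr rfl fun b _ => by rw [smul_mulVec, Pi.smul_apply, e _ b.2, smul_eq_mul]

theorem ga_ann {W : Sb w K} (hk : Keeps Y W) : ∃ c : K[X], c.Monic ∧ c.natDegree = finrank K W ∧
    ∀ (q : K[X]), ∀ v ∈ W, aeval Y (q * c) *ᵥ v = 0 := by
  let f : W →ₗ[K] W := (toLin' Y).restrict hk
  have e : ∀ (p : K[X]) (v : W), (aeval f p v : Fin w → K) = aeval Y p *ᵥ v := fun p => by
    induction p using Polynomial.induction_on with
    | C a => exact fun v => by simp [Algebra.algebraMap_eq_smul_one, smul_mulVec]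
    | add p q hp hq => exact fun v => by simp [hp, hq, add_mulVec]
    | monomial n a ih =>
      intro v
      rw [pow_succ, ← mul_assoc, map_mul, map_mul _ _ X, aeval_X, aeval_X, ← mulVec_mulVec]
      exact ih (f v)
  refine ⟨f.charpoly, f.charpoly_monic, f.charpoly_natDegree, fun q v hv => ?_⟩
  rw [← e _ ⟨v, hv⟩, map_mul, f.aeval_self_charpoly, mul_zero]
  rfl

/-- The subspaces that are kept by a companion matrix. -/
theorem IsComp.exists_idl {Y : Mx (j + l) K} {W : Sb (j + l) K} (h : IsComp Y) (hk : Keeps Y W)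
    (hW : finrank K W = j) : ∃ (A : Mx j K) (B : Mx l K), IsComp A ∧ IsComp B ∧
      W = idl j l A.charpoly ∧ Y = cj (Rj j l A.charpoly) (blk A (corner K j l) B) := by
  obtain ⟨c, m, hc, H⟩ := ga_ann hk
  rw [hW] at hc
  have e : W = idl j l c := Submodule.eq_of_le_of_finrank_le (fun v hv => (ga_mem m hc).2 fun a => by
    have := a.2
    rw [← ga_row h (z := ⟨0, by omega⟩) rfl (by
      rw [(monic_X_pow _).natDegree_mul m, natDegree_X_pow]
      omega), H _ v hv, Pi.zero_apply]) (finrank_im.trans (by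
        rw [finrank_ek (Nat.le_add_right j l), hW]))
  have hr : (Y.charpoly %ₘ c).degree < j :=
    (degree_modByMonic_lt _ m).trans_eq (by rw [degree_eq_natDegree m.ne_zero, hc])
  have hd : Y.charpoly %ₘ c = 0 := ga_low (l := l) m hc hr fun b v hv => by
    have := b.2
    have : (Y.charpoly %ₘ c).natDegree < j := by
      rcases eq_or_ne (Y.charpoly %ₘ c) 0 with e | e
      · rw [e, natDegree_zero]
        omega
      · exact (natDegree_lt_iff_degree_lt e).2 hr
    rw [← ga_row h (z := ⟨0, by omega⟩) rfl (by omega), modByMonic_eq_sub_mul_div, map_sub,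
      Y.aeval_self_charpoly, zero_sub, neg_mulVec, mul_comm, H _ v (e ▸ hv), neg_zero,
      Pi.zero_apply]
  obtain ⟨q, hq⟩ := (modByMonic_eq_zero_iff_dvd m).1 hd
  have mq : q.Monic := m.of_mul_monic_left (hq ▸ Y.charpoly_monic)
  have nq : q.natDegree = l := by
    have := Y.charpoly_natDegree_eq_dim
    rw [hq, m.natDegree_mul mq, Fintype.card_fin] at this
    omega
  obtain ⟨A, hA, rfl⟩ := exists_comp m hc
  obtain ⟨B, hB, rfl⟩ := exists_comp mq nq
  refine ⟨A, B, hA, hB, e, Matrix.ext fun a b => ?_⟩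
  have h' := isComp_Rj hA hB
  rcases (Nat.succ_le_of_lt a.2).lt_or_eq with k | k
  · rw [h a b k, h' a b k]
  · rw [h.coeff a b k, h'.coeff a b k, charpoly_cj (ga_det m hc), charpoly_blk, hq]

end Alg

theorem sr_gK {K K' : Fld k} {φ : Place K K'} {w j : ℕ} {t : K} {t' : K'} {Y : Mx w K}
    {Y' : Mx w K'} (ht : φ t t') (h : MR φ Y Y') : SR φ (gK t j Y) (gK t' j Y') :=
  sr_top.im (h.aeval (pr_divByMonic h.charpoly ((Place.PR.X.sub (.C ht)).pow j)
    ((monic_X_sub_C t).pow j)))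

variable {d : Dat k} {n j l : ℕ}

section Pts
variable {K : Fld k} {t : K} {y y' : (((Xs d n j).prod (Xs d n l)).prod (Mn k n j l)).X K}

theorem gb_det (A : Mx j K) : (Rj j l A.charpoly).det ≠ 0 := by
  rw [(luni_Rj A.charpoly_monic (by simp)).det]
  exact one_ne_zero

theorem gb_inj {R : Mx (j + l) K} (h : R.det ≠ 0) {A A' : Mx j K} {B B' : Mx l K}
    {M M' : Matrix (Fin j) (Fin l) K} (e : cj R (blk A M B) = cj R (blk A' M' B')) :
    A = A' ∧ M = M' ∧ B = B' := by
  have e' : blk A M B = blk A' M' B' := by rw [← cj_inv_cj (Y := blk A M B) h, e, cj_inv_cj h]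
  exact ⟨by simpa only [ul_blk] using congrArg (ul j l) e',
    by simpa only [ur_blk] using congrArg (ur j l) e',
    by simpa only [lr_blk] using congrArg (lr j l) e'⟩

theorem gb_charpoly (i : ℕ) :
    (qqm j l y i).charpoly = (y.1.1 i).charpoly * (y.1.2 i).charpoly := by
  rw [qqm, charpoly_cj (gb_det _), charpoly_blk]

theorem gb_gK (m : ((y.1.1 n).charpoly * (y.1.2 n).charpoly).rootMultiplicity t = j)
    (h : (y.1.1 n).charpoly = (X - C t) ^ j) :
    gK t j (qqm j l y n) = idl j l (y.1.1 0).charpoly :=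
  (gK_blk (y.1.1 0).charpoly_monic (by simp) m).2 h

theorem qqm_inj (hl : 0 < l) (e : qqm j l y = qqm j l y')
    (m : ((y.1.1 n).charpoly * (y.1.2 n).charpoly).rootMultiplicity t = j)
    (h : (y.1.1 n).charpoly = (X - C t) ^ j) (h' : (y'.1.1 n).charpoly = (X - C t) ^ j) :
    y = y' := by
  have m' : ((y'.1.1 n).charpoly * (y'.1.2 n).charpoly).rootMultiplicity t = j := by
    rw [← gb_charpoly, ← e, gb_charpoly, m]
  have c : (y.1.1 0).charpoly = (y'.1.1 0).charpoly :=
    idl_inj (j := j) hl (charpoly_monic _) (by simp) (charpoly_monic _) (by simp)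
      (by rw [← gb_gK m h, ← gb_gK m' h', e])
  have b (i : ℕ) := gb_inj (gb_det (y'.1.1 0)) (A := y.1.1 i) (M := y.2 i) (B := y.1.2 i)
    (by simpa only [qqm, c] using congrFun e i)
  exact Prod.ext (Prod.ext (funext fun i => (b i).1) (funext fun i => (b i).2.2))
    (funext fun i => (b i).2.1)

theorem qqm_surj {Y : (Xs d n (j + l)).X K} (h : (Xs d n (j + l)).L Y)
    (m : (Y n).charpoly.rootMultiplicity t = j) (hk : ∀ i < n, Keeps (Y i) (gK t j (Y n))) :
    ∃ y, (((Xs d n j).prod (Xs d n l)).prod (Mn k n j l)).L y ∧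
      (y.1.1 n).charpoly = (X - C t) ^ j ∧ qqm j l y = Y := by
  have hk' (i : ℕ) : Keeps (Y i) (gK t j (Y n)) := by
    rcases lt_trichotomy i n with hi | rfl | hi
    · exact hk i hi
    · exact keeps_gK
    · intro v _
      rw [h.1 i hi, zero_mulVec]
      exact zero_mem _
  obtain ⟨A₀, B₀, cA, cB, eW, e0⟩ := h.2.comp.exists_idl (hk' 0) (finrank_gK m)
  have mo := A₀.charpoly_monic
  have dg : A₀.charpoly.natDegree = j := by simp
  have dR := gb_det (l := l) A₀
  choose A M B e using fun i => exists_blk mo dg (eW ▸ hk' i)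
  obtain ⟨a0, m0, b0⟩ := gb_inj dR ((e 0).symm.trans e0)
  rw [← a0] at cA
  rw [← b0] at cB
  have z (i : ℕ) (hi : n < i) : A i = 0 ∧ M i = 0 ∧ B i = 0 :=
    gb_inj dR (by rw [← e i, h.1 i hi, blk_zero, cj_zero])
  have cp (i : ℕ) : (Y i).charpoly = (A i).charpoly * (B i).charpoly := by
    rw [e i, charpoly_cj dR, charpoly_blk]
  have pt (i : ℕ) (hi : i < n) (μ : k) (hμ : μ ∈ d.Λ) := by
    have := h.2.pt i hi μ hμ
    rw [cp, eval_mul] at this
    exact mul_ne_zero_iff.1 this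
  have lk (i : ℕ) (hi : i < n) := by
    have := h.2.lk i hi
    rw [e i, e (i + 1), ← cj_sub, blk_sub, det_cj dR, det_blk] at this
    exact mul_ne_zero_iff.1 this
  have tp := h.2.top
  rw [e n, det_cj dR, det_blk, mul_ne_zero_iff] at tp
  refine ⟨((A, B), M), ⟨⟨⟨fun i hi => (z i hi).1, cA, fun i hi μ hμ => (pt i hi μ hμ).1,
    fun i hi => (lk i hi).1, tp.1⟩, fun i hi => (z i hi).2.2, cB,
    fun i hi μ hμ => (pt i hi μ hμ).2, fun i hi => (lk i hi).2, tp.2⟩,
    fun i hi => (z i hi).2.1, m0⟩, (gK_blk (M := M n) mo dg (cp n ▸ m)).1 (e n ▸ eW),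
    funext fun i => ?_⟩
  rw [e i, ← a0]
  rfl

theorem keeps_qqm (m : ((y.1.1 n).charpoly * (y.1.2 n).charpoly).rootMultiplicity t = j)
    (h : (y.1.1 n).charpoly = (X - C t) ^ j) (i : ℕ) :
    Keeps (qqm j l y i) (gK t j (qqm j l y n)) := by
  rw [gb_gK m h]
  exact keeps_idl (charpoly_monic _) (by simp)

end Pts

section Cl
variable {P : Pt k} {T : PC P} {t : ∀ ⦃K⦄, P.X K → K} (ht : P.RegF t)
  (mX : ∀ ⦃K : Fld k⦄ (x : ((Xv d n (j + l)).over T).X K), ((Xv d n (j + l)).over T).L x →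
    (x.1 n).charpoly.rootMultiplicity (t x.2) = j)
include ht mX

theorem gb_regG : RegG ((Xv d n (j + l)).over T) fun _ x => gK (t x.2) j (x.1 n) :=
  fun _ _ φ x y a b r => (sr_gK (ht φ _ _ a.1.2 b.1.2 r.2) (r.1 n)).gr
    ((finrank_gK (mX y b)).trans (finrank_gK (mX x a)).symm)

theorem gb_closed : ((Xv d n (j + l)).over T).Closed
    fun _ x => ∀ i < n, Keeps (x.1 i) (gK (t x.2) j (x.1 n)) :=
  fun _ _ φ x y a b r h i hi => keeps_of_gr (gb_regG ht mX φ x y a b r) (r.1 i) (h i hi)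

theorem gb_uzero (hb : ∀ i < n, χ.ψ (d.b i) ≠ 1) :
    UZero ((((Xv d n (j + l)).over T).restr _ (gb_closed ht mX).not.conv).E χ) := by
  refine uzero_clean _ (W := fun _ x => gK (t x.2) j (x.1 n)) hb
    (fun _ _ φ x y a b r => gb_regG ht mX φ x y a.1 b.1 r) (fun _ _ _ => keeps_gK)
    (fun _ x a => by simpa only [not_forall, exists_prop] using a.2)
    fun _ x i u η a hi hk hu hη _ => ?_
  have e : gK (t x.2) j (bump (i + 1) u η x.1 n) = gK (t x.2) j (x.1 n) := by
    by_cases h : n = i + 1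
    · subst h
      rw [bump, update_self, gK_add (mX x a.1) hu hη]
    · rw [bump, update_of_ne h]
  refine ⟨fun c => a.2 fun i' hi' => ?_, e⟩
  by_cases h : i' = i + 1
  · exact hk i' (by omega) hi'.le
  · have : Keeps (bump (i + 1) u η x.1 i') (gK (t x.2) j (bump (i + 1) u η x.1 n)) := c i' hi'
    rwa [e, bump, update_of_ne h] at this

end Cl

theorem clean (hb : ∀ i < n, χ.ψ (d.b i) ≠ 1) : (tow d n).Clean χ := by
  intro j l P T t ht hj hl hT mult
  have pm := pqq d n j l hj hl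
  have mX ⦃K : Fld k⦄ (x : ((Xv d n (j + l)).over T).X K) (a : ((Xv d n (j + l)).over T).L x) :
      (x.1 n).charpoly.rootMultiplicity (t x.2) = j :=
    mult (fun _ => (x.1 n).charpoly) x.2 (goodP_charpoly a.1.1.2.top) a.1.2 a.2
  have lv ⦃K : Fld k⦄ (y : (((tow d n).Zv j l).over (EigA.gen j T ht)).X K)
      (a : (((tow d n).Zv j l).over (EigA.gen j T ht)).L y) :
      ((Xv d n (j + l)).over T).L (qqm j l y.1, y.2) :=
    ⟨⟨lqq a.1.1, a.1.2⟩, (pm.cond hT a.1.1 (lqq a.1.1)).1 a.2.1⟩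
  have top ⦃K : Fld k⦄ (y : (((tow d n).Zv j l).over (EigA.gen j T ht)).X K)
      (a : (((tow d n).Zv j l).over (EigA.gen j T ht)).L y) :
      (y.1.1.1 n).charpoly = (X - C (t y.2)) ^ j := (if_pos le_rfl).symm.trans a.2.2
  have mZ ⦃K : Fld k⦄ (y : (((tow d n).Zv j l).over (EigA.gen j T ht)).X K)
      (a : (((tow d n).Zv j l).over (EigA.gen j T ht)).L y) :
      ((y.1.1.1 n).charpoly * (y.1.1.2 n).charpoly).rootMultiplicity (t y.2) = j := by
    rw [← gb_charpoly (y := y.1) n]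
    exact mX (qqm j l y.1, y.2) (lv y a)
  have hi : IsMap (((tow d n).Zv j l).over (EigA.gen j T ht)) ((Xv d n (j + l)).over T)
      fun _ y => (qqm j l y.1, y.2) :=
    (EigA.isMap_gen j T ht _).comp (pm.over hT) fun _ _ a _ => ⟨a.1, a.2.1⟩
  have eb : (EigA.isMap_gen j T ht ((tow d n).Zv j l)).hom χ ≫
      ov χ ((tow d n).Zv j l) ((tow d n).X (j + l)) T ((tow d n).qq j l) = hi.hom χ := by
    rw [ov, (pm.over hT).hm_eq]
    exact IsMap.hom_comp _ _ _ (fun _ _ a _ => ⟨a.1, a.2.1⟩) fun _ _ _ _ => rfl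
  rw [eb]
  refine (ses hi (isMap_open (gb_closed ht mX).not) lv (fun _ y y' a a' e => ?_)
    (fun _ x a => ⟨fun h => ?_, ?_⟩) (fun _ _ _ _ _ _ h => h)
    fun _ z hz => ⟨z, hz.1, rfl⟩).uzero₃_iff.1 (gb_uzero ht mX hb)
  · have e2 : y.2 = y'.2 := (Prod.mk.inj e).2
    exact Prod.ext (qqm_inj hl (Prod.mk.inj e).1 (mZ y a) (top y a) (e2 ▸ top y' a')) e2
  · obtain ⟨y, l1, l2, l3⟩ := qqm_surj a.1.1 (mX x a) (not_not.1 fun c => h ⟨a, c⟩)
    refine ⟨(y, x.2), ⟨⟨l1, a.1.2⟩, (pm.cond hT l1 (lqq l1)).2 ?_, (if_pos le_rfl).trans l2⟩,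
      Prod.ext l3 rfl⟩
    rw [l3]
    exact a.2
  · rintro ⟨y, b, rfl⟩ c
    exact c.2 fun i _ => keeps_qqm (mZ y b) (top y b) i

end

end Pool.Agent.Lib.MP_fc2ced_ag.T.C
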