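import Pool.Agent.Lib.MP_fc2ced_ag.C.Q
import Pool.Agent.Lib.MP_fc2ced_ag.G.Ord

/-! Chains of length zero. -/

open CategoryTheory Function Polynomial Matrix

namespace Pool.Agent.Lib.MP_fc2ced_ag.T.C

open K

noncomputable section

variable {k : Type} [Field k] {F : Type} [Field F] {χ : Chr k F}

open MP_fc2ced_ag.T.Pt hiding X

section Quo
variable {A B A' B' : Ob k F} {q : A ⟶ B} {e : A ⟶ A} {q' : A' ⟶ B'} {e' : A' ⟶ A'}

theorem quo_of_sec {s : B ⟶ A} (h : Null (s ≫ q - 𝟙 _)) (h' : Null (q ≫ s - e)) :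
    Quo (𝟙 A) q e := fun Θ α hα => by
  rw [Θ.Φ.map_id, Category.id_comp] at hα
  subst hα
  exact ⟨Θ.Φ.map s, by rw [← Θ.Φ.map_comp, h.map_eq Θ, Θ.Φ.map_id],
    by rw [← Θ.Φ.map_comp, h'.map_eq Θ]⟩

theorem quo_of_null (h : Quo (𝟙 A') q' e') {a : A ⟶ A'} {b : B ⟶ B'} (ha : UIso a) (hb : UIso b)
    (h1 : Null (q ≫ b - a ≫ q')) (h2 : Null (e ≫ a - a ≫ e')) : Quo (𝟙 A) q e := fun Θ α hα => by
  rw [Θ.Φ.map_id, Category.id_comp] at hα
  subst hα
  obtain ⟨s, s1, s2⟩ := h Θ (Θ.Φ.map q') (by rw [Θ.Φ.map_id, Category.id_comp])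
  have := ha Θ
  have := hb Θ
  have e1 := h1.map_eq Θ
  have e2 := h2.map_eq Θ
  rw [Θ.Φ.map_comp, Θ.Φ.map_comp] at e1 e2
  refine ⟨Θ.Φ.map b ≫ s ≫ inv (Θ.Φ.map a), ?_, ?_⟩
  · rw [← cancel_mono (Θ.Φ.map b), Category.assoc, Category.assoc, Category.assoc, e1,
      IsIso.inv_hom_id_assoc, s1, Category.id_comp, Category.comp_id]
  · rw [reassoc_of% e1, reassoc_of% s2, ← reassoc_of% e2, IsIso.hom_inv_id, Category.comp_id]

end Quo

variable {d : Dat k} {w : ℕ} {P : Pt k} {T : PC P}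

theorem regP_zero : ((Xv d 0 w).over T).RegP fun _ x => (x.1 0).charpoly :=
  fun _ _ _ _ _ _ _ r => (r.1 0).charpoly

theorem IsComp.ext {K : Type} [Field K] {Y Y' : Mx w K} (h : IsComp Y) (h' : IsComp Y')
    (e : Y.charpoly = Y'.charpoly) : Y = Y' := by
  ext a b
  by_cases ha : (a : ℕ) + 1 < w
  · rw [h a b ha, h' a b ha]
  · have ha' : (a : ℕ) + 1 = w := by have := a.2; omega
    rw [h.coeff a b ha', h'.coeff a b ha', e]

/-- The sequence with one term. -/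
def z0 {β : Type} [Zero β] (b : β) : ℕ → β
  | 0 => b
  | _ + 1 => 0

theorem z0_pos {β : Type} [Zero β] (b : β) : ∀ i, 0 < i → z0 b i = 0
  | _ + 1, _ => rfl

theorem eq_z0 {β : Type} [Zero β] {x : ℕ → β} (h : ∀ i, 0 < i → x i = 0) : z0 (x 0) = x :=
  funext fun
    | 0 => rfl
    | i + 1 => (h (i + 1) i.succ_pos).symm

theorem xs_ext {K : Fld k} {Y Y' : (Xs d 0 w).X K} (h : (Xs d 0 w).L Y) (h' : (Xs d 0 w).L Y')
    (e : (Y 0).charpoly = (Y' 0).charpoly) : Y = Y' := by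
  rw [← eq_z0 h.1, ← eq_z0 h'.1, h.2.comp.ext h'.2.comp e]

theorem reg_zero (hT : T.Dep {w}) : ((Aw d 0 w).over T).Reg
    (((Xv d 0 w).over T).ord _ regP_zero (Fin w))
    fun _ x => ((qm x.1, x.2), fun a => x.1.1 a 0) :=
  ⟨fun _ _ h => ⟨⟨⟨⟨lq h.1.1, h.1.2⟩, ((pq d 0 w).cond hT h.1.1 (lq h.1.1)).1 h.2⟩,
      fun _ => trivial⟩, charpoly_qm h.1.1 0⟩,
    fun _ _ _ _ _ _ _ r => ⟨⟨mr_qm r.1, r.2⟩, fun a => r.1.1 a 0⟩⟩

theorem reg_zero_inv (hT : T.Dep {w}) : (((Xv d 0 w).over T).ord _ regP_zero (Fin w)).Reg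
    ((Aw d 0 w).over T) fun K y => ((fun a => z0 (y.2 a), z0 (sup K w)), y.1.2) := by
  refine ⟨fun K y h => ⟨⟨⟨fun a => ⟨z0_pos _, fun _ hi => absurd hi (Nat.not_lt_zero _),
      fun _ hi => absurd hi (Nat.not_lt_zero _), fun e => ?_⟩, z0_pos _, rfl, fun i => ?_⟩,
      h.1.1.1.2⟩, hT _ _ _ (fun m hm => ?_) h.1.1.2⟩,
    fun _ _ φ _ _ _ _ r => ⟨⟨fun a i => ?_, fun i => ?_⟩, r.1.2⟩⟩
  · have c := coeff_charpoly_zero (Y := y.1.1 0)
    rw [show (y.1.1 0).charpoly = _ from h.2, coeff_zero_eq_eval_zero, eval_prod,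
      Finset.prod_eq_zero (Finset.mem_univ a) (by
        rw [show y.2 a = 0 from e]; simp)] at c
    exact mul_ne_zero (pow_ne_zero _ (neg_ne_zero.2 one_ne_zero)) h.1.1.1.1.2.top c.symm
  · cases i with
    | zero => exact isNil_sup
    | succ i => exact fun _ _ _ => rfl
  · rw [show m = w from hm]
    exact h.2.trans (chiA_one_top y.2).symm
  · cases i with
    | zero => exact r.2 a
    | succ i => exact φ.zero
  · cases i with
    | zero => exact mr_sup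
    | succ i => exact mr_zero

theorem inv_zero {K : Fld k} {x : ((Aw d 0 w).over T).X K} (h : ((Aw d 0 w).over T).L x) :
    ((fun a => z0 (x.1.1 a 0), z0 (sup K w)), x.2) = x :=
  Prod.ext (Prod.ext (funext fun a => eq_z0 (h.1.1.1 a).1)
    (h.1.1.2.2.1 ▸ eq_z0 h.1.1.2.1)) rfl

theorem isMap_zero (hT : T.Dep {w}) : IsMap ((Aw d 0 w).over T)
    (((Xv d 0 w).over T).ord _ regP_zero (Fin w))
    fun _ x => ((qm x.1, x.2), fun a => x.1.1 a 0) := by
  refine .of_inv (reg_zero hT) (reg_zero_inv hT) (fun K x h => ?_) fun _ _ h => inv_zero h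
  change (fX d 0 (qm x.1) * _) * ∏ _a : Fin w, (1 : K) = _
  rw [Finset.prod_const_one, mul_one, fX_qm h.1.1]

theorem bij_zero (hT : T.Dep {w}) : Bij ((isMap_zero (d := d) hT).hom χ) := by
  refine IsMap.bij _ (reg_zero hT).live (fun K x x' h h' e => ?_) fun K y h => ?_
  · rw [← inv_zero h, ← inv_zero h', show x.2 = x'.2 from congrArg (·.1.2) e]
    exact congrArg (fun o : Fin w → K => ((fun a => z0 (o a), z0 (sup K w)), x'.2))
      (congrArg (·.2) e)
  · have l := (reg_zero_inv hT).live y h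
    exact ⟨_, l, Prod.ext (Prod.ext (xs_ext (lq l.1.1) h.1.1.1.1
      ((charpoly_qm l.1.1 0).trans h.2.symm)) rfl) rfl⟩

theorem hb_zero [CharZero F] (hT : T.Dep {w}) : (tow d 0).Hb χ w T := by
  classical
  obtain ⟨tr, t1, t2⟩ := ((Xv d 0 w).over T).exists_ordTr (χ := χ) _ regP_zero (Fin w)
    fun _ x _ => ⟨charpoly_monic _, charpoly_natDegree_eq_dim _⟩
  have c0 : ((Fintype.card (Fin w)).factorial : F) ≠ 0 :=
    Nat.cast_ne_zero.2 (Nat.factorial_ne_zero _)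
  have hq := quo_of_sec (s := ((Fintype.card (Fin w)).factorial : F)⁻¹ • tr)
    (q := (((Xv d 0 w).over T).isMap_ord _ regP_zero (Fin w)).hom χ)
    (e := ((Fintype.card (Fin w)).factorial : F)⁻¹ •
      ∑ π, (((Xv d 0 w).over T).isMap_ordPerm _ regP_zero (Fin w) π).hom χ)
    (by rw [Linear.smul_comp, t1, smul_smul, inv_mul_cancel₀ c0, one_smul, sub_self]; exact .zero)
    (by rw [Linear.comp_smul, t2, sub_self]; exact .zero)
  refine quo_of_null hq (bij_zero hT).uiso UIso.id ?_ ?_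
  · rw [Category.comp_id, IsMap.hom_comp _ _ ((pq d 0 w).over hT)
      (fun _ x h _ => (reg_zero hT).live x h) fun _ _ _ _ => rfl]
    rw [show (tow d 0).oq χ w T = ((pq d 0 w).over hT).hom χ from IsMap.hm_eq _, sub_self]
    exact .zero
  · have e : ∀ σ : Equiv.Perm (Fin w), (tow d 0).op χ T σ ≫ (isMap_zero hT).hom χ =
        (isMap_zero hT).hom χ ≫
          (((Xv d 0 w).over T).isMap_ordPerm _ regP_zero (Fin w) σ.symm).hom χ := fun σ => by
      have p := Tow.pend_top (D := tow d 0) σ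
      have l : ∀ ⦃K⦄ (x : ((Aw d 0 w).over T).X K), ((Aw d 0 w).over T).L x →
          ((Aw d 0 w).over T).L (pmm σ x.1, x.2) := fun _ x h =>
        ⟨⟨p.live x.1 h.1.1, h.1.2⟩, (p.toPMap.cond hT h.1.1 (p.live x.1 h.1.1)).1 h.2⟩
      rw [show (tow d 0).op χ T σ = (p.toPMap.over hT).hom χ from IsMap.hm_eq _]
      refine IsMap.comm _ _ _ _ (fun _ x h => ⟨fun _ => ⟨(reg_zero hT).live x h,
        ord_perm ((reg_zero hT).live x h) _⟩, fun _ => ⟨l x h, (reg_zero hT).live _ (l x h)⟩⟩)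
        fun _ x h _ _ => Prod.ext (Prod.ext (xs_ext (lq (l x h).1.1) (lq h.1.1) ?_) rfl) rfl
      exact (charpoly_qm (l x h).1.1 0).trans ((Equiv.prod_comp σ.symm
        fun a => X - C (x.1.1 a 0)).trans (charpoly_qm h.1.1 0).symm)
    have y1 : yS w ∅ = Finset.univ := by simp [yS, young_empty]
    have y2 : ∀ σ, yR F (tow d 0).d w ∅ σ = ((Fintype.card (Fin w)).factorial : F)⁻¹ := fun σ => by
      have : eps F (0 + 1) w σ = 1 := by
        rcases Int.units_eq_one_or (Equiv.Perm.sign σ) with h | h <;> simp [eps, h]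
      rw [yR, young_empty, this, mul_one, Subgroup.card_top, Nat.card_eq_fintype_card,
        Fintype.card_perm]
    rw [Tow.eI, y1, Preadditive.sum_comp, Linear.comp_smul, Preadditive.comp_sum, Finset.smul_sum]
    refine fun Θ => (congrArg Θ.Φ.map (sub_eq_zero.2 (Fintype.sum_equiv
      (Equiv.inv (Equiv.Perm (Fin w))) _ _ fun σ => ?_))).trans (Θ.Φ.map_zero _ _)
    rw [Linear.smul_comp, e σ, y2 σ]
    rfl

end

end Pool.Agent.Lib.MP_fc2ced_ag.T.C
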