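import Pool.Agent.Lib.MP_fc2ced_ag.C.Defs
import Pool.Agent.Lib.MP_fc2ced_ag.C.Cells

/-! The general linear group over the determinant. -/

open CategoryTheory Function Polynomial Matrix

namespace Pool.Agent.Lib.MP_fc2ced_ag.T.C

open K

noncomputable section

variable (k : Type) [Field k] {F : Type} [Field F] {χ : Chr k F} (b : ℤ) (w : ℕ)

open MP_fc2ced_ag.T.Pt hiding X

/-- Invertible matrices without the eigenvalue one. -/
@[reducible] def Gv : PV k where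
  S := ((mat k (Fin w) (Fin w)).restr (fun _ g => g.det ≠ 0 ∧ (1 - g).det ≠ 0)
    (Open.conv fun _ _ _ _ _ _ _ r h => ⟨(MR.det r).ne_zero h.1,
      (mr_one.sub r).det.ne_zero h.2⟩)).withF (fun _ g => (1 - g).det ^ b)
    (fun _ _ _ _ _ _ h r => rel_zpow (mr_one.sub r).det h.2.2 b)
    fun _ _ h => zpow_ne_zero _ h.2.2
  c _ g _ := C g.det
  hc _ _ _ _ _ _ _ _ r := .C (MR.det r)

/-- Strictly upper triangular matrices. -/
@[reducible] def Nil : Pt k :=
  (mat k (Fin w) (Fin w)).restr (fun _ N => IsNil N)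
    (Closed.conv fun _ _ _ _ _ _ _ r h => MR.isNil r h)

/-- The triangular part. -/
@[reducible] def Bv : PV k where
  S := (box k fun _ : Fin w => -b).prod (Nil k w)
  c _ x _ := C (∏ a, x.1 a)
  hc _ _ _ _ _ _ _ _ r := .C (Place.prod fun a _ => r.1 a)

variable {w} in
/-- The inclusion. -/
def ib {K : Type} [Field K] (x : (Fin w → K) × Mx w K) : Mx w K := diagonal x.1 + x.2

section Aux
variable {w} {K : Type} [Field K] {x : (Fin w → K) × Mx w K} {g : Mx w K}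

/-- The diagonal and the rest. -/
def dg (g : Mx w K) : (Fin w → K) × Mx w K := (fun a => g a a, g - diagonal fun a => g a a)

theorem ib_dg : ib (dg g) = g := add_sub_cancel _ _

theorem ib_diag (h : IsNil x.2) (a : Fin w) : ib x a a = x.1 a := by
  simp [ib, h a a le_rfl]

theorem dg_ib (h : IsNil x.2) : dg (ib x) = x := by
  have e : (fun a => ib x a a) = x.1 := funext (ib_diag h)
  rw [dg, e, ib, add_sub_cancel_left]

theorem ib_low (h : IsNil x.2) (a a' : Fin w) (e : a' < a) : ib x a a' = 0 := by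
  simp [ib, h a a' e.le, e.ne']

theorem isNil_dg (h : ∀ a a' : Fin w, a' < a → g a a' = 0) : IsNil (dg g).2 := fun a a' e => by
  rcases e.eq_or_lt with rfl | e
  · simp [dg]
  · simp [dg, h a a' e, e.ne']

theorem det_ib (h : IsNil x.2) : (ib x).det = ∏ a, x.1 a := h.det

theorem det_one_sub_ib (h : IsNil x.2) : (1 - ib x).det = ∏ a, (1 - x.1 a) := by
  have e : 1 - ib x = diagonal (fun a => 1 - x.1 a) + -x.2 := by
    rw [ib, ← diagonal_sub, diagonal_one]
    abel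
  rw [e]
  exact IsNil.det fun a a' l => by rw [neg_apply, h a a' l, neg_zero]

/-- The move of rank one. -/
def mvG (r : K) (z η : Fin w → K) (g : Mx w K) : Mx w K :=
  g + vecMulVec ((1 - r) • (1 - g) *ᵥ z) η

variable {r : K} {z η : Fin w → K} {W : Sb w K}

theorem one_sub_mvG : 1 - mvG r z η g = 1 - g + vecMulVec ((r - 1) • (1 - g) *ᵥ z) η := by
  ext a a'
  simp only [mvG, Matrix.sub_apply, Matrix.add_apply, vecMulVec_apply, Pi.smul_apply, smul_eq_mul]
  ring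

theorem det_one_sub_mvG (h : (1 - g).det ≠ 0) (e : η ⬝ᵥ z = 1) :
    (1 - mvG r z η g).det = (1 - g).det * r := by
  rw [one_sub_mvG, det_add_one h, mulVec_smul, mulVec_mulVec, nonsing_inv_mul _ h.isUnit,
    one_mulVec, dotProduct_smul, e, smul_eq_mul, mul_one, add_sub_cancel]

theorem det_mvG (h0 : g.det ≠ 0) (hz : (1 - g) *ᵥ z ∈ im g W) (p : Perp η W) :
    (mvG r z η g).det = g.det := by
  obtain ⟨v, hv, e⟩ := hz
  rw [toLin'_apply] at e
  rw [mvG, det_add_one h0, ← e, mulVec_smul, mulVec_mulVec, nonsing_inv_mul _ h0.isUnit,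
    one_mulVec, dotProduct_smul, p v hv, smul_zero, add_zero, mul_one]

theorem mvG_mulVec (p : Perp η W) {v : Fin w → K} (hv : v ∈ W) : mvG r z η g *ᵥ v = g *ᵥ v := by
  rw [mvG, add_one_mulVec, p v hv, zero_smul, add_zero]

theorem mvG_one : mvG 1 z η g = g := by
  ext a a'
  simp [mvG]

theorem mvG_inv (hr : r ≠ 0) (e : η ⬝ᵥ z = 1) : mvG r⁻¹ z η (mvG r z η g) = g := by
  rw [mvG, one_sub_mvG, add_one_mulVec, e, one_smul]
  ext a a'
  simp only [mvG, Matrix.add_apply, vecMulVec_apply, Pi.smul_apply, Pi.add_apply, smul_eq_mul]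
  field_simp
  ring

theorem ek_mono {m m' : ℕ} (h : m' ≤ m) : Ek w K m' ≤ Ek w K m :=
  fun _ hv a e => hv a (h.trans e)

theorem not_im_le (h : (1 - g).det ≠ 0) (c : ¬ Keeps g W) : ¬ im (1 - g)⁻¹ (im g W) ≤ W := by
  refine fun e => c fun v hv => ?_
  have k : Keeps (1 - g)⁻¹ W := fun u hu => by
    have h1 : (1 - g)⁻¹ *ᵥ u = u + (1 - g)⁻¹ *ᵥ g *ᵥ u := by
      rw [← sub_eq_iff_eq_add, ← mulVec_sub]
      nth_rw 1 [← one_mulVec u]
      rw [← sub_mulVec, mulVec_mulVec, nonsing_inv_mul _ h.isUnit, one_mulVec]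
    rw [h1]
    exact W.add_mem hu (e (mem_im (mem_im hu)))
  have h2 := W.sub_mem hv (k.of_inv h v hv)
  rwa [sub_mulVec, one_mulVec, sub_sub_cancel] at h2

theorem prod_pair {u v : Fin w → K} {a a' : Fin w} (ne : a ≠ a')
    (h : ∀ i, i ≠ a → i ≠ a' → v i = u i) (e : v a * v a' = u a * u a') :
    ∏ i, v i = ∏ i, u i := by
  have h1 (u : Fin w → K) :
      ∏ i, u i = u a * u a' * ∏ i ∈ (Finset.univ.erase a).erase a', u i := by
    rw [mul_assoc, Finset.mul_prod_erase _ _ (by simp [ne.symm]),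
      Finset.mul_prod_erase _ _ (by simp)]
  rw [h1 u, h1 v, e, Finset.prod_congr rfl fun i hi => h i (by simp_all) (by simp_all)]

/-- Two entries are replaced. -/
def rp (a a' : Fin w) (x : Fin w → K) (s t : K) (i : Fin w) : K :=
  if i = a then s else if i = a' then t else x i

end Aux

variable {k} {P : Pt k} (T : PC P)

theorem dep_all : T.Dep Set.univ := fun _ _ _ _ e h => funext (fun m => e m trivial) ▸ h

theorem live_ib ⦃K : Fld k⦄ (x : (Bv k b w).S.X K) (h : (Bv k b w).S.L x) :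
    (Gv k b w).S.L (ib x) :=
  ⟨trivial, by
    rw [det_ib h.2.2]
    exact Finset.prod_ne_zero_iff.2 fun a _ => (h.1.2 a).1, by
    rw [det_one_sub_ib h.2.2]
    exact Finset.prod_ne_zero_iff.2 fun a _ => sub_ne_zero.2 (h.1.2 a).2.symm⟩

theorem live_dg ⦃K : Fld k⦄ (g : (Gv k b w).S.X K) (h : (Gv k b w).S.L g)
    (e : ∀ a a' : Fin w, a' < a → g a a' = 0) : (Bv k b w).S.L (dg g) := by
  have n := isNil_dg e
  have h1 := det_ib n
  have h2 := det_one_sub_ib n
  rw [ib_dg] at h1 h2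
  exact ⟨⟨fun _ => trivial, fun a =>
    ⟨Finset.prod_ne_zero_iff.1 (h1 ▸ h.2.1) a (Finset.mem_univ a),
      (sub_ne_zero.1 (Finset.prod_ne_zero_iff.1 (h2 ▸ h.2.2) a (Finset.mem_univ a))).symm⟩⟩,
    trivial, n⟩

theorem pmap_ib : PMap (Bv k b w) (Gv k b w) Set.univ fun _ x => ib x := by
  refine ⟨.of_proper ⟨live_ib b w, fun _ _ _ _ _ _ _ r => (mr_diagonal r.1).add r.2⟩
    (fun K x h => ?_) fun K K' φ x z hx hz r => ⟨dg z, live_dg b w z hz fun a a' e =>
      (r a a').eq_of φ.zero (ib_low hx.2.2 a a' e), ?_⟩,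
    fun K x h _ m _ => congrArg C (det_ib h.2.2)⟩
  · change (1 - ib x).det ^ b = (∏ i, (1 - x.1 i) ^ (- -b)) * 1
    rw [det_one_sub_ib h.2.2, neg_neg, mul_one, Finset.prod_zpow]
  · rw [← dg_ib hx.2.2]
    exact ⟨fun a => r a a, MR.sub r (mr_diagonal fun a => r a a)⟩

variable {b}

theorem rank_low (m : ℕ) (hm : m < w)
    (c : ((Gv k b w).over T).Conv fun _ x => ¬ ∀ a a' : Fin w, a' < a → x.1 a a' = 0)
    (c' : (((Gv k b w).over T).restr _ c).Conv fun K x =>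
      (∀ m' < m, Keeps x.1 (Ek w K m')) ∧ ¬ Keeps x.1 (Ek w K m)) :
    Rank ((((Gv k b w).over T).restr _ c).restr _ c') b
      (fun K x => im (1 - x.1)⁻¹ (im x.1 (Ek w K m))) (fun K _ => Ek w K m)
      fun _ r z η x => (mvG r z η x.1, x.2) where
  rU _ _ _ _ _ _ h r :=
    ((sr_of_gr (gr_ek m)).im r.1).im ((mr_one.sub r.1).inv h.1.1.1.1.2.2)
  rZ _ _ _ _ _ _ _ _ := sr_of_gr (gr_ek m)
  ne _ _ h := not_im_le h.1.1.1.1.2.2 h.2.2
  one _ _ _ _ _ := Prod.ext mvG_one rfl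
  spec K r z η x hr h hz p e := by
    have h0 := h.1.1.1.1.2.1
    have h1 := h.1.1.1.1.2.2
    have hz' := (mem_im_inv h1).1 hz
    have d0 : (mvG r z η x.1).det = x.1.det := det_mvG h0 hz' p
    have d1 : (1 - mvG r z η x.1).det = (1 - x.1).det * r := det_one_sub_mvG h1 e
    have kp : ∀ m' ≤ m, Keeps (mvG r z η x.1) (Ek w K m') ↔ Keeps x.1 (Ek w K m') :=
      fun m' l => forall₂_congr fun v hv => by rw [mvG_mulVec p (ek_mono l hv)]
    refine ⟨⟨⟨⟨⟨⟨trivial, d0 ▸ h0, d1 ▸ mul_ne_zero h1 hr⟩, h.1.1.1.2⟩, ?_⟩, fun l =>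
      h.2.2 ((kp m le_rfl).1 (keeps_ek.2 l m hm))⟩, fun m' l => (kp m' l.le).2 (h.2.1 m' l),
      fun l => h.2.2 ((kp m le_rfl).1 l)⟩, ?_, rfl, ?_, Prod.ext (mvG_inv hr e) rfl⟩
    · change T.T (fun _ => C (mvG r z η x.1).det) x.2
      rw [d0]
      exact h.1.1.2
    · change im (1 - mvG r z η x.1)⁻¹ (im (mvG r z η x.1) (Ek w K m)) = _
      have d2 := d1.trans_ne (mul_ne_zero h1 hr)
      rw [one_sub_mvG] at d2
      rw [im_congr fun v hv => mvG_mulVec p hv, one_sub_mvG,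
        im_inv_add h1 d2 (Submodule.smul_mem _ _ hz')]
    · change (1 - mvG r z η x.1).det ^ b * P.f x.2 = (1 - x.1).det ^ b * P.f x.2 * r ^ b
      rw [d1, mul_zpow, mul_right_comm]
  reg _ _ φ _ _ _ _ _ _ _ _ hr hz hη _ _ h := ⟨MR.add h.1 (mr_vecMulVec
    (fun a => (φ.one.sub hr).mul ((mr_one.sub h.1).mulVec hz a)) hη), h.2⟩

/-- The matrices that are not triangular do not count. -/
theorem uzero_low (hb : χ.ψ b ≠ 1)
    (c : ((Gv k b w).over T).Conv fun _ x => ¬ ∀ a a' : Fin w, a' < a → x.1 a a' = 0) :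
    UZero ((((Gv k b w).over T).restr _ c).E χ) :=
  uzero_first (Z := fun m K x => Keeps x.1 (Ek w K m))
    (fun m _ _ _ _ _ _ _ r h => keeps_of_gr (gr_ek m) r.1 h) w
    (fun _ x h => by
      by_contra! l
      exact h.2 (keeps_ek.1 l))
    fun m hm c' => (rank_low w T m hm c c').uzero hb

theorem uiso_ib (hb : χ.ψ b ≠ 1) : UIso (ov χ (Bv k b w) (Gv k b w) T fun _ x => ib x) := by
  have cl : ((Gv k b w).over T).Closed fun _ x => ∀ a a' : Fin w, a' < a → x.1 a a' = 0 :=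
    fun _ _ φ _ _ _ _ r h a a' e => (r.1 a a').eq_of φ.zero (h a a' e)
  have pm := pmap_ib (k := k) b w
  have lv : ∀ ⦃K⦄ (x : ((Bv k b w).over T).X K), ((Bv k b w).over T).L x →
      ((Gv k b w).over T).L (ib x.1, x.2) := fun _ x a =>
    have l := live_ib b w x.1 a.1.1
    ⟨⟨l, a.1.2⟩, (pm.cond (dep_all T) a.1.1 l).1 a.2⟩
  rw [ov, (pm.over (dep_all T)).hm_eq]
  refine (ses _ (isMap_open cl.not) lv (fun _ x y a a' e => Prod.ext ?_ (Prod.mk.inj e).2)
    (fun _ y hy => ⟨fun l => ?_, ?_⟩) (fun _ _ _ _ _ _ h => h)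
    fun _ z hz => ⟨z, hz.1, rfl⟩).uzero₃_iff.1 (uzero_low w T hb _)
  · rw [← dg_ib a.1.1.2.2, ← dg_ib a'.1.1.2.2, (Prod.mk.inj e).1]
  · have l' := live_dg b w y.1 hy.1.1 (not_not.1 fun l' => l ⟨hy, l'⟩)
    refine ⟨(dg y.1, y.2), ⟨⟨l', hy.1.2⟩, (pm.cond (dep_all T) l' (live_ib b w _ l')).2 ?_⟩,
      Prod.ext ib_dg rfl⟩
    rw [ib_dg]
    exact hy.2
  · rintro ⟨x, a, rfl⟩ l
    exact l.2 (ib_low a.1.1.2.2)

theorem swap_box {a a' : Fin w} (ne : a ≠ a') :
    ((Bv k b w).over T).Swap b (fun _ x => 1 - x.1.1 a) (fun _ x => 1 - x.1.1 a')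
      (fun _ _ => -1) fun _ x s t => ((rp a a' x.1.1 (1 - s) (1 - t), x.1.2), x.2) := by
  have ea {K : Fld k} (x : Fin w → K) (s t : K) : rp a a' x s t a = s := by simp [rp]
  have eb {K : Fld k} (x : Fin w → K) (s t : K) : rp a a' x s t a' = t := by simp [rp, ne.symm]
  have ec {K : Fld k} (x : Fin w → K) (s t : K) (i : Fin w) (h : i ≠ a) (h' : i ≠ a') :
      rp a a' x s t i = x i := by rw [rp, if_neg h, if_neg h']
  have self {K : Fld k} (x y : Fin w → K) (h : ∀ i, i ≠ a → i ≠ a' → y i = x i) :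
      rp a a' y (x a) (x a') = x := by
    funext i
    simp only [rp]
    split_ifs with h1 h2
    · rw [h1]
    · rw [h2]
    · exact h i h1 h2
  have ne1 {K : Fld k} (x : ((Bv k b w).over T).X K) (h : ((Bv k b w).over T).L x)
      (i : Fin w) : 1 - x.1.1 i ≠ 0 := sub_ne_zero.2 (h.1.1.1.2 i).2.symm
  refine ⟨fun _ _ φ _ _ _ _ r => φ.one.sub (r.1.1 _), fun _ _ φ _ _ _ _ r => φ.one.sub (r.1.1 _),
    regF_one.neg, fun _ x h => mul_ne_zero (ne1 x h a) (ne1 x h a'),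
    fun K x _ => Prod.ext (Prod.ext ?_ rfl) rfl, fun K x s t h h1 e => ?_,
    fun K K' φ x y s t s' t' _ _ r hs ht _ _ => ⟨⟨fun i => ?_, r.1.2⟩, r.2⟩⟩
  · simp only [sub_sub_cancel]
    exact self x.1.1 x.1.1 fun _ _ _ => rfl
  · have e' : (1 - s) * (1 - t) = x.1.1 a * x.1.1 a' := by linear_combination -e
    have h0 : (1 - s) * (1 - t) ≠ 0 := e' ▸ mul_ne_zero (h.1.1.1.2 _).1 (h.1.1.1.2 _).1
    refine ⟨⟨⟨⟨⟨fun _ => trivial, fun i => ?_⟩, h.1.1.2⟩, h.1.2⟩, ?_⟩, ?_, ?_, rfl, ?_,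
      Prod.ext (Prod.ext ?_ rfl) rfl⟩
    · simp only [rp]
      split_ifs
      exacts [⟨left_ne_zero_of_mul h0, by simpa using left_ne_zero_of_mul h1⟩,
        ⟨right_ne_zero_of_mul h0, by simpa using right_ne_zero_of_mul h1⟩, h.1.1.1.2 i]
    · change T.T (fun _ => C (∏ i, rp a a' x.1.1 (1 - s) (1 - t) i)) x.2
      rw [prod_pair ne (ec x.1.1 _ _) (by rw [ea, eb, e'])]
      exact h.2
    · simp only [ea, sub_sub_cancel]
    · simp only [eb, sub_sub_cancel]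
    · change (∏ i, (1 - rp a a' x.1.1 (1 - s) (1 - t) i) ^ (- -b)) * 1 * P.f x.2 =
        (∏ i, (1 - x.1.1 i) ^ (- -b)) * 1 * P.f x.2 * _
      rw [neg_neg, mul_one, mul_one, mul_right_comm, Finset.prod_zpow, Finset.prod_zpow,
        ← mul_zpow]
      congr 2
      have h2 := prod_pair (u := fun i => (1 - x.1.1 i) *
          if i = a then s * t / ((1 - x.1.1 a) * (1 - x.1.1 a')) else 1)
        (v := fun i => 1 - rp a a' x.1.1 (1 - s) (1 - t) i) ne
        (fun i h2 h3 => by rw [ec _ _ _ i h2 h3, if_neg h2, mul_one]) (by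
          rw [ea, eb, if_pos rfl, if_neg ne.symm, mul_one, sub_sub_cancel, sub_sub_cancel,
            mul_right_comm, mul_div_cancel₀ _ (mul_ne_zero (ne1 x h a) (ne1 x h a'))])
      rw [h2, Finset.prod_mul_distrib, Finset.prod_ite_eq', if_pos (Finset.mem_univ _)]
    · simp only [sub_sub_cancel]
      exact self x.1.1 _ (ec x.1.1 _ _)
  · simp only [rp]
    split_ifs
    exacts [φ.one.sub hs, φ.one.sub ht, r.1.1 i]

theorem acts_swap (hb : χ.ψ b ≠ 1) {a a' : Fin w} (h : a ≠ a') : ((Bv k b w).over T).Acts χ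
    (fun _ x => ((fun i => x.1.1 (Equiv.swap a a' i), x.1.2), x.2)) (-1) := by
  have e {K : Fld k} (x : Fin w → K) :
      (fun i => x (Equiv.swap a a' i)) = rp a a' x (x a') (x a) := by
    funext i
    simp only [rp, Equiv.swap_apply_def]
    split_ifs <;> rfl
  simp only [e]
  simpa only [sub_sub_cancel] using (swap_box w T h).acts hb

theorem acts_sign (hb : χ.ψ b ≠ 1) (σ : Equiv.Perm (Fin w)) : ((Bv k b w).over T).Acts χ
    (fun _ x => ((fun i => x.1.1 (σ.symm i), x.1.2), x.2)) ((σ.sign : ℤ) : F) := by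
  induction σ using Equiv.Perm.swap_induction_on with
  | one =>
    rw [Equiv.Perm.sign_one, Units.val_one, Int.cast_one]
    exact Acts.of_fix fun _ _ _ => rfl
  | swap_mul π a a' e ih =>
    refine ih.comp (acts_swap w T hb e) (fun K x h =>
      ⟨⟨⟨⟨fun _ => trivial, fun i => h.1.1.1.2 _⟩, h.1.1.2⟩, h.1.2⟩, ?_⟩) (fun _ _ _ => rfl) ?_
    · change T.T (fun _ => C (∏ i, x.1.1 (π.symm i))) x.2
      rw [Equiv.prod_comp π.symm x.1.1]
      exact h.2
    · simp [Equiv.Perm.sign_swap e]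

end

end Pool.Agent.Lib.MP_fc2ced_ag.T.C
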