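import Pool.Agent.Lib.MP_fc2ced_ag.C.Fac
import Pool.Agent.Lib.MP_fc2ced_ag.C.NormA
import Pool.Agent.Lib.MP_fc2ced_ag.C.NormB
import Pool.Agent.Lib.MP_fc2ced_ag.G.Lin

/-! Over the norm, the last matrix of a chain splits off. -/

open CategoryTheory Function Polynomial Matrix

namespace Pool.Agent.Lib.MP_fc2ced_ag.T.C

open K

noncomputable section

variable {k : Type} [Field k] {F : Type} [Field F] {χ : Chr k F} (d : Dat k) (n w : ℕ)
  {P : Pt k} (T : PC P) (Q : Pt k)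

open MP_fc2ced_ag.T.Pt hiding X
open G (Nm)

open Classical in
/-- The exponents at the node `n` for the shorter chain. -/
def aP (μ : d.Λ) : ℤ := d.a n μ + if (μ : k) = 0 then d.b n else 0

/-- The last factor is a parameter. -/
def Tn (V : PV k) : PC (V.S.prod ((mt k (aP d n)).prod P)) where
  T K c y := (∀ μ : d.Λ, y.2.1 μ = (c w).eval (algebraMap k K μ)) ∧
    T.T (fun _ => c w * V.c y.1 0) y.2.2
  conv _ _ _ φ φ' _ _ _ p p' p'' a b c h h' r r' t t' :=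
    ⟨fun μ => (r.2.1 μ).eq_of ((h w).eval (φ.alg μ)) (t.1 μ),
      T.conv φ φ' _ _ _ _ _ _ a.2.2 b.2.2 c.2.2
        (fun _ => (h w).mul (V.hc 0 φ p.1 p'.1 a.1 b.1 r.1))
        (fun _ => (h' w).mul (V.hc 0 φ' p'.1 p''.1 b.1 c.1 r'.1)) r.2.2 r'.2.2 t.2 t'.2⟩

theorem dep_Tn (V : PV k) : (Tn d n w T V).Dep {w} :=
  fun _ _ _ _ e h => by
    have := e w rfl
    exact ⟨this ▸ h.1, this ▸ h.2⟩

/-- The truncation of a sequence. -/
def trc {α : Type} [Zero α] (n : ℕ) (y : ℕ → α) (i : ℕ) : α := if i ≤ n then y i else 0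

/-- The long triangular chains. -/
abbrev A1 : Pt k := (Aw d (n + 1) w).over (T.tw Q)

/-- The long chains. -/
abbrev X1 : Pt k := (Xv d (n + 1) w).over (T.tw Q)

/-- The short triangular chains with a triangular matrix. -/
abbrev AB : Pt k := (Aw d n w).over ((Tn d n w T (Bv k (d.b n) w)).tw Q)

/-- The short triangular chains with a matrix. -/
abbrev AG : Pt k := (Aw d n w).over ((Tn d n w T (Gv k (d.b n) w)).tw Q)

/-- The short chains with a matrix. -/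
abbrev XG : Pt k := (Xv d n w).over ((Tn d n w T (Gv k (d.b n) w)).tw Q)

/-- The last node is split off. -/
def al ⦃K : Fld k⦄ (x : (A1 d n w T Q).X K) : (AB d n w T Q).X K :=
  ((fun a => trc n (x.1.1 a), trc n x.1.2), x.2.1,
    (fun a => x.1.1 a (n + 1) / x.1.1 a n, x.1.2 (n + 1)),
    fun μ => ∏ a, (algebraMap k K μ - x.1.1 a n), x.2.2)

/-- The last node is split off. -/
def be ⦃K : Fld k⦄ (x : (X1 d n w T Q).X K) : (XG d n w T Q).X K :=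
  (trc n x.1, x.2.1, (x.1 n)⁻¹ * x.1 (n + 1),
    fun μ => (x.1 n).charpoly.eval (algebraMap k K μ), x.2.2)

/-- The inclusion of the triangular matrices. -/
def ibA ⦃K : Fld k⦄ (x : (AB d n w T Q).X K) : (AG d n w T Q).X K :=
  (x.1, x.2.1, ib x.2.2.1, x.2.2.2)

/-- The permutation of the diagonal entries. -/
def pB (σ : Equiv.Perm (Fin w)) ⦃K : Fld k⦄ (x : (AB d n w T Q).X K) : (AB d n w T Q).X K :=
  (x.1, x.2.1, (fun i => x.2.2.1.1 (σ.symm i), x.2.2.1.2), x.2.2.2)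

/-- The rows are divided by the eigenvalues. -/
def scB ⦃K : Fld k⦄ (x : (AB d n w T Q).X K) : (AB d n w T Q).X K :=
  (x.1, x.2.1, (x.2.2.1.1, (diagonal fun a => x.1.1 a n)⁻¹ * x.2.2.1.2), x.2.2.2)

/-- The family of comparison maps. -/
def cmB ⦃K : Fld k⦄ (s : K) (x : (AB d n w T Q).X K) : (XG d n w T Q).X K :=
  (qm x.1, x.2.1, cj (seg s (Rx fun a => x.1.1 a 0))
    (((diagonal fun a => x.1.1 a n) + s • x.1.2 n)⁻¹ *
      ((diagonal fun a => x.1.1 a n * x.2.2.1.1 a) + x.2.2.1.2)), x.2.2.2)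

section Resh
variable (U V : PV k) {V' : PV k} {e : ∀ ⦃K⦄, V.S.X K → V'.S.X K}

/-- The chain is a parameter. -/
def Tr : PC (U.S.prod (Q.prod ((mt k (aP d n)).prod P))) where
  T K c y := (∀ μ : d.Λ, y.2.2.1 μ = (U.c y.1 w).eval (algebraMap k K μ)) ∧
    T.T (fun _ => U.c y.1 w * c 0) y.2.2.2
  conv _ _ _ φ φ' _ _ _ p p' p'' a b c h h' r r' t t' :=
    ⟨fun μ => (r.2.2.1 μ).eq_of ((U.hc w φ p.1 p'.1 a.1 b.1 r.1).eval (φ.alg μ)) (t.1 μ),
      T.conv φ φ' _ _ _ _ _ _ a.2.2.2 b.2.2.2 c.2.2.2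
        (fun _ => (U.hc w φ p.1 p'.1 a.1 b.1 r.1).mul (h 0))
        (fun _ => (U.hc w φ' p'.1 p''.1 b.1 c.1 r'.1).mul (h' 0)) r.2.2.2 r'.2.2.2 t.2 t'.2⟩

theorem dep_Tr : (Tr d n w T Q U).Dep Set.univ :=
  fun _ _ _ _ e h => ⟨h.1, e 0 trivial ▸ h.2⟩

theorem live_rs ⦃K : Fld k⦄ (x : (U.over ((Tn d n w T V).tw Q)).X K)
    (h : (U.over ((Tn d n w T V).tw Q)).L x) :
    (V.over (Tr d n w T Q U)).L (x.2.2.1, x.1, x.2.1, x.2.2.2) :=
  ⟨⟨h.1.2.2.1, h.1.1, h.1.2.1, h.1.2.2.2⟩, h.2⟩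

theorem live_sr ⦃K : Fld k⦄ (x : (V.over (Tr d n w T Q U)).X K)
    (h : (V.over (Tr d n w T Q U)).L x) :
    (U.over ((Tn d n w T V).tw Q)).L (x.2.1, x.2.2.1, x.1, x.2.2.2) :=
  ⟨⟨h.1.2.1, h.1.2.2.1, h.1.1, h.1.2.2.2⟩, h.2⟩

theorem isMap_rs : IsMap (U.over ((Tn d n w T V).tw Q)) (V.over (Tr d n w T Q U))
    fun _ x => (x.2.2.1, x.1, x.2.1, x.2.2.2) :=
  .of_inv (g := fun _ x => (x.2.1, x.2.2.1, x.1, x.2.2.2))
    ⟨live_rs d n w T Q U V, fun _ _ _ _ _ _ _ r => ⟨r.2.2.1, r.1, r.2.1, r.2.2.2⟩⟩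
    ⟨live_sr d n w T Q U V, fun _ _ _ _ _ _ _ r => ⟨r.2.1, r.2.2.1, r.1, r.2.2.2⟩⟩
    (fun _ _ _ => (mul_left_comm _ _ _).trans (congrArg _ (mul_left_comm _ _ _)))
    fun _ _ _ => rfl

theorem uiso_rs : UIso ((isMap_rs d n w T Q U V).hom χ) :=
  (IsMap.bij _ (live_rs d n w T Q U V) (fun _ ⟨_, _, _, _⟩ ⟨_, _, _, _⟩ _ _ h => by
    cases h; rfl) fun _ y h => ⟨_, live_sr d n w T Q U V y h, rfl⟩).uiso

variable {V} in
theorem isMap_mid (h : PMap V V' Set.univ e) :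
    IsMap (U.over ((Tn d n w T V).tw Q)) (U.over ((Tn d n w T V').tw Q))
      fun _ x => (x.1, x.2.1, e x.2.2.1, x.2.2.2) :=
  (isMap_id.prod (isMap_id.prod (h.map.prod isMap_id))).restr _ _ fun _ x a b =>
    and_congr_right fun _ => by rw [h.c x.2.2.1 a.2.2.1 b.2.2.1 0 trivial]

end Resh

theorem live_ibA ⦃K : Fld k⦄ (x : (AB d n w T Q).X K) (h : (AB d n w T Q).L x) :
    (AG d n w T Q).L (ibA d n w T Q x) :=
  have l := live_ib _ w x.2.2.1 h.1.2.2.1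
  ⟨⟨h.1.1, h.1.2.1, l, h.1.2.2.2⟩, h.2.1,
    ((pmap_ib (d.b n) w).c x.2.2.1 h.1.2.2.1 l 0 trivial).symm ▸ h.2.2⟩

theorem normC_inv {K : Type} [Field K] {v : Fin w → K} (h : ∀ a, v a ≠ 0) :
    (diagonal v)⁻¹ = diagonal fun a => (v a)⁻¹ :=
  inv_eq_right_inv (by simp [h])

section Alg
variable {w} {K : Type} [Field K] {s : K} {v t : Fin w → K} {N M R : Mx w K}

theorem normC_nil (h : IsNil N) : IsNil (s • N) := fun a b e => by simp [h a b e]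

theorem normC_ne (hv : ∀ a, v a ≠ 0) (h : IsNil N) : (diagonal v + s • N).det ≠ 0 :=
  (normC_nil h).det ▸ Finset.prod_ne_zero_iff.2 fun a _ => hv a

theorem normC_det (hv : ∀ a, v a ≠ 0) (h : IsNil N) (h' : IsNil M) (hR : R.det ≠ 0) :
    (cj R ((diagonal v + s • N)⁻¹ * ((diagonal fun a => v a * t a) + M))).det = ∏ a, t a := by
  rw [det_cj hR, det_mul, det_nonsing_inv, h'.det, (normC_nil h).det, Ring.inverse_eq_inv',
    Finset.prod_mul_distrib, inv_mul_cancel_left₀ (Finset.prod_ne_zero_iff.2 fun a _ => hv a)]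

theorem normC_det' (hv : ∀ a, v a ≠ 0) (h : IsNil N) (h' : IsNil M) (hR : R.det ≠ 0) :
    (1 - cj R ((diagonal v + s • N)⁻¹ * ((diagonal fun a => v a * t a) + M))).det =
      ∏ a, (1 - t a) := by
  rw [← normC_det (s := s) (M := s • N - M) hv h (fun a b e => by simp [h a b e, h' a b e]) hR,
    ← cj_one hR, ← cj_sub, ← nonsing_inv_mul _ (normC_ne (s := s) hv h).isUnit, ← Matrix.mul_sub]
  congr 3
  ext a b
  by_cases e : a = b <;> simp [e]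
  ring

end Alg

section Fam
variable {d n w T Q} {K K' : Fld k} {φ : Place K K'} {s : K} {s' : K'} {x : (AB d n w T Q).X K}

theorem seg_ne (v : Fin w → K) : (seg s (Rx v)).det ≠ 0 :=
  ((luni_Rx v).seg s).det ▸ one_ne_zero

theorem det_cmB (h : (AB d n w T Q).L x) : (cmB d n w T Q s x).2.2.1.det = ∏ a, x.2.2.1.1 a :=
  normC_det (fun a => (h.1.1.1 a).2.top) (h.1.1.2.2.2 n) h.1.2.2.1.2.2 (seg_ne _)

theorem det_cmB' (h : (AB d n w T Q).L x) :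
    (1 - (cmB d n w T Q s x).2.2.1).det = ∏ a, (1 - x.2.2.1.1 a) :=
  normC_det' (fun a => (h.1.1.1 a).2.top) (h.1.1.2.2.2 n) h.1.2.2.1.2.2 (seg_ne _)

theorem live_cmB (h : (AB d n w T Q).L x) : (XG d n w T Q).L (cmB d n w T Q s x) := by
  have e := (pq d n w).c x.1 h.1.1 (lq h.1.1) w rfl
  refine ⟨⟨lq h.1.1, h.1.2.1, ⟨trivial, ?_, ?_⟩, h.1.2.2.2⟩, fun μ => ?_, ?_⟩
  · exact det_cmB h ▸ Finset.prod_ne_zero_iff.2 fun a _ => (h.1.2.2.1.1.2 a).1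
  · exact det_cmB' h ▸ Finset.prod_ne_zero_iff.2 fun a _ =>
      sub_ne_zero.2 (h.1.2.2.1.1.2 a).2.symm
  · exact (h.2.1 μ).trans (congrArg _ e.symm)
  · exact (congrArg₂ (fun p q => T.T (fun _ => p * Polynomial.C q) x.2.2.2.2) e
      (det_cmB (s := s) h)).mpr h.2.2

theorem f_cmB (h : (AB d n w T Q).L x) :
    (XG d n w T Q).f (cmB d n w T Q s x) = (AB d n w T Q).f x :=
  congrArg₂ (· * ·) (fX_qm h.1.1) (congrArg _ (congrArg (· * _) (by
    show (1 - (cmB d n w T Q s x).2.2.1).det ^ d.b n = (∏ a, (1 - x.2.2.1.1 a) ^ (- -d.b n)) * 1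
    rw [det_cmB' h, mul_one, neg_neg, Finset.prod_zpow])))

theorem rel_cmB {y : (AB d n w T Q).X K'} (hs : φ s s') (hy : (AB d n w T Q).L y)
    (r : (AB d n w T Q).R φ x y) :
    (XG d n w T Q).R φ (cmB d n w T Q s x) (cmB d n w T Q s' y) :=
  ⟨mr_qm r.1, r.2.1, MR.cj (.seg hs (mr_Rx fun a => r.1.1 a 0)) (seg_ne _)
    (.mul (.inv ((mr_diagonal fun a => r.1.1 a n).add (.smul hs (r.1.2 n)))
      (normC_ne (fun a => (hy.1.1.1 a).2.top) (hy.1.1.2.2.2 n)))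
      ((mr_diagonal fun a => (r.1.1 a n).mul (r.2.2.1.1 a)).add r.2.2.1.2)), r.2.2.2⟩

theorem lim_cmB {z : (XG d n w T Q).X K'} (hs : φ s s') (h : (AB d n w T Q).L x)
    (hz : (XG d n w T Q).L z) (r : (XG d n w T Q).R φ (cmB d n w T Q s x) z) :
    ∃ y, (AB d n w T Q).L y ∧ (AB d n w T Q).R φ x y := by
  obtain ⟨y, hy, r1⟩ := qm_lim h.1.1 hz.1.1 r.1
  have e := (Xs d n w).func φ _ _ _ (lq h.1.1) (lq hy) hz.1.1 (mr_qm r1) r.1
  have top := fun a => (hy.1 a).2.top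
  have top' := fun a => (h.1.1.1 a).2.top
  obtain ⟨G, r2⟩ : ∃ G, MR φ ((diagonal fun a => x.1.1 a n * x.2.2.1.1 a) + x.2.2.1.2) G := by
    have r2 := ((mr_diagonal fun a => r1.1 a n).add (.smul hs (r1.2 n))).mul (MR.cj
      ((MR.seg hs (mr_Rx fun a => r1.1 a 0)).inv (seg_ne _))
      (((luni_Rx _).seg s').inv.det ▸ one_ne_zero) r.2.2.1)
    refine ⟨_, Eq.mp (congrArg (MR φ · _) ?_) r2⟩
    exact (congrArg _ (cj_inv_cj (seg_ne _))).trans
      (mul_nonsing_inv_cancel_left _ _ (normC_ne top' (h.1.1.2.2.2 n)).isUnit)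
  have r3 : ∀ a, φ (x.2.2.1.1 a) (G a a / y.1 a n) := fun a =>
    ((r2 a a).div (r1.1 a n) (top a)).congr (by
      simp [h.1.2.2.1.2.2 a a le_rfl, top' a]) rfl
  have r4 : MR φ x.2.2.1.2 (G - diagonal fun a => y.1 a n * (G a a / y.1 a n)) := by
    simpa using r2.sub (mr_diagonal fun a => (r1.1 a n).mul (r3 a))
  have e1 : ∏ a, G a a / y.1 a n = z.2.2.1.det :=
    φ.func (Place.prod fun a _ => r3 a) (det_cmB (s := s) h ▸ MR.det r.2.2.1)
  have e2 : ∏ a, (1 - G a a / y.1 a n) = (1 - z.2.2.1).det :=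
    φ.func (Place.prod fun a _ => φ.one.sub (r3 a))
      (det_cmB' (s := s) h ▸ (mr_one.sub r.2.2.1).det)
  have e3 : (Xv d n w).c z.1 w = (Aw d n w).c y w := e ▸ (pq d n w).c y hy (lq hy) w rfl
  refine ⟨(y, z.2.1, (_, _), z.2.2.2), ⟨⟨hy, hz.1.2.1, ⟨⟨fun _ => trivial, fun a => ⟨?_, ?_⟩⟩,
    trivial, r4.isNil h.1.2.2.1.2.2⟩, hz.1.2.2.2⟩, fun μ => (hz.2.1 μ).trans (congrArg _ e3), ?_⟩,
    r1, r.2.1, ⟨r3, r4⟩, r.2.2.2⟩
  · exact Finset.prod_ne_zero_iff.1 (e1 ▸ hz.1.2.2.1.2.1) a (Finset.mem_univ a)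
  · exact (sub_ne_zero.1 (Finset.prod_ne_zero_iff.1 (e2 ▸ hz.1.2.2.1.2.2) a
      (Finset.mem_univ a))).symm
  · exact (congrArg₂ (fun p q => T.T (fun _ => p * Polynomial.C q) z.2.2.2.2) e3 e1.symm).mp hz.2.2

end Fam

theorem aff_AB : (AB d n w T Q).Aff {p : Fin w × Fin w // p.1 < p.2}
    (fun _ x p => x.2.2.1.2 p.1.1 p.1.2) fun _ x t => (x.1, x.2.1,
      (x.2.2.1.1, of fun a b => if h : a < b then t ⟨(a, b), h⟩ else 0), x.2.2.2) where
  rs p := fun _ _ _ _ _ _ _ r => r.2.2.1.2 p.1.1 p.1.2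
  self _ x h := by
    refine Prod.ext rfl (Prod.ext rfl (Prod.ext (Prod.ext rfl ?_) rfl))
    ext a b
    by_cases e : a < b
    · exact dif_pos e
    · exact (dif_neg e).trans (h.1.2.2.1.2.2 a b (not_lt.1 e)).symm
  live _ _ _ h := ⟨⟨h.1.1, h.1.2.1, ⟨h.1.2.2.1.1, trivial, fun _ _ e => dif_neg e.not_gt⟩,
    h.1.2.2.2⟩, h.2⟩
  coord _ _ _ _ := funext fun p => dif_pos p.2
  f _ _ _ _ := rfl
  mv_mv _ _ _ _ _ := rfl
  reg _ _ φ _ _ _ _ _ _ r ht := ⟨r.1, r.2.1, ⟨r.2.2.1.1, fun a b => by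
    simp only [of_apply]
    split_ifs
    exacts [ht _, φ.zero]⟩, r.2.2.2⟩

theorem live_scB ⦃K : Fld k⦄ (x : (AB d n w T Q).X K) (h : (AB d n w T Q).L x) :
    (AB d n w T Q).L (scB d n w T Q x) :=
  ⟨⟨h.1.1, h.1.2.1, ⟨h.1.2.2.1.1, trivial, fun a b e => by
    show ((diagonal fun a => x.1.1 a n)⁻¹ * x.2.2.1.2) a b = 0
    rw [normC_inv w fun a => (h.1.1.1 a).2.top, diagonal_mul, h.1.2.2.1.2.2 a b e, mul_zero]⟩,
    h.1.2.2.2⟩, h.2⟩

theorem isMap_ibA : IsMap (AB d n w T Q) (AG d n w T Q) (ibA d n w T Q) := 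
  isMap_mid d n w T Q _ (pmap_ib (d.b n) w)

theorem acts_scB [CharZero F] : (AB d n w T Q).Acts χ (scB d n w T Q) 1 := by
  refine ((aff_AB d n w T Q).acts 1 (w := fun _ x p => (x.1.1 p.1.1 n)⁻¹) (c := fun _ _ _ => 0)
    (fun p _ _ _ _ _ _ h r => (r.1.1 p.1.1 n).inv (h.1.1.1 _).2.top) (fun _ => regF_zero)
    (fun _ _ h _ => inv_ne_zero (h.1.1.1 _).2.top) (fun _ _ _ _ => rfl) fun _ _ _ _ => rfl).comp
    (.of_fix fun _ _ _ => rfl) (fun _ x h => (aff_AB d n w T Q).live x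
      (fun p => (x.1.1 p.1.1 n)⁻¹ * x.2.2.1.2 p.1.1 p.1.2 + 0) h) (fun _ x h => ?_)
    (mul_one _).symm
  refine Prod.ext rfl (Prod.ext rfl (Prod.ext (Prod.ext rfl ?_) rfl))
  ext a b
  by_cases e : a < b
  · refine Eq.trans ?_ (dif_pos e).symm
    show ((diagonal fun a => x.1.1 a n)⁻¹ * x.2.2.1.2) a b = _
    rw [normC_inv w fun a => (h.1.1.1 a).2.top, diagonal_mul]
    exact (add_zero _).symm
  · refine ((live_scB d n w T Q x h).1.2.2.1.2.2 a b (not_lt.1 e)).trans (Eq.symm ?_)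
    exact dif_neg e

theorem isMap_cmB : IsMap (AB d n w T Q) (XG d n w T Q) fun _ x => cmB d n w T Q 1 x := 
  .of_proper ⟨fun _ _ => live_cmB, fun _ _ φ _ _ _ => rel_cmB φ.one⟩ (fun _ _ => f_cmB)
    fun _ _ φ _ _ => lim_cmB φ.one

theorem null_cmB [CharZero F] : Null ((isMap_cmB d n w T Q).hom χ -
    (isMap_ibA d n w T Q).hom χ ≫ (tow d n).oq χ w ((Tn d n w T (Gv k (d.b n) w)).tw Q)) := by
  obtain ⟨m, hm⟩ := acts_scB (χ := χ) d n w T Q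
  have := null_of_fam (m := cmB d n w T Q) (fun _ _ _ => live_cmB) (fun _ _ _ => f_cmB)
    (fun _ _ _ _ _ _ _ hs _ => rel_cmB hs) (fun _ _ _ _ _ _ _ => lim_cmB)
    (u := m.hom χ ≫ (isMap_ibA d n w T Q).hom χ ≫
      (tow d n).oq χ w ((Tn d n w T (Gv k (d.b n) w)).tw Q))
    (v := (isMap_cmB d n w T Q).hom χ) (fun K x h => by
      have l := live_scB d n w T Q x h
      rw [Ob.comp_apply, Ob.comp_apply, m.hom_cl h, IsMap.hom_cl _ l]
      refine ((pq d n w).ov_cl ((dep_Tn d n w T _).tw Q) (live_ibA d n w T Q _ l)).trans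
        (congrArg _ (Prod.ext rfl (Prod.ext rfl (Prod.ext ?_ rfl))))
      show diagonal x.2.2.1.1 + (diagonal fun a => x.1.1 a n)⁻¹ * x.2.2.1.2 = cj (seg 0 _)
        (((diagonal fun a => x.1.1 a n) + (0 : K) • x.1.2 n)⁻¹ *
          ((diagonal fun a => x.1.1 a n * x.2.2.1.1 a) + x.2.2.1.2))
      rw [seg_zero, cj, inv_one, Matrix.one_mul, Matrix.mul_one, zero_smul, add_zero,
        Matrix.mul_add, normC_inv w fun a => (h.1.1.1 a).2.top, diagonal_mul_diagonal]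
      simp [fun a => (h.1.1.1 a).2.top]) fun _ _ h => IsMap.hom_cl _ h
  rw [one_smul] at hm
  refine this.symm.trans ?_
  have := hm.comp ((isMap_ibA d n w T Q).hom χ ≫
    (tow d n).oq χ w ((Tn d n w T (Gv k (d.b n) w)).tw Q))
  rwa [Preadditive.sub_comp, Category.id_comp] at this

theorem op_ibA (σ : Equiv.Perm (Fin w)) :
    (tow d n).op χ ((Tn d n w T (Bv k (d.b n) w)).tw Q) σ ≫ (isMap_ibA d n w T Q).hom χ =
    (isMap_ibA d n w T Q).hom χ ≫ (tow d n).op χ ((Tn d n w T (Gv k (d.b n) w)).tw Q) σ := by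
  have hB := ((tow d n).pend_top σ).toPMap.over ((dep_Tn d n w T (Bv k (d.b n) w)).tw Q)
  have hG := ((tow d n).pend_top σ).toPMap.over ((dep_Tn d n w T (Gv k (d.b n) w)).tw Q)
  rw [Tow.op, Tow.op, ov, ov, hB.hm_eq, hG.hm_eq]
  refine IsMap.comm _ _ _ _ (fun _ x h => ⟨fun l => ⟨live_ibA d n w T Q x h, l.2⟩, fun l => ?_⟩)
    fun _ _ _ _ _ => rfl
  have l1 := ((tow d n).pend_top σ).live x.1 h.1.1
  exact ⟨⟨⟨l1, h.1.2⟩, (((tow d n).pend_top σ).toPMap.cond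
    ((dep_Tn d n w T (Bv k (d.b n) w)).tw Q) h.1.1 l1).1 h.2⟩, l.2⟩

variable {d n}

theorem uiso_ibA (hb : χ.ψ (d.b n) ≠ 1) : UIso ((isMap_ibA d n w T Q).hom χ) := by
  have h := (pmap_ib (d.b n) w).over (dep_Tr d n w T Q (Aw d n w))
  have u := (uiso_rs (χ := χ) d n w T Q (Aw d n w) _).comp
    (uiso_ib w (Tr d n w T Q (Aw d n w)) hb)
  rw [ov, h.hm_eq] at u
  exact .of_comp_right (uiso_rs d n w T Q _ _) (((isMap_rs d n w T Q _ _).comm (χ := χ) h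
    (isMap_ibA d n w T Q) (isMap_rs d n w T Q (Aw d n w) (Gv k (d.b n) w))
    (fun _ x l => ⟨fun m => ⟨live_ibA d n w T Q x l, m.2⟩,
      fun m => ⟨live_rs d n w T Q _ _ x l, m.2⟩⟩) fun _ _ _ _ _ => rfl) ▸ u)

theorem acts_pB (hb : χ.ψ (d.b n) ≠ 1) (σ : Equiv.Perm (Fin w)) :
    (AB d n w T Q).Acts χ (pB d n w T Q σ) ((σ.sign : ℤ) : F) := by
  have lv : ∀ (τ : Equiv.Perm (Fin w)) ⦃K⦄ (x : (AB d n w T Q).X K), (AB d n w T Q).L x →
      (AB d n w T Q).L (pB d n w T Q τ x) := fun τ _ x h =>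
    ⟨⟨h.1.1, h.1.2.1, ⟨⟨fun _ => trivial, fun _ => h.1.2.2.1.1.2 _⟩, h.1.2.2.1.2⟩, h.1.2.2.2⟩,
      h.2.1, (congrArg (fun q => T.T (fun _ => _ * Polynomial.C q) x.2.2.2.2)
        (Equiv.prod_comp τ.symm x.2.2.1.1)).mpr h.2.2⟩
  have rg : ∀ τ : Equiv.Perm (Fin w), (AB d n w T Q).Reg (AB d n w T Q) (pB d n w T Q τ) :=
    fun τ => ⟨lv τ, fun _ _ _ _ _ _ _ r =>
      ⟨r.1, r.2.1, ⟨fun _ => r.2.2.1.1 _, r.2.2.1.2⟩, r.2.2.2⟩⟩
  exact .of_uiso (isMap_rs d n w T Q _ _) (uiso_rs d n w T Q _ _) (.of_inv (rg σ) (rg σ.symm)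
    (fun _ x _ => congrArg (fun t => (As d n w).f x.1 * (Q.f x.2.1 * (t * 1 *
      ((mt k (aP d n)).prod P).f x.2.2.2)))
      (Equiv.prod_comp σ.symm fun a => (1 - x.2.2.1.1 a) ^ (- -d.b n)))
    fun _ x _ => by simp [pB]) (acts_sign w _ hb σ) (lv σ)
    (fun _ x h => ⟨fun l => ⟨live_rs d n w T Q _ _ x h, l⟩, fun l => l.2⟩) fun _ _ _ _ => rfl

variable (d n) {w T} (hT : Nm w T)
include hT

omit hT in
theorem trc_le {α : Type} [Zero α] {n i : ℕ} (y : ℕ → α) (h : i ≤ n) : trc n y i = y i :=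
  if_pos h

omit hT in
theorem trc_gt {α : Type} [Zero α] {n i : ℕ} (y : ℕ → α) (h : n < i) : trc n y i = 0 :=
  if_neg (by omega)

/-- One more term of a sequence. -/
def ext1 {α : Type} (n : ℕ) (y : ℕ → α) (v : α) (i : ℕ) : α := if i = n + 1 then v else y i

omit hT in
theorem ext1_top {α : Type} {n : ℕ} (y : ℕ → α) (v : α) : ext1 n y v (n + 1) = v := if_pos rfl

omit hT in
theorem ext1_le {α : Type} {n i : ℕ} (y : ℕ → α) (v : α) (h : i ≤ n) : ext1 n y v i = y i :=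
  if_neg (by omega)

omit hT in
theorem ext1_gt {α : Type} [Zero α] {n : ℕ} {y : ℕ → α} (v : α) (h : ∀ i, n < i → y i = 0)
    (i : ℕ) (hi : n + 1 < i) : ext1 n y v i = 0 :=
  (if_neg (by omega)).trans (h i (by omega))

omit hT in
theorem ext1_trc {α : Type} [Zero α] {n : ℕ} {y : ℕ → α} {v : α} (h : ∀ i, n + 1 < i → y i = 0)
    (e : v = y (n + 1)) : ext1 n (trc n y) v = y := by
  funext i
  rcases lt_trichotomy i (n + 1) with l | l | l
  · rw [ext1_le _ _ (by omega), trc_le _ (by omega)]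
  · rw [l, ext1_top, e]
  · rw [ext1_gt v (fun _ => trc_gt y) i l, h i l]

omit hT in
theorem trc_ext1 {α : Type} [Zero α] {n : ℕ} {y : ℕ → α} (v : α) (h : ∀ i, n < i → y i = 0) :
    trc n (ext1 n y v) = y := by
  funext i
  rcases le_or_gt i n with l | l
  · rw [trc_le _ l, ext1_le _ _ l]
  · rw [trc_gt _ l, h i l]

omit hT in
theorem rel_trc {α β : Type} [Zero α] [Zero β] {R : α → β → Prop} (h0 : R 0 0) {y : ℕ → α}
    {z : ℕ → β} (h : ∀ i, R (y i) (z i)) (n i : ℕ) : R (trc n y i) (trc n z i) := by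
  unfold trc
  split_ifs
  exacts [h i, h0]

omit hT in
theorem rel_ext1 {α β : Type} {R : α → β → Prop} {y : ℕ → α} {z : ℕ → β} {v : α} {v' : β}
    (h : ∀ i, R (y i) (z i)) (h' : R v v') (n i : ℕ) : R (ext1 n y v i) (ext1 n z v' i) := by
  unfold ext1
  split_ifs
  exacts [h', h i]

omit hT in
theorem all_trc {α : Type} [Zero α] {R : α → Prop} (h0 : R 0) {y : ℕ → α} (h : ∀ i, R (y i))
    (n i : ℕ) : R (trc n y i) := by
  unfold trc
  split_ifs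
  exacts [h i, h0]

omit hT in
theorem all_ext1 {α : Type} {R : α → Prop} {y : ℕ → α} {v : α} (h : ∀ i, R (y i)) (h' : R v)
    (n i : ℕ) : R (ext1 n y v i) := by
  unfold ext1
  split_ifs
  exacts [h', h i]

omit hT in
theorem eval_chiA {K : Type} [Field K] (x : Fin w → K) (t : K) :
    (chiA (fun a (_ : Fin 1) => x a) w).eval t = ∏ a, (t - x a) := by
  simp only [chiA_one_top, eval_prod, eval_sub, eval_X, eval_C]

omit hT in
theorem prod_aP {K : Fld k} (u : k → K) (h : ∀ μ ∈ d.Λ, u μ ≠ 0) :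
    ∏ μ : d.Λ, u μ ^ aP d n μ = (∏ μ ∈ d.Λ, u μ ^ d.a n μ) * u 0 ^ d.b n := by
  classical
  have e : ∀ μ : d.Λ, u μ ^ aP d n μ =
      u μ ^ d.a n μ * if (μ : k) = 0 then u 0 ^ d.b n else 1 := fun μ => by
    rw [aP, zpow_add₀ (h μ μ.2)]
    split_ifs with l
    · rw [l]
    · rw [zpow_zero]
  rw [Finset.prod_congr rfl fun μ _ => e μ, Finset.prod_mul_distrib,
    Finset.prod_coe_sort d.Λ fun μ => u μ ^ d.a n μ,
    Finset.prod_coe_sort d.Λ fun μ => if μ = 0 then u 0 ^ d.b n else 1,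
    Finset.prod_ite_eq', if_pos d.z]

omit hT in
theorem LS.last {K : Fld k} {x : ℕ → K} (h : LS d (n + 1) x) : x n ≠ 0 := fun e =>
  h.pt n n.lt_succ_self 0 d.z (by rw [map_zero, e, sub_zero])

omit hT in
theorem LS.trc {K : Fld k} {x : ℕ → K} (h : LS d (n + 1) x) : LS d n (trc n x) where
  pt i hi μ hμ := by
    rw [trc_le _ hi.le]
    exact h.pt i (by omega) μ hμ
  lk i hi := by
    rw [trc_le _ hi.le, trc_le _ hi]
    exact h.lk i (by omega)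
  top := by
    rw [trc_le _ le_rfl]
    exact h.last d n

omit hT in
theorem LS.ext1 {K : Fld k} {x : ℕ → K} {t : K} (h : LS d n x)
    (h1 : ∀ μ ∈ d.Λ, algebraMap k K μ - x n ≠ 0) (h2 : t ≠ 0) (h3 : t ≠ 1) :
    LS d (n + 1) (ext1 n x (x n * t)) where
  pt i hi μ hμ := by
    rw [ext1_le _ _ (Nat.lt_succ_iff.1 hi)]
    rcases (Nat.lt_succ_iff.1 hi).eq_or_lt with rfl | l
    exacts [h1 μ hμ, h.pt i l μ hμ]
  lk i hi := by
    rw [ext1_le (i := i) _ _ (Nat.lt_succ_iff.1 hi)]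
    rcases (Nat.lt_succ_iff.1 hi).eq_or_lt with rfl | l
    · rw [ext1_top, ← mul_sub_one]
      exact mul_ne_zero h.top (sub_ne_zero.2 h3)
    · rw [ext1_le _ _ l]
      exact h.lk i l
  top := by
    rw [ext1_top]
    exact mul_ne_zero h.top h2

omit hT in
theorem fS_succ {K : Fld k} (x : ℕ → K) : fS d (n + 1) x = fS d n (trc n x) *
    ((∏ μ ∈ d.Λ, (algebraMap k K μ - x n) ^ d.a n μ) * (x (n + 1) - x n) ^ d.b n) := by
  unfold fS
  rw [Finset.prod_range_succ]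
  congr 1
  refine Finset.prod_congr rfl fun i hi => ?_
  have l := Finset.mem_range.1 hi
  rw [trc_le _ l.le, trc_le _ l]

omit hT in
theorem LX.last {K : Fld k} {Y : ℕ → Mx w K} (h : LX d (n + 1) Y) : (Y n).det ≠ 0 := fun e =>
  h.pt n n.lt_succ_self 0 d.z (by
    rw [map_zero, ← coeff_zero_eq_eval_zero, coeff_charpoly_zero, e, mul_zero])

omit hT in
theorem LX.trc {K : Fld k} {Y : ℕ → Mx w K} (h : LX d (n + 1) Y) : LX d n (trc n Y) where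
  comp := by
    rw [trc_le _ n.zero_le]
    exact h.comp
  pt i hi μ hμ := by
    rw [trc_le _ hi.le]
    exact h.pt i (by omega) μ hμ
  lk i hi := by
    rw [trc_le _ hi.le, trc_le _ hi]
    exact h.lk i (by omega)
  top := by
    rw [trc_le _ le_rfl]
    exact h.last d n

omit hT in
theorem det_mul_sub {K : Type} [Field K] (Y g : Mx w K) :
    (Y * g - Y).det = Y.charpoly.eval 0 * (1 - g).det := by
  rw [← coeff_zero_eq_eval_zero, coeff_charpoly_zero, show Y * g - Y = -Y * (1 - g) by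
    noncomm_ring, det_mul, det_neg, Fintype.card_fin]

omit hT in
theorem LX.ext1 {K : Fld k} {Y : ℕ → Mx w K} {g : Mx w K} (h : LX d n Y)
    (h1 : ∀ μ ∈ d.Λ, (Y n).charpoly.eval (algebraMap k K μ) ≠ 0) (h2 : g.det ≠ 0)
    (h3 : (1 - g).det ≠ 0) : LX d (n + 1) (ext1 n Y (Y n * g)) where
  comp := by
    rw [ext1_le _ _ n.zero_le]
    exact h.comp
  pt i hi μ hμ := by
    rw [ext1_le _ _ (Nat.lt_succ_iff.1 hi)]
    rcases (Nat.lt_succ_iff.1 hi).eq_or_lt with rfl | l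
    exacts [h1 μ hμ, h.pt i l μ hμ]
  lk i hi := by
    rw [ext1_le (i := i) _ _ (Nat.lt_succ_iff.1 hi)]
    rcases (Nat.lt_succ_iff.1 hi).eq_or_lt with rfl | l
    · rw [ext1_top, det_mul_sub]
      exact mul_ne_zero (by simpa only [map_zero] using h1 0 d.z) h3
    · rw [ext1_le _ _ l]
      exact h.lk i l
  top := by
    rw [ext1_top, det_mul]
    exact mul_ne_zero h.top h2

omit hT in
theorem fX_succ {K : Fld k} (Y : ℕ → Mx w K) : fX d (n + 1) Y = fX d n (trc n Y) *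
    ((∏ μ ∈ d.Λ, (Y n).charpoly.eval (algebraMap k K μ) ^ d.a n μ) *
      (Y (n + 1) - Y n).det ^ d.b n) := by
  unfold fX
  rw [Finset.prod_range_succ]
  congr 1
  refine Finset.prod_congr rfl fun i hi => ?_
  have l := Finset.mem_range.1 hi
  rw [trc_le _ l.le, trc_le _ l]

omit hT in
theorem coeff_chiA {K : Type} [Field K] (x t : Fin w → K) :
    (chiA (fun a (_ : Fin 1) => x a * t a) w).coeff 0 =
      (chiA (fun a (_ : Fin 1) => x a) w * C (∏ a, t a)).coeff 0 := by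
  rw [coeff_mul_C, coeff_zero_eq_eval_zero, coeff_zero_eq_eval_zero, eval_chiA, eval_chiA,
    ← Finset.prod_mul_distrib]
  exact Finset.prod_congr rfl fun a _ => by ring

omit hT in
theorem coeff_charpoly_mul {K : Type} [Field K] (Y g : Mx w K) :
    (Y * g).charpoly.coeff 0 = (Y.charpoly * C g.det).coeff 0 := by
  rw [coeff_mul_C, coeff_charpoly_zero, coeff_charpoly_zero, det_mul, mul_assoc]

variable (T) in
/-- The inverse map. -/
def alI ⦃K : Fld k⦄ (y : (AB d n w T Q).X K) : (A1 d n w T Q).X K :=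
  ((fun a => ext1 n (y.1.1 a) (y.1.1 a n * y.2.2.1.1 a), ext1 n y.1.2 y.2.2.1.2), y.2.1, y.2.2.2.2)

variable (T) in
/-- The inverse map. -/
def beI ⦃K : Fld k⦄ (y : (XG d n w T Q).X K) : (X1 d n w T Q).X K :=
  (ext1 n y.1 (y.1 n * y.2.2.1), y.2.1, y.2.2.2.2)

theorem live_al ⦃K : Fld k⦄ (x : (A1 d n w T Q).X K) (h : (A1 d n w T Q).L x) :
    (AB d n w T Q).L (al d n w T Q x) := by
  obtain ⟨⟨⟨h1, h2, h3, h4⟩, hq, hp⟩, ht⟩ := h
  have n0 : ∀ a, x.1.1 a n ≠ 0 := fun a => (h1 a).2.last d n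
  refine ⟨⟨⟨fun a => ⟨fun _ => trc_gt _, (h1 a).2.trc d n⟩, fun _ => trc_gt _,
    (trc_le _ n.zero_le).trans h3, all_trc (R := IsNil) (fun _ _ _ => rfl) h4 n⟩, hq,
    ⟨⟨fun _ => trivial, fun a => ⟨div_ne_zero (h1 a).2.top (n0 a), fun e => ?_⟩⟩, trivial, h4 _⟩,
    ⟨fun _ => trivial, fun μ => (Finset.prod_ne_zero_iff (s := Finset.univ)).2 fun a _ =>
      (h1 a).2.pt n n.lt_succ_self μ μ.2⟩, hp⟩, fun μ => ?_, hT _ _ _ ?_ ht⟩
  · exact (h1 a).2.lk n n.lt_succ_self (sub_eq_zero.2 ((div_eq_one_iff_eq (n0 a)).1 e))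
  · refine Eq.trans ?_ (eval_chiA _ _).symm
    show ∏ a, (algebraMap k K μ - x.1.1 a n) = ∏ a, (algebraMap k K μ - trc n (x.1.1 a) n)
    simp only [trc_le _ le_rfl]
  · refine Eq.trans ?_ (coeff_chiA _ _)
    refine congrArg (fun z : Fin w → K => (chiA (fun a (_ : Fin 1) => z a) w).coeff 0)
      (funext fun a => ?_)
    show x.1.1 a (n + 1) = trc n (x.1.1 a) n * (x.1.1 a (n + 1) / x.1.1 a n)
    rw [trc_le _ le_rfl, mul_div_cancel₀ _ (n0 a)]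

theorem live_alI ⦃K : Fld k⦄ (y : (AB d n w T Q).X K) (h : (AB d n w T Q).L y) :
    (A1 d n w T Q).L (alI d n T Q y) := by
  obtain ⟨⟨⟨h1, h2, h3, h4⟩, hq, ⟨hb, -, hN⟩, hu, hp⟩, hc, ht⟩ := h
  refine ⟨⟨⟨fun a => ⟨ext1_gt _ (h1 a).1, (h1 a).2.ext1 d n (fun μ hμ => ?_) (hb.2 a).1
    (hb.2 a).2⟩, ext1_gt _ h2, (ext1_le y.1.2 y.2.2.1.2 n.zero_le).trans h3,
    all_ext1 (R := IsNil) h4 hN n⟩, hq, hp⟩, hT _ _ _ ?_ ht⟩
  · have l := hu.2 ⟨μ, hμ⟩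
    rw [(hc ⟨μ, hμ⟩).trans (eval_chiA _ _)] at l
    exact Finset.prod_ne_zero_iff.1 l a (Finset.mem_univ a)
  · refine Eq.trans (coeff_chiA _ _).symm ?_
    exact congrArg (fun z : Fin w → K => (chiA (fun a (_ : Fin 1) => z a) w).coeff 0)
      (funext fun a => (ext1_top _ _).symm)

omit hT in
theorem alI_al ⦃K : Fld k⦄ (x : (A1 d n w T Q).X K) (h : (A1 d n w T Q).L x) :
    alI d n T Q (al d n w T Q x) = x := by
  refine Prod.ext (Prod.ext (funext fun a => ext1_trc (h.1.1.1 a).1 ?_)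
    (ext1_trc h.1.1.2.1 rfl)) rfl
  show trc n (x.1.1 a) n * (x.1.1 a (n + 1) / x.1.1 a n) = _
  rw [trc_le _ le_rfl, mul_div_cancel₀ _ ((h.1.1.1 a).2.last d n)]

omit hT in
theorem al_alI ⦃K : Fld k⦄ (y : (AB d n w T Q).X K) (h : (AB d n w T Q).L y) :
    al d n w T Q (alI d n T Q y) = y := by
  refine Prod.ext (Prod.ext (funext fun a => trc_ext1 _ (h.1.1.1 a).1) (trc_ext1 _ h.1.1.2.1))
    (Prod.ext rfl (Prod.ext (Prod.ext (funext fun a => ?_) (ext1_top _ _))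
      (Prod.ext (funext fun μ => ?_) rfl)))
  · show ext1 n (y.1.1 a) (y.1.1 a n * y.2.2.1.1 a) (n + 1) /
      ext1 n (y.1.1 a) (y.1.1 a n * y.2.2.1.1 a) n = _
    rw [ext1_top, ext1_le _ _ le_rfl, mul_div_cancel_left₀ _ (h.1.1.1 a).2.top]
  · refine Eq.trans ?_ ((h.2.1 μ).trans (eval_chiA _ _)).symm
    show ∏ a, (algebraMap k K μ - ext1 n (y.1.1 a) (y.1.1 a n * y.2.2.1.1 a) n) =
      ∏ a, (algebraMap k K μ - y.1.1 a n)
    simp only [ext1_le _ _ le_rfl]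

omit hT in
theorem f_al ⦃K : Fld k⦄ (x : (A1 d n w T Q).X K) (h : (A1 d n w T Q).L x) :
    (AB d n w T Q).f (al d n w T Q x) = (A1 d n w T Q).f x := by
  have e1 := prod_aP d n (fun μ => ∏ a, (algebraMap k K μ - x.1.1 a n)) fun μ hμ =>
    Finset.prod_ne_zero_iff.2 fun a _ => (h.1.1.1 a).2.pt n n.lt_succ_self μ hμ
  have e2 : (∏ a, (1 - x.1.1 a (n + 1) / x.1.1 a n) ^ d.b n) *
      (∏ a, (algebraMap k K 0 - x.1.1 a n)) ^ d.b n =
      ∏ a, (x.1.1 a (n + 1) - x.1.1 a n) ^ d.b n := by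
    rw [← Finset.prod_zpow, ← Finset.prod_mul_distrib]
    refine Finset.prod_congr rfl fun a _ => ?_
    have n0 := (h.1.1.1 a).2.last d n
    rw [← mul_zpow, map_zero]
    congr 1
    field_simp
    ring
  have e3 : ∏ μ ∈ d.Λ, (∏ a, (algebraMap k K μ - x.1.1 a n)) ^ d.a n μ =
      ∏ a, ∏ μ ∈ d.Λ, (algebraMap k K μ - x.1.1 a n) ^ d.a n μ := by
    rw [Finset.prod_comm]
    exact Finset.prod_congr rfl fun μ _ => (Finset.prod_zpow _ _ _).symm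
  show ((∏ a, fS d n (trc n (x.1.1 a))) * 1) * (Q.f x.2.1 *
      (((∏ a, (1 - x.1.1 a (n + 1) / x.1.1 a n) ^ (- -d.b n)) * 1) *
        ((∏ μ : d.Λ, (∏ a, (algebraMap k K μ - x.1.1 a n)) ^ aP d n μ) * P.f x.2.2))) =
    ((∏ a, fS d (n + 1) (x.1.1 a)) * 1) * (Q.f x.2.1 * P.f x.2.2)
  simp only [fS_succ, Finset.prod_mul_distrib, neg_neg]
  rw [e1, e3, ← e2]
  ring

theorem isMap_al : IsMap (A1 d n w T Q) (AB d n w T Q) (al d n w T Q) :=
  .of_inv (g := alI d n T Q)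
    ⟨live_al d n Q hT, fun _ _ φ _ _ _ b r =>
      ⟨⟨fun a => rel_trc (R := φ.R) φ.zero (r.1.1 a) n, rel_trc (R := MR φ) mr_zero r.1.2 n⟩,
        r.2.1, ⟨fun a => (r.1.1 a _).div (r.1.1 a _) ((b.1.1.1 a).2.last d n), r.1.2 _⟩,
        fun μ => Place.prod (s := Finset.univ) fun a _ => (φ.alg μ).sub (r.1.1 a n), r.2.2⟩⟩
    ⟨live_alI d n Q hT, fun _ _ φ _ _ _ _ r =>
      ⟨⟨fun a => rel_ext1 (R := φ.R) (r.1.1 a) ((r.1.1 a n).mul (r.2.2.1.1 a)) n,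
        rel_ext1 (R := MR φ) r.1.2 r.2.2.1.2 n⟩, r.2.1, r.2.2.2.2⟩⟩
    (f_al d n Q) (alI_al d n Q)

theorem bij_al : Bij ((isMap_al d n Q hT).hom χ) :=
  IsMap.bij _ (live_al d n Q hT)
    (fun _ x x' h h' e => by rw [← alI_al d n Q x h, e, alI_al d n Q x' h'])
    fun _ y h => ⟨_, live_alI d n Q hT y h, al_alI d n Q y h⟩

theorem live_be ⦃K : Fld k⦄ (x : (X1 d n w T Q).X K) (h : (X1 d n w T Q).L x) :
    (XG d n w T Q).L (be d n w T Q x) := by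
  obtain ⟨⟨⟨h1, h2⟩, hq, hp⟩, ht⟩ := h
  have e : x.1 n * ((x.1 n)⁻¹ * x.1 (n + 1)) = x.1 (n + 1) :=
    mul_nonsing_inv_cancel_left _ _ (h2.last d n).isUnit
  refine ⟨⟨⟨fun _ => trc_gt _, h2.trc d n⟩, hq, ⟨trivial, fun l => h2.top ?_, fun l => ?_⟩,
    ⟨fun _ => trivial, fun μ => h2.pt n n.lt_succ_self μ μ.2⟩, hp⟩, fun μ => ?_, hT _ _ _ ?_ ht⟩
  · rw [← e, det_mul, show ((x.1 n)⁻¹ * x.1 (n + 1)).det = 0 from l, mul_zero]
  · refine h2.lk n n.lt_succ_self ?_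
    rw [← e, det_mul_sub, show (1 - (x.1 n)⁻¹ * x.1 (n + 1)).det = 0 from l, mul_zero]
  · show (x.1 n).charpoly.eval _ = (trc n x.1 n).charpoly.eval _
    rw [trc_le _ le_rfl]
  · show (x.1 (n + 1)).charpoly.coeff 0 =
      ((trc n x.1 n).charpoly * C ((x.1 n)⁻¹ * x.1 (n + 1)).det).coeff 0
    rw [trc_le _ le_rfl, ← coeff_charpoly_mul, e]

theorem live_beI ⦃K : Fld k⦄ (y : (XG d n w T Q).X K) (h : (XG d n w T Q).L y) :
    (X1 d n w T Q).L (beI d n T Q y) := by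
  obtain ⟨⟨⟨h1, h2⟩, hq, ⟨-, hg, hg'⟩, hu, hp⟩, hc, ht⟩ := h
  refine ⟨⟨⟨ext1_gt _ h1, h2.ext1 d n (fun μ hμ => ?_) hg hg'⟩, hq, hp⟩, hT _ _ _ ?_ ht⟩
  · exact fun l => hu.2 ⟨μ, hμ⟩ ((hc ⟨μ, hμ⟩).trans l)
  · show ((y.1 n).charpoly * C y.2.2.1.det).coeff 0 =
      (ext1 n y.1 (y.1 n * y.2.2.1) (n + 1)).charpoly.coeff 0
    rw [ext1_top, coeff_charpoly_mul]

omit hT in
theorem beI_be ⦃K : Fld k⦄ (x : (X1 d n w T Q).X K) (h : (X1 d n w T Q).L x) :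
    beI d n T Q (be d n w T Q x) = x := by
  refine Prod.ext (ext1_trc h.1.1.1 ?_) rfl
  show trc n x.1 n * ((x.1 n)⁻¹ * x.1 (n + 1)) = _
  rw [trc_le _ le_rfl, mul_nonsing_inv_cancel_left _ _ (h.1.1.2.last d n).isUnit]

omit hT in
theorem be_beI ⦃K : Fld k⦄ (y : (XG d n w T Q).X K) (h : (XG d n w T Q).L y) :
    be d n w T Q (beI d n T Q y) = y := by
  refine Prod.ext (trc_ext1 _ h.1.1.1) (Prod.ext rfl (Prod.ext ?_ (Prod.ext (funext fun μ => ?_) rfl)))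
  · show (ext1 n y.1 (y.1 n * y.2.2.1) n)⁻¹ * ext1 n y.1 (y.1 n * y.2.2.1) (n + 1) = _
    rw [ext1_top, ext1_le _ _ le_rfl, nonsing_inv_mul_cancel_left _ _ h.1.1.2.top.isUnit]
  · refine Eq.trans ?_ (h.2.1 μ).symm
    show (ext1 n y.1 (y.1 n * y.2.2.1) n).charpoly.eval _ = (y.1 n).charpoly.eval _
    rw [ext1_le _ _ le_rfl]

omit hT in
theorem f_be ⦃K : Fld k⦄ (x : (X1 d n w T Q).X K) (h : (X1 d n w T Q).L x) :
    (XG d n w T Q).f (be d n w T Q x) = (X1 d n w T Q).f x := by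
  have e1 := prod_aP d n (fun μ => (x.1 n).charpoly.eval (algebraMap k K μ))
    (h.1.1.2.pt n n.lt_succ_self)
  have e2 := det_mul_sub (x.1 n) ((x.1 n)⁻¹ * x.1 (n + 1))
  rw [mul_nonsing_inv_cancel_left _ _ (h.1.1.2.last d n).isUnit] at e2
  show fX d n (trc n x.1) * (Q.f x.2.1 * ((1 - (x.1 n)⁻¹ * x.1 (n + 1)).det ^ d.b n *
      ((∏ μ : d.Λ, (x.1 n).charpoly.eval (algebraMap k K μ) ^ aP d n μ) * P.f x.2.2))) =
    fX d (n + 1) x.1 * (Q.f x.2.1 * P.f x.2.2)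
  rw [fX_succ, e1, e2, mul_zpow, map_zero]
  ring

theorem isMap_be : IsMap (X1 d n w T Q) (XG d n w T Q) (be d n w T Q) :=
  .of_inv (g := beI d n T Q)
    ⟨live_be d n Q hT, fun _ _ φ _ _ _ b r =>
      ⟨rel_trc (R := MR φ) mr_zero r.1 n, r.2.1,
        ((r.1 n).inv (b.1.1.2.last d n)).mul (r.1 _),
        fun μ => (r.1 n).charpoly.eval (φ.alg μ), r.2.2⟩⟩
    ⟨live_beI d n Q hT, fun _ _ φ _ _ _ _ r =>
      ⟨rel_ext1 (R := MR φ) r.1 ((r.1 n).mul r.2.2.1) n, r.2.1, r.2.2.2.2⟩⟩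
    (f_be d n Q) (beI_be d n Q)

theorem bij_be : Bij ((isMap_be d n Q hT).hom χ) :=
  IsMap.bij _ (live_be d n Q hT)
    (fun _ x x' h h' e => by rw [← beI_be d n Q x h, e, beI_be d n Q x' h'])
    fun _ y h => ⟨_, live_beI d n Q hT y h, be_beI d n Q y h⟩

theorem dep_tw : (T.tw Q).Dep {w} :=
  PC.Dep.tw (fun _ c c' p e => hT c c' p (by rw [e w rfl])) Q

omit hT in
theorem be_qm ⦃K : Fld k⦄ (x : (A1 d n w T Q).X K) (h : (A1 d n w T Q).L x) :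
    be d n w T Q (qm x.1, x.2) = cmB d n w T Q 1 (al d n w T Q x) := by
  have n0 : ∀ a, x.1.1 a n ≠ 0 := fun a => (h.1.1.1 a).2.last d n
  have e0 : (fun a => trc n (x.1.1 a) 0) = fun a => x.1.1 a 0 :=
    funext fun a => trc_le _ n.zero_le
  have hR : (Rx fun a => x.1.1 a 0).det ≠ 0 := by
    rw [(luni_Rx _).det]
    exact one_ne_zero
  refine Prod.ext (funext fun i => ?_) (Prod.ext rfl (Prod.ext ?_
    (Prod.ext (funext fun μ => ?_) rfl)))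
  · show trc n (qm x.1) i = cj (Rx fun a => trc n (x.1.1 a) 0)
      (diagonal (fun a => trc n (x.1.1 a) i) + trc n x.1.2 i)
    rw [e0]
    rcases le_or_gt i n with l | l
    · simp only [trc_le _ l]
      rfl
    · simp only [trc_gt _ l, diagonal_zero, add_zero, cj_zero]
  · show (cj (Rx fun a => x.1.1 a 0) (um x.1 n))⁻¹ * cj (Rx fun a => x.1.1 a 0) (um x.1 (n + 1)) =
      cj (seg 1 (Rx fun a => trc n (x.1.1 a) 0))
        (((diagonal fun a => trc n (x.1.1 a) n) + (1 : K) • trc n x.1.2 n)⁻¹ *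
          ((diagonal fun a => trc n (x.1.1 a) n * (x.1.1 a (n + 1) / x.1.1 a n)) +
            x.1.2 (n + 1)))
    have hU : (um x.1 n).det ≠ 0 := by
      rw [um, (h.1.1.2.2.2 n).det]
      exact Finset.prod_ne_zero_iff.2 fun a _ => n0 a
    have e1 : (cj (Rx fun a => x.1.1 a 0) (um x.1 n))⁻¹ =
        cj (Rx fun a => x.1.1 a 0) (um x.1 n)⁻¹ :=
      inv_eq_left_inv (by rw [← cj_mul hR, nonsing_inv_mul _ hU.isUnit, cj_one hR])
    rw [e0, seg_one, one_smul, e1, ← cj_mul hR]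
    simp only [trc_le _ le_rfl, fun a => mul_div_cancel₀ (x.1.1 a (n + 1)) (n0 a)]
    rfl
  · show (qm x.1 n).charpoly.eval (algebraMap k K μ) = ∏ a, (algebraMap k K μ - x.1.1 a n)
    simp only [charpoly_qm h.1.1 n, eval_prod, eval_sub, eval_X, eval_C]

theorem oq_be : (tow d (n + 1)).oq χ w (T.tw Q) ≫ (isMap_be d n Q hT).hom χ =
    (isMap_al d n Q hT).hom χ ≫ (isMap_cmB d n w T Q).hom χ := by
  have hD := dep_tw Q hT
  refine hom_ext fun K x hx => ?_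
  have l : (X1 d n w T Q).L (qm x.1, x.2) :=
    ⟨⟨lq hx.1.1, hx.1.2⟩, ((pq d (n + 1) w).cond hD hx.1.1 (lq hx.1.1)).1 hx.2⟩
  rw [Ob.comp_apply, Ob.comp_apply, IsMap.hom_cl _ hx, IsMap.hom_cl _ (live_al d n Q hT x hx),
    ← be_qm d n Q x hx, ← IsMap.hom_cl (χ := χ) (isMap_be d n Q hT) l]
  exact congrArg _ ((pq d (n + 1) w).ov_cl hD hx)

variable {d n}

omit hT in
theorem live_pB (σ : Equiv.Perm (Fin w)) ⦃K : Fld k⦄ (y : (AB d n w T Q).X K)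
    (h : (AB d n w T Q).L y) : (AB d n w T Q).L (pB d n w T Q σ y) := by
  obtain ⟨⟨h1, hq, ⟨hb, hN⟩, hu⟩, hc, ht⟩ := h
  refine ⟨⟨h1, hq, ⟨⟨fun _ => trivial, fun a => hb.2 _⟩, hN⟩, hu⟩, hc, ?_⟩
  have e : ∏ a, y.2.2.1.1 (σ.symm a) = ∏ a, y.2.2.1.1 a := Equiv.prod_comp σ.symm _
  show T.T (fun _ => _ * C (∏ a, y.2.2.1.1 (σ.symm a))) _
  rw [e]
  exact ht

theorem null_op (hb : χ.ψ (d.b n) ≠ 1) (σ : Equiv.Perm (Fin w)) :
    Null ((tow d (n + 1)).op χ (T.tw Q) σ ≫ (isMap_al d n Q hT).hom χ -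
      ((σ.sign : ℤ) : F) • (isMap_al d n Q hT).hom χ ≫
        (tow d n).op χ ((Tn d n w T (Bv k (d.b n) w)).tw Q) σ) := by
  obtain ⟨m, hm⟩ := acts_pB w T Q hb σ
  have hD := dep_tw Q hT
  have hD' := (dep_Tn d n w T (Bv k (d.b n) w)).tw Q
  have p1 := Tow.pend_top (D := tow d (n + 1)) σ
  have p2 := Tow.pend_top (D := tow d n) σ
  have e : (tow d (n + 1)).op χ (T.tw Q) σ ≫ (isMap_al d n Q hT).hom χ =
      (isMap_al d n Q hT).hom χ ≫ m.hom χ ≫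
        (tow d n).op χ ((Tn d n w T (Bv k (d.b n) w)).tw Q) σ := by
    refine hom_ext fun K x hx => ?_
    have l : (A1 d n w T Q).L (pmm σ x.1, x.2) :=
      ⟨⟨p1.live _ hx.1.1, hx.1.2⟩, (p1.toPMap.cond hD hx.1.1 (p1.live _ hx.1.1)).1 hx.2⟩
    have l1 := live_al d n Q hT x hx
    have e1 : al d n w T Q (pmm σ x.1, x.2) = (pmm σ (pB d n w T Q σ (al d n w T Q x)).1,
        (pB d n w T Q σ (al d n w T Q x)).2) :=
      Prod.ext rfl (Prod.ext rfl (Prod.ext rfl (Prod.ext (funext fun μ =>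
        Equiv.prod_comp σ.symm fun a => algebraMap k K μ - x.1.1 a n) rfl)))
    rw [Ob.comp_apply, Ob.comp_apply, Ob.comp_apply, IsMap.hom_cl _ hx, IsMap.hom_cl _ l1]
    refine Eq.trans ?_ (p2.toPMap.ov_cl hD' (live_pB Q σ _ l1)).symm
    refine (congrArg _ (p1.toPMap.ov_cl hD hx)).trans ?_
    exact (IsMap.hom_cl (χ := χ) (isMap_al d n Q hT) l).trans (congrArg _ e1)
  rw [e]
  simpa only [Preadditive.sub_comp, Preadditive.comp_sub, Linear.smul_comp, Linear.comp_smul,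
    Category.id_comp] using (hm.comp _).precomp ((isMap_al d n Q hT).hom χ)

omit hT in
theorem yR_succ (m : ℕ) (I : Finset ℕ) (σ : Equiv.Perm (Fin w)) :
    yR F m w I σ = yR F (m + 1) w I σ * ((σ.sign : ℤ) : F) := by
  have e : ((σ.sign : ℤ) : F) * ((σ.sign : ℤ) : F) = 1 := by
    rw [← Int.cast_mul, ← Units.val_mul, Int.units_mul_self, Units.val_one, Int.cast_one]
  show _ * ((σ.sign : ℤ) : F) ^ (m + 1) = _ * ((σ.sign : ℤ) : F) ^ (m + 1 + 1) * _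
  rw [pow_succ _ (m + 1), mul_assoc, mul_assoc, e, mul_one]

theorem hb_succ [CharZero F] (hb : χ.ψ (d.b n) ≠ 1)
    (h : ∀ (P : Pt k) (T : PC P), T.Dep {w} → (tow d n).Hb χ w (T.tw Q)) :
    (tow d (n + 1)).Hb χ w (T.tw Q) := by
  refine quo_of_null (h _ (Tn d n w T (Gv k (d.b n) w)) (dep_Tn d n w T _))
    (a := (isMap_al d n Q hT).hom χ ≫ (isMap_ibA d n w T Q).hom χ)
    (b := (isMap_be d n Q hT).hom χ)
    ((bij_al d n Q hT).uiso.comp (uiso_ibA w T Q hb)) (bij_be d n Q hT).uiso ?_ ?_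
  · rw [oq_be d n Q hT, Category.assoc, ← Preadditive.comp_sub]
    exact (null_cmB d n w T Q).precomp _
  · rw [Preadditive.sum_comp, Preadditive.comp_sum, ← Finset.sum_sub_distrib]
    refine Null.sum fun σ _ => ?_
    have := ((null_op Q hT hb σ).comp ((isMap_ibA d n w T Q).hom χ)).smul
      (yR F (n + 1 + 1) w ∅ σ)
    rw [Preadditive.sub_comp, Linear.smul_comp, Category.assoc, Category.assoc, op_ibA, smul_sub,
      smul_smul, ← yR_succ] at this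
    rw [Linear.smul_comp, Linear.comp_smul, Category.assoc]
    exact this

end

end Pool.Agent.Lib.MP_fc2ced_ag.T.C
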