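import Pool.Agent.Lib.MP_fc2ced_ag.C.Mat
import Pool.Agent.Lib.MP_fc2ced_ag.G.Rad

/-! Transport of actions, linear changes of coordinates in families of quadrics, strata. -/

open CategoryTheory Function Matrix

namespace Pool.Agent.Lib.MP_fc2ced_ag.T.C

open K

noncomputable section

variable {k : Type} [Field k] {F : Type} [Field F] [CharZero F] {χ : Chr k F} {S : Pt k}

open MP_fc2ced_ag.T.Pt

variable {ι ι' : Type} [Fintype ι] [Fintype ι']

omit [CharZero F] in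
/-- Transport of an action along an isomorphism. -/
theorem qb_transfer (S S' : Pt k) {e : ∀ ⦃K⦄, S.X K → S'.X K} {g : ∀ ⦃K⦄, S'.X K → S.X K}
    {a : ∀ ⦃K⦄, S.X K → S.X K} {b : ∀ ⦃K⦄, S'.X K → S'.X K} {u : F} (he : S.Reg S' e)
    (hg : S'.Reg S g) (f : ∀ ⦃K⦄ (x : S.X K), S.L x → S'.f (e x) = S.f x)
    (l : ∀ ⦃K⦄ (x : S.X K), S.L x → g (e x) = x) (r : ∀ ⦃K⦄ (y : S'.X K), S'.L y → e (g y) = y)
    (hb : S'.Acts χ b u) (lb : ∀ ⦃K⦄ (y : S'.X K), S'.L y → S'.L (b y))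
    (h : ∀ ⦃K⦄ (x : S.X K), S.L x → a x = g (b (e x))) : S.Acts χ a u := by
  have me := IsMap.of_inv he hg f l
  have mg := IsMap.of_inv hg he (fun _ y hy => by rw [← f _ (hg.live y hy), r y hy]) r
  have l1 : ∀ ⦃K⦄ (x : S.X K), S.L x → S'.L (b (e x)) := fun _ x hx => lb _ (he.live x hx)
  have la : ∀ ⦃K⦄ (x : S.X K), S.L x → S.L (a x) := fun _ x hx => h x hx ▸ hg.live _ (l1 x hx)
  have ha : IsMap S S a :=
    ((me.comp hb.1 fun _ x hx _ => he.live x hx).comp mg fun _ x hx _ => l1 x hx).congr h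
  exact Acts.of_uiso me (me.bij he.live (fun _ x x' hx hx' e' => by rw [← l x hx, e', l x' hx'])
    fun _ y hy => ⟨g y, hg.live y hy, r y hy⟩).uiso ha hb la
    (fun _ x hx => iff_of_true (he.live _ (la x hx)) ⟨he.live x hx, l1 x hx⟩)
    fun _ x hx _ => by rw [h x hx, r _ (l1 x hx)]

theorem qb_form {K : Type} [Field K] (P : Matrix ι ι' K) (N : Matrix ι ι K) (v : ι' → K) :
    v ⬝ᵥ (Pᵀ * N * P) *ᵥ v = (P *ᵥ v) ⬝ᵥ N *ᵥ P *ᵥ v := by
  rw [← mulVec_mulVec, ← mulVec_mulVec, dotProduct_mulVec, vecMul_transpose]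

theorem qb_neg {K : Type} [Field K] (N : Matrix ι ι K) (v : ι → K) :
    (-v) ⬝ᵥ N *ᵥ (-v) = v ⬝ᵥ N *ᵥ v := by
  rw [mulVec_neg, neg_dotProduct_neg]

section Change
variable [DecidableEq ι] [DecidableEq ι'] {P : Matrix ι ι' k} {Q : Matrix ι' ι k}
  {M : ∀ ⦃K : Fld k⦄, S.X K → Matrix ι ι K} {c : ∀ ⦃K⦄, S.X K → K}

omit [Fintype ι] [DecidableEq ι'] in
theorem qb_map (h : P * Q = 1) (K : Fld k) :
    P.map (algebraMap k K) * Q.map (algebraMap k K) = 1 := by
  rw [← Matrix.map_mul, h, Matrix.map_one _ (map_zero _) (map_one _)]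

omit [Fintype ι] [Fintype ι'] [DecidableEq ι] [DecidableEq ι'] in
theorem qb_mr {K K' : Fld k} (φ : Place K K') (P : Matrix ι ι' k) :
    MR φ (P.map (algebraMap k K)) (P.map (algebraMap k K')) := fun _ _ => φ.alg _

omit [CharZero F] in
theorem qb_change (PQ : P * Q = 1) (QP : Q * P = 1) {u : F}
    (h : (S.prod ((line k).pi ι)).Conv fun _ x => x.2 ⬝ᵥ M x.1 *ᵥ x.2 = c x.1)
    (h' : (S.prod ((line k).pi ι')).Conv fun K x =>
      x.2 ⬝ᵥ ((P.map (algebraMap k K))ᵀ * M x.1 * P.map (algebraMap k K)) *ᵥ x.2 = c x.1)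
    (H : ((S.prod ((line k).pi ι')).restr _ h').Acts χ (fun _ x => (x.1, -x.2)) u) :
    ((S.prod ((line k).pi ι)).restr _ h).Acts χ (fun _ x => (x.1, -x.2)) u := by
  have e1 : ∀ (K : Fld k) (v : ι → K),
      P.map (algebraMap k K) *ᵥ Q.map (algebraMap k K) *ᵥ v = v := fun K v => by
    rw [mulVec_mulVec, qb_map PQ, one_mulVec]
  have e2 : ∀ (K : Fld k) (v : ι' → K),
      Q.map (algebraMap k K) *ᵥ P.map (algebraMap k K) *ᵥ v = v := fun K v => by
    rw [mulVec_mulVec, qb_map QP, one_mulVec]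
  refine qb_transfer ((S.prod ((line k).pi ι)).restr _ h) ((S.prod ((line k).pi ι')).restr _ h')
    (e := fun K x => (x.1, Q.map (algebraMap k K) *ᵥ x.2))
    (g := fun K x => (x.1, P.map (algebraMap k K) *ᵥ x.2))
    ⟨fun K x a => ⟨⟨a.1.1, fun _ => trivial⟩, ?_⟩,
      fun _ _ φ _ _ _ _ r => ⟨r.1, (qb_mr φ Q).mulVec r.2⟩⟩
    ⟨fun K x a => ⟨⟨a.1.1, fun _ => trivial⟩, ?_⟩,
      fun _ _ φ _ _ _ _ r => ⟨r.1, (qb_mr φ P).mulVec r.2⟩⟩ (fun _ x _ => ?_)
    (fun K x _ => Prod.ext rfl (e1 K x.2)) (fun K x _ => Prod.ext rfl (e2 K x.2)) H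
    (fun _ x a => ⟨⟨a.1.1, fun _ => trivial⟩, (qb_neg _ _).trans a.2⟩)
    fun K x _ => Prod.ext rfl ?_
  · dsimp only
    rw [qb_form, e1]
    exact a.2
  · exact (qb_form _ _ _).symm.trans a.2
  · simp only [Finset.prod_const_one]
  · dsimp only
    rw [mulVec_neg, e1]

end Change

omit [CharZero F] in
theorem qb_restr {A B C : S.Cond} {hA : S.Conv A} {hB : (S.restr A hA).Conv B} (hC : S.Conv C)
    (e : ∀ ⦃K⦄ (x : S.X K), S.L x → (C x ↔ A x ∧ B x)) {a : ∀ ⦃K⦄, S.X K → S.X K} {u : F}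
    (la : ∀ ⦃K⦄ (x : S.X K), S.L x ∧ C x → S.L (a x) ∧ C (a x))
    (h : (S.restr C hC).Acts χ a u) : ((S.restr A hA).restr B hB).Acts χ a u :=
  qb_transfer ((S.restr A hA).restr B hB) (S.restr C hC) (e := fun _ x => x) (g := fun _ x => x)
    ⟨fun _ x l => ⟨l.1.1, (e x l.1.1).2 ⟨l.1.2, l.2⟩⟩, fun _ _ _ _ _ _ _ r => r⟩
    ⟨fun _ x l => and_assoc.2 ⟨l.1, (e x l.1).1 l.2⟩, fun _ _ _ _ _ _ _ r => r⟩
    (fun _ _ _ => rfl) (fun _ _ _ => rfl) (fun _ _ _ => rfl) h la fun _ _ _ => rfl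

/-- An involution acts as a sign if it does so on all strata. -/
theorem qb_patterns {G : Type} [Finite G] {Z : G → S.Cond} (hZ : ∀ g, S.Closed (Z g))
    {a : ∀ ⦃K⦄, S.X K → S.X K} {e : F} (ha : S.Reg S a)
    (f : ∀ ⦃K⦄ (x : S.X K), S.L x → S.f (a x) = S.f x)
    (inv : ∀ ⦃K⦄ (x : S.X K), S.L x → a (a x) = x) (he : e * e = 1)
    (st : ∀ g ⦃K⦄ (x : S.X K), S.L x → Z g x → Z g (a x))
    (h : ∀ A : Set G, (S.restr _ (conv_pattern hZ A)).Acts χ a e) : S.Acts χ a e := by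
  classical
  have := Fintype.ofFinite G
  have m : IsMap S S a := .of_inv ha ha f inv
  have iz : ∀ g ⦃K⦄ (x : S.X K), S.L x → (Z g (a x) ↔ Z g x) := fun g _ x hx =>
    ⟨fun l => inv x hx ▸ st g _ (ha.live x hx) l, st g x hx⟩
  have la : ∀ (s : Finset G) (A : Set G) ⦃K⦄ (x : S.X K),
      (S.L x ∧ ∀ g ∉ s, (Z g x ↔ g ∈ A)) → S.L (a x) ∧ ∀ g ∉ s, (Z g (a x) ↔ g ∈ A) :=
    fun s A _ x l => ⟨ha.live x l.1, fun g hg => (iz g x l.1).trans (l.2 g hg)⟩
  have key : ∀ (s : Finset G) (A : Set G), (S.restr _ (conv_pat hZ s A)).Acts χ a e := fun s => by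
    induction s using Finset.induction_on with
    | empty =>
      intro A
      exact qb_transfer (S.restr _ (conv_pat hZ ∅ A)) (S.restr _ (conv_pattern hZ A))
        (e := fun _ x => x) (g := fun _ x => x)
        ⟨fun _ x l => ⟨l.1, fun g => l.2 g (Finset.notMem_empty g)⟩, fun _ _ _ _ _ _ _ r => r⟩
        ⟨fun _ x l => ⟨l.1, fun g _ => l.2 g⟩, fun _ _ _ _ _ _ _ r => r⟩
        (fun _ _ _ => rfl) (fun _ _ _ => rfl) (fun _ _ _ => rfl) (h A)
        (fun _ x l => ⟨ha.live x l.1, fun g => (iz g x l.1).trans (l.2 g)⟩) fun _ _ _ => rfl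
    | insert g₀ s h0 ih =>
      intro A
      refine Acts.of_closed (S := S.restr _ (conv_pat hZ _ A))
        (m.restr _ _ fun _ x hx _ => forall₂_congr fun g _ => by rw [iz g x hx]) (la _ A)
        (fun _ x l => inv x l.1) he ((reg_restr _).closed (hZ g₀))
        (qb_restr (conv_pat hZ s (insert g₀ A)) (fun _ x _ => ?_) (la _ _) (ih _))
        (qb_restr (conv_pat hZ s (A \ {g₀})) (fun _ x _ => ?_) (la _ _) (ih _))
        fun _ x l => st g₀ x l.1
      · refine ⟨fun l => ⟨fun g hg => ?_, (l g₀ h0).2 (by simp)⟩, fun l g hg => ?_⟩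
        · rw [Finset.mem_insert, not_or] at hg
          rw [l g hg.2, Set.mem_insert_iff, or_iff_right hg.1]
        · by_cases e : g = g₀
          · exact iff_of_true (e ▸ l.2) (by simp [e])
          · rw [l.1 g (by simp [e, hg]), Set.mem_insert_iff, or_iff_right e]
      · refine ⟨fun l => ⟨fun g hg => ?_, fun m => ((l g₀ h0).1 m).2 rfl⟩, fun l g hg => ?_⟩
        · rw [Finset.mem_insert, not_or] at hg
          rw [l g hg.2, Set.mem_sdiff_singleton, and_iff_left hg.1]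
        · by_cases e : g = g₀
          · exact iff_of_false (e ▸ l.2) (by simp [e])
          · rw [l.1 g (by simp [e, hg]), Set.mem_sdiff_singleton, and_iff_left e]
  exact qb_transfer S (S.restr _ (conv_pat hZ Finset.univ ∅)) (e := fun _ x => x)
    (g := fun _ x => x)
    ⟨fun _ x l => ⟨l, fun g hg => absurd (Finset.mem_univ g) hg⟩, fun _ _ _ _ _ _ _ r => r⟩
    (reg_restr _) (fun _ _ _ => rfl) (fun _ _ _ => rfl) (fun _ _ _ => rfl) (key _ _) (la _ _)
    fun _ _ _ => rfl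

theorem qb_zero {K : Type} [Field K] [DecidableEq ι] (h2 : (2 : K) ≠ 0) {N : Matrix ι ι K}
    (hN : Nᵀ = N) (h : ∀ i j, (Pi.single i 1 + Pi.single j 1 : ι → K) ⬝ᵥ N *ᵥ
      (Pi.single i 1 + Pi.single j 1) = 0) : N = 0 := by
  have e : ∀ i j, N i i + N j j + 2 * N i j = 0 := fun i j => by
    have e1 := h i j
    have e2 : N j i = N i j := congrFun (congrFun hN i) j
    simp only [mulVec_add, add_dotProduct, dotProduct_add, mulVec_single_one, single_dotProduct,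
      one_mul, col_apply, e2] at e1
    linear_combination e1
  have e0 : ∀ i, N i i = 0 := fun i => by
    have e1 : 2 * (2 * N i i) = 0 := by linear_combination e i i
    exact (mul_eq_zero.1 ((mul_eq_zero.1 e1).resolve_left h2)).resolve_left h2
  ext i j
  have e1 := e i j
  rw [e0, e0, add_zero, zero_add] at e1
  exact (mul_eq_zero.1 e1).resolve_left h2

end

end Pool.Agent.Lib.MP_fc2ced_ag.T.C
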