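import Pool.Agent.Lib.MP_fc2ced_ag.C.Mat
import Pool.Agent.Lib.MP_fc2ced_ag.G.Rad
import Pool.Agent.Lib.MP_fc2ced_ag.C.QuadP

/-! Families of affine quadrics over a base without cohomology. -/

open CategoryTheory Function Matrix

namespace Pool.Agent.Lib.MP_fc2ced_ag.T.C

open K

noncomputable section

variable {k : Type} [Field k] {F : Type} [Field F] [CharZero F] {χ : Chr k F} {S : Pt k}

open MP_fc2ced_ag.T.Pt

/-- The involution of a double covering of a base without cohomology. -/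
theorem acts_refl {l c : ∀ ⦃K⦄, S.X K → K} (hl : S.RegF l) (hc : S.RegF c)
    (l0 : ∀ ⦃K⦄ (x : S.X K), S.L x → l x ≠ 0) (z : UZero (S.E χ))
    (h : (S.prod (line k)).Conv fun _ x => l x.1 * x.2 ^ 2 = c x.1) :
    ((S.prod (line k)).restr _ h).Acts χ (fun _ x => (x.1, -x.2)) (-1) := by
  have hq : S.RegP fun _ x => quad 0 (-(c x / l x)) := fun _ _ φ x y a b r =>
    quad_PR φ.zero ((hc φ x y a b r).div (hl φ x y a b r) (l0 y b)).neg
  have mo : ∀ ⦃K⦄ (x : S.X K), S.L x → (quad 0 (-(c x / l x))).Monic := fun _ _ _ =>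
    quad_monic _ _
  have iff : ∀ ⦃K⦄ (x : (S.prod (line k)).X K), (S.prod (line k)).L x →
      ((quad 0 (-(c x.1 / l x.1))).IsRoot x.2 ↔ l x.1 * x.2 ^ 2 = c x.1) := fun _ x hx => by
    have n0 := l0 x.1 hx.1
    rw [quad_root, zero_sub, mul_neg, neg_inj, eq_div_iff n0]
    constructor <;> intro e <;> linear_combination e
  have m1 : IsMap (S.root _ hq) ((S.prod (line k)).restr _ h) fun _ x => (x.1, x.2) :=
    (isMap_id (S := S.prod (line k))).restr _ _ fun _ x hx _ => iff x hx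
  have m2 : IsMap ((S.prod (line k)).restr _ h) (S.root _ hq) fun _ x => x :=
    (isMap_id (S := S.prod (line k))).restr _ _ fun _ x hx _ => (iff x hx).symm
  have m3 := m2.comp (isMap_root hq mo) fun _ x hx _ => ⟨hx.1, (iff x hx.1).2 hx.2⟩
  have cor := isCor_root (S' := (S.prod (line k)).restr _ h) (e := fun _ x s => (x, s)) hq mo m1
  have rg : ((S.prod (line k)).restr _ h).Reg ((S.prod (line k)).restr _ h)
      fun _ x => (x.1, -x.2) :=
    ⟨fun _ x hx => ⟨hx.1, (congrArg (l x.1 * ·) (neg_sq x.2)).trans hx.2⟩,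
      fun _ _ _ _ _ _ _ r => ⟨r.1, r.2.neg⟩⟩
  have im := IsMap.of_inv rg rg (fun _ _ _ => rfl) fun _ x _ => Prod.ext rfl (neg_neg x.2)
  refine ⟨im, ?_⟩
  rw [show im.hom χ - (-1 : F) • 𝟙 _ = m3.hom χ ≫ cor.hom χ from hom_ext fun K x hx => ?_]
  · exact (z.null_left _).precomp _
  have n0 := l0 x.1 hx.1.1
  rw [neg_smul, one_smul, sub_neg_eq_add, Ob.comp_apply, m3.hom_cl hx, cor.hom_cl hx.1.1,
    quad_roots (a := -x.2) (b := x.2) (neg_add_cancel _).symm (by
      rw [← hx.2]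
      field_simp)]
  change (im.hom χ).1 K (Pt.cl F _ x) + Pt.cl F _ x = _
  rw [im.hom_cl hx, Multiset.insert_eq_cons, Multiset.map_cons, Multiset.map_singleton, cls_cons,
    cls_singleton]

variable (χ S) in
/-- A family of nondegenerate symmetric matrices that is fixed by a flow. -/
structure QD (ι : Type) [Fintype ι] (M : ∀ ⦃K : Fld k⦄, S.X K → Matrix ι ι K) : Prop where
  reg : ∀ ⦃K K'⦄ (φ : Place K K') (x : S.X K) (y : S.X K'), S.L x → S.L y → S.R φ x y →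
    MR φ (M x) (M y)
  sym : ∀ ⦃K⦄ (x : S.X K), S.L x → (M x)ᵀ = M x
  inj : ∀ ⦃K : Fld k⦄ (x : S.X K) (v : ι → K), S.L x → M x *ᵥ v = 0 → v = 0
  flow : ∃ (t : ℤ) (τ : ∀ ⦃K : Fld k⦄, K → S.X K → S.X K), χ.ψ t ≠ 1 ∧ S.Flow t τ ∧
    ∀ ⦃K : Fld k⦄ (r : K) (x : S.X K), r ≠ 0 → S.L x → M (τ r x) = M x

variable (χ) in
/-- The statement for an index type. -/
def QA (ι : Type) [Fintype ι] : Prop :=
  ∀ (S : Pt k) (M : ∀ ⦃K : Fld k⦄, S.X K → Matrix ι ι K) (c : ∀ ⦃K⦄, S.X K → K), QD χ S ι M →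
    S.RegF c →
    ∀ h : (S.prod ((line k).pi ι)).Conv fun _ x => x.2 ⬝ᵥ M x.1 *ᵥ x.2 = c x.1,
      ((S.prod ((line k).pi ι)).restr _ h).Acts χ (fun _ x => (x.1, -x.2))
        ((-1) ^ Fintype.card ι)

variable {ι ι' : Type} [Fintype ι] [Fintype ι']

theorem qa_empty [IsEmpty ι] : QA χ ι := fun _ _ _ _ _ _ => by
  rw [Fintype.card_eq_zero, pow_zero]
  exact Acts.of_fix fun _ x _ => Prod.ext rfl (funext fun i => isEmptyElim i)

omit [CharZero F] in
theorem qb_closed {M : ∀ ⦃K : Fld k⦄, S.X K → Matrix ι ι K} {c : ∀ ⦃K⦄, S.X K → K}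
    (hM : QD χ S ι M) (hc : S.RegF c) :
    (S.prod ((line k).pi ι)).Closed fun _ x => x.2 ⬝ᵥ M x.1 *ᵥ x.2 = c x.1 :=
  fun _ _ φ _ _ a b r e => (rel_dot r.2 ((hM.reg φ _ _ a.1 b.1 r.1).mulVec r.2)).eq_of
    (hc φ _ _ a.1 b.1 r.1) e

section Change
variable [DecidableEq ι] [DecidableEq ι'] {P : Matrix ι ι' k} {Q : Matrix ι' ι k}
  {M : ∀ ⦃K : Fld k⦄, S.X K → Matrix ι ι K} {c : ∀ ⦃K⦄, S.X K → K}

omit [CharZero F] in
theorem qb_qd (PQ : P * Q = 1) (QP : Q * P = 1) (hM : QD χ S ι M) : QD χ S ι' fun K x =>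
    (P.map (algebraMap k K))ᵀ * M x * P.map (algebraMap k K) := by
  refine ⟨fun _ _ φ x y a b r => ((qb_mr φ P).transpose.mul (hM.reg φ x y a b r)).mul (qb_mr φ P),
    fun _ x a => ?_, fun K x v a e => ?_, ?_⟩
  · rw [transpose_mul, transpose_mul, transpose_transpose, hM.sym x a, Matrix.mul_assoc]
  · have e1 := congrArg ((Q.map (algebraMap k K))ᵀ *ᵥ ·) e
    simp only [mulVec_zero] at e1
    rw [mulVec_mulVec, ← Matrix.mul_assoc, ← Matrix.mul_assoc, ← transpose_mul, qb_map PQ,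
      transpose_one, Matrix.one_mul, ← mulVec_mulVec] at e1
    have e2 := congrArg (Q.map (algebraMap k K) *ᵥ ·) (hM.inj x _ a e1)
    simp only [mulVec_zero] at e2
    rwa [mulVec_mulVec, qb_map QP, one_mulVec] at e2
  · obtain ⟨t, τ, h1, h2, h3⟩ := hM.flow
    exact ⟨t, τ, h1, h2, fun _ r x hr a => by rw [h3 r x hr a]⟩

end Change

theorem QA.equiv (e : ι ≃ ι') (h : QA χ ι) : QA χ ι' := by
  classical
  intro S M c hM hc h'
  have PQ : (1 : Matrix ι' ι' k).submatrix id e * (1 : Matrix ι' ι' k).submatrix e id = 1 := by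
    rw [submatrix_mul_equiv, Matrix.mul_one, submatrix_id_id]
  have QP : (1 : Matrix ι' ι' k).submatrix e id * (1 : Matrix ι' ι' k).submatrix id e = 1 := by
    rw [← submatrix_mul _ _ _ _ _ bijective_id, Matrix.mul_one, submatrix_one_equiv]
  rw [← Fintype.card_congr e]
  exact qb_change PQ QP h' _ (h S _ c (qb_qd PQ QP hM) hc (qb_closed (qb_qd PQ QP hM) hc).conv)

variable {M : ∀ ⦃K : Fld k⦄, S.X K → Matrix (Option ι) (Option ι) K} {c : ∀ ⦃K⦄, S.X K → K}

omit [CharZero F] in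
/-- Transport along an isomorphism. -/
theorem qa_conj {S' : Pt k} {e : ∀ ⦃K⦄, S.X K → S'.X K} {g : ∀ ⦃K⦄, S'.X K → S.X K}
    (he : S.Reg S' e) (hg : S'.Reg S g) (f : ∀ ⦃K⦄ (x : S.X K), S.L x → S'.f (e x) = S.f x)
    (l : ∀ ⦃K⦄ (x : S.X K), S.L x → g (e x) = x) (r : ∀ ⦃K⦄ (y : S'.X K), S'.L y → e (g y) = y)
    {a : ∀ ⦃K⦄, S.X K → S.X K} {b : ∀ ⦃K⦄, S'.X K → S'.X K} {u : F} (hb : S'.Acts χ b u)
    (lb : ∀ ⦃K⦄ (y : S'.X K), S'.L y → S'.L (b y))
    (ha : ∀ ⦃K⦄ (x : S.X K), S.L x → a x = g (b (e x))) : S.Acts χ a u := by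
  have m1 : IsMap S S' e := .of_inv he hg f l
  have m2 : IsMap S' S g :=
    .of_inv hg he (fun _ y hy => by rw [← f (g y) (hg.live y hy), r y hy]) r
  obtain ⟨mb, nb⟩ := hb
  have lv : ∀ ⦃K⦄ (x : S.X K), S.L x → S'.L (b (e x)) := fun _ x hx => lb _ (he.live x hx)
  have la : ∀ ⦃K⦄ (x : S.X K), S.L x → S.L (a x) := fun _ x hx => by
    rw [ha x hx]
    exact hg.live _ (lv x hx)
  refine Acts.of_uiso m1 (m1.bij he.live
    (fun _ x x' h h' q => by rw [← l x h, q, l x' h'])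
    fun _ y hy => ⟨g y, hg.live y hy, r y hy⟩).uiso
    (((m1.comp mb fun _ x hx _ => he.live x hx).comp m2 fun _ x hx _ => lv x hx).congr ha)
    ⟨mb, nb⟩ la (fun _ x hx => ⟨fun _ => ⟨he.live x hx, lv x hx⟩, fun _ => he.live _ (la x hx)⟩)
    fun _ x hx _ => by rw [ha x hx, r _ (lv x hx)]

theorem qa_flow {t : ℤ} {τ : ∀ ⦃K : Fld k⦄, K → S.X K → S.X K} (h : S.Flow t τ) (P : Pt k) :
    (S.prod P).Flow t fun _ r x => (τ r x.1, x.2) where
  live _ r x hr hx := ⟨h.live r x.1 hr hx.1, hx.2⟩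
  one _ x hx := Prod.ext (h.one x.1 hx.1) rfl
  inv _ r x hr hx := Prod.ext (h.inv r x.1 hr hx.1) rfl
  f _ r x hr hx := (congrArg (· * P.f x.2) (h.f r x.1 hr hx.1)).trans (mul_right_comm _ _ _)
  reg _ _ φ r r' x y hr h0 hx hy q := ⟨h.reg φ r r' x.1 y.1 hr h0 hx.1 hy.1 q.1, q.2⟩

section Schur
variable {K : Type} [Field K]

/-- The matrix that remains after the square is completed. -/
def qaSch (A : Matrix (Option ι) (Option ι) K) : Matrix ι ι K :=
  of fun i j => A (some i) (some j) - A (some i) none * A none (some j) / A none none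

/-- The shift of the first coordinate. -/
def qaBt (A : Matrix (Option ι) (Option ι) K) (v : ι → K) : K :=
  (∑ j, A none (some j) * v j) / A none none

variable {A : Matrix (Option ι) (Option ι) K}

theorem qaBt_neg (v : ι → K) : qaBt A (-v) = -qaBt A v := by
  simp only [qaBt, Pi.neg_apply, mul_neg, Finset.sum_neg_distrib, neg_div]

theorem qaSch_mulVec (v : ι → K) (i : ι) :
    (qaSch A *ᵥ v) i = ∑ j, A (some i) (some j) * v j - A (some i) none * qaBt A v := by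
  simp only [mulVec, dotProduct, qaSch, of_apply, sub_mul, Finset.sum_sub_distrib, qaBt]
  rw [Finset.sum_div, Finset.mul_sum]
  congr 1
  exact Finset.sum_congr rfl fun j _ => by ring

omit [Fintype ι] in
theorem qaSch_sym (h : Aᵀ = A) : (qaSch A)ᵀ = qaSch A := by
  have e : ∀ a b, A a b = A b a := fun a b => congrFun (congrFun h b) a
  ext i j
  simp only [qaSch, transpose_apply, of_apply]
  rw [e (some j) (some i), e (some j) none, e none (some i), mul_comm]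

theorem qaSch_inj (h : ∀ v, A *ᵥ v = 0 → v = 0) (n0 : A none none ≠ 0) (v : ι → K)
    (e : qaSch A *ᵥ v = 0) : v = 0 := by
  have := h (fun o => o.elim (-qaBt A v) v) (funext fun o => ?_)
  · exact funext fun i => congrFun this (some i)
  simp only [mulVec, dotProduct, Fintype.sum_option, Option.elim, Pi.zero_apply]
  cases o with
  | none =>
    rw [qaBt]
    field_simp
    ring
  | some i =>
    have := congrFun e i
    rw [qaSch_mulVec, Pi.zero_apply] at this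
    linear_combination this

theorem qa_form (h : Aᵀ = A) (n0 : A none none ≠ 0) (x : Option ι → K) :
    x ⬝ᵥ A *ᵥ x = A none none * (x none + qaBt A fun i => x (some i)) ^ 2 +
      (fun i => x (some i)) ⬝ᵥ qaSch A *ᵥ fun i => x (some i) := by
  have e : ∀ a b, A a b = A b a := fun a b => congrFun (congrFun h b) a
  have e1 : ∑ j, A none (some j) * x (some j) = A none none * qaBt A fun i => x (some i) := by
    rw [qaBt, mul_div_cancel₀ _ n0]
  have e2 : ∀ t : K, ∑ i, x (some i) * (A (some i) none * t) =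
      (A none none * qaBt A fun i => x (some i)) * t := fun t => by
    rw [← e1, Finset.sum_mul]
    exact Finset.sum_congr rfl fun i _ => by rw [e (some i) none]; ring
  simp only [dotProduct, qaSch_mulVec, mul_sub, Finset.sum_sub_distrib]
  simp only [mulVec, dotProduct, Fintype.sum_option, mul_add, Finset.sum_add_distrib]
  rw [e1, e2, e2]
  ring

end Schur

section SchurRel
variable {K K' : Fld k} {φ : Place K K'} {A : Matrix (Option ι) (Option ι) K}
  {B : Matrix (Option ι) (Option ι) K'}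

omit [Fintype ι] in
theorem qaSch_rel (h : MR φ A B) (n0 : B none none ≠ 0) : MR φ (qaSch A) (qaSch B) :=
  fun i j => (h (some i) (some j)).sub
    (((h (some i) none).mul (h none (some j))).div (h none none) n0)

theorem qaBt_rel (h : MR φ A B) (n0 : B none none ≠ 0) {v : ι → K} {v' : ι → K'}
    (hv : ∀ i, φ (v i) (v' i)) : φ (qaBt A v) (qaBt B v') :=
  (Place.sum fun j _ => (h none (some j)).mul (hv j)).div (h none none) n0

end SchurRel

/-- The first diagonal entry is invertible. -/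
theorem QA.pivot (H : QA χ ι) (hM : QD χ S (Option ι) M) (hc : S.RegF c)
    (p : ∀ ⦃K⦄ (x : S.X K), S.L x → M x none none ≠ 0)
    (h : (S.prod ((line k).pi (Option ι))).Conv fun _ x => x.2 ⬝ᵥ M x.1 *ᵥ x.2 = c x.1) :
    ((S.prod ((line k).pi (Option ι))).restr _ h).Acts χ (fun _ x => (x.1, -x.2))
      ((-1) ^ Fintype.card (Option ι)) := by
  obtain ⟨t, τ, ht, fl, hτ⟩ := hM.flow
  have qd : QD χ (S.prod (line k)) ι fun _ x => qaSch (M x.1) :=
    { reg := fun _ _ φ x y a b r => qaSch_rel (hM.reg φ x.1 y.1 a.1 b.1 r.1) (p y.1 b.1)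
      sym := fun _ x a => qaSch_sym (hM.sym x.1 a.1)
      inj := fun _ x v a => qaSch_inj (fun u => hM.inj x.1 u a.1) (p x.1 a.1) v
      flow := ⟨t, _, ht, qa_flow fl _, fun _ r x hr a => congrArg qaSch (hτ r x.1 hr a.1)⟩ }
  have c2 : (S.prod (line k)).RegF fun _ x => c x.1 - M x.1 none none * x.2 ^ 2 :=
    fun _ _ φ x y a b r => (hc φ x.1 y.1 a.1 b.1 r.1).sub
      ((hM.reg φ x.1 y.1 a.1 b.1 r.1 none none).mul (r.2.pow 2))
  have h2 : ((S.prod (line k)).prod ((line k).pi ι)).Conv fun _ x =>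
      x.2 ⬝ᵥ qaSch (M x.1.1) *ᵥ x.2 = c x.1.1 - M x.1.1 none none * x.1.2 ^ 2 :=
    Closed.conv fun _ _ φ x y a b r e =>
      (rel_dot r.2 fun i => (qd.reg φ x.1 y.1 a.1 b.1 r.1).mulVec r.2 i).eq_of
        (c2 φ x.1 y.1 a.1 b.1 r.1) e
  have a2 := H _ _ _ qd c2 h2
  have l1 : (S.prod ((line k).pi ι)).RegF fun _ x => M x.1 none none :=
    fun _ _ φ x y a b r => hM.reg φ x.1 y.1 a.1 b.1 r.1 none none
  have c1 : (S.prod ((line k).pi ι)).RegF fun _ x => c x.1 - x.2 ⬝ᵥ qaSch (M x.1) *ᵥ x.2 :=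
    fun _ _ φ x y a b r => (hc φ x.1 y.1 a.1 b.1 r.1).sub (rel_dot r.2 fun i =>
      (qaSch_rel (hM.reg φ x.1 y.1 a.1 b.1 r.1) (p y.1 b.1)).mulVec r.2 i)
  have h1 : ((S.prod ((line k).pi ι)).prod (line k)).Conv fun _ x =>
      M x.1.1 none none * x.2 ^ 2 = c x.1.1 - x.1.2 ⬝ᵥ qaSch (M x.1.1) *ᵥ x.1.2 :=
    Closed.conv fun _ _ φ x y a b r e =>
      ((l1 φ x.1 y.1 a.1 b.1 r.1).mul (r.2.pow 2)).eq_of (c1 φ x.1 y.1 a.1 b.1 r.1) e
  have a1 := acts_refl (χ := χ) l1 c1 (fun _ x a => p x.1 a.1) ((qa_flow fl _).uzero ht) h1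
  have a3 : (((S.prod ((line k).pi ι)).prod (line k)).restr _ h1).Acts χ
      (fun _ x => ((x.1.1, -x.1.2), x.2)) ((-1) ^ Fintype.card ι) :=
    qa_conj (S := ((S.prod ((line k).pi ι)).prod (line k)).restr _ h1)
      (S' := ((S.prod (line k)).prod ((line k).pi ι)).restr _ h2)
      (e := fun _ x => ((x.1.1, x.2), x.1.2)) (g := fun _ y => ((y.1.1, y.2), y.1.2))
      ⟨fun _ x a => ⟨⟨⟨a.1.1.1, trivial⟩, a.1.1.2⟩, eq_sub_iff_add_eq'.2 (eq_sub_iff_add_eq.1 a.2)⟩,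
        fun _ _ _ _ _ _ _ r => ⟨⟨r.1.1, r.2⟩, r.1.2⟩⟩
      ⟨fun _ x a => ⟨⟨⟨a.1.1.1, a.1.2⟩, trivial⟩, eq_sub_iff_add_eq'.2 (eq_sub_iff_add_eq.1 a.2)⟩,
        fun _ _ _ _ _ _ _ r => ⟨⟨r.1.1, r.2⟩, r.1.2⟩⟩
      (fun _ _ _ => mul_right_comm _ _ _) (fun _ _ _ => rfl) (fun _ _ _ => rfl) a2
      (fun _ y a => ⟨⟨a.1.1, fun _ => trivial⟩, by
        refine Eq.trans ?_ a.2
        show (-y.2) ⬝ᵥ qaSch (M y.1.1) *ᵥ (-y.2) = y.2 ⬝ᵥ qaSch (M y.1.1) *ᵥ y.2
        rw [mulVec_neg, neg_dotProduct_neg]⟩) fun _ _ _ => rfl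
  have lv : ∀ ⦃K⦄ (x : (((S.prod ((line k).pi ι)).prod (line k)).restr _ h1).X K),
      (((S.prod ((line k).pi ι)).prod (line k)).restr _ h1).L x →
      (((S.prod ((line k).pi ι)).prod (line k)).restr _ h1).L (x.1, -x.2) := fun _ x a =>
    ⟨a.1, (congrArg (M x.1.1 none none * ·) (neg_sq x.2)).trans a.2⟩
  have a4 : (((S.prod ((line k).pi ι)).prod (line k)).restr _ h1).Acts χ
      (fun _ x => ((x.1.1, -x.1.2), -x.2)) ((-1) ^ Fintype.card (Option ι)) :=
    a1.comp a3 lv (fun _ _ _ => rfl) (by rw [Fintype.card_option, pow_succ'])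
  refine qa_conj (S := (S.prod ((line k).pi (Option ι))).restr _ h)
    (S' := ((S.prod ((line k).pi ι)).prod (line k)).restr _ h1)
    (e := fun _ x => ((x.1, fun i => x.2 (some i)), x.2 none + qaBt (M x.1) fun i => x.2 (some i)))
    (g := fun _ y => (y.1.1, fun o => o.elim (y.2 - qaBt (M y.1.1) y.1.2) y.1.2))
    ⟨fun _ x a => ⟨⟨⟨a.1.1, fun _ => trivial⟩, trivial⟩, eq_sub_iff_add_eq.2
        ((qa_form (hM.sym x.1 a.1.1) (p x.1 a.1.1) x.2).symm.trans a.2)⟩,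
      fun _ _ φ x y a b r => ⟨⟨r.1, fun i => r.2 (some i)⟩, (r.2 none).add
        (qaBt_rel (hM.reg φ x.1 y.1 a.1.1 b.1.1 r.1) (p y.1 b.1.1) fun i => r.2 (some i))⟩⟩
    ⟨fun _ y a => ⟨⟨a.1.1.1, fun _ => trivial⟩,
        (qa_form (hM.sym y.1.1 a.1.1.1) (p y.1.1 a.1.1.1) _).trans ?_⟩,
      fun _ _ φ x y a b r => ⟨r.1.1, fun o => ?_⟩⟩
    (fun _ x _ => ?_) (fun _ x _ => Prod.ext rfl (funext fun o => ?_))
    (fun _ y _ => Prod.ext rfl (sub_add_cancel _ _)) a4 (fun _ y a => ⟨⟨⟨a.1.1.1, fun _ => trivial⟩,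
      trivial⟩, ?_⟩) fun _ x _ => Prod.ext rfl (funext fun o => ?_)
  · show M y.1.1 none none * (y.2 - qaBt (M y.1.1) y.1.2 + qaBt (M y.1.1) y.1.2) ^ 2 +
      y.1.2 ⬝ᵥ qaSch (M y.1.1) *ᵥ y.1.2 = c y.1.1
    rw [sub_add_cancel]
    exact eq_sub_iff_add_eq.1 a.2
  · cases o with
    | none =>
      exact r.2.sub (qaBt_rel (hM.reg φ x.1.1 y.1.1 a.1.1.1 b.1.1.1 r.1.1) (p y.1.1 b.1.1.1) r.1.2)
    | some i => exact r.1.2 i
  · show S.f x.1 * (∏ _i : ι, 1) * 1 = S.f x.1 * ∏ _i : Option ι, 1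
    simp only [Finset.prod_const_one, mul_one]
  · cases o with
    | none => exact add_sub_cancel_right _ _
    | some i => rfl
  · show M y.1.1 none none * (-y.2) ^ 2 = c y.1.1 - (-y.1.2) ⬝ᵥ qaSch (M y.1.1) *ᵥ (-y.1.2)
    rw [mulVec_neg, neg_dotProduct_neg, neg_sq]
    exact a.2
  · cases o with
    | none =>
      show -x.2 none = -(x.2 none + qaBt (M x.1) fun i => x.2 (some i)) -
        qaBt (M x.1) (-fun i => x.2 (some i))
      rw [qaBt_neg]
      ring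
    | some i => rfl

/-- A constant vector has an invertible norm. -/
theorem QA.pivot' (H : QA χ ι) (hM : QD χ S (Option ι) M) (hc : S.RegF c) {v : Option ι → k}
    (p : ∀ ⦃K : Fld k⦄ (x : S.X K), S.L x →
      (fun i => algebraMap k K (v i)) ⬝ᵥ M x *ᵥ (fun i => algebraMap k K (v i)) ≠ 0)
    (v0 : v ≠ 0)
    (h : (S.prod ((line k).pi (Option ι))).Conv fun _ x => x.2 ⬝ᵥ M x.1 *ᵥ x.2 = c x.1) :
    ((S.prod ((line k).pi (Option ι))).restr _ h).Acts χ (fun _ x => (x.1, -x.2))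
      ((-1) ^ Fintype.card (Option ι)) := by
  classical
  obtain ⟨i, hi⟩ := Function.ne_iff.1 v0
  have hd : IsUnit (updateCol (1 : Matrix (Option ι) (Option ι) k) i v).det := by
    rw [← cramer_apply, cramer_one]
    exact Ne.isUnit hi
  generalize hA : updateCol (1 : Matrix (Option ι) (Option ι) k) i v = A at hd
  have PQ : A.submatrix id (Equiv.swap none i) * A⁻¹.submatrix (Equiv.swap none i) id = 1 := by
    rw [submatrix_mul_equiv, mul_nonsing_inv _ hd, submatrix_id_id]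
  have QP : A⁻¹.submatrix (Equiv.swap none i) id * A.submatrix id (Equiv.swap none i) = 1 := by
    rw [← submatrix_mul _ _ _ _ _ bijective_id, nonsing_inv_mul _ hd, submatrix_one_equiv]
  refine qb_change PQ QP h _ (H.pivot (qb_qd PQ QP hM) hc (fun K x a => ?_)
    (qb_closed (qb_qd PQ QP hM) hc).conv)
  have e : (fun j => algebraMap k K (v j)) =
      fun j => (A.submatrix id (Equiv.swap none i)).map (algebraMap k K) j none := by
    funext j
    rw [map_apply, submatrix_apply, Equiv.swap_apply_left, ← hA, updateCol_self, id_eq]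
  have e' := p x a
  rw [e] at e'
  rw [Matrix.mul_assoc]
  exact e'

/-- An involution acts as a sign if it does so on all strata. -/
theorem acts_of_patterns {G : Type} [Finite G] {Z : G → S.Cond} (hZ : ∀ g, S.Closed (Z g))
    {a : ∀ ⦃K⦄, S.X K → S.X K} {e : F} (ha : S.Reg S a)
    (f : ∀ ⦃K⦄ (x : S.X K), S.L x → S.f (a x) = S.f x)
    (inv : ∀ ⦃K⦄ (x : S.X K), S.L x → a (a x) = x) (he : e * e = 1)
    (st : ∀ g ⦃K⦄ (x : S.X K), S.L x → Z g x → Z g (a x))
    (h : ∀ A : Set G, (S.restr _ (conv_pattern hZ A)).Acts χ a e) : S.Acts χ a e :=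
  qb_patterns hZ ha f inv he st h

theorem QA.option (h2 : (2 : k) ≠ 0) (H : QA χ ι) : QA χ (Option ι) := by
  classical
  intro S M c hM hc h
  let w : Option ι × Option ι → Option ι → k := fun g => Pi.single g.1 1 + Pi.single g.2 1
  let Z : Option ι × Option ι → S.Cond := fun g K x =>
    (fun i => algebraMap k K (w g i)) ⬝ᵥ M x *ᵥ (fun i => algebraMap k K (w g i)) = 0
  have hZ : ∀ g, S.Closed (Z g) := fun g _ _ φ x y a b r e =>
    (rel_dot (fun _ => φ.alg _) ((hM.reg φ x y a b r).mulVec fun _ => φ.alg _)).eq_of φ.zero e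
  have ha : ((S.prod ((line k).pi (Option ι))).restr _ h).Reg
      ((S.prod ((line k).pi (Option ι))).restr _ h) fun _ x => (x.1, -x.2) :=
    ⟨fun _ x a => ⟨⟨a.1.1, fun _ => trivial⟩, (qb_neg _ _).trans a.2⟩,
      fun _ _ _ _ _ _ _ r => ⟨r.1, fun i => (r.2 i).neg⟩⟩
  have inv : ∀ ⦃K⦄ (x : ((S.prod ((line k).pi (Option ι))).restr _ h).X K),
      ((S.prod ((line k).pi (Option ι))).restr _ h).L x → (x.1, - -x.2) = x :=
    fun _ x _ => Prod.ext rfl (neg_neg x.2)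
  refine acts_of_patterns (S := (S.prod ((line k).pi (Option ι))).restr _ h)
    (Z := fun g _ x => Z g x.1)
    (fun g => ((reg_restr h).comp reg_fst).closed (hZ g)) ha (fun _ _ _ => rfl) inv
    (by rw [← mul_pow, neg_one_mul, neg_neg, one_pow]) (fun _ _ _ _ l => l) fun A => ?_
  by_cases hA : ∀ g, g ∈ A
  · refine Acts.of_uzero ((IsMap.of_inv ha ha (fun _ _ _ => rfl) inv).restr _ _
      fun _ _ _ _ => Iff.rfl) (uzero_empty fun K x a => ?_)
    have k2 : (2 : K) ≠ 0 := by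
      rw [← map_ofNat (algebraMap k K) 2]
      exact (_root_.map_ne_zero _).2 h2
    have h0 : M x.1 = 0 := qb_zero k2 (hM.sym _ a.1.1.1) fun i j => by
      have e : (fun l => algebraMap k K (w (i, j) l)) = Pi.single i 1 + Pi.single j 1 := by
        funext l
        simp only [w, Pi.add_apply, map_add, Pi.single_apply, apply_ite (algebraMap k K), map_one,
          map_zero]
      rw [← e]
      exact (a.2 (i, j)).2 (hA _)
    have h1 := hM.inj x.1 (fun _ => 1) a.1.1.1 (by rw [h0, zero_mulVec])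
    exact one_ne_zero (congrFun h1 none)
  obtain ⟨g, hg⟩ := not_forall.1 hA
  have hM' : QD χ (S.restr _ (conv_pattern hZ A)) (Option ι) M := by
    refine ⟨fun _ _ φ x y a b => hM.reg φ x y a.1 b.1, fun _ x a => hM.sym x a.1,
      fun _ x v a => hM.inj x v a.1, ?_⟩
    obtain ⟨t, τ, h1, h3, h4⟩ := hM.flow
    exact ⟨t, τ, h1, ⟨fun _ r x hr a => ⟨h3.live r x hr a.1, fun g => by
        simpa only [Z, h4 r x hr a.1] using a.2 g⟩, fun _ x a => h3.one x a.1,
      fun _ r x hr a => h3.inv r x hr a.1, fun _ r x hr a => h3.f r x hr a.1,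
      fun _ _ φ r r' x y hr n a b => h3.reg φ r r' x y hr n a.1 b.1⟩,
      fun _ r x hr a => h4 r x hr a.1⟩
  have hc' : (S.restr _ (conv_pattern hZ A)).RegF c := (reg_restr _).regF hc
  have w0 : w g ≠ 0 := fun e => by
    have e1 := congrFun e g.1
    simp only [w, Pi.add_apply, Pi.single_eq_same, Pi.zero_apply, Pi.single_apply] at e1
    split_ifs at e1
    · exact h2 (one_add_one_eq_two.symm.trans e1)
    · exact one_ne_zero ((add_zero _).symm.trans e1)
  exact qb_transfer (((S.prod ((line k).pi (Option ι))).restr _ h).restr _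
      (conv_pattern (fun g => ((reg_restr h).comp reg_fst).closed (hZ g)) A))
    (((S.restr _ (conv_pattern hZ A)).prod ((line k).pi (Option ι))).restr _
      (qb_closed hM' hc').conv) (e := fun _ x => x) (g := fun _ x => x)
    ⟨fun _ x a => ⟨⟨⟨a.1.1.1, a.2⟩, a.1.1.2⟩, a.1.2⟩, fun _ _ _ _ _ _ _ r => r⟩
    ⟨fun _ x a => ⟨⟨⟨a.1.1.1, a.1.2⟩, a.2⟩, a.1.1.2⟩, fun _ _ _ _ _ _ _ r => r⟩
    (fun _ _ _ => rfl) (fun _ _ _ => rfl) (fun _ _ _ => rfl)
    (H.pivot' hM' hc' (fun _ x a e => hg ((a.2 g).1 e)) w0 (qb_closed hM' hc').conv)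
    (fun _ x a => ⟨⟨a.1.1, fun _ => trivial⟩, (qb_neg _ _).trans a.2⟩) fun _ _ _ => rfl

theorem quad_acts (h2 : (2 : k) ≠ 0) (ι : Type) [Fintype ι] : QA χ ι :=
  Fintype.induction_empty_option (P := fun ι _ => QA χ ι)
    (fun α β _ e h => @QA.equiv _ _ _ _ _ _ α β (Fintype.ofEquiv β e.symm) _ e h) qa_empty
    (fun _ _ h => h.option h2) ι

end

end Pool.Agent.Lib.MP_fc2ced_ag.T.C
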