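import Pool.Agent.Lib.MP_fc2ced_ag.C.Q
import Pool.Agent.Lib.MP_fc2ced_ag.C.Quad

/-! Chains of matrices of size two. -/

open CategoryTheory Function Polynomial Matrix

namespace Pool.Agent.Lib.MP_fc2ced_ag.T.C

open K

noncomputable section

variable {k : Type} [Field k] {F : Type} [Field F] {χ : Chr k F}

open MP_fc2ced_ag.T.Pt hiding X

section Alg
variable {K : Type} [Field K] {n m : ℕ}

/-- The involution. -/
def sig (Y : ℕ → Mx 2 K) (i : ℕ) : Mx 2 K :=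
  !![0, 1; 1, Y 0 1 1] * (Y i)ᵀ * !![-Y 0 1 1, 1; 1, 0]

omit [Field K] in
theorem ta_ext {a b c d a' b' c' d' : K} (h1 : a = a') (h2 : b = b') (h3 : c = c') (h4 : d = d') :
    !![a, b; c, d] = !![a', b'; c', d'] := by rw [h1, h2, h3, h4]

omit [Field K] in
theorem ta_tr (a b c d : K) : !![a, b; c, d]ᵀ = !![a, c; b, d] := eta_fin_two _

theorem ta_Rx (v : Fin 2 → K) : Rx v = !![1, 0; -v 0, 1] := by
  have h := luni_Rx v
  have h1 := cp_chi_succ v 0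
  have h2 : chiA (fun a (_ : Fin 1) => v a) 0 = 1 := by simp [chiA]
  rw [Fin.val_zero, h2, mul_one] at h1
  rw [eta_fin_two (Rx v), h.2, h.2, h.1 0 1 (by decide)]
  have h3 : Rx v 1 0 = (chiA (fun a (_ : Fin 1) => v a) (0 + 1)).coeff 0 := rfl
  rw [h3, h1, coeff_sub, coeff_X_zero, coeff_C_zero, zero_sub]

theorem ta_qm {x : (Fin 2 → ℕ → K) × (ℕ → Mx 2 K)} (h : ∀ i, IsNil (x.2 i)) (i : ℕ) :
    qm x i = !![x.1 0 i - x.2 i 0 1 * x.1 0 0, x.2 i 0 1;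
      x.1 0 0 * (x.1 0 i - x.2 i 0 1 * x.1 0 0 - x.1 1 i), x.1 0 0 * x.2 i 0 1 + x.1 1 i] := by
  have e : (!![1, 0; -x.1 0 0, 1] : Mx 2 K)⁻¹ = !![1, 0; x.1 0 0, 1] :=
    inv_eq_left_inv (by rw [mul_fin_two, one_fin_two]; simp)
  have e1 : um x i = !![x.1 0 i, x.2 i 0 1; 0, x.1 1 i] := by
    rw [eta_fin_two (um x i)]
    simp [um, h i 0 0 le_rfl, h i 1 1 le_rfl, h i 1 0 (by decide)]
  rw [qm, cj, ta_Rx, e, e1, mul_fin_two, mul_fin_two]
  exact ta_ext (by ring) (by ring) (by ring) (by ring)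

theorem qm_swap {x : (Fin 2 → ℕ → K) × (ℕ → Mx 2 K)} (h0 : x.2 0 = sup K 2)
    (h : ∀ i, IsNil (x.2 i)) : qm (pmm (Equiv.swap 0 1) x) = sig (qm x) := by
  funext i
  have e : x.2 0 0 1 = 1 := by rw [h0]; rfl
  have e1 : qm x 0 1 1 = x.1 0 0 + x.1 1 0 := by
    rw [ta_qm h, e, mul_one]
    rfl
  rw [sig, e1, ta_qm h, ta_qm (x := pmm (Equiv.swap 0 1) x) h, ta_tr, mul_fin_two, mul_fin_two]
  simp only [pmm, Equiv.symm_swap, Equiv.swap_apply_left, Equiv.swap_apply_right]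
  exact ta_ext (by ring) (by ring) (by ring) (by ring)

/-- The coordinate `t` of a matrix of the chain. -/
def cT (Y : ℕ → Mx 2 K) (i : ℕ) : K := (Y i 0 0 + Y i 1 1) / 2

/-- The coordinate `h`. -/
def cH (Y : ℕ → Mx 2 K) (i : ℕ) : K := (Y i 0 0 - Y i 1 1 + Y i 0 1 * Y 0 1 1) / 2

/-- The coordinate `e`. -/
def cE (Y : ℕ → Mx 2 K) (i : ℕ) : K := Y i 0 1

/-- The coordinate `f`. -/
def cF (Y : ℕ → Mx 2 K) (i : ℕ) : K :=
  Y i 1 0 + Y 0 1 1 / 2 * (Y i 1 1 - Y i 0 0) - (Y 0 1 1 / 2) ^ 2 * Y i 0 1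

/-- The matrix with given coordinates. -/
def ofC (θ t h e f : K) : Mx 2 K :=
  !![t + h - e * θ, e; f + 2 * θ * h - θ ^ 2 * e, t - h + e * θ]

/-- A sequence with given first entry. -/
def ex (z : K) (h : Fin n → K) : ℕ → K
  | 0 => z
  | i + 1 => if hi : i < n then h ⟨i, hi⟩ else 0

/-- The invariants `t, δ, u`. -/
abbrev Inv (K : Type) := (ℕ → K) × (ℕ → K) × (ℕ → K)

variable (n) in
/-- The invariants of a chain. -/
def inv2 (Y : ℕ → Mx 2 K) : Inv K :=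
  (cT Y, fun i => cH Y i ^ 2 + cE Y i * cF Y i,
    fun i => if i < n then (Y (i + 1) - Y i).det else 0)

variable (y : Inv K) (e f h : Fin n → K)

/-- The chain with given coordinates. -/
def chC (i : ℕ) : Mx 2 K := ofC (y.1 0) (y.1 i) (ex 0 h i) (ex 1 e i) (ex (y.2.1 0) f i)

/-- The equations for the nodes. -/
def eqN (i : ℕ) : K := ex 0 h i ^ 2 + ex 1 e i * ex (y.2.1 0) f i - y.2.1 i

/-- The equations for the links. -/
def eqL (i : ℕ) : K :=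
  (y.1 (i + 1) - y.1 i) ^ 2 - y.2.1 i - y.2.1 (i + 1) + 2 * ex 0 h i * ex 0 h (i + 1) +
    ex 1 e i * ex (y.2.1 0) f (i + 1) + ex (y.2.1 0) f i * ex 1 e (i + 1) - y.2.2 i

/-- The equations that get a multiplier. -/
def eqG (g : Fin 2 × Fin m) : K :=
  if g.1 = 0 then if 0 < (g.2 : ℕ) ∧ (g.2 : ℕ) < n then eqL y e f h g.2 else 0
  else if (g.2 : ℕ) < n then eqN y e f h (g.2 + 1) else 0

variable (μ : Fin 2 × Fin m → K)

/-- The multipliers. -/
def mu (s : Fin 2) (i : ℕ) : K := if hi : i < m then μ (s, ⟨i, hi⟩) else 0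

variable (n) in
/-- The tridiagonal matrix of the multipliers. -/
def Mq : Matrix (Fin n) (Fin n) K := of fun i j =>
  if i = j then mu μ 1 i else if (j : ℕ) = i + 1 then mu μ 0 j else
    if (i : ℕ) = j + 1 then mu μ 0 i else 0

/-- The coefficients of `f`. -/
def lf (a : Fin n) : K := (Mq n μ *ᵥ e) a + if (a : ℕ) = 0 then 1 else 0

/-- The combination of the equations. -/
def eqW : K := eqL y e f h 0 + ∑ g, μ g * eqG y e f h g

theorem Mq_symm : (Mq n μ)ᵀ = Mq n μ := by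
  ext i j
  rcases eq_or_ne i j with rfl | e
  · rfl
  · simp only [Mq, transpose_apply, of_apply, if_neg e, if_neg e.symm]
    split_ifs <;> first | rfl | omega

theorem ta_zero (i : ℕ) : ex 0 (0 : Fin n → K) i = 0 := by
  cases i <;> simp [ex]

theorem ta_top (z : K) {i : ℕ} (hi : n ≤ i) : ex z h (i + 1) = 0 := dif_neg hi.not_gt

theorem ta_fin (z : K) (a : Fin n) : ex z h (a + 1) = h a := dif_pos a.2

theorem ta_add (z : K) (u : Fin n → K) (i : ℕ) : ex z (f + u) i = ex z f i + ex 0 u i := by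
  cases i
  · exact (add_zero z).symm
  · simp only [ex]
    split_ifs <;> simp

theorem ta_sum (c : K) (j : ℕ) :
    ∑ b : Fin n, (if (b : ℕ) + 1 = j then c else 0) * h b = c * ex 0 h j := by
  cases j with
  | zero => simp [ex]
  | succ j =>
    by_cases k : j < n
    · rw [Finset.sum_eq_single ⟨j, k⟩ (fun b _ hb => ?_) (by simp), if_pos rfl, ta_fin h 0 ⟨j, k⟩]
      rw [if_neg fun l => hb (Fin.ext (Nat.succ_injective l)), zero_mul]
    · rw [ta_top h 0 (not_lt.1 k), mul_zero]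
      exact Finset.sum_eq_zero fun b _ => by rw [if_neg (by omega), zero_mul]

theorem ta_vec (a : Fin n) : (Mq n μ *ᵥ h) a = mu μ 1 a * ex 0 h (a + 1) +
    mu μ 0 (a + 1) * ex 0 h (a + 1 + 1) + mu μ 0 a * ex 0 h a := by
  rw [← ta_sum, ← ta_sum, ← ta_sum, ← Finset.sum_add_distrib, ← Finset.sum_add_distrib, mulVec,
    dotProduct]
  refine Finset.sum_congr rfl fun b _ => ?_
  simp only [Mq, of_apply, Fin.ext_iff, ← add_mul]
  congr 1
  split_ifs <;> first | omega | (simp only [add_zero, zero_add] <;> congr 1)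

theorem ta_dot (u v : Fin n → K) : u ⬝ᵥ Mq n μ *ᵥ v = ∑ i ∈ Finset.range n,
    (mu μ 0 i * (ex 0 u i * ex 0 v (i + 1) + ex 0 v i * ex 0 u (i + 1)) +
      mu μ 1 i * (ex 0 u (i + 1) * ex 0 v (i + 1))) := by
  have e := (Finset.sum_range_succ' (fun i => mu μ 0 i * (ex 0 u i * ex 0 v (i + 1))) n).symm.trans
    (Finset.sum_range_succ (fun i => mu μ 0 i * (ex 0 u i * ex 0 v (i + 1))) n)
  rw [ta_top v 0 le_rfl, show ex 0 u 0 = 0 from rfl, zero_mul, mul_zero, mul_zero, mul_zero,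
    add_zero, add_zero] at e
  simp only [mul_add, Finset.sum_add_distrib]
  rw [← e, ← Finset.sum_add_distrib, ← Finset.sum_add_distrib, dotProduct, Finset.sum_range]
  refine Finset.sum_congr rfl fun a _ => ?_
  rw [ta_vec, ta_fin u]
  ring

theorem ta_W (hm : n ≤ m) : eqW y e f h μ = eqL y e f h 0 + ∑ i ∈ Finset.range n,
    (mu μ 0 i * (if 0 < i then eqL y e f h i else 0) + mu μ 1 i * eqN y e f h (i + 1)) := by
  have e1 : ∑ g, μ g * eqG y e f h g = ∑ i ∈ Finset.range m, if i < n then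
      mu μ 0 i * (if 0 < i then eqL y e f h i else 0) + mu μ 1 i * eqN y e f h (i + 1) else 0 := by
    rw [Fintype.sum_prod_type, Fin.sum_univ_two, ← Finset.sum_add_distrib, Finset.sum_range]
    refine Finset.sum_congr rfl fun i _ => ?_
    by_cases k : (i : ℕ) < n <;> simp [eqG, mu, k]
  rw [eqW, e1, ← Finset.sum_filter]
  congr 2
  ext i
  simp only [Finset.mem_filter, Finset.mem_range]
  omega

theorem eqW_h (hm : n ≤ m) : eqW y e f h μ = h ⬝ᵥ Mq n μ *ᵥ h + eqW y e f 0 μ := by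
  have e0 : ex 0 h 0 = 0 := rfl
  rw [ta_W _ _ _ _ _ hm, ta_W _ _ _ _ _ hm, ta_dot, add_left_comm, ← Finset.sum_add_distrib]
  congr 1
  · simp only [eqL, e0, ta_zero, mul_zero, zero_mul]
  · refine Finset.sum_congr rfl fun i _ => ?_
    rcases i with _ | i
    · simp only [eqN, e0, ta_zero, lt_irrefl, if_false]
      ring
    · simp only [eqL, eqN, ta_zero, Nat.succ_pos, if_true]
      ring

theorem eqW_f (hm : n ≤ m) (a : Fin n) (s : K) :
    eqW y e (update f a (f a + s)) h μ = eqW y e f h μ + s * lf e μ a := by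
  have e0 : update f a (f a + s) = f + Pi.single a s := by
    funext b
    rcases eq_or_ne b a with rfl | k
    · simp
    · simp [k]
  have e1 : s * (if (a : ℕ) = 0 then 1 else 0) = ex 0 (Pi.single a s : Fin n → K) 1 := by
    rw [← one_mul (ex _ _ 1), ← ta_sum, ← dotProduct, dotProduct_single, mul_comm]
    simp
  have e2 : ∀ i, ex 1 e (i + 1) = ex 0 e (i + 1) := fun _ => rfl
  rw [lf, mul_add, e1, ← single_dotProduct, ta_dot, e0, ta_W _ _ _ _ _ hm, ta_W _ _ _ _ _ hm]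
  generalize (Pi.single a s : Fin n → K) = u
  have e3 : ex 0 u 0 = 0 := rfl
  have e4 : ex 0 e 0 = 0 := rfl
  have e5 : ex 1 e 0 = 1 := rfl
  rw [add_comm _ (ex 0 u 1), add_add_add_comm, ← Finset.sum_add_distrib]
  congr 1
  · simp only [eqL, ta_add, e3, e5]
    ring
  · refine Finset.sum_congr rfl fun i _ => ?_
    rcases i with _ | i
    · simp only [eqN, ta_add, e2, e3, e4, lt_irrefl, if_false]
      ring
    · simp only [eqL, eqN, ta_add, e2, Nat.succ_pos, if_true]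
      ring

theorem Mq_inj (h0 : ∀ i, 0 < i → i < n → mu μ 0 i ≠ 0) (h1 : ∀ a, lf e μ a = 0) {v : Fin n → K}
    (hv : Mq n μ *ᵥ v = 0) : v = 0 := by
  have e1 : ex 0 v 1 = 0 := by
    have e2 : v ⬝ᵥ Mq n μ *ᵥ e = 0 := by
      rw [dotProduct_mulVec, ← Mq_symm, vecMul_transpose, hv, zero_dotProduct]
    have e3 : ∑ a, lf e μ a * v a = 0 := Finset.sum_eq_zero fun a _ => by rw [h1, zero_mul]
    simp only [lf, add_mul, Finset.sum_add_distrib, ← Nat.succ_inj (a := _) (b := 0)] at e3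
    rwa [ta_sum, one_mul, ← dotProduct, dotProduct_comm, e2, zero_add] at e3
  have e4 : ∀ i, ex 0 v i = 0 ∧ ex 0 v (i + 1) = 0 := fun i => by
    induction i with
    | zero => exact ⟨rfl, e1⟩
    | succ i ih =>
      refine ⟨ih.2, (le_or_gt n (i + 1)).elim (ta_top v 0) fun k => ?_⟩
      have e5 := (ta_vec v μ ⟨i, by omega⟩).symm.trans (congrFun hv _)
      rw [ih.1, ih.2, mul_zero, mul_zero, zero_add, add_zero] at e5
      exact (mul_eq_zero.1 e5).resolve_left (h0 _ i.succ_pos k)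
  exact funext fun a => (ta_fin v 0 a).symm.trans (e4 a).2

theorem eqs_iff (hm : n ≤ m) (hn : 0 < n) :
    (eqL y e f h 0 = 0 ∧ ∀ g : Fin 2 × Fin m, eqG y e f h g = 0) ↔
      (∀ i < n, eqL y e f h i = 0) ∧ ∀ i < n, eqN y e f h (i + 1) = 0 := by
  refine ⟨fun k => ⟨fun i hi => ?_, fun i hi => ?_⟩, fun k => ⟨k.1 0 hn, fun g => ?_⟩⟩
  · rcases i.eq_zero_or_pos with rfl | l
    · exact k.1
    · simpa [eqG, l, hi] using k.2 (0, ⟨i, hi.trans_le hm⟩)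
  · simpa [eqG, hi] using k.2 (1, ⟨i, hi.trans_le hm⟩)
  · rw [eqG]
    split_ifs with a b c
    exacts [k.1 _ b.2, rfl, k.2 _ c, rfl]

end Alg

variable (d : Dat k) (n m : ℕ)

/-- The conditions on the invariants. -/
structure LB {K : Fld k} (y : Inv K) : Prop where
  last : y.2.2 n = 0
  pt : ∀ i < n, ∀ μ ∈ d.Λ, (algebraMap k K μ - y.1 i) ^ 2 - y.2.1 i ≠ 0
  lk : ∀ i < n, y.2.2 i ≠ 0
  top : y.1 n ^ 2 - y.2.1 n ≠ 0

theorem conv_lB : ((sq k n).prod ((sq k n).prod (sq k n))).Conv fun _ y => LB d n y :=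
  fun _ _ _ φ φ' _ _ _ _ _ _ r r' h h' => ⟨(r.2.2 n).eq_of φ.zero h.last,
    fun i hi μ hμ => ((((φ'.alg μ).sub (r'.1 i)).pow 2).sub (r'.2.1 i)).ne_zero (h'.pt i hi μ hμ),
    fun i hi => (r'.2.2 i).ne_zero (h'.lk i hi),
    (((r'.1 n).pow 2).sub (r'.2.1 n)).ne_zero h'.top⟩

/-- The space of the invariants. -/
@[reducible] def B2 : PV k where
  S := (((sq k n).prod ((sq k n).prod (sq k n))).restr _ (conv_lB d n)).withF
    (fun K y => ∏ i ∈ Finset.range n,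
      (∏ μ ∈ d.Λ, ((algebraMap k K μ - y.1 i) ^ 2 - y.2.1 i) ^ d.a i μ) * y.2.2 i ^ d.b i)
    (fun _ _ φ _ _ _ h r => Place.prod fun i hi => (Place.prod fun μ hμ =>
      rel_zpow ((((φ.alg μ).sub (r.1 i)).pow 2).sub (r.2.1 i))
        (h.2.pt i (Finset.mem_range.1 hi) μ hμ) _).mul
      (rel_zpow (r.2.2 i) (h.2.lk i (Finset.mem_range.1 hi)) _))
    fun _ _ h => Finset.prod_ne_zero_iff.2 fun i hi => mul_ne_zero
      (Finset.prod_ne_zero_iff.2 fun μ hμ =>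
        zpow_ne_zero _ (h.2.pt i (Finset.mem_range.1 hi) μ hμ))
      (zpow_ne_zero _ (h.2.lk i (Finset.mem_range.1 hi)))
  c _ y _ := (X - C (y.1 n)) ^ 2 - C (y.2.1 n)
  hc _ _ _ _ _ _ _ _ r := ((Place.PR.X.sub (.C (r.1 n))).pow 2).sub (.C (r.2.1 n))

variable {P : Pt k} (T : PC P)

/-- The points `(((y, p), e, f), h)`. -/
abbrev S2 : Pt k := (((B2 d n).over T).prod
  (((line k).pi (Fin n)).prod ((line k).pi (Fin n)))).prod ((line k).pi (Fin n))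

theorem rel_ex {K K' : Fld k} {φ : Place K K'} {n : ℕ} {z : K} {z' : K'} {h : Fin n → K}
    {h' : Fin n → K'} (hz : φ z z') (r : ∀ a, φ (h a) (h' a)) (i : ℕ) :
    φ (ex z h i) (ex z' h' i) := by
  cases i
  · exact hz
  · simp only [ex]
    split_ifs
    exacts [r _, φ.zero]

theorem reg_eqN (i : ℕ) : (S2 d n T).RegF fun _ x => eqN x.1.1.1 x.1.2.1 x.1.2.2 x.2 i :=
  fun _ _ φ _ _ _ _ r => (((rel_ex φ.zero r.2 i).pow 2).add
    ((rel_ex φ.one r.1.2.1 i).mul (rel_ex (r.1.1.1.2.1 0) r.1.2.2 i))).sub (r.1.1.1.2.1 i)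

theorem reg_eqL (i : ℕ) : (S2 d n T).RegF fun _ x => eqL x.1.1.1 x.1.2.1 x.1.2.2 x.2 i :=
  fun _ _ φ _ _ _ _ r => (((((((((r.1.1.1.1 _).sub (r.1.1.1.1 i)).pow 2).sub (r.1.1.1.2.1 i)).sub
    (r.1.1.1.2.1 _)).add (((show φ 2 2 by simpa using φ.natCast 2).mul (rel_ex φ.zero r.2 i)).mul
    (rel_ex φ.zero r.2 _))).add ((rel_ex φ.one r.1.2.1 i).mul
    (rel_ex (r.1.1.1.2.1 0) r.1.2.2 _))).add ((rel_ex (r.1.1.1.2.1 0) r.1.2.2 i).mul
    (rel_ex φ.one r.1.2.1 _))).sub (r.1.1.1.2.2 i))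

theorem reg_eqG (g : Fin 2 × Fin m) :
    (S2 d n T).RegF fun _ x => eqG x.1.1.1 x.1.2.1 x.1.2.2 x.2 g := fun _ _ φ x y a b r =>
  rel_ite (rel_ite (reg_eqL d n T _ φ x y a b r) φ.zero)
    (rel_ite (reg_eqN d n T _ φ x y a b r) φ.zero)

/-- All equations hold. -/
abbrev R2 : Pt k := radR (reg_eqL d n T 0) (reg_eqG d n m T)

/-- The combination of the equations holds. -/
abbrev W2 : Pt k :=
  radW (reg_eqL d n T 0) (reg_eqG d n m T) {g | g.1 = 0 ∧ 0 < (g.2 : ℕ) ∧ (g.2 : ℕ) < n}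

/-- The chains of matrices of size two. -/
abbrev X2 : Pt k := (Xv d n 2).over (T.tw (((line k).pi (Fin m)).pi (Fin 2)))

/-- The coordinates. -/
def th2 ⦃K : Fld k⦄ (x : (X2 d n m T).X K) : (R2 d n m T).X K :=
  ((((inv2 n x.1, x.2.2), fun i => cE x.1 (i + 1), fun i => cF x.1 (i + 1)),
    fun i => cH x.1 (i + 1)), fun g => x.2.1 g.1 g.2)

section TwoB
variable {K : Type} [Field K] {n : ℕ} {Y : ℕ → Mx 2 K} {θ t h e f : K}

theorem sig_eq (Y : ℕ → Mx 2 K) (i : ℕ) : sig Y i =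
    !![Y i 1 1 - Y 0 1 1 * Y i 0 1, Y i 0 1;
      Y i 1 0 + Y 0 1 1 * (Y i 1 1 - Y i 0 0) - Y 0 1 1 ^ 2 * Y i 0 1,
        Y i 0 0 + Y 0 1 1 * Y i 0 1] := by
  ext a b
  fin_cases a <;> fin_cases b <;>
    simp [sig, Matrix.mul_apply, Fin.sum_univ_two, vecMul, dotProduct] <;> ring

theorem comp_two (c : IsComp (Y 0)) : Y 0 0 0 = 0 ∧ Y 0 0 1 = 1 :=
  ⟨c 0 0 (by decide), c 0 1 (by decide)⟩

theorem sig_zero (c : IsComp (Y 0)) : sig Y 0 = Y 0 := by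
  rw [sig_eq, (comp_two c).1, (comp_two c).2]
  ext a b
  fin_cases a <;> fin_cases b <;> simp [(comp_two c).1, (comp_two c).2]
  ring

theorem sig_of_zero {i : ℕ} (z : Y i = 0) : sig Y i = 0 := by simp [sig, z]

theorem sig_sig (c : IsComp (Y 0)) : sig (sig Y) = Y := by
  funext i
  rw [sig_eq, sig_zero c, sig_eq]
  ext a b
  fin_cases a <;> fin_cases b <;> simp
  ring

theorem charpoly_sig (Y : ℕ → Mx 2 K) (i : ℕ) : (sig Y i).charpoly = (Y i).charpoly := by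
  rw [charpoly_fin_two, charpoly_fin_two, trace_fin_two, trace_fin_two, det_fin_two, det_fin_two,
    sig_eq]
  congr 2
  · congr 2
    simp
    ring
  · simp
    ring

theorem det_sig_sub (Y : ℕ → Mx 2 K) (i j : ℕ) : (sig Y i - sig Y j).det = (Y i - Y j).det := by
  rw [det_fin_two, det_fin_two, sig_eq, sig_eq]
  simp
  ring

theorem det_sig (Y : ℕ → Mx 2 K) (i : ℕ) : (sig Y i).det = (Y i).det := by
  rw [det_fin_two, det_fin_two, sig_eq]
  simp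
  ring

theorem cT_sig (Y : ℕ → Mx 2 K) : cT (sig Y) = cT Y := funext fun i => by
  rw [cT, cT, sig_eq]
  simp
  ring

theorem cE_sig (Y : ℕ → Mx 2 K) : cE (sig Y) = cE Y := funext fun i => by
  rw [cE, cE, sig_eq]
  simp

theorem cH_sig (c : IsComp (Y 0)) (i : ℕ) : cH (sig Y) i = -cH Y i := by
  rw [cH, cH, sig_zero c, sig_eq]
  simp
  ring

theorem cF_sig (h2 : (2 : K) ≠ 0) (c : IsComp (Y 0)) : cF (sig Y) = cF Y := funext fun i => by
  rw [cF, cF, sig_zero c, sig_eq]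
  simp
  field_simp
  ring

theorem inv2_sig (h2 : (2 : K) ≠ 0) (c : IsComp (Y 0)) : inv2 n (sig Y) = inv2 n Y := by
  simp only [inv2, cT_sig, cE_sig, cF_sig h2 c, cH_sig c, neg_sq, det_sig_sub]

theorem ofC_self (h2 : (2 : K) ≠ 0) (c : IsComp (Y 0)) (i : ℕ) :
    ofC (cT Y 0) (cT Y i) (cH Y i) (cE Y i) (cF Y i) = Y i := by
  ext a b
  fin_cases a <;> fin_cases b <;> simp [ofC, cT, cH, cE, cF, (comp_two c).1] <;> field_simp <;>
    ring

theorem charpoly_ofC : (ofC θ t h e f).charpoly = (X - C t) ^ 2 - C (h ^ 2 + e * f) := by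
  have e1 : (ofC θ t h e f).trace = 2 * t := by
    simp [ofC, trace_fin_two]
    ring
  have e2 : (ofC θ t h e f).det = t ^ 2 - (h ^ 2 + e * f) := by
    simp [ofC, det_fin_two]
    ring
  rw [charpoly_fin_two, e1, e2, C_mul, C_sub, C_pow, show (C 2 : K[X]) = 2 from rfl]
  ring

theorem eval_ofC (μ : K) : (ofC θ t h e f).charpoly.eval μ = (μ - t) ^ 2 - (h ^ 2 + e * f) := by
  simp only [charpoly_ofC, eval_sub, eval_pow, eval_X, eval_C]

theorem det_ofC : (ofC θ t h e f).det = t ^ 2 - (h ^ 2 + e * f) := by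
  simp [ofC, det_fin_two]
  ring

theorem det_ofC_sub (t' h' e' f' : K) : (ofC θ t' h' e' f' - ofC θ t h e f).det =
    (t' - t) ^ 2 - (h ^ 2 + e * f) - (h' ^ 2 + e' * f') + 2 * h * h' + e * f' + f * e' := by
  simp [ofC, det_fin_two]
  ring

theorem ex_eq {z : K} {g : ℕ → K} (hz : g 0 = z) (hg : ∀ i, n < i → g i = 0) :
    ex z (fun a : Fin n => g (a + 1)) = g := funext fun i => by
  rcases i with _ | i
  · exact hz.symm
  · rw [ex]
    split_ifs with hi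
    exacts [rfl, (hg _ (by omega)).symm]

theorem ex_of_lt (z : K) (g : Fin n → K) {i : ℕ} (hi : n < i) : ex z g i = 0 := by
  rcases i with _ | i
  · omega
  · exact dif_neg (by omega)

theorem ex_succ (z : K) (g : Fin n → K) (a : Fin n) : ex z g (a + 1) = g a := dif_pos a.2

section Coord
variable (c : IsComp (Y 0)) (z : ∀ i, n < i → Y i = 0)
include c z

theorem ex_cH : ex 0 (fun a : Fin n => cH Y (a + 1)) = cH Y :=
  ex_eq (by simp [cH, (comp_two c).1, (comp_two c).2]) fun i hi => by simp [cH, z i hi]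

theorem ex_cE : ex 1 (fun a : Fin n => cE Y (a + 1)) = cE Y :=
  ex_eq (comp_two c).2 fun i hi => by simp [cE, z i hi]

theorem ex_cF : ex ((inv2 n Y).2.1 0) (fun a : Fin n => cF Y (a + 1)) = cF Y :=
  ex_eq (by simp [inv2, cH, cE, (comp_two c).1, (comp_two c).2]) fun i hi => by simp [cF, z i hi]

theorem chC_inv2 (h2 : (2 : K) ≠ 0) : chC (inv2 n Y) (fun a : Fin n => cE Y (a + 1))
    (fun a => cF Y (a + 1)) (fun a => cH Y (a + 1)) = Y := funext fun i => by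
  rw [chC, ex_cH c z, ex_cE c z, ex_cF c z]
  exact ofC_self h2 c i

end Coord

variable {y : Inv K} {e f h : Fin n → K}

theorem chC_c : chC y e f h 0 1 1 = 2 * y.1 0 := by
  simp [chC, ofC, ex]
  ring

theorem cT_chC (h2 : (2 : K) ≠ 0) : cT (chC y e f h) = y.1 := funext fun i => by
  simp [cT, chC, ofC]
  field_simp
  ring

theorem cE_chC : cE (chC y e f h) = ex 1 e := funext fun i => by simp [cE, chC, ofC]

theorem cH_chC (h2 : (2 : K) ≠ 0) : cH (chC y e f h) = ex 0 h := funext fun i => by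
  rw [cH, chC_c]
  simp [chC, ofC]
  field_simp
  ring

theorem cF_chC (h2 : (2 : K) ≠ 0) : cF (chC y e f h) = ex (y.2.1 0) f := funext fun i => by
  rw [cF, chC_c]
  simp [chC, ofC]
  field_simp
  ring

theorem node_eq (hN : ∀ i < n, eqN y e f h (i + 1) = 0) {i : ℕ} (hi : i ≤ n) :
    ex 0 h i ^ 2 + ex 1 e i * ex (y.2.1 0) f i = y.2.1 i := by
  rcases i with _ | i
  · simp [ex]
  · exact sub_eq_zero.1 (hN i hi)

theorem link_eq (hL : ∀ i < n, eqL y e f h i = 0) (hN : ∀ i < n, eqN y e f h (i + 1) = 0) {i : ℕ}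
    (hi : i < n) : (chC y e f h (i + 1) - chC y e f h i).det = y.2.2 i := by
  rw [chC, chC, det_ofC_sub, node_eq hN hi.le, node_eq hN hi]
  exact sub_eq_zero.1 (hL i hi)

theorem rel_two {K K' : Fld k} (φ : Place K K') : φ 2 2 := by simpa using φ.natCast 2

theorem two_ne (h2 : (2 : k) ≠ 0) (K : Fld k) : (2 : K) ≠ 0 := by
  have := (map_ne_zero (algebraMap k K)).2 h2
  rwa [map_ofNat] at this

theorem mr_ofC {K K' : Fld k} {φ : Place K K'} {θ t h e f : K} {θ' t' h' e' f' : K'} (r0 : φ θ θ')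
    (r1 : φ t t') (r2 : φ h h') (r3 : φ e e') (r4 : φ f f') :
    MR φ (ofC θ t h e f) (ofC θ' t' h' e' f') :=
  Fin.forall_fin_two.2 ⟨Fin.forall_fin_two.2 ⟨(r1.add r2).sub (r3.mul r0), r3⟩,
    Fin.forall_fin_two.2 ⟨(r4.add (((rel_two φ).mul r0).mul r2)).sub ((r0.pow 2).mul r3),
      (r1.sub r2).add (r3.mul r0)⟩⟩

theorem mr_sig {K K' : Fld k} {φ : Place K K'} {Y : ℕ → Mx 2 K} {Y' : ℕ → Mx 2 K'}
    (r : ∀ i, MR φ (Y i) (Y' i)) (i : ℕ) : MR φ (sig Y i) (sig Y' i) := by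
  rw [sig_eq, sig_eq]
  exact Fin.forall_fin_two.2 ⟨Fin.forall_fin_two.2 ⟨(r i 1 1).sub ((r 0 1 1).mul (r i 0 1)),
    r i 0 1⟩, Fin.forall_fin_two.2 ⟨((r i 1 0).add ((r 0 1 1).mul ((r i 1 1).sub (r i 0 0)))).sub
      (((r 0 1 1).pow 2).mul (r i 0 1)), (r i 0 0).add ((r 0 1 1).mul (r i 0 1))⟩⟩

end TwoB

theorem lsig ⦃K : Fld k⦄ (Y : (Xs d n 2).X K) (h : (Xs d n 2).L Y) : (Xs d n 2).L (sig Y) :=
  ⟨fun i hi => sig_of_zero (h.1 i hi), (sig_zero h.2.comp).symm ▸ h.2.comp,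
    fun i hi μ hμ => (charpoly_sig Y i).symm ▸ h.2.pt i hi μ hμ,
    fun i hi => (det_sig_sub Y _ i).symm ▸ h.2.lk i hi, (det_sig Y n).symm ▸ h.2.top⟩

theorem pmap_sig (J : Set ℕ) : PMap (Xv d n 2) (Xv d n 2) J fun _ Y => sig Y :=
  have r : (Xs d n 2).Reg (Xs d n 2) fun _ Y => sig Y := ⟨lsig d n, fun _ _ _ _ _ _ _ => mr_sig⟩
  ⟨.of_inv r r (fun _ Y _ => by simp only [fX, charpoly_sig, det_sig_sub])
    fun _ _ h => sig_sig h.2.comp, fun _ Y _ _ _ _ => charpoly_sig Y n⟩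

theorem isMap_sig : IsMap (X2 d n m T) (X2 d n m T) fun _ x => (sig x.1, x.2) :=
  (pmap_sig d n Set.univ).over fun _ _ _ _ e h => funext (fun m => e m trivial) ▸ h

theorem live_sig ⦃K : Fld k⦄ (x : (X2 d n m T).X K) (h : (X2 d n m T).L x) :
    (X2 d n m T).L (sig x.1, x.2) :=
  ⟨⟨lsig d n x.1 h.1.1, h.1.2⟩, by
    change T.T (fun _ => (sig x.1 n).charpoly) x.2.2
    rw [charpoly_sig]
    exact h.2⟩

/-- The chain with given coordinates. -/
def th2i ⦃K : Fld k⦄ (z : (R2 d n m T).X K) : (X2 d n m T).X K :=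
  (chC z.1.1.1.1 z.1.1.2.1 z.1.1.2.2 z.1.2, (fun s i => z.2 (s, i)), z.1.1.1.2)

variable {n m} (h2 : (2 : k) ≠ 0) (hn : 0 < n) (hm : n ≤ m)

include h2 in
theorem th2_sig ⦃K : Fld k⦄ (x : (X2 d n m T).X K) (h : (X2 d n m T).L x) :
    th2 d n m T (sig x.1, x.2) =
      (((th2 d n m T x).1.1, -(th2 d n m T x).1.2), (th2 d n m T x).2) := by
  have c := h.1.1.2.comp
  simp only [th2, inv2_sig (two_ne h2 K) c, cE_sig, cF_sig (two_ne h2 K) c, cH_sig c]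
  rfl

include h2 hn hm in
theorem live_th2 ⦃K : Fld k⦄ (x : (X2 d n m T).X K) (h : (X2 d n m T).L x) :
    (R2 d n m T).L (th2 d n m T x) := by
  obtain ⟨⟨⟨z, l⟩, -, lp⟩, ht⟩ := h
  have c := l.comp
  have e := ofC_self (two_ne h2 K) c
  refine ⟨⟨⟨⟨⟨⟨⟨⟨fun i hi => ?_, fun i hi => ?_, fun i hi => if_neg (by omega)⟩,
    if_neg (lt_irrefl n), fun i hi μ hμ => ?_, fun i hi => ?_, ?_⟩, lp⟩, ?_⟩,
    fun _ => trivial, fun _ => trivial⟩, fun _ => trivial⟩, fun _ => trivial⟩,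
    (eqs_iff _ _ _ _ hm hn).2 ⟨fun i hi => ?_, fun i hi => ?_⟩⟩
  · simp [th2, inv2, cT, z i hi]
  · simp [th2, inv2, cH, cE, z i hi]
  · have := l.pt i hi μ hμ
    rwa [← e i, eval_ofC] at this
  · exact (if_pos hi).trans_ne (l.lk i hi)
  · have := l.top
    rwa [← e n, det_ofC] at this
  · have : T.T (fun _ => (x.1 n).charpoly) x.2.2 := ht
    rwa [← e n, charpoly_ofC] at this
  · have := det_ofC_sub (θ := cT x.1 0) (t := cT x.1 i) (h := cH x.1 i) (e := cE x.1 i)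
      (f := cF x.1 i) (cT x.1 (i + 1)) (cH x.1 (i + 1)) (cE x.1 (i + 1)) (cF x.1 (i + 1))
    rw [e, e] at this
    simp only [th2, eqL, ex_cH c z, ex_cE c z, ex_cF c z]
    simp only [inv2, if_pos hi, this, sub_self]
  · simp only [th2, eqN, ex_cH c z, ex_cE c z, ex_cF c z]
    exact sub_self _

include hn hm in
theorem live_th2i ⦃K : Fld k⦄ (z : (R2 d n m T).X K) (h : (R2 d n m T).L z) :
    (X2 d n m T).L (th2i d n m T z) := by
  obtain ⟨⟨⟨⟨⟨⟨⟨⟨z1, -, -⟩, l⟩, lp⟩, ht⟩, -⟩, -⟩, -⟩, q⟩ := h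
  obtain ⟨hL, hN⟩ := (eqs_iff _ _ _ _ hm hn).1 q
  refine ⟨⟨⟨fun i hi => ?_, ?_, fun i hi μ hμ => ?_, fun i hi => ?_, ?_⟩,
    fun _ _ => trivial, lp⟩, ?_⟩
  · simp only [th2i, chC, ex_of_lt _ _ hi, z1 i hi]
    ext a b
    fin_cases a <;> fin_cases b <;> simp [ofC]
  · intro a b ha
    fin_cases a
    · fin_cases b <;> simp [th2i, chC, ofC, ex]
    · simp at ha
  · simp only [th2i, chC, eval_ofC, node_eq hN hi.le]
    exact l.pt i hi μ hμ
  · exact (link_eq hL hN hi).trans_ne (l.lk i hi)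
  · simp only [th2i, chC, det_ofC, node_eq hN le_rfl]
    exact l.top
  · change T.T (fun _ => (chC _ _ _ _ n).charpoly) _
    rw [chC, charpoly_ofC, node_eq hN le_rfl]
    exact ht

include h2 in
theorem th2i_th2 ⦃K : Fld k⦄ (x : (X2 d n m T).X K) (h : (X2 d n m T).L x) :
    th2i d n m T (th2 d n m T x) = x :=
  Prod.ext (chC_inv2 h.1.1.2.comp h.1.1.1 (two_ne h2 K)) rfl

include h2 hn hm in
theorem th2_th2i ⦃K : Fld k⦄ (z : (R2 d n m T).X K) (h : (R2 d n m T).L z) :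
    th2 d n m T (th2i d n m T z) = z := by
  obtain ⟨⟨⟨⟨⟨⟨⟨⟨-, z2, z3⟩, l⟩, -⟩, -⟩, -⟩, -⟩, -⟩, q⟩ := h
  obtain ⟨hL, hN⟩ := (eqs_iff _ _ _ _ hm hn).1 q
  have t := two_ne h2 K
  refine Prod.ext (Prod.ext (Prod.ext (Prod.ext (Prod.ext (cT_chC t) (Prod.ext
    (funext fun i => ?_) (funext fun i => ?_))) rfl) (Prod.ext (funext fun a => ?_)
    (funext fun a => ?_))) (funext fun a => ?_)) rfl
  · simp only [th2, th2i, inv2, cH_chC t, cE_chC, cF_chC t]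
    rcases le_or_gt i n with hi | hi
    · exact node_eq hN hi
    · simp [ex_of_lt _ _ hi, z2 i hi]
  · simp only [th2, th2i, inv2]
    split_ifs with hi
    · exact link_eq hL hN hi
    · rcases (not_lt.1 hi).eq_or_lt with rfl | hi
      exacts [l.last.symm, (z3 i hi).symm]
  · simp only [th2, th2i, cE_chC, ex_succ]
  · simp only [th2, th2i, cF_chC t, ex_succ]
  · simp only [th2, th2i, cH_chC t, ex_succ]

include h2 hn hm in
theorem isMap_th2 : IsMap (X2 d n m T) (R2 d n m T) (th2 d n m T) := by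
  refine .of_inv ⟨live_th2 d T h2 hn hm, fun K K' φ x y _ _ r => ?_⟩
    ⟨live_th2i d T hn hm, fun _ _ φ x y _ _ r => ⟨fun i => mr_ofC (r.1.1.1.1.1 0) (r.1.1.1.1.1 i)
      (rel_ex φ.zero r.1.2 i) (rel_ex φ.one r.1.1.2.1 i) (rel_ex (r.1.1.1.1.2.1 0) r.1.1.2.2 i),
      fun s i => r.2 (s, i), r.1.1.1.2⟩⟩ (fun K x h => ?_) (th2i_th2 d T h2)
  · have t := two_ne h2 K'
    have c := (r.1 0 1 1).div (rel_two φ) t
    have rT : ∀ i, φ (cT x.1 i) (cT y.1 i) := fun i =>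
      ((r.1 i 0 0).add (r.1 i 1 1)).div (rel_two φ) t
    have rH : ∀ i, φ (cH x.1 i) (cH y.1 i) := fun i =>
      (((r.1 i 0 0).sub (r.1 i 1 1)).add ((r.1 i 0 1).mul (r.1 0 1 1))).div (rel_two φ) t
    have rE : ∀ i, φ (cE x.1 i) (cE y.1 i) := fun i => r.1 i 0 1
    have rF : ∀ i, φ (cF x.1 i) (cF y.1 i) := fun i =>
      ((r.1 i 1 0).add (c.mul ((r.1 i 1 1).sub (r.1 i 0 0)))).sub ((c.pow 2).mul (r.1 i 0 1))
    exact ⟨⟨⟨⟨⟨rT, fun i => ((rH i).pow 2).add ((rE i).mul (rF i)),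
      fun i => rel_ite ((r.1 _).sub (r.1 i)).det φ.zero⟩, r.2.2⟩, fun _ => rE _, fun _ => rF _⟩,
      fun _ => rH _⟩, fun g => r.2.1 g.1 g.2⟩
  · have e := ofC_self (two_ne h2 K) h.1.1.2.comp
    simp only [Finset.prod_const_one, mul_one, one_mul, th2, inv2, fX]
    congr 1
    refine Finset.prod_congr rfl fun i hi => ?_
    rw [if_pos (Finset.mem_range.1 hi)]
    congr 1
    refine Finset.prod_congr rfl fun μ _ => ?_
    rw [← eval_ofC, e]

theorem bij_th2 : Bij ((isMap_th2 d T h2 hn hm).hom χ) :=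
  IsMap.bij _ (live_th2 d T h2 hn hm)
    (fun _ x x' a b e => by rw [← th2i_th2 d T h2 x a, e, th2i_th2 d T h2 x' b])
    fun _ z a => ⟨_, live_th2i d T hn hm z a, th2_th2i d T h2 hn hm z a⟩

variable {d} (hb : ∀ i < n, χ.ψ (d.b i) ≠ 1)

section Scale
variable {K K' : Fld k} {φ : Place K K'} (i : ℕ) (r : K) (y : Inv K) (e f h : Fin n → K)

/-- The invariant `u i` is multiplied by `r`. -/
def scU : Inv K := (y.1, y.2.1, update y.2.2 i (r * y.2.2 i))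

theorem scU_self : (scU i r y).2.2 i = r * y.2.2 i := update_self ..

theorem scU_one : scU i 1 y = y := by simp [scU]

theorem scU_inv (hr : r ≠ 0) : scU i r⁻¹ (scU i r y) = y := by simp [scU, hr]

theorem eqL_scU {j : ℕ} (hj : j ≠ i) : eqL (scU i r y) e f h j = eqL y e f h j := by
  simp only [eqL, scU, update_of_ne hj]

theorem eqG_scU {g : Fin 2 × Fin m} (hg : g.1 = 0 → 0 < (g.2 : ℕ) → (g.2 : ℕ) ≠ i) :
    eqG (scU i r y) e f h g = eqG y e f h g := by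
  unfold eqG
  split_ifs with h1 h2
  exacts [eqL_scU i r y e f h (hg h1 h2.1), rfl, rfl, rfl]

theorem eqW_scU (μ : Fin 2 × Fin m → K) :
    eqW (scU 0 r y) e f h μ = eqW y e f h μ + (1 - r) * y.2.2 0 := by
  simp only [eqW, fun g : Fin 2 × Fin m => eqG_scU 0 r y e f h (g := g) fun _ l => l.ne']
  simp only [eqL, scU, update_self]
  ring

theorem eqW_neg (hm : n ≤ m) (μ : Fin 2 × Fin m → K) : eqW y e f (-h) μ = eqW y e f h μ := by
  rw [eqW_h y e f _ μ hm, eqW_h y e f h μ hm, mulVec_neg, neg_dotProduct_neg]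

variable {μ : Fin 2 × Fin m → K} {μ' : Fin 2 × Fin m → K'}

theorem mr_Mq (hμ : ∀ g, φ (μ g) (μ' g)) : MR φ (Mq n μ) (Mq n μ') := by
  have k : ∀ s j, φ (mu μ s j) (mu μ' s j) := fun s j => by
    unfold mu
    split_ifs
    exacts [hμ _, φ.zero]
  exact fun a b => rel_ite (k _ _) (rel_ite (k _ _) (rel_ite (k _ _) φ.zero))

theorem rel_lf {e : Fin n → K} {e' : Fin n → K'} (he : ∀ a, φ (e a) (e' a))
    (hμ : ∀ g, φ (μ g) (μ' g)) (a : Fin n) : φ (lf e μ a) (lf e' μ' a) :=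
  ((mr_Mq hμ).mulVec he a).add (rel_ite φ.one φ.zero)

theorem rel_update {α : Type} [DecidableEq α] {u : α → K} {u' : α → K'} {s : K} {s' : K'}
    (hu : ∀ a, φ (u a) (u' a)) (hs : φ s s') (a b : α) : φ (update u a s b) (update u' a s' b) := by
  rw [update_apply, update_apply]
  exact rel_ite hs (hu b)

end Scale

theorem flow_prod {S : Pt k} {t : ℤ} {τ : ∀ ⦃K : Fld k⦄, K → S.X K → S.X K} (h : S.Flow t τ)
    (S' : Pt k) : (S.prod S').Flow t fun _ r x => (τ r x.1, x.2) :=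
  ⟨fun _ r _ hr a => ⟨h.live r _ hr a.1, a.2⟩, fun _ _ a => Prod.ext (h.one _ a.1) rfl,
    fun _ r _ hr a => Prod.ext (h.inv r _ hr a.1) rfl,
    fun _ r x hr a => (congrArg (· * S'.f x.2) (h.f r _ hr a.1)).trans (mul_right_comm _ _ _),
    fun _ _ φ r r' _ _ h1 h2 a b c => ⟨h.reg φ r r' _ _ h1 h2 a.1 b.1 c.1, c.2⟩⟩

theorem flow_B2 {i : ℕ} (hi : i < n) :
    ((B2 d n).over T).Flow (d.b i) fun _ r x => (scU i r x.1, x.2) := by
  refine ⟨fun _ r x hr a => ⟨⟨⟨⟨a.1.1.1.1, a.1.1.1.2.1, fun j hj => ?_⟩, ?_, a.1.1.2.pt,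
      fun j hj => ?_, a.1.1.2.top⟩, a.1.2⟩, a.2⟩, fun _ x _ => Prod.ext (scU_one i x.1) rfl,
    fun _ r x hr _ => Prod.ext (scU_inv i r x.1 hr) rfl, fun _ r x hr _ => ?_,
    fun _ _ φ r r' x y h1 _ _ _ c =>
      ⟨⟨c.1.1, c.1.2.1, rel_update c.1.2.2 (h1.mul (c.1.2.2 i)) i⟩, c.2⟩⟩
  · exact (update_of_ne (by omega) _ _).trans (a.1.1.1.2.2 j hj)
  · exact (update_of_ne hi.ne' _ _).trans a.1.1.2.last
  · change update x.1.2.2 i (r * x.1.2.2 i) j ≠ 0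
    rw [update_apply]
    split_ifs
    exacts [mul_ne_zero hr (a.1.1.2.lk i hi), a.1.1.2.lk j hj]
  · refine (congrArg (· * P.f x.2) ?_).trans (mul_right_comm _ _ _)
    dsimp only
    rw [← (Finset.prod_ite_eq' (Finset.range n) i fun _ => r ^ d.b i).trans
      (if_pos (Finset.mem_range.2 hi)), ← Finset.prod_mul_distrib]
    refine Finset.prod_congr rfl fun j _ => ?_
    split_ifs with l
    · rw [l, scU_self, mul_zpow, mul_comm (r ^ _), ← mul_assoc]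
      rfl
    · simp only [scU, update_of_ne l, mul_one]

theorem flow_S2 {i : ℕ} (hi : i < n) : (S2 d n T).Flow (d.b i)
    fun _ r x => (((scU i r x.1.1.1, x.1.1.2), x.1.2), x.2) :=
  flow_prod (flow_prod (flow_B2 T hi) _) _

theorem isMap_negW (hm : n ≤ m) :
    IsMap (W2 d n m T) (W2 d n m T) fun _ x => ((x.1.1, -x.1.2), x.2) := by
  have r : (W2 d n m T).Reg (W2 d n m T) fun _ x => ((x.1.1, -x.1.2), x.2) :=
    ⟨fun _ x a => ⟨⟨⟨a.1.1.1, fun _ => trivial⟩, a.1.2⟩,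
      (eqW_neg _ _ _ _ hm _).trans a.2.1, a.2.2⟩,
      fun _ _ _ _ _ _ _ c => ⟨⟨c.1.1, fun a => (c.1.2 a).neg⟩, c.2⟩⟩
  exact .of_inv r r (fun _ _ _ => rfl) fun _ x _ => by simp only [neg_neg]

theorem closed_lf (a : Fin n) : (W2 d n m T).Closed fun _ x => lf x.1.1.2.1 x.2 a = 0 :=
  fun _ _ φ _ _ _ _ c e => (rel_lf c.1.1.2.1 c.2 a).eq_of φ.zero e

include hn hb

theorem uiso_W2 : UIso ((isMap_rad (reg_eqL d n T 0) (reg_eqG d n m T)
    {g | g.1 = 0 ∧ 0 < (g.2 : ℕ) ∧ (g.2 : ℕ) < n}).hom χ) :=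
  uiso_rad _ _ (hb 0 hn) (flow_S2 T hn)
    (fun _ r x _ _ g => by rw [eqG_scU 0 r _ _ _ _ fun _ l => l.ne']) _ fun g hg =>
    ⟨_, _, hb g.2 hg.2.2, flow_S2 T hg.2.2, fun _ r x _ _ => ⟨eqL_scU _ r _ _ _ _ hg.2.1.ne,
      fun g' l => eqG_scU _ r _ _ _ _ fun l1 _ l2 =>
        l (Prod.ext (l1.trans hg.1.symm) (Fin.ext l2))⟩⟩

include hm

theorem uzero_W2 (c : (W2 d n m T).Conv fun _ x => ¬ ∀ a, lf x.1.1.2.1 x.2 a = 0) :
    UZero (((W2 d n m T).restr _ c).E χ) := by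
  refine uzero_of_patterns (Z := fun a _ x => lf x.1.1.2.1 x.2 a = 0)
    (fun a => (reg_restr _).closed (closed_lf T a)) fun A => ?_
  by_cases hA : ∀ a, a ∈ A
  · exact uzero_empty fun _ x l => l.1.2 fun a => (l.2 a).2 (hA a)
  obtain ⟨a, ha⟩ := not_forall.1 hA
  have fl := flow_B2 (d := d) T hn
  refine Flow.uzero (hb 0 hn) (τ := fun _ r x => ((((scU 0 r x.1.1.1.1, x.1.1.1.2), x.1.1.2.1,
      update x.1.1.2.2 a (x.1.1.2.2 a + (r - 1) * x.1.1.1.1.2.2 0 / lf x.1.1.2.1 x.2 a)),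
        x.1.2), x.2))
    ⟨fun _ r x hr l => ⟨⟨⟨⟨⟨⟨fl.live r _ hr l.1.1.1.1.1.1, fun _ => trivial, fun _ => trivial⟩,
        fun _ => trivial⟩, fun _ => trivial⟩, ?_, l.1.1.2.2⟩, l.1.2⟩, l.2⟩,
      fun _ x _ => ?_, fun _ r x hr _ => ?_, fun _ r x hr l => ?_,
      fun _ _ φ r r' x y h1 h2 l l' c => ⟨⟨⟨fl.reg φ r r' _ _ h1 h2 l.1.1.1.1.1.1 l'.1.1.1.1.1.1
        c.1.1.1, c.1.1.2.1, rel_update c.1.1.2.2 ((c.1.1.2.2 a).add
          (((h1.sub φ.one).mul (c.1.1.1.1.2.2 0)).div (rel_lf c.1.1.2.1 c.2 a)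
            fun e => ha ((l'.2 a).1 e))) a⟩, c.1.2⟩, c.2⟩⟩
  · refine ((eqW_scU r _ _ _ _ _).trans ?_).trans l.1.1.2.1
    rw [eqW_f _ _ _ _ _ hm, div_mul_cancel₀ _ fun e => ha ((l.2 a).1 e), add_assoc, ← add_mul]
    simp only [sub_add_sub_cancel, sub_self, zero_mul, add_zero]
    rfl
  · simp [scU_one]
  · dsimp only
    rw [scU_inv 0 r _ hr, update_idem, update_self, add_assoc, ← add_div,
      scU_self, ← mul_assoc, ← add_mul, sub_mul, inv_mul_cancel₀ hr, one_mul, sub_add_sub_cancel, sub_self, zero_mul,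
      zero_div, add_zero, update_eq_self]
  · have e := fl.f r _ hr l.1.1.1.1.1.1
    dsimp only at e ⊢
    rw [e]
    ring

include h2
variable [CharZero F]

theorem acts_W2c (c : (W2 d n m T).Conv fun _ x => ∀ a, lf x.1.1.2.1 x.2 a = 0) :
    ((W2 d n m T).restr _ c).Acts χ (fun _ x => ((x.1.1, -x.1.2), x.2)) ((-1) ^ n) := by
  let S₀ := (((B2 d n).over T).prod (((line k).pi (Fin n)).prod ((line k).pi (Fin n)))).prod
    ((line k).pi (Fin 2 × Fin m))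
  have c₀ : S₀.Conv fun _ x => (∀ g : Fin 2 × Fin m, g.1 = 0 ∧ 0 < (g.2 : ℕ) ∧ (g.2 : ℕ) < n →
      x.2 g ≠ 0) ∧ ∀ a, lf x.1.2.1 x.2 a = 0 :=
    (Open.conv fun _ _ _ _ _ _ _ r e g hg => (r.2 g).ne_zero (e g hg)).and
      (Closed.conv fun _ _ φ _ _ _ _ r e a => (rel_lf r.1.2.1 r.2 a).eq_of φ.zero (e a))
  have fl := flow_prod (flow_prod (flow_B2 (d := d) T hn)
    (((line k).pi (Fin n)).prod ((line k).pi (Fin n)))) ((line k).pi (Fin 2 × Fin m))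
  have z : (S₀.restr _ c₀).Reg (S2 d n T) fun _ x => (x.1, 0) :=
    ⟨fun _ _ a => ⟨a.1.1, fun _ => trivial⟩, fun _ _ φ _ _ _ _ r => ⟨r.1, fun _ => φ.zero⟩⟩
  have hc : (S₀.restr _ c₀).RegF fun _ x => -eqW x.1.1.1 x.1.2.1 x.1.2.2 0 x.2 :=
    fun _ _ φ x y a b r => ((z.regF (reg_eqL d n T 0) φ x y a b r).add
      (Place.sum fun g _ => (r.2 g).mul (z.regF (reg_eqG d n m T g) φ x y a b r))).neg
  have c₁ : ((S₀.restr _ c₀).prod ((line k).pi (Fin n))).Closed fun _ x =>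
      x.2 ⬝ᵥ Mq n x.1.2 *ᵥ x.2 = -eqW x.1.1.1.1 x.1.1.2.1 x.1.1.2.2 0 x.1.2 :=
    fun _ _ φ x y a b r => (rel_dot r.2 ((mr_Mq r.1.2).mulVec r.2)).eq_of (hc φ _ _ a.1 b.1 r.1)
  have q := quad_acts (χ := χ) h2 (Fin n) (S₀.restr _ c₀) (fun _ x => Mq n x.2) _
    ⟨fun _ _ _ _ _ _ _ r => mr_Mq r.2, fun _ x _ => Mq_symm x.2,
      fun _ x v a => Mq_inj x.1.2.1 x.2 (fun i h0 hi => by
        rw [mu, dif_pos (hi.trans_le hm)]
        exact a.2.1 _ ⟨rfl, h0, hi⟩) a.2.2,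
      _, fun _ r x => (((scU 0 r x.1.1.1, x.1.1.2), x.1.2), x.2), hb 0 hn,
      ⟨fun _ r x hr a => ⟨fl.live r x hr a.1, a.2⟩, fun _ x a => fl.one x a.1,
        fun _ r x hr a => fl.inv r x hr a.1, fun _ r x hr a => fl.f r x hr a.1,
        fun _ _ φ r r' x y h1 h2 a b => fl.reg φ r r' x y h1 h2 a.1 b.1⟩,
      fun _ _ _ _ _ => rfl⟩ hc c₁.conv
  rw [Fintype.card_fin] at q
  have r₁ : ((W2 d n m T).restr _ c).Reg
      (((S₀.restr _ c₀).prod ((line k).pi (Fin n))).restr _ c₁.conv)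
      fun _ x => ((x.1.1, x.2), x.1.2) :=
    ⟨fun _ x a => ⟨⟨⟨⟨a.1.1.1.1, a.1.1.2⟩, a.1.2.2, a.2⟩, a.1.1.1.2⟩,
      eq_neg_of_add_eq_zero_left ((eqW_h _ _ _ _ _ hm).symm.trans a.1.2.1)⟩,
      fun _ _ _ _ _ _ _ r => ⟨⟨r.1.1, r.2⟩, r.1.2⟩⟩
  have r₂ : (((S₀.restr _ c₀).prod ((line k).pi (Fin n))).restr _ c₁.conv).Reg
      ((W2 d n m T).restr _ c) fun _ x => ((x.1.1, x.2), x.1.2) :=
    ⟨fun _ x a => ⟨⟨⟨⟨a.1.1.1.1, a.1.2⟩, a.1.1.1.2⟩,
      (eqW_h _ _ _ _ _ hm).trans (add_eq_zero_iff_eq_neg.2 a.2), a.1.1.2.1⟩, a.1.1.2.2⟩,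
      fun _ _ _ _ _ _ _ r => ⟨⟨r.1.1, r.2⟩, r.1.2⟩⟩
  have la : ∀ ⦃K⦄ (x : ((W2 d n m T).restr _ c).X K), ((W2 d n m T).restr _ c).L x →
      ((W2 d n m T).restr _ c).L ((x.1.1, -x.1.2), x.2) :=
    fun _ x a => ⟨⟨⟨⟨a.1.1.1.1, fun _ => trivial⟩, a.1.1.2⟩,
      (eqW_neg _ _ _ _ hm _).trans a.1.2.1, a.1.2.2⟩, a.2⟩
  have m₁ := IsMap.of_inv r₁ r₂ (fun _ _ _ => mul_right_comm _ _ _) fun _ _ _ => rfl
  exact .of_uiso m₁ (m₁.bij r₁.live (fun _ x y _ _ e => congrArg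
      (fun x => ((x.1.1, x.2), x.1.2)) e) fun _ y a => ⟨_, r₂.live y a, rfl⟩).uiso
    ((isMap_negW T hm).restr c c fun _ _ _ _ => Iff.rfl) q la
    (fun _ x a => iff_of_true (r₁.live _ (la x a)) ⟨r₁.live x a, r₁.live _ (la x a)⟩)
    fun _ _ _ _ => rfl

theorem acts_W2 : (W2 d n m T).Acts χ (fun _ x => ((x.1.1, -x.1.2), x.2)) ((-1) ^ n) := by
  have cl : (W2 d n m T).Closed fun _ x => ∀ a, lf x.1.1.2.1 x.2 a = 0 :=
    fun _ _ φ x y a b r e g => closed_lf T g φ x y a b r (e g)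
  exact .of_closed (isMap_negW T hm) (fun _ x a => ⟨⟨⟨a.1.1.1, fun _ => trivial⟩, a.1.2⟩,
      (eqW_neg _ _ _ _ hm _).trans a.2.1, a.2.2⟩) (fun _ x _ => by simp only [neg_neg])
    (by rw [← mul_pow, neg_mul_neg, mul_one, one_pow]) cl (acts_W2c T h2 hn hm hb _)
    (.of_uzero ((isMap_negW T hm).restr _ _ fun _ _ _ _ => Iff.rfl) (uzero_W2 T hn hm hb _))
    fun _ _ _ e => e

omit hn in
theorem acts_sig : (X2 d n m T).Acts χ (fun _ x => (sig x.1, x.2)) ((-1) ^ n) := by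
  rcases n.eq_zero_or_pos with rfl | hn
  · rw [pow_zero]
    refine .of_fix fun _ x h => Prod.ext (funext fun i => ?_) rfl
    rcases i.eq_zero_or_pos with rfl | hi
    exacts [sig_zero h.1.1.2.comp, (sig_of_zero (h.1.1.1 i hi)).trans (h.1.1.1 i hi).symm]
  have a := isMap_th2 d T h2 hn hm
  have b := isMap_rad (reg_eqL d n T 0) (reg_eqG d n m T)
    {g | g.1 = 0 ∧ 0 < (g.2 : ℕ) ∧ (g.2 : ℕ) < n}
  have c : IsMap (X2 d n m T) (W2 d n m T) (th2 d n m T) :=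
    a.comp b fun _ x h _ => live_th2 d T h2 hn hm x h
  have u : UIso (c.hom χ) := by
    rw [← a.hom_comp b c (fun _ x h _ => live_th2 d T h2 hn hm x h) fun _ _ _ _ => rfl]
    exact (bij_th2 d T h2 hn hm).uiso.comp (uiso_W2 T hn hb)
  refine .of_uiso c u (isMap_sig d n m T) (acts_W2 T h2 hn hm hb) (live_sig d n m T)
    (fun _ x h => ?_) fun _ x h _ => th2_sig d T h2 x h
  rw [th2_sig d T h2 x h]
  have l := live_th2 d T h2 hn hm x h
  exact (and_iff_right_of_imp fun q => ⟨l.1, by simp [l.2.1, l.2.2], q.2.2⟩).symm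

omit hn in
theorem two {T : PC P} (hT : T.Dep {2}) :
    (tow d n).Ha χ (T.tw (((line k).pi (Fin m)).pi (Fin 2))) (Equiv.swap (0 : Fin 2) 1) := by
  obtain ⟨s, hs⟩ := acts_sig T h2 hm hb
  have p := Tow.pend_top (D := tow d n) (Equiv.swap (0 : Fin 2) 1)
  have e := p.toPMap.ov_comm (χ := χ) (pq d n 2) (pq d n 2) (pmap_sig d n _)
    (hT.tw (((line k).pi (Fin m)).pi (Fin 2)))
    (fun _ x h => iff_of_true ⟨p.live x h, lq (p.live x h)⟩ ⟨lq h, lsig d n _ (lq h)⟩)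
    fun K x h _ _ => qm_swap (K := K) (x := x) h.2.2.1 h.2.2.2
  have n1 := hs.precomp ((tow d n).oq χ 2 (T.tw (((line k).pi (Fin m)).pi (Fin 2))))
  rw [Preadditive.comp_sub, Linear.comp_smul, Category.comp_id, ← s.hm_eq] at n1
  rw [Tow.Ha, eps_swap (by decide), pow_succ, pow_succ, mul_assoc, neg_one_mul, neg_neg, mul_one]
  exact e ▸ n1

end

end Pool.Agent.Lib.MP_fc2ced_ag.T.C
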