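import Pool.Agent.Lib.MP_fc2ced_ag.C.Clean
import Pool.Agent.Lib.MP_fc2ced_ag.G.Tw

/-! Chains of large matrices have no cohomology. -/

open Function Polynomial Matrix Module

namespace Pool.Agent.Lib.MP_fc2ced_ag.T.C

open K

noncomputable section

variable {k : Type} [Field k] {F : Type} [Field F] {χ : Chr k F} (d : Dat k) (Λ' : Finset k)
  (o : k) (n : ℕ) {w : ℕ}

open MP_fc2ced_ag.T.Pt hiding X

/-- The points that are removed at the node `i`. -/
def Lam (i : ℕ) : Finset k := if i < n then d.Λ else Λ'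

section Def
variable {K : Fld k} (Y : ℕ → Mx w K)

/-- The last basis vector. -/
def vv (w : ℕ) (K : Type) [Field K] : Fin w → K := fun a => if (a : ℕ) + 1 = w then 1 else 0

/-- The matrix `Y i - μ`. -/
def Ym (i : ℕ) (μ : k) : Mx w K := Y i - scalar (Fin w) (algebraMap k K μ)

/-- The spaces `U i`. -/
def Us : ℕ → Sb w K
  | 0 => K ∙ vv w K
  | i + 1 => im (Y (i + 1) - Y i) (⨆ μ ∈ d.Λ, im (Ym Y i μ)⁻¹ (Us i))

/-- The spaces `(Y i - μ)⁻¹ U i`. -/
def Zm (i : ℕ) (μ : k) : Sb w K := im (Ym Y i μ)⁻¹ (Us d Y i)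

/-- Their sum. -/
def Zs (i : ℕ) : Sb w K := ⨆ μ ∈ d.Λ, Zm d Y i μ

open Classical in
/-- The sum at the last node over the points different from `o`. -/
def Os : Sb w K := ⨆ μ ∈ Λ'.erase o, Zm d Y n μ

open Classical in
/-- The family of all the spaces. -/
def Wf : Option (Fin (n + 1) × Bool) → Sb w K
  | none => Os d Λ' o n Y
  | some (i, true) => Us d Y i
  | some (i, false) => if o ∈ Lam d Λ' n i then Zm d Y i o else ⊥

/-- The chains with the points of `Λ'` removed at the last node. -/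
def LV : Prop := (Xs d n w).L Y ∧ ∀ μ ∈ Λ', (Y n).charpoly.eval (algebraMap k K μ) ≠ 0

/-- The two chains have the same spaces. -/
def Same (Y' : ℕ → Mx w K) : Prop :=
  ∀ i ≤ n, Us d Y' i = Us d Y i ∧ ∀ μ ∈ Lam d Λ' n i, Zm d Y' i μ = Zm d Y i μ

/-- The matrices `Y l - o`, `i ≤ l ≤ n`, are multiplied by `1 + (r - 1) z η`. -/
def mulB (i : ℕ) (r : K) (z η : Fin w → K) (l : ℕ) : Mx w K :=
  if i ≤ l ∧ l ≤ n then Y l + vecMulVec ((r - 1) • Ym Y l o *ᵥ z) η else Y l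

end Def

section Alg
variable {d Λ' o n} {K : Fld k} {Y Y' : ℕ → Mx w K} {i : ℕ} {r : K} {u z η : Fin w → K}

theorem us_succ : Us d Y (i + 1) = im (Y (i + 1) - Y i) (Zs d Y i) := rfl

theorem finrank_us (i : ℕ) : finrank K (Us d Y i) ≤ d.Λ.card ^ i := by
  induction i with
  | zero => exact (finrank_span_le_card {vv w K}).trans (by simp)
  | succ i ih =>
    rw [pow_succ']
    exact finrank_im.trans (finrank_biSup _ _ fun _ _ => finrank_im.trans ih)

theorem finrank_os (ho : o ∈ Λ') :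
    finrank K (Os d Λ' o n Y) ≤ (Λ'.card - 1) * d.Λ.card ^ n := by
  classical
  rw [← Finset.card_erase_of_mem ho]
  exact finrank_biSup (Λ'.erase o) (Zm d Y n) fun _ _ => finrank_im.trans (finrank_us n)

theorem va_eval (Y : ℕ → Mx w K) (i : ℕ) (μ : k) :
    (Y i).charpoly.eval (algebraMap k K μ) = (-1) ^ w * (Ym Y i μ).det := by
  rw [Matrix.eval_charpoly, Ym, ← neg_sub (Y i), det_neg, Fintype.card_fin]

theorem va_lam (hi : i < n) : Lam d Λ' n i = d.Λ := if_pos hi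

theorem va_lam_top : Lam d Λ' n n = Λ' := if_neg (lt_irrefl n)

theorem LV.det (h : LV d Λ' n Y) (hi : i ≤ n) {μ : k} (hμ : μ ∈ Lam d Λ' n i) :
    (Ym Y i μ).det ≠ 0 := by
  refine right_ne_zero_of_mul (a := (-1) ^ w) ?_
  rw [← va_eval]
  rcases hi.eq_or_lt with rfl | hi
  · exact h.2 μ (by rwa [va_lam_top] at hμ)
  · exact h.1.2.pt i hi μ (by rwa [va_lam hi] at hμ)

theorem Same.wf (h : Same d Λ' n Y Y') (ho : o ∈ Λ') (g : Option (Fin (n + 1) × Bool)) :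
    Wf d Λ' o n Y' g = Wf d Λ' o n Y g := by
  classical
  rcases g with _ | ⟨i, _ | _⟩
  · exact iSup_congr fun μ => iSup_congr fun hμ =>
      (h n le_rfl).2 μ (by rw [va_lam_top]; exact Finset.mem_of_mem_erase hμ)
  · simp only [Wf]
    split_ifs with a
    exacts [(h i (Nat.lt_succ_iff.1 i.2)).2 o a, rfl]
  · exact (h i (Nat.lt_succ_iff.1 i.2)).1

theorem Same.zs (h : Same d Λ' n Y Y') (hi : i < n) : Zs d Y' i = Zs d Y i :=
  iSup_congr fun μ => iSup_congr fun hμ => (h i hi.le).2 μ (by rwa [va_lam hi])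

theorem same_of (h : ∀ i ≤ n, ∀ μ ∈ Lam d Λ' n i, im (Ym Y' i μ)⁻¹ (Us d Y i) = Zm d Y i μ)
    (h' : ∀ i < n, im (Y' (i + 1) - Y' i) (Zs d Y i) = Us d Y (i + 1)) : Same d Λ' n Y Y' := by
  have key : ∀ i ≤ n, Us d Y' i = Us d Y i := fun i => by
    induction i with
    | zero => exact fun _ => rfl
    | succ i ih =>
      intro hi
      rw [us_succ, ← h' i hi]
      refine congrArg _ (iSup_congr fun μ => iSup_congr fun hμ => ?_)
      rw [Zm, ih (Nat.le_of_succ_le hi)]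
      exact h i (Nat.le_of_succ_le hi) μ (by rwa [va_lam hi])
  exact fun i hi => ⟨key i hi, fun μ hμ => by rw [Zm, key i hi]; exact h i hi μ hμ⟩

theorem va_zm_le {μ : k} (hμ : μ ∈ d.Λ) : Zm d Y i μ ≤ Zs d Y i :=
  le_iSup₂ (f := fun μ (_ : μ ∈ d.Λ) => Zm d Y i μ) μ hμ

theorem va_ym {μ : k} : Ym (bump i u η Y) i μ = Ym Y i μ + vecMulVec u η := by
  rw [Ym, bump_self, Ym, add_sub_right_comm]

theorem va_lk : bump i u η Y (i + 1) - bump i u η Y i = Y (i + 1) - Y i + vecMulVec (-u) η := by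
  rw [bump_self, bump_ne (Nat.succ_ne_self i), neg_vecMulVec, ← sub_sub, sub_eq_add_neg]

theorem va_inv (h1 : η ⬝ᵥ z = 1) (hr : r ≠ 0)
    (e : Y' = bump i ((1 - r) • (Y (i + 1) - Y i) *ᵥ z) η Y) :
    bump i ((1 - r⁻¹) • (Y' (i + 1) - Y' i) *ᵥ z) η Y' = Y := by
  rw [e, va_lk, bump_bump, add_one_mulVec, h1, one_smul]
  convert bump_zero
  match_scalars
  field_simp
  ring

theorem vb_in {l : ℕ} (h : i ≤ l) (h' : l ≤ n) :
    mulB o n Y i r z η l = Y l + vecMulVec ((r - 1) • Ym Y l o *ᵥ z) η := if_pos ⟨h, h'⟩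

theorem vb_out {l : ℕ} (h : ¬ (i ≤ l ∧ l ≤ n)) : mulB o n Y i r z η l = Y l := if_neg h

theorem vb_ym {l : ℕ} (h : i ≤ l) (h' : l ≤ n) (μ : k) :
    Ym (mulB o n Y i r z η) l μ = Ym Y l μ + vecMulVec ((r - 1) • Ym Y l o *ᵥ z) η := by
  rw [Ym, vb_in h h', add_sub_right_comm]
  rfl

theorem vb_ym_out {l : ℕ} (h : ¬ (i ≤ l ∧ l ≤ n)) (μ : k) :
    Ym (mulB o n Y i r z η) l μ = Ym Y l μ := by
  rw [Ym, vb_out h]
  rfl

theorem vb_lk {l : ℕ} (h : i ≤ l) (h' : l < n) :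
    mulB o n Y i r z η (l + 1) - mulB o n Y i r z η l =
      Y (l + 1) - Y l + vecMulVec ((r - 1) • (Y (l + 1) - Y l) *ᵥ z) η := by
  have e : Y (l + 1) - Y l = Ym Y (l + 1) o - Ym Y l o := (sub_sub_sub_cancel_right _ _ _).symm
  rw [vb_in (Nat.le_succ_of_le h) h', vb_in h h'.le, add_sub_add_comm, ← sub_vecMulVec,
    ← smul_sub, ← sub_mulVec, ← e]

theorem vb_eval (l : ℕ) (μ : k) :
    (Y l).charpoly.eval (algebraMap k K μ) = (-1) ^ w * (Ym Y l μ).det := by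
  rw [eval_charpoly, ← neg_sub, det_neg, Fintype.card_fin]
  rfl

theorem vb_cancel {A : Mx w K} (h : A.det ≠ 0) : A⁻¹ *ᵥ A *ᵥ z = z := by
  rw [mulVec_mulVec, nonsing_inv_mul _ h.isUnit, one_mulVec]

theorem vb_det {A : Mx w K} (h : A.det ≠ 0) (h1 : η ⬝ᵥ z = 1) :
    (A + vecMulVec ((r - 1) • A *ᵥ z) η).det = A.det * r := by
  rw [det_add_one h, mulVec_smul, vb_cancel h, dotProduct_smul, h1, smul_eq_mul, mul_one,
    add_sub_cancel]

theorem vb_det_perp {A : Mx w K} {W : Sb w K} (h : A.det ≠ 0) (hη : Perp η W)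
    (hu : A⁻¹ *ᵥ u ∈ W) : (A + vecMulVec ((r - 1) • u) η).det = A.det := by
  rw [det_add_one h, mulVec_smul, dotProduct_smul, hη _ hu, smul_zero, add_zero, mul_one]

theorem vb_im {A : Mx w K} {W : Sb w K} (hz : z ∈ W) (h1 : η ⬝ᵥ z = 1) (hr : r ≠ 0) :
    im (A + vecMulVec ((r - 1) • A *ᵥ z) η) W = im A W := by
  refine le_antisymm (im_le.2 fun v hv => ?_) (im_le.2 fun v hv => ?_)
  · rw [add_one_mulVec]
    exact add_mem (mem_im hv) (Submodule.smul_mem _ _ (Submodule.smul_mem _ _ (mem_im hz)))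
  · have := mem_im (Y := A + vecMulVec ((r - 1) • A *ᵥ z) η)
      (W.sub_mem hv (W.smul_mem ((r - 1) * (η ⬝ᵥ v) / r) hz))
    have e : (η ⬝ᵥ v - (r - 1) * (η ⬝ᵥ v) / r) * (r - 1) = (r - 1) * (η ⬝ᵥ v) / r := by
      field_simp
      ring
    rwa [add_one_mulVec, mulVec_sub, mulVec_smul, dotProduct_sub, dotProduct_smul, h1,
      smul_eq_mul, mul_one, smul_smul, e, sub_add_cancel] at this

theorem vb_zpow (hr : r ≠ 0) (s : Finset ℕ) (f : ℕ → ℤ) :
    r ^ (∑ l ∈ s, f l) = ∏ l ∈ s, r ^ f l := by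
  induction s using Finset.induction_on with
  | empty => simp
  | insert a s ha ih => rw [Finset.sum_insert ha, Finset.prod_insert ha, zpow_add₀ hr, ih]

theorem mulB_one : mulB o n Y i 1 z η = Y := by
  funext l
  simp [mulB]

theorem mulB_inv (hr : r ≠ 0) (h1 : η ⬝ᵥ z = 1) :
    mulB o n (mulB o n Y i r z η) i r⁻¹ z η = Y := by
  funext l
  by_cases h : i ≤ l ∧ l ≤ n
  · rw [vb_in h.1 h.2, vb_ym h.1 h.2, vb_in h.1 h.2, add_one_mulVec, h1, one_smul, add_assoc,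
      ← add_vecMulVec, add_eq_left]
    have e : (r - 1) • Ym Y l o *ᵥ z + (r⁻¹ - 1) • (Ym Y l o *ᵥ z + (r - 1) • Ym Y l o *ᵥ z) = 0 := by
      match_scalars
      field_simp
      ring
    rw [e, zero_vecMulVec]
  · rw [vb_out h, vb_out h]

variable (hΛ : d.Λ ⊆ Λ') (h : LV d Λ' n Y)
include hΛ h

theorem zm_mono (hi : i < n) (α : Us d Y i ≤ Us d Y (i + 1)) {μ : k} (hμ : μ ∈ d.Λ) :
    Zm d Y i μ ≤ Zm d Y (i + 1) μ := fun v hv => by
  have a := α ((mem_im_inv (h.det hi.le (by rwa [va_lam hi]))).1 hv)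
  have b : (Y (i + 1) - Y i) *ᵥ v ∈ Us d Y (i + 1) := mem_im (va_zm_le hμ hv)
  refine (mem_im_inv (h.det hi ?_)).2 ?_
  · unfold Lam
    split_ifs
    exacts [hμ, hΛ hμ]
  · convert add_mem b a using 1
    rw [← add_mulVec, Ym, Ym, sub_add_sub_cancel]

/-- The first kind of flows. -/
theorem specA (hi : i < n) (α : ∀ l < i, Us d Y l ≤ Us d Y (l + 1))
    (hz : (Y (i + 1) - Y i) *ᵥ z ∈ Us d Y i) (hη : Perp η (Zs d Y i)) (h1 : η ⬝ᵥ z = 1)
    (hr : r ≠ 0) :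
    (Xs d n w).L (bump i ((1 - r) • (Y (i + 1) - Y i) *ᵥ z) η Y) ∧
    fX d n (bump i ((1 - r) • (Y (i + 1) - Y i) *ᵥ z) η Y) = fX d n Y * r ^ d.b i ∧
    Same d Λ' n Y (bump i ((1 - r) • (Y (i + 1) - Y i) *ᵥ z) η Y) := by
  have hu := (Us d Y i).smul_mem (1 - r) hz
  have d0 := h.1.2.lk i hi
  have e1 : (Y (i + 1) - Y i + vecMulVec (-((1 - r) • (Y (i + 1) - Y i) *ᵥ z)) η).det =
      (Y (i + 1) - Y i).det * r := by
    rw [det_add_one d0, mulVec_neg, mulVec_smul, mulVec_mulVec, nonsing_inv_mul _ d0.isUnit,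
      one_mulVec, dotProduct_neg, dotProduct_smul, h1, smul_eq_mul, mul_one]
    ring
  generalize (1 - r) • (Y (i + 1) - Y i) *ᵥ z = u at hu e1 ⊢
  have p1 : ∀ l, l + 1 = i → Perp η (Zs d Y l) := fun l e v hv => hη v (by
    subst e
    exact iSup₂_le (fun μ hμ => (zm_mono hΛ h (Nat.lt_of_succ_lt hi) (α l l.lt_succ_self) hμ).trans
      (va_zm_le hμ)) hv)
  have e2 : ∀ μ ∈ d.Λ, (Ym Y i μ + vecMulVec u η).det = (Ym Y i μ).det := fun μ hμ => by
    rw [det_add_one (h.det hi.le (by rwa [va_lam hi])), hη _ (va_zm_le hμ (mem_im hu)), add_zero,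
      mul_one]
  have cp : ∀ l, ∀ μ ∈ d.Λ, (bump i u η Y l).charpoly.eval (algebraMap k K μ) =
      (Y l).charpoly.eval (algebraMap k K μ) := fun l μ hμ => by
    rcases eq_or_ne l i with rfl | e
    · rw [va_eval, va_eval, va_ym, e2 μ hμ]
    · rw [bump_ne e]
  have dt : ∀ l < n, (bump i u η Y (l + 1) - bump i u η Y l).det =
      (Y (l + 1) - Y l).det * if l = i then r else 1 := fun l hl => by
    split_ifs with a
    · rw [a, va_lk, e1]
    rcases eq_or_ne (l + 1) i with rfl | b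
    · have d1 := h.1.2.lk l hl
      obtain ⟨v, hv, rfl⟩ := hu
      rw [bump_lk, det_add_one d1, toLin'_apply, mulVec_mulVec, nonsing_inv_mul _ d1.isUnit,
        one_mulVec, p1 l rfl v hv, add_zero]
    · rw [bump_ne a, bump_ne b, mul_one]
  refine ⟨⟨fun l hl => ?_, ?_, fun l hl μ hμ => ?_, fun l hl => ?_, ?_⟩, ?_,
    same_of (fun l hl μ hμ => ?_) fun l hl => ?_⟩
  · rw [bump_ne (by omega)]
    exact h.1.1 l hl
  · rcases eq_or_ne 0 i with rfl | e
    · obtain ⟨s, rfl⟩ := Submodule.mem_span_singleton.1 hu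
      rw [bump_self]
      exact h.1.2.comp.add s η
    · rw [bump_ne e]
      exact h.1.2.comp
  · rw [cp l μ hμ]
    exact h.1.2.pt l hl μ hμ
  · rw [dt l hl]
    refine mul_ne_zero (h.1.2.lk l hl) ?_
    split_ifs
    exacts [hr, one_ne_zero]
  · rw [bump_ne hi.ne']
    exact h.1.2.top
  · have e : r ^ d.b i = ∏ l ∈ Finset.range n, (if l = i then r else 1) ^ d.b l := by
      rw [Finset.prod_eq_single_of_mem i (Finset.mem_range.2 hi) fun l _ e => by
        rw [if_neg e, _root_.one_zpow], if_pos rfl]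
    rw [e, fX, fX, ← Finset.prod_mul_distrib]
    refine Finset.prod_congr rfl fun l hl => ?_
    rw [Finset.prod_congr rfl fun μ hμ => by rw [cp l μ hμ], dt l (Finset.mem_range.1 hl),
      mul_zpow, mul_assoc]
  · rcases eq_or_ne l i with rfl | e
    · have a := h.det hl hμ
      rw [va_lam hi] at hμ
      rw [va_ym]
      exact im_inv_add a ((e2 μ hμ).symm ▸ a) hu
    · rw [Ym, bump_ne e]
      rfl
  · rcases eq_or_ne l i with rfl | a
    · rw [va_lk]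
      exact im_congr fun v hv => by rw [add_one_mulVec, hη v hv, zero_smul, add_zero]
    rcases eq_or_ne (l + 1) i with rfl | b
    · rw [bump_lk]
      exact im_congr fun v hv => by rw [add_one_mulVec, p1 l rfl v hv, zero_smul, add_zero]
    · rw [bump_ne a, bump_ne b]
      rfl

variable (ho : o ∈ Λ') (α : ∀ l < n, Us d Y l ≤ Us d Y (l + 1))
include ho α

omit ho in
theorem vb_mono {l l' : ℕ} (hl : l ≤ l') (hl' : l' ≤ n) {μ : k} (hμ : μ ∈ Lam d Λ' n l) :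
    Zm d Y l μ ≤ Zm d Y l' μ := by
  induction l', hl using Nat.le_induction with
  | base => exact le_rfl
  | succ m hm ih =>
    rw [Lam, if_pos (by omega)] at hμ
    exact (ih (by omega)).trans (zm_mono hΛ h hl' (α m hl') hμ)

omit ho in
theorem vb_os {l : ℕ} (hl : l ≤ n) {μ : k} (hμ : μ ∈ Lam d Λ' n l) (e : μ ≠ o) :
    Zm d Y l μ ≤ Os d Λ' o n Y := by
  classical
  refine (vb_mono hΛ h α hl le_rfl hμ).trans (le_iSup₂_of_le μ (Finset.mem_erase.2 ⟨e, ?_⟩) le_rfl)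
  rw [Lam] at hμ
  split_ifs at hμ
  exacts [hΛ hμ, hμ]

/-- The second kind of flows. -/
theorem specB (hi : i ≤ n) (hoi : o ∈ Lam d Λ' n i)
    (mi : ∀ l < i, o ∈ d.Λ → Zm d Y l o ≤ Os d Λ' o n Y) (hz : z ∈ Zm d Y i o)
    (hη : Perp η (Os d Λ' o n Y)) (h1 : η ⬝ᵥ z = 1) (hr : r ≠ 0) :
    (Xs d n w).L (mulB o n Y i r z η) ∧
    (∀ μ ∈ Λ', μ ≠ o → (mulB o n Y i r z η n).charpoly.eval (algebraMap k K μ) =
      (Y n).charpoly.eval (algebraMap k K μ)) ∧
    (mulB o n Y i r z η n).charpoly.eval (algebraMap k K o) =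
      r * (Y n).charpoly.eval (algebraMap k K o) ∧
    fX d n (mulB o n Y i r z η) = fX d n Y * r ^ (∑ l ∈ Finset.Ico i n, (d.a l o + d.b l)) ∧
    Same d Λ' n Y (mulB o n Y i r z η) := by
  classical
  have lo : ∀ {l}, l < n → Lam d Λ' n l = d.Λ := fun hl => if_pos hl
  have ln : Lam d Λ' n n = Λ' := if_neg (lt_irrefl n)
  have o1 : ∀ {l}, i ≤ l → l < n → o ∈ d.Λ := fun h1 h2 => lo (h1.trans_lt h2) ▸ hoi
  have o2 : ∀ {l}, i ≤ l → l ≤ n → o ∈ Lam d Λ' n l := fun h1 h2 => by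
    rcases h2.eq_or_lt with rfl | h3
    exacts [ln.symm ▸ ho, (lo h3).symm ▸ o1 h1 h3]
  have z1 : ∀ {l}, i ≤ l → l ≤ n → z ∈ Zm d Y l o := fun h1 h2 => vb_mono hΛ h α h1 h2 hoi hz
  have u1 : ∀ {l}, i ≤ l → l ≤ n → Ym Y l o *ᵥ z ∈ Us d Y l := fun h1 h2 =>
    (mem_im_inv (h.det h2 (o2 h1 h2))).1 (z1 h1 h2)
  have dm : ∀ l ≤ n, ∀ μ ∈ Lam d Λ' n l, (Ym (mulB o n Y i r z η) l μ).det =
      (Ym Y l μ).det * if i ≤ l ∧ μ = o then r else 1 := fun l hl μ hμ => by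
    by_cases a : i ≤ l
    · rw [vb_ym a hl]
      by_cases b : μ = o
      · rw [if_pos ⟨a, b⟩, b, vb_det (h.det hl (o2 a hl)) h1]
      · rw [if_neg fun c => b c.2, mul_one,
          vb_det_perp (h.det hl hμ) hη (vb_os hΛ h α hl hμ b (mem_im (u1 a hl)))]
    · rw [vb_ym_out fun c => a c.1, if_neg fun c => a c.1, mul_one]
  have cp : ∀ l ≤ n, ∀ μ ∈ Lam d Λ' n l, (mulB o n Y i r z η l).charpoly.eval (algebraMap k K μ) =
      (Y l).charpoly.eval (algebraMap k K μ) * if i ≤ l ∧ μ = o then r else 1 :=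
    fun l hl μ hμ => by rw [vb_eval, vb_eval, dm l hl μ hμ, mul_assoc]
  have ne : ∀ (c : Prop) [Decidable c], (if c then r else 1) ≠ 0 := fun c _ => by
    split_ifs
    exacts [hr, one_ne_zero]
  have zo : ∀ l < i, Perp η (Zs d Y l) := fun l hl v hv => hη v <|
    (iSup₂_le fun μ hμ => by
      by_cases b : μ = o
      · exact b ▸ mi l hl (b ▸ hμ)
      · exact vb_os hΛ h α (by omega) ((lo (hl.trans_le hi)).symm ▸ hμ) b :
      Zs d Y l ≤ Os d Λ' o n Y) hv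
  have lk : ∀ {l}, l + 1 = i → mulB o n Y i r z η (l + 1) - mulB o n Y i r z η l =
      Y (l + 1) - Y l + vecMulVec ((r - 1) • Ym Y (l + 1) o *ᵥ z) η := fun e => by
    rw [vb_in e.ge (e ▸ hi), vb_out fun c => by omega, add_sub_right_comm]
  have dl : ∀ l < n, (mulB o n Y i r z η (l + 1) - mulB o n Y i r z η l).det =
      (Y (l + 1) - Y l).det * if i ≤ l then r else 1 := fun l hl => by
    have d0 := h.1.2.lk l hl
    split_ifs with a
    · rw [vb_lk a hl, vb_det d0 h1]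
    · rw [mul_one]
      by_cases b : l + 1 = i
      · obtain ⟨v, hv, e⟩ := u1 b.ge hl
        rw [lk b, vb_det_perp d0 (zo l (by omega)) (by rw [← e, toLin'_apply, vb_cancel d0]; exact hv)]
      · rw [vb_out fun c => by omega, vb_out fun c => a c.1]
  refine ⟨⟨fun l hl => ?_, ?_, fun l hl μ hμ => ?_, fun l hl => ?_, ?_⟩, fun μ hμ e => ?_, ?_, ?_,
    same_of (fun l hl μ hμ => ?_) fun l hl => ?_⟩
  · rw [vb_out fun c => by omega]
    exact h.1.1 l hl
  · by_cases a : i ≤ 0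
    · obtain ⟨s, e⟩ := Submodule.mem_span_singleton.1 (u1 a n.zero_le)
      rw [vb_in a n.zero_le, ← e, smul_smul]
      exact h.1.2.comp.add _ η
    · rw [vb_out fun c => a c.1]
      exact h.1.2.comp
  · rw [cp l hl.le μ ((lo hl).symm ▸ hμ)]
    exact mul_ne_zero (h.1.2.pt l hl μ hμ) (ne _)
  · rw [dl l hl]
    exact mul_ne_zero (h.1.2.lk l hl) (ne _)
  · have a : (0 : k) ∈ Lam d Λ' n n := ln.symm ▸ hΛ d.z
    have := mul_ne_zero (h.det le_rfl a) (ne (i ≤ n ∧ 0 = o))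
    rwa [← dm n le_rfl 0 a, Ym, map_zero, map_zero, sub_zero] at this
  · rw [cp n le_rfl μ (ln.symm ▸ hμ), if_neg fun c => e c.2, mul_one]
  · rw [cp n le_rfl o (ln.symm ▸ ho), if_pos ⟨hi, rfl⟩, mul_comm]
  · have e : Finset.Ico i n = (Finset.range n).filter (i ≤ ·) := by
      ext l
      simp [and_comm]
    rw [vb_zpow hr, e, Finset.prod_filter, fX, fX, ← Finset.prod_mul_distrib]
    refine Finset.prod_congr rfl fun l hl => ?_
    have hl := Finset.mem_range.1 hl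
    rw [dl l hl, Finset.prod_congr rfl fun μ hμ => by
      rw [cp l hl.le μ ((lo hl).symm ▸ hμ), mul_zpow], Finset.prod_mul_distrib, mul_zpow]
    by_cases a : i ≤ l
    · rw [Finset.prod_eq_single_of_mem (f := fun μ => (if i ≤ l ∧ μ = o then r else 1) ^ d.a l μ)
        o (o1 a hl) fun μ _ b => by rw [if_neg fun c => b c.2, _root_.one_zpow],
        if_pos ⟨a, rfl⟩, if_pos a, if_pos a, zpow_add₀ hr]
      ring
    · simp [a]
  · by_cases a : i ≤ l
    · have := mul_ne_zero (h.det hl hμ) (ne (i ≤ l ∧ μ = o))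
      rw [← dm l hl μ hμ, vb_ym a hl] at this
      rw [vb_ym a hl, im_inv_add (h.det hl hμ) this (Submodule.smul_mem _ _ (u1 a hl))]
      rfl
    · rw [vb_ym_out fun c => a c.1]
      rfl
  · rw [us_succ]
    by_cases a : i ≤ l
    · rw [vb_lk a hl]
      exact vb_im (le_iSup₂_of_le (f := fun μ (_ : μ ∈ d.Λ) => Zm d Y l μ) o (o1 a hl)
        le_rfl (z1 a hl.le)) h1 hr
    · by_cases b : l + 1 = i
      · rw [lk b]
        refine im_congr fun v hv => ?_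
        rw [add_one_mulVec, zo l (by omega) v hv, zero_smul, add_zero]
      · rw [vb_out fun c => by omega, vb_out fun c => a c.1]

/-- The remaining case. -/
theorem specC (hn : Zm d Y n o ≤ Os d Λ' o n Y) :
    Keeps (Y n) (Os d Λ' o n Y) ∧ vv w K ∈ Os d Λ' o n Y ∧
      ∀ i ≤ n, ∀ μ ∈ Lam d Λ' n i, Zm d Y i μ ≤ Os d Λ' o n Y := by
  have ln : Lam d Λ' n n = Λ' := if_neg (lt_irrefl n)
  have d0 : ∀ μ ∈ Λ', (Ym Y n μ).det ≠ 0 := fun μ hμ => h.det le_rfl (ln.symm ▸ hμ)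
  have h1 : ∀ μ ∈ Λ', Zm d Y n μ ≤ Os d Λ' o n Y := fun μ hμ => by
    classical
    rcases eq_or_ne μ o with rfl | e
    · exact hn
    · exact le_iSup₂_of_le (f := fun μ (_ : μ ∈ Λ'.erase o) => Zm d Y n μ) μ
        (by convert Finset.mem_erase.2 ⟨e, hμ⟩) le_rfl
  have h2 : ∀ μ ν : k, ∀ v, Ym Y n ν *ᵥ v =
      Ym Y n μ *ᵥ v + (algebraMap k K μ - algebraMap k K ν) • v := fun μ ν v => by
    have e : ∀ t : K, scalar (Fin w) t *ᵥ v = t • v := fun t => funext (mulVec_diagonal _ v)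
    rw [Ym, Ym, sub_mulVec, sub_mulVec, e, e, sub_smul]
    abel
  have h3 : Os d Λ' o n Y ≤ (Os d Λ' o n Y).comap (toLin' (Ym Y n o)⁻¹) := by
    refine iSup₂_le fun μ hμ v hv => ?_
    obtain ⟨e, hμ⟩ : μ ≠ o ∧ μ ∈ Λ' := by simpa only [Finset.mem_erase] using hμ
    have e0 : algebraMap k K μ - algebraMap k K o ≠ 0 :=
      sub_ne_zero.2 ((algebraMap k K).injective.ne e)
    have e1 := hn (mem_im (Y := (Ym Y n o)⁻¹) ((mem_im_inv (d0 μ hμ)).1 hv))
    have e2 := congrArg ((Ym Y n o)⁻¹ *ᵥ ·) (h2 μ o v)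
    simp only [mulVec_mulVec, nonsing_inv_mul _ (d0 o ho).isUnit, one_mulVec, mulVec_add,
      mulVec_smul] at e2
    rw [← mulVec_mulVec, ← sub_eq_iff_eq_add'] at e2
    have e3 := Submodule.sub_mem _ (h1 μ hμ hv) e1
    rw [e2] at e3
    exact ((Os d Λ' o n Y).smul_mem_iff e0).1 e3
  have h4 : Keeps (Ym Y n o) (Os d Λ' o n Y) := Keeps.of_inv h3 (d0 o ho)
  have h5 : Us d Y n ≤ Os d Λ' o n Y := fun v hv => by
    have e := h4 _ (hn (mem_im (Y := (Ym Y n o)⁻¹) hv))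
    rwa [mulVec_mulVec, mul_nonsing_inv _ (d0 o ho).isUnit, one_mulVec] at e
  refine ⟨?_, h5 ?_, fun i hi μ hμ => ?_⟩
  · have e := h4.add (keeps_scalar (algebraMap k K o))
    rwa [Ym, sub_add_cancel] at e
  · have e : ∀ l ≤ n, vv w K ∈ Us d Y l := fun l hl => by
      induction l with
      | zero => exact Submodule.mem_span_singleton_self _
      | succ l ih => exact α l hl (ih (by omega))
    exact e n le_rfl
  · rcases hi.eq_or_lt with rfl | hi
    · exact h1 μ (ln ▸ hμ)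
    have e0 : μ ∈ d.Λ := by rwa [Lam, if_pos hi] at hμ
    have e : ∀ l ≤ n, i ≤ l → Zm d Y i μ ≤ Zm d Y l μ := fun l hl il => by
      induction l, il using Nat.le_induction with
      | base => exact le_rfl
      | succ l _ ih => exact (ih (by omega)).trans (zm_mono hΛ h hl (α l hl) e0)
    exact (e n le_rfl hi.le).trans (h1 μ (hΛ e0))

theorem sameC (hn : Zm d Y n o ≤ Os d Λ' o n Y) (hη : Perp η (Os d Λ' o n Y))
    (h' : LV d Λ' n (bump i u η Y)) : Same d Λ' n Y (bump i u η Y) := by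
  have h1 := (specC hΛ h ho α hn).2.2
  have h2 : ∀ l, ∀ v ∈ Os d Λ' o n Y, bump i u η Y l *ᵥ v = Y l *ᵥ v := fun l v hv => by
    rcases eq_or_ne l i with rfl | e
    · rw [bump_self, add_one_mulVec, hη v hv, zero_smul, add_zero]
    · rw [bump_ne e]
  refine same_of (fun l hl μ hμ => im_inv_congr (h.det hl hμ) (h'.det hl hμ) fun v hv => ?_)
    fun l hl => im_congr fun v hv => ?_
  · rw [Ym, Ym, sub_mulVec, sub_mulVec, h2 l v (h1 l hl μ hμ hv)]
  · have e : Zs d Y l ≤ Os d Λ' o n Y :=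
      iSup₂_le fun μ hμ => h1 l hl.le μ (by rwa [Lam, if_pos hl])
    rw [sub_mulVec, sub_mulVec, h2 _ v (e hv), h2 _ v (e hv)]

end Alg

section Rel
variable {d Λ' o n} {K K' : Fld k} {φ : Place K K'} {Y : ℕ → Mx w K} {Y' : ℕ → Mx w K'}
  (r : ∀ i, MR φ (Y i) (Y' i))
include r

theorem mr_mulB {s : K} {s' : K'} {z η : Fin w → K} {z' η' : Fin w → K'} (hs : φ s s')
    (hz : φ.VR z z') (hη : φ.VR η η') (i l : ℕ) :
    MR φ (mulB o n Y i s z η l) (mulB o n Y' i s' z' η' l) := by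
  by_cases h : i ≤ l ∧ l ≤ n
  · rw [vb_in h.1 h.2, vb_in h.1 h.2]
    exact (r l).add (mr_vecMulVec (Place.VR.smul (hs.sub φ.one)
      (((r l).sub (mr_scalar (φ.alg o))).mulVec hz)) hη)
  · rw [vb_out h, vb_out h]
    exact r l

variable (h : LV d Λ' n Y')
include h

theorem sr_us {i : ℕ} (hi : i ≤ n) : SR φ (Us d Y i) (Us d Y' i) := by
  induction i with
  | zero => exact sr_single fun _ => rel_ite φ.one φ.zero
  | succ i ih =>
    exact (sr_biSup _ fun μ hμ => (ih (by omega)).im (((r i).sub (mr_scalar (φ.alg μ))).inv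
      (h.det (by omega) (by rwa [Lam, if_pos (Nat.lt_of_succ_le hi)])))).im ((r _).sub (r _))

theorem sr_zm {i : ℕ} (hi : i ≤ n) {μ : k} (hμ : μ ∈ Lam d Λ' n i) :
    SR φ (Zm d Y i μ) (Zm d Y' i μ) :=
  (sr_us r h hi).im (((r i).sub (mr_scalar (φ.alg μ))).inv (h.det hi hμ))

theorem sr_zs {i : ℕ} (hi : i < n) : SR φ (Zs d Y i) (Zs d Y' i) := 
  sr_biSup _ fun μ hμ => sr_zm r h hi.le (by rwa [Lam, if_pos hi])

theorem sr_wf (g : Option (Fin (n + 1) × Bool)) :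
    SR φ (Wf d Λ' o n Y g) (Wf d Λ' o n Y' g) := by
  rcases g with _ | ⟨i, _ | _⟩
  · refine sr_biSup _ fun μ hμ => sr_zm r h le_rfl ?_
    rw [Lam, if_neg (lt_irrefl n)]
    simp only [Finset.mem_erase] at hμ
    exact hμ.2
  · rw [Wf, Wf]
    split_ifs with e
    exacts [sr_zm r h (Nat.lt_succ_iff.1 i.2) e, sr_bot]
  · exact sr_us r h (Nat.lt_succ_iff.1 i.2)

end Rel

variable (w) (a' : k → ℤ) (Q : Pt k)

/-- The total space. -/
abbrev XV : Pt k := (Xv d n w).over ((Tf w Λ' a').tw Q)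

variable {d Λ' n w a' Q} in
theorem lv_of_live {K : Fld k} {x : (XV d Λ' n w a' Q).X K} (h : (XV d Λ' n w a' Q).L x) :
    LV d Λ' n x.1 := ⟨h.1.1, fun μ hμ => h.2 ⟨μ, hμ⟩ ▸ h.1.2.2.2 ⟨μ, hμ⟩⟩

theorem regS_wf (g : Option (Fin (n + 1) × Bool)) :
    RegS (XV d Λ' n w a' Q) fun _ x => Wf d Λ' o n x.1 g :=
  fun _ _ _ _ _ _ b r => sr_wf r.1 (lv_of_live b) g

variable (e : Option (Fin (n + 1) × Bool) → ℕ)
  (A : Option (Fin (n + 1) × Bool) → Option (Fin (n + 1) × Bool) → Prop)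

/-- The strata. -/
abbrev XS : Pt k := (XV d Λ' n w a' Q).restr _ (conv_str e A (regS_wf d Λ' o n w a' Q))

variable {d Λ' o n w a' Q e A} (hΛ : d.Λ ⊆ Λ') (ho : o ∈ Λ')
include hΛ ho

theorem uzero_A {i : Fin n} (hb : χ.ψ (d.b i) ≠ 1)
    (α : ∀ l < i, A (some (l.castSucc, true)) (some (l.succ, true)))
    (hi : ¬ A (some (i.castSucc, true)) (some (i.succ, true))) :
    UZero ((XS d Λ' o n w a' Q e A).E χ) := by
  refine Rank.uzero hb (U := fun _ x => im (x.1 (i + 1) - x.1 i)⁻¹ (Us d x.1 i))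
    (Z := fun _ x => Zs d x.1 i)
    (mv := fun _ r z η x => (bump i ((1 - r) • (x.1 (i + 1) - x.1 i) *ᵥ z) η x.1, x.2))
    ⟨fun _ _ φ x y a b r => ?_, fun _ _ φ x y a b r => sr_zs r.1 (lv_of_live b.1) i.2,
      fun _ x a c => hi ((a.2.2 _ _).1 fun v hv => ?_), fun _ z η x _ => ?_,
      fun _ r z η x hr a hz hη h1 => ?_,
      fun _ _ φ r r' z η z' η' x y hr hz hη _ _ c => ⟨mr_bump c.1 (Place.VR.smul
        (φ.one.sub hr) (((c.1 _).sub (c.1 _)).mulVec hz)) hη, c.2⟩⟩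
  · exact (sr_us r.1 (lv_of_live b.1) i.2.le).im
      (((r.1 _).sub (r.1 _)).inv (b.1.1.1.2.lk i i.2))
  · have := mem_im (Y := x.1 (i + 1) - x.1 i) (c (mem_im hv))
    rwa [mulVec_mulVec, mul_nonsing_inv _ (a.1.1.1.2.lk i i.2).isUnit, one_mulVec] at this
  · rw [sub_self, zero_smul, bump_zero]
  · have d0 := a.1.1.1.2.lk i i.2
    have hz' := (mem_im_inv d0).1 hz
    obtain ⟨s1, s2, s3⟩ := specA hΛ (lv_of_live a.1) i.2
      (fun l hl => (a.2.2 _ _).2 (α ⟨l, hl.trans i.2⟩ hl)) hz' hη h1 hr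
    have d1 := s1.2.lk i i.2
    refine ⟨⟨⟨⟨s1, a.1.1.2⟩, ?_⟩, fun g => ?_, fun g g' => ?_⟩, ?_, s3.zs i.2, ?_,
      Prod.ext (va_inv h1 hr rfl) rfl⟩
    · have := a.1.2
      dsimp only at this ⊢
      rwa [bump_ne i.2.ne']
    · exact (congrArg (fun V : Sb w _ => finrank _ V) (s3.wf ho g)).trans (a.2.1 g)
    · dsimp only
      rw [s3.wf ho, s3.wf ho]
      exact a.2.2 g g'
    · dsimp only
      rw [va_lk] at d1
      rw [(s3 i i.2.le).1, va_lk, im_inv_add d0 d1 (neg_mem (Submodule.smul_mem _ _ hz'))]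
    · dsimp only
      rw [s2, mul_right_comm]

theorem uzero_B {i : Fin (n + 1)}
    (hσ : χ.ψ (∑ l ∈ Finset.Ico (i : ℕ) n, (d.a l o + d.b l) + a' o : ℤ) ≠ 1)
    (hoi : o ∈ Lam d Λ' n i) (α : ∀ l : Fin n, A (some (l.castSucc, true)) (some (l.succ, true)))
    (mi : ∀ l < i, A (some (l, false)) none) (hi : ¬ A (some (i, false)) none) :
    UZero ((XS d Λ' o n w a' Q e A).E χ) := by
  classical
  have wf : ∀ {K : Fld k} (Y : ℕ → Mx w K), Wf d Λ' o n Y (some (i, false)) = Zm d Y i o :=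
    fun _ => if_pos hoi
  refine Rank.uzero hσ (U := fun _ x => Wf d Λ' o n x.1 (some (i, false)))
    (Z := fun _ x => Wf d Λ' o n x.1 none)
    (mv := fun _ r z η x => (mulB o n x.1 i r z η, x.2.1,
      update x.2.2 ⟨o, ho⟩ (r * x.2.2 ⟨o, ho⟩)))
    ⟨fun _ _ φ x y a b => regS_wf d Λ' o n w a' Q _ φ x y a.1 b.1,
      fun _ _ φ x y a b => regS_wf d Λ' o n w a' Q _ φ x y a.1 b.1,
      fun _ x a c => hi ((a.2.2 _ _).1 c), fun _ z η x _ => ?_, fun K r z η x hr a hz hη h1 => ?_,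
      fun _ _ φ r r' z η z' η' x y hr hz hη _ _ c =>
        ⟨mr_mulB c.1 hr hz hη i, c.2.1, fun μ => ?_⟩⟩
  · rw [mulB_one, one_mul, update_eq_self]
  · obtain ⟨s1, s2, s3, s4, s5⟩ := specB hΛ (lv_of_live a.1) ho
      (fun l hl => (a.2.2 _ _).2 (α ⟨l, hl⟩)) (Nat.le_of_lt_succ i.2) hoi
      (fun l hl c => le_trans (le_of_eq (if_pos (by
        rw [Lam, if_pos (show l < n by have := i.2; omega)]; exact c)).symm)
        ((a.2.2 _ _).2 (mi ⟨l, hl.trans i.2⟩ hl))) (wf x.1 ▸ hz) hη h1 hr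
    have sw := s5.wf ho
    refine ⟨⟨⟨⟨s1, a.1.1.2.1, fun _ => trivial, fun μ => ?_⟩, fun μ => ?_⟩, ?_⟩, sw _, sw _, ?_, ?_⟩
    · dsimp only
      rcases eq_or_ne μ ⟨o, ho⟩ with rfl | c
      · rw [update_self]
        exact mul_ne_zero hr (a.1.1.2.2.2 _)
      · rw [update_of_ne c]
        exact a.1.1.2.2.2 _
    · dsimp only
      rcases eq_or_ne μ ⟨o, ho⟩ with rfl | c
      · rw [update_self, s3, a.1.2]
      · rw [update_of_ne c, s2 μ μ.2 fun b => c (Subtype.ext b), a.1.2]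
    · exact ⟨fun g => (congrArg (fun V : Sb w K => finrank K V) (sw g)).trans (a.2.1 g),
        fun g g' => by
          dsimp only
          rw [sw g, sw g']
          exact a.2.2 g g'⟩
    · dsimp only
      rw [s4, zpow_add₀ hr, ← Finset.mul_prod_erase _ _ (Finset.mem_univ (⟨o, ho⟩ : Λ')),
        ← Finset.mul_prod_erase _ (fun μ : Λ' => x.2.2 μ ^ a' μ) (Finset.mem_univ ⟨o, ho⟩),
        update_self, mul_zpow, Finset.prod_congr rfl fun μ hμ => by
          rw [update_of_ne (Finset.ne_of_mem_erase hμ)]]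
      ring
    · dsimp only
      rw [mulB_inv hr h1, update_self, update_idem, inv_mul_cancel_left₀ hr, update_eq_self]
  · dsimp only
    rcases eq_or_ne μ ⟨o, ho⟩ with rfl | b
    · rw [update_self, update_self]
      exact hr.mul (c.2.2 _)
    · rw [update_of_ne b, update_of_ne b]
      exact c.2.2 _

theorem uzero_C (hb : ∀ i < n, χ.ψ (d.b i) ≠ 1) (hw : (Λ'.card - 1) * d.Λ.card ^ n < w)
    (α : ∀ l : Fin n, A (some (l.castSucc, true)) (some (l.succ, true)))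
    (hn : A (some (Fin.last n, false)) none) : UZero ((XS d Λ' o n w a' Q e A).E χ) := by
  have h1 : ∀ ⦃K⦄ x, (XS d Λ' o n w a' Q e A).L (K := K) x →
      (∀ l < n, Us d x.1 l ≤ Us d x.1 (l + 1)) ∧ Zm d x.1 n o ≤ Os d Λ' o n x.1 := fun _ x a => by
    refine ⟨fun l hl => (a.2.2 _ _).2 (α ⟨l, hl⟩), ?_⟩
    exact (if_pos (by rwa [Lam, Fin.val_last, if_neg (lt_irrefl n)]) :
      Wf d Λ' o n x.1 (some (Fin.last n, false)) = Zm d x.1 n o).ge.trans ((a.2.2 _ _).2 hn)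
  have h2 := fun K x a => specC hΛ (lv_of_live a.1) ho (@h1 K x a).1 (h1 x a).2
  refine uzero_clean _ hb (regG_str e A (regS_wf d Λ' o n w a' Q) none)
    (fun _ x a => (h2 _ x a).1) (fun K x a => ?_) fun _ x i u η a _ _ _ hη l => ?_
  · by_contra hc
    have h3 : Keeps (x.1 0) (Os d Λ' o n x.1) := by
      rcases n.eq_zero_or_pos with h0 | h0
      · exact h0 ▸ (h2 _ x a).1
      · exact not_not.1 fun c => hc ⟨0, h0, c⟩
    have h4 := finrank_os (d := d) (n := n) (Y := x.1) ho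
    rw [a.1.1.1.2.comp.eq_top h3 (h2 _ x a).2.1, finrank_top, finrank_fin_fun] at h4
    omega
  · have h3 := fun g => (sameC hΛ (lv_of_live a.1) ho (h1 x a).1 (h1 x a).2 hη
      (lv_of_live l)).wf ho g
    refine ⟨⟨fun g => (congrArg (fun W : Sb w _ => finrank _ W) (h3 g)).trans (a.2.1 g),
      fun g g' => Iff.trans ?_ (a.2.2 g g')⟩, h3 none⟩
    exact iff_of_eq (congrArg₂ (· ≤ ·) (h3 g) (h3 g'))

theorem uzero_van (hb : ∀ i < n, χ.ψ (d.b i) ≠ 1)
    (hσ : ∀ i ≤ n, o ∈ Lam d Λ' n i →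
      χ.ψ (∑ l ∈ Finset.Ico i n, (d.a l o + d.b l) + a' o : ℤ) ≠ 1)
    (hw : (Λ'.card - 1) * d.Λ.card ^ n < w) : UZero ((XV d Λ' n w a' Q).E χ) := by
  refine uzero_str (regS_wf d Λ' o n w a' Q) fun e A => ?_
  by_cases α : ∀ l : Fin n, A (some (l.castSucc, true)) (some (l.succ, true))
  swap
  · obtain ⟨i, h0, hm⟩ := Set.exists_min_image
      {l : Fin n | ¬ A (some (l.castSucc, true)) (some (l.succ, true))} id (Set.toFinite _)
      (not_forall.1 α)
    exact uzero_A hΛ ho (hb i i.2) (fun l hl => not_not.1 fun c => hl.not_ge (hm l c)) h0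
  by_cases β : ∀ l : Fin (n + 1), A (some (l, false)) none
  · exact uzero_C hΛ ho hb hw α (β _)
  obtain ⟨i, h0, hm⟩ := Set.exists_min_image {l : Fin (n + 1) | ¬ A (some (l, false)) none} id
    (Set.toFinite _) (not_forall.1 β)
  by_cases hoi : o ∈ Lam d Λ' n i
  · exact uzero_B hΛ ho (hσ i (Nat.lt_succ_iff.1 i.2) hoi) hoi α
      (fun l hl => not_not.1 fun c => hl.not_ge (hm l c)) h0
  · refine uzero_empty fun _ x a => h0 ((a.2.2 _ _).1 ?_)
    exact (if_neg hoi : Wf d Λ' o n x.1 (some (i, false)) = ⊥).le.trans bot_le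

end

end Pool.Agent.Lib.MP_fc2ced_ag.T.C
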