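import Pool.Agent.Lib.MP_fc2ced_ag.C.TowTw
import Pool.Agent.Lib.MP_fc2ced_ag.C.Gen
import Pool.Agent.Lib.MP_fc2ced_ag.C.NormC
import Pool.Agent.Lib.MP_fc2ced_ag.C.Two
import Pool.Agent.Lib.MP_fc2ced_ag.C.Van
import Pool.Agent.Lib.MP_fc2ced_ag.G.PBridge
import Pool.Agent.Lib.MP_fc2ced_ag.W.Tot

/-! Generic chains. -/

open CategoryTheory Function Polynomial Matrix

namespace Pool.Agent.Lib.MP_fc2ced_ag.T.C

open K

noncomputable section

variable {k : Type} [Field k] {F : Type} [Field F] [CharZero F] {χ : Chr k F}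

open MP_fc2ced_ag.T.Pt hiding X

theorem hb_all {d : Dat k} {m : ℕ} (h2 : (2 : k) ≠ 0) (n : ℕ) (hb : ∀ i < n, χ.ψ (d.b i) ≠ 1)
    (hm : n ≤ m) {w : ℕ} (hw : 0 < w) (P : Pt k) (T : PC P) (hT : T.Dep {w}) :
    (tow d n).Hb χ w (T.tw (((line k).pi (Fin m)).pi (Fin w))) := by
  induction n generalizing w P with
  | zero => exact hb_zero (hT.tw _)
  | succ n ih =>
    exact Tow.hb_tw _ fac (clean hb) (fun _ _ h => two h2 hm hb h)
      (fun w P T h h' => hb_succ _ h' (hb n n.lt_succ_self) fun P T =>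
        ih (fun i hi => hb i (hi.trans n.lt_succ_self)) (n.le_succ.trans hm) h P T) hw hT

omit [CharZero F] in
theorem prod_ten {S S' P P' : Pt k} {e : ∀ ⦃K⦄, S.X K → S'.X K} {a : ∀ ⦃K⦄, P.X K → P'.X K}
    (h : IsMap S S' e) (h' : IsMap P P' a) (l : ∀ ⦃K⦄ (x : S.X K), S.L x → S'.L (e x))
    (l' : ∀ ⦃K⦄ (x : P.X K), P.L x → P'.L (a x)) :
    (h.prod h').hom χ ≫ (isLift_ten χ S' P').hom =
      (isLift_ten χ S P).hom ≫ Ob.tenMap (h.hom χ) (h'.hom χ) :=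
  hom_ext fun _ x hx => by
    rw [Ob.comp_apply, Ob.comp_apply, IsMap.hom_cl _ hx, IsLift.hom_cl _ hx,
      IsLift.hom_cl (isLift_ten χ S' P') (x := (e x.1, a x.2)) ⟨l _ hx.1, l' _ hx.2⟩, map_smul,
      Ob.tenMap_app, TensorProduct.map_tmul, h.hom_cl hx.1, h'.hom_cl hx.2,
      h.f _ hx.1 (l _ hx.1), h'.f _ hx.2 (l' _ hx.2)]

/-- Permutations of affine spaces act as the identity. -/
theorem null_reidx_aff (α : Type) [Fintype α] {w : ℕ} (s : Equiv.Perm (Fin w)) :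
    Null (Ob.reidx (((line k).pi α).E χ) s - 𝟙 _) := by
  have h : (((line k).pi α).pi (Fin w)).Aff (Fin w × α) (fun _ x c => x c.1 c.2)
      fun _ _ t a b => t (a, b) :=
    ⟨fun c _ _ _ _ _ _ _ r => r c.1 c.2, fun _ _ _ => rfl, fun _ _ _ _ _ _ => trivial,
      fun _ _ _ _ => rfl, fun _ _ _ _ => rfl, fun _ _ _ _ _ => rfl,
      fun _ _ _ _ _ _ _ _ _ _ r a b => r (a, b)⟩
  obtain ⟨m, n⟩ := h.acts_perm (χ := χ) (s.symm.prodCongr (Equiv.refl α))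
  rw [m.hom_congr (isMap_perm _ s) fun _ _ _ => rfl] at n
  refine .of_uiso_comp (bij_pow (χ := χ) (S := (line k).pi α) (Fin w)).uiso ?_
  rw [Preadditive.comp_sub, ← pow_perm]
  simpa using n.comp (isLift_pow χ _ (Fin w)).hom

omit [CharZero F] in
theorem null_ten_pow {M M' N : Ob k F} {f : M ⟶ M'} (h : Null (Ob.tenMap f (𝟙 N))) {w : ℕ}
    (hw : 0 < w) : Null (Ob.tenMap f (𝟙 (N.pow (Fin w)))) := by
  obtain ⟨w, rfl⟩ := Nat.exists_eq_succ_of_ne_zero hw.ne'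
  obtain ⟨u, hu⟩ := ((Eqv.reidx N (finSuccEquiv w)).trans (.option _ _)).trans (.swap _ _)
  refine .of_comp_uiso (hu.uiso.ten_left (con M')) ?_
  rw [← Ob.tenMap_eq, Ob.tenMap_eq']
  refine .precomp _ (.of_comp_uiso (Ob.bij_assoc _ _ _).uiso ?_)
  rw [← Ob.tenMap_id, Ob.assoc_nat]
  exact (h.ten (con _)).precomp _

/-- A relation between the permutations on the product with an affine space. -/
theorem ss_of_null {S : Pt k} {α : Type} [Fintype α] {w : ℕ} (hw : 0 < w)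
    {r : Equiv.Perm (Fin w) → F} (hr : r ≠ 0)
    (h : Null (∑ s, r s • (isMap_ps S ((line k).pi α) s).hom χ)) : SS (S.E χ) := by
  have h1 : Null (Ob.tenMap (act (S.E χ) r) (𝟙 (((line k).pi α).E χ))) := by
    refine .of_uiso_comp ((bij_ten (χ := χ) (S := S.pi (Fin w)) (S' := (line k).pi α)).uiso.comp
      ((bij_pow (χ := χ) (S := S) (Fin w)).uiso.ten (con _))) ?_
    convert h.comp ((isLift_ten χ _ _).hom ≫
      Ob.tenMap (isLift_pow χ S (Fin w)).hom (𝟙 (((line k).pi α).E χ))) using 1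
    simp only [act, ← Ob.tenL_apply, map_sum, map_smul, LinearMap.sum_apply, LinearMap.smul_apply,
      Preadditive.sum_comp, Preadditive.comp_sum, Linear.smul_comp, Linear.comp_smul]
    refine Finset.sum_congr rfl fun s _ => congrArg _ ?_
    rw [← Category.assoc _ (isLift_ten χ _ _).hom, prod_ten (S.isMap_perm s) isMap_id
      (fun _ _ l _ => l _) fun _ _ l => l, IsMap.hom_id isMap_id fun _ _ _ => rfl]
    simp only [Ob.tenL_apply, Category.assoc, ← Ob.tenMap_comp, pow_perm]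
  have h2 : Null (∑ s, r s • Ob.tenMap (Ob.reidx (S.E χ) s)
      (Ob.reidx (((line k).pi α).E χ) s - 𝟙 _)) :=
    .sum fun s _ => ((null_reidx_aff α s).ten₂ _ (con _)).smul _
  have h3 : SF ((S.E χ).ten (((line k).pi α).E χ)) := by
    refine ⟨w, r, hr, .of_uiso_comp Ob.bij_tenPow.uiso ?_⟩
    rw [← SF.tenPow_act]
    refine .comp ?_ _
    convert h2.add (null_ten_pow h1 hw) using 1
    simp only [← Ob.tenL_apply, act, map_sum, LinearMap.sum_apply, map_smul, LinearMap.smul_apply,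
      map_sub, smul_sub, Finset.sum_sub_distrib, sub_add_cancel]
  exact ⟨_, .of_eqv ((Eqv.refl _).ten (Eqv.symm (((eqv_of_one χ (Chr.triv k F) _
    fun _ _ _ => Finset.prod_const_one).trans ⟨_, bij_pow α⟩).trans
      (.reidx _ (Fintype.equivFin α))))) h3⟩

/-- The nilpotent parts with given free entries. -/
def gW {K : Type} [Field K] {n w : ℕ} (y : {p : Fin n × Fin w × Fin w // p.2.1 < p.2.2} → K) :
    ℕ → Mx w K
  | 0 => sup K w
  | i + 1 => of fun a b => if h : i < n ∧ a < b then y ⟨(⟨i, h.1⟩, a, b), h.2⟩ else 0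

theorem exists_aff (n w m : ℕ) : ∃ (α : Type) (_ : Fintype α)
    (e : ∀ ⦃K⦄, ((Wn k n w).prod (((line k).pi (Fin m)).pi (Fin w))).X K → α → K)
    (g : ∀ ⦃K : Fld k⦄, (α → K) → ((Wn k n w).prod (((line k).pi (Fin m)).pi (Fin w))).X K),
    ((Wn k n w).prod (((line k).pi (Fin m)).pi (Fin w))).Reg ((line k).pi α) e ∧
    ((line k).pi α).Reg ((Wn k n w).prod (((line k).pi (Fin m)).pi (Fin w))) g ∧
    (∀ ⦃K⦄ x, ((Wn k n w).prod (((line k).pi (Fin m)).pi (Fin w))).L (K := K) x → g (e x) = x) ∧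
    ∀ ⦃K : Fld k⦄ (y : α → K), e (g y) = y := by
  refine ⟨{p : Fin n × Fin w × Fin w // p.2.1 < p.2.2} ⊕ Fin w × Fin m, inferInstance,
    fun _ x => Sum.elim (fun p => x.1 (p.1.1 + 1) p.1.2.1 p.1.2.2) fun q => x.2 q.1 q.2,
    fun _ y => (gW fun p => y (.inl p), fun a b => y (.inr (a, b))),
    ⟨fun _ _ _ _ => trivial, fun _ _ _ _ _ _ _ r =>
      Sum.rec (fun _ => r.1 _ _ _) fun _ => r.2 _ _⟩,
    ⟨fun _ y _ => ⟨⟨fun i hi => ?_, rfl, fun i => ?_⟩, fun _ _ => trivial⟩,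
      fun _ _ φ y y' _ _ r => ⟨fun i => ?_, fun _ _ => r _⟩⟩,
    fun _ x l => Prod.ext (funext fun i => ?_) rfl,
    fun _ y => funext (Sum.rec (fun p => dif_pos ⟨p.1.1.2, p.2⟩) fun _ => rfl)⟩
  · obtain ⟨i, rfl⟩ := Nat.exists_eq_succ_of_ne_zero (Nat.ne_zero_of_lt hi)
    exact Matrix.ext fun a b => dif_neg fun h => by omega
  · cases i with
    | zero => exact isNil_sup
    | succ i => exact fun a b e => dif_neg fun h => h.2.not_ge e
  · cases i with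
    | zero => exact mr_sup
    | succ i =>
      intro a b
      simp only [gW, of_apply]
      split_ifs
      exacts [r _, φ.zero]
  · cases i with
    | zero => exact l.1.2.1.symm
    | succ i =>
      refine Matrix.ext fun a b => ?_
      simp only [gW, of_apply]
      split_ifs with h
      · rfl
      · rcases not_and_or.1 h with h | h
        · rw [l.1.1 (i + 1) (by omega), Matrix.zero_apply]
        · exact (l.1.2.2 _ a b (not_lt.1 h)).symm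

section
variable {d : Dat k} {n : ℕ} {Λ : ℕ → Finset k} (hΛ : ∀ i < n, Λ i = d.Λ) (h0 : 0 ∈ Λ n) (w : ℕ)
  (Q : Pt k)

theorem eval_fin {K : Fld k} (v : Fin w → K) (t : K) :
    (chiA (fun a (_ : Fin 1) => v a) w).eval t = ∏ a, (t - v a) := by
  simp only [chiA_one_top, eval_prod, eval_sub, eval_X, eval_C]

include hΛ in
theorem fCh_fin {K : Fld k} (x : ℕ → K) : fCh n Λ d.a d.b (fun _ => True) x =
    fS d n x * ∏ μ : Λ n, (algebraMap k K μ - x n) ^ d.a n μ := by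
  rw [fCh, fS, Finset.prod_range_succ, Finset.prod_mul_distrib,
    Finset.prod_coe_sort (Λ n) fun μ => (algebraMap k K μ - x n) ^ d.a n μ,
    Finset.prod_congr rfl fun i hi => by rw [hΛ i (Finset.mem_range.1 hi)]]
  simp only [if_true]
  ring

include hΛ h0

theorem lCh_fin {K : Fld k} (x : ℕ → K) : LCh n Λ (fun _ => True) x ↔
    LS d n x ∧ ∀ μ : Λ n, algebraMap k K μ - x n ≠ 0 := by
  refine ⟨fun h => ⟨⟨fun i hi μ hμ => h.1 i hi.le μ (hΛ i hi ▸ hμ), fun i hi => h.2 i hi trivial,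
    by simpa using h.1 n le_rfl 0 h0⟩, fun μ => h.1 n le_rfl μ μ.2⟩,
    fun h => ⟨fun i hi μ hμ => ?_, fun i hi _ => h.1.lk i hi⟩⟩
  rcases hi.lt_or_eq with hi | rfl
  exacts [h.1.pt i hi μ (hΛ i hi ▸ hμ), h.2 ⟨μ, hμ⟩]

theorem live_fin ⦃K : Fld k⦄ (x : ((Aw d n w).over ((Tf w (Λ n) (d.a n)).tw Q)).X K)
    (l : ((Aw d n w).over ((Tf w (Λ n) (d.a n)).tw Q)).L x) :
    (((ch n Λ d.a d.b fun _ => True).pi (Fin w)).prod ((Wn k n w).prod Q)).L
      (x.1.1, x.1.2, x.2.1) :=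
  ⟨fun a => ⟨(l.1.1.1 a).1, (lCh_fin hΛ h0 _).2 ⟨(l.1.1.1 a).2, fun μ =>
    Finset.prod_ne_zero_iff.1 (((l.2 μ).trans (eval_fin w _ _)) ▸ l.1.2.2.2 μ) a
      (Finset.mem_univ a)⟩⟩, l.1.1.2, l.1.2.1⟩

theorem reg_fin : (((ch n Λ d.a d.b fun _ => True).pi (Fin w)).prod ((Wn k n w).prod Q)).Reg
    ((Aw d n w).over ((Tf w (Λ n) (d.a n)).tw Q))
    fun K y => ((y.1, y.2.1), y.2.2, fun μ : Λ n => ∏ a, (algebraMap k K μ - y.1 a n)) :=
  ⟨fun _ _ l => ⟨⟨⟨fun a => ⟨(l.1 a).1, ((lCh_fin hΛ h0 _).1 (l.1 a).2).1⟩, l.2.1⟩, l.2.2,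
      fun _ => trivial, fun μ => (Finset.prod_ne_zero_iff (s := Finset.univ)).2 fun a _ =>
        ((lCh_fin hΛ h0 _).1 (l.1 a).2).2 μ⟩, fun _ => (eval_fin w _ _).symm⟩,
    fun _ _ φ _ _ _ _ r => ⟨⟨r.1, r.2.1⟩, r.2.2, fun μ =>
      Place.prod (s := Finset.univ) fun a _ => (φ.alg μ.1).sub (r.1 a n)⟩⟩

theorem isMap_fin : IsMap ((Aw d n w).over ((Tf w (Λ n) (d.a n)).tw Q))
    (((ch n Λ d.a d.b fun _ => True).pi (Fin w)).prod ((Wn k n w).prod Q))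
    fun _ x => (x.1.1, x.1.2, x.2.1) := by
  refine .of_inv ⟨live_fin hΛ h0 w Q, fun _ _ _ _ _ _ _ r => ⟨r.1.1, r.1.2, r.2.1⟩⟩
    (reg_fin hΛ h0 w Q) (fun K x l => ?_) fun _ x l => Prod.ext rfl (Prod.ext rfl
      (funext fun μ => ((l.2 μ).trans (eval_fin w _ _)).symm))
  have e : ∀ μ : Λ n, x.2.2 μ = ∏ a, (algebraMap k K μ - x.1.1 a n) :=
    fun μ => (l.2 μ).trans (eval_fin w _ _)
  change (∏ a, fCh n Λ d.a d.b (fun _ => True) (x.1.1 a)) * (1 * Q.f x.2.1) =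
    (∏ a, fS d n (x.1.1 a)) * 1 * (Q.f x.2.1 * ∏ μ : Λ n, x.2.2 μ ^ d.a n μ)
  simp only [fCh_fin hΛ, e, Finset.prod_mul_distrib, ← Finset.prod_zpow]
  rw [Finset.prod_comm]
  ring

theorem bij_fin : Bij ((isMap_fin hΛ h0 w Q).hom χ) :=
  IsMap.bij _ (live_fin hΛ h0 w Q)
    (fun _ x y a b e => Prod.ext
      (Prod.ext (Prod.mk.inj e).1 (Prod.mk.inj (Prod.mk.inj e).2).1)
      (Prod.ext (Prod.mk.inj (Prod.mk.inj e).2).2 (funext fun μ => by
        rw [a.2 μ, b.2 μ]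
        exact congrArg (fun z : Fin w → ℕ → _ =>
          (chiA (fun c (_ : Fin 1) => z c n) w).eval _) (Prod.mk.inj e).1)))
    fun _ y l => ⟨_, (reg_fin hΛ h0 w Q).live y l, rfl⟩

theorem op_fin (σ : Equiv.Perm (Fin w)) :
    (tow d n).op χ ((Tf w (Λ n) (d.a n)).tw Q) σ ≫ (isMap_fin hΛ h0 w Q).hom χ =
      (isMap_fin hΛ h0 w Q).hom χ ≫ (isMap_ps _ _ σ).hom χ := by
  have p := Tow.pend_top (D := tow d n) σ
  have hT := (dep_Tf w (Λ n) (d.a n)).tw Q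
  rw [Tow.op, ov, (p.toPMap.over hT).hm_eq]
  refine IsMap.comm _ _ _ _ (fun _ x l => ?_) fun _ _ _ _ _ => rfl
  have a := p.live x.1 l.1.1
  have b : ((Aw d n w).over ((Tf w (Λ n) (d.a n)).tw Q)).L (pmm σ x.1, x.2) :=
    ⟨⟨a, l.1.2⟩, (p.toPMap.cond hT l.1.1 a).1 l.2⟩
  exact iff_of_true ⟨b, live_fin hΛ h0 w Q _ b⟩
    ⟨live_fin hΛ h0 w Q _ l, live_fin hΛ h0 w Q _ b⟩

end

theorem ss_core (h2 : (2 : k) ≠ 0) {n : ℕ} {Λ : ℕ → Finset k} {a : ℕ → k → ℤ} {b : ℕ → ℤ}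
    {Λ₀ : Finset k} (h0 : 0 ∈ Λ₀) (hΛ : ∀ i < n, Λ i = Λ₀) (hs : Λ₀ ⊆ Λ n) {o : k}
    (ho : o ∈ Λ n) (hb : ∀ i < n, χ.ψ (b i) ≠ 1)
    (hσ : ∀ i ≤ n, o ∈ Λ i → χ.ψ (∑ l ∈ Finset.Ico i n, (a l o + b l) + a n o : ℤ) ≠ 1) :
    SS ((ch n Λ a b fun _ => True).E χ) := by
  obtain ⟨w, hw⟩ : ∃ w, ((Λ n).card - 1) * Λ₀.card ^ n < w := ⟨_, Nat.lt_succ_self _⟩
  let d : Dat k := ⟨Λ₀, h0, a, b⟩
  have h := W.null_of_quo (hb_all (d := d) h2 n hb le_rfl (Nat.zero_lt_of_lt hw) _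
    (Tf w (Λ n) (a n)) (dep_Tf w _ _)) UIso.id
    (uzero_van (d := d) (a' := a n) hs ho hb (fun i hi l => hσ i hi (by
      rcases hi.lt_or_eq with e | rfl
      · rwa [Lam, if_pos e, show d.Λ = Λ i from (hΛ i e).symm] at l
      · exact ho)) hw)
  rw [Tow.eI, show yS w ∅ = Finset.univ from Finset.eq_univ_of_forall fun σ =>
    GeoAux.mem_yS.2 (young_empty w ▸ Subgroup.mem_top _)] at h
  obtain ⟨α, _, e, g, r1, r2, l1, l2⟩ := exists_aff (k := k) n w n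
  have m := (isMap_id (S := (ch n Λ a b fun _ => True).pi (Fin w))).prod
    (IsMap.of_inv r1 r2 (fun _ _ _ => by simp) l1)
  have hm : Bij (m.hom χ) := m.bij (fun _ x l => ⟨l.1, r1.live _ l.2⟩)
    (fun _ x y u v c => Prod.ext (Prod.mk.inj c).1
      (by rw [← l1 _ u.2, (Prod.mk.inj c).2, l1 _ v.2]))
    fun _ y l => ⟨(y.1, g y.2), ⟨l.1, r2.live _ l.2⟩, Prod.ext rfl (l2 _)⟩
  refine ss_of_null (α := α) (Nat.zero_lt_of_lt hw) (r := yR F (tow d n).d w ∅)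
    (fun c => by simpa [yR, Nat.card_pos.ne'] using congrFun c 1)
    (.of_uiso_comp ((bij_fin (d := d) hΛ (hs h0) w _).uiso.comp hm.uiso) ?_)
  convert h.comp ((isMap_fin (d := d) hΛ (hs h0) w _).hom χ ≫ m.hom χ) using 1
  simp only [Preadditive.sum_comp, Preadditive.comp_sum, Linear.smul_comp, Linear.comp_smul]
  refine Finset.sum_congr rfl fun s _ => congrArg _ ?_
  rw [← Category.assoc _ _ (m.hom χ), op_fin (d := d) hΛ (hs h0), Category.assoc, Category.assoc]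
  exact congrArg _ (IsMap.comm _ _ _ _ (fun _ x l => iff_of_true
    ⟨⟨l.1, r1.live _ l.2⟩, fun _ => l.1 _, r1.live _ l.2⟩
    ⟨⟨fun _ => l.1 _, l.2⟩, fun _ => l.1 _, r1.live _ l.2⟩) fun _ _ _ _ _ => rfl)

end

end Pool.Agent.Lib.MP_fc2ced_ag.T.C
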