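import Pool.Agent.Lib.MP_fc2ced_ag.C.Mat
import Pool.Agent.Lib.MP_fc2ced_ag.G.Mon

/-! Chains of numbers and chains of matrices. -/

open CategoryTheory Function Polynomial Matrix

namespace Pool.Agent.Lib.MP_fc2ced_ag.T.C

open K

noncomputable section

variable {k : Type} [Field k]

open MP_fc2ced_ag.T.Pt hiding X

variable (k) in
/-- Matrices. -/
@[reducible] def mat (α β : Type) [Fintype α] [Fintype β] : Pt k where
  X K := Matrix α β K
  L _ _ := True
  R _ _ φ := MR φ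
  f _ _ := 1
  func _ _ φ _ _ _ _ _ _ h h' := h.eq h' rfl
  id _ _ _ _ _ := Matrix.ext_iff
  comp _ _ _ φ φ' x z _ _ := ⟨fun h => by
      choose y h1 h2 using h
      exact ⟨of y, trivial, h1, h2⟩, fun ⟨y, _, h1, h2⟩ a b => ⟨y a b, h1 a b, h2 a b⟩⟩
  reg _ _ φ _ _ _ _ _ := φ.one
  ne _ _ _ := one_ne_zero
  fin _ x _ := by
    classical
    exact ⟨Finset.univ.image fun p : α × β => x p.1 p.2, fun _ _ _ e _ _ h a b =>
      e (x a b) (Finset.mem_image.2 ⟨(a, b), Finset.mem_univ _, rfl⟩) ▸ h a b⟩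

variable (k) in
/-- Sequences of numbers that vanish after the index `n`. -/
@[reducible] def sq (n : ℕ) : Pt k where
  X K := ℕ → K
  L _ x := ∀ i, n < i → x i = 0
  R _ _ φ x y := ∀ i, φ (x i) (y i)
  f _ _ := 1
  func _ _ φ _ _ _ _ _ _ h h' := funext fun i => φ.func (h i) (h' i)
  id _ _ _ _ _ := funext_iff.symm
  comp _ _ _ φ φ' x z a _ := ⟨fun h => by
      choose y h1 h2 using h
      exact ⟨y, fun i hi => (h1 i).eq_of φ.zero (a i hi), h1, h2⟩,
    fun ⟨y, _, h1, h2⟩ i => ⟨y i, h1 i, h2 i⟩⟩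
  reg _ _ φ _ _ _ _ _ := φ.one
  ne _ _ _ := one_ne_zero
  fin _ x a := by
    classical
    refine ⟨(Finset.range (n + 2)).image x, fun _ _ _ e _ _ h i => e (x i) ?_ ▸ h i⟩
    by_cases hi : n < i
    · exact Finset.mem_image.2 ⟨n + 1, by simp, (a _ n.lt_succ_self).trans (a i hi).symm⟩
    · exact Finset.mem_image.2 ⟨i, Finset.mem_range.2 (by omega), rfl⟩

variable (k) in
/-- Sequences of matrices that vanish after the index `n`. -/
@[reducible] def msq (α β : Type) [Fintype α] [Fintype β] (n : ℕ) : Pt k where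
  X K := ℕ → Matrix α β K
  L _ x := ∀ i, n < i → x i = 0
  R _ _ φ x y := ∀ i, MR φ (x i) (y i)
  f _ _ := 1
  func _ _ φ _ _ _ _ _ _ h h' := funext fun i => (h i).eq (h' i) rfl
  id _ _ _ _ _ := by
    rw [funext_iff]
    exact forall_congr' fun _ => Matrix.ext_iff
  comp _ _ _ φ φ' x z a _ := ⟨fun h => by
      choose y h1 h2 using h
      exact ⟨fun i => of (y i), fun i hi => MR.eq (h1 i) mr_zero (a i hi), h1, h2⟩,
    fun ⟨y, _, h1, h2⟩ i a b => ⟨y i a b, h1 i a b, h2 i a b⟩⟩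
  reg _ _ φ _ _ _ _ _ := φ.one
  ne _ _ _ := one_ne_zero
  fin _ x a := by
    classical
    refine ⟨((Finset.range (n + 2)) ×ˢ Finset.univ).image fun p : ℕ × α × β => x p.1 p.2.1 p.2.2,
      fun _ _ _ e _ _ h i b c => e (x i b c) ?_ ▸ h i b c⟩
    by_cases hi : n < i
    · exact Finset.mem_image.2 ⟨(n + 1, b, c), by simp, by
        simp only [a _ n.lt_succ_self, a i hi]⟩
    · exact Finset.mem_image.2 ⟨(i, b, c), by simpa using by omega, rfl⟩

section Ch
variable (n : ℕ) (Λ : ℕ → Finset k) (a : ℕ → k → ℤ) (b : ℕ → ℤ) (L : ℕ → Prop)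

/-- The conditions on a chain of numbers. -/
def LCh ⦃K : Fld k⦄ (x : ℕ → K) : Prop :=
  (∀ i ≤ n, ∀ μ ∈ Λ i, algebraMap k K μ - x i ≠ 0) ∧ ∀ i < n, L i → x (i + 1) - x i ≠ 0

open Classical in
/-- The function on chains of numbers. -/
def fCh ⦃K : Fld k⦄ (x : ℕ → K) : K :=
  (∏ i ∈ Finset.range (n + 1), ∏ μ ∈ Λ i, (algebraMap k K μ - x i) ^ a i μ) *
    ∏ i ∈ Finset.range n, if L i then (x (i + 1) - x i) ^ b i else 1

theorem open_lCh : (sq k n).Open (LCh n Λ L) := fun _ _ φ _ _ _ _ r h =>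
  ⟨fun i hi μ hμ => ((φ.alg μ).sub (r i)).ne_zero (h.1 i hi μ hμ),
    fun i hi l => ((r _).sub (r i)).ne_zero (h.2 i hi l)⟩

theorem regF_fCh : ((sq k n).restr _ (open_lCh n Λ L).conv).RegF (fCh n Λ a b L) :=
  fun _ _ φ _ _ _ h r => (Place.prod fun i hi => Place.prod fun μ hμ =>
    rel_zpow ((φ.alg μ).sub (r i)) (h.2.1 i (by simpa [Nat.lt_succ_iff] using hi) μ hμ) _).mul
    (Place.prod fun i hi => by
      split_ifs with l
      exacts [rel_zpow ((r _).sub (r i)) (h.2.2 i (Finset.mem_range.1 hi) l) _, φ.one])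

theorem fCh_ne ⦃K : Fld k⦄ (x : ℕ → K) (h : LCh n Λ L x) : fCh n Λ a b L x ≠ 0 :=
  mul_ne_zero (Finset.prod_ne_zero_iff.2 fun i hi => Finset.prod_ne_zero_iff.2 fun μ hμ =>
    zpow_ne_zero _ (h.1 i (by simpa [Nat.lt_succ_iff] using hi) μ hμ))
    (Finset.prod_ne_zero_iff.2 fun i hi => by
      split_ifs with l
      exacts [zpow_ne_zero _ (h.2 i (Finset.mem_range.1 hi) l), one_ne_zero])

/-- Chains of numbers `x 0, …, x n`: the points `Λ i` are removed at the node `i`, and the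
diagonals with index in `L` are removed. -/
@[reducible] def ch : Pt k :=
  ((sq k n).restr _ (open_lCh n Λ L).conv).withF (fCh n Λ a b L) (regF_fCh n Λ a b L)
    fun _ x h => fCh_ne n Λ a b L x h.2

end Ch

variable (k) in
/-- The data of a chain. -/
structure Dat where
  Λ : Finset k
  z : (0 : k) ∈ Λ
  a : ℕ → k → ℤ
  b : ℕ → ℤ

variable (d : Dat k) (n w j l : ℕ)

/-- The conditions on a chain of numbers with a free last node. -/
structure LS {K : Fld k} (x : ℕ → K) : Prop where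
  pt : ∀ i < n, ∀ μ ∈ d.Λ, algebraMap k K μ - x i ≠ 0
  lk : ∀ i < n, x (i + 1) - x i ≠ 0
  top : x n ≠ 0

/-- The function on chains of numbers with a free last node. -/
def fS ⦃K : Fld k⦄ (x : ℕ → K) : K :=
  ∏ i ∈ Finset.range n, (∏ μ ∈ d.Λ, (algebraMap k K μ - x i) ^ d.a i μ) * (x (i + 1) - x i) ^ d.b i

theorem open_lS : (sq k n).Open fun _ x => LS d n x := fun _ _ φ _ _ _ _ r h =>
  ⟨fun i hi μ hμ => ((φ.alg μ).sub (r i)).ne_zero (h.pt i hi μ hμ),
    fun i hi => ((r _).sub (r i)).ne_zero (h.lk i hi), (r n).ne_zero h.top⟩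

/-- Chains of numbers with a free last node. -/
@[reducible] def St : Pt k :=
  ((sq k n).restr _ (open_lS d n).conv).withF (fS d n)
    (fun _ _ φ _ _ _ h r => Place.prod fun i hi => (Place.prod fun μ hμ =>
      rel_zpow ((φ.alg μ).sub (r i)) (h.2.pt i (Finset.mem_range.1 hi) μ hμ) _).mul
      (rel_zpow ((r _).sub (r i)) (h.2.lk i (Finset.mem_range.1 hi)) _))
    fun _ _ h => Finset.prod_ne_zero_iff.2 fun i hi => mul_ne_zero
      (Finset.prod_ne_zero_iff.2 fun μ hμ =>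
        zpow_ne_zero _ (h.2.pt i (Finset.mem_range.1 hi) μ hμ))
      (zpow_ne_zero _ (h.2.lk i (Finset.mem_range.1 hi)))

variable {w} in
/-- The conditions on a chain of matrices. -/
structure LX {K : Fld k} (Y : ℕ → Mx w K) : Prop where
  comp : IsComp (Y 0)
  pt : ∀ i < n, ∀ μ ∈ d.Λ, (Y i).charpoly.eval (algebraMap k K μ) ≠ 0
  lk : ∀ i < n, (Y (i + 1) - Y i).det ≠ 0
  top : (Y n).det ≠ 0

variable {w} in
/-- The function on chains of matrices. -/
def fX ⦃K : Fld k⦄ (Y : ℕ → Mx w K) : K :=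
  ∏ i ∈ Finset.range n, (∏ μ ∈ d.Λ, (Y i).charpoly.eval (algebraMap k K μ) ^ d.a i μ) *
    (Y (i + 1) - Y i).det ^ d.b i

theorem conv_lX : (msq k (Fin w) (Fin w) n).Conv fun _ Y => LX d n Y :=
  fun _ _ _ _ φ' _ _ _ _ _ _ r r' h h' => ⟨(r 0).isComp h.comp,
    fun i hi μ hμ => ((r' i).charpoly.eval (φ'.alg μ)).ne_zero (h'.pt i hi μ hμ),
    fun i hi => ((r' _).sub (r' i)).det.ne_zero (h'.lk i hi), (r' n).det.ne_zero h'.top⟩

/-- Chains of matrices. -/
@[reducible] def Xs : Pt k :=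
  ((msq k (Fin w) (Fin w) n).restr _ (conv_lX d n w)).withF (fX d n)
    (fun _ _ φ _ _ _ h r => Place.prod fun i hi => (Place.prod fun μ hμ =>
      rel_zpow ((r i).charpoly.eval (φ.alg μ)) (h.2.pt i (Finset.mem_range.1 hi) μ hμ) _).mul
      (rel_zpow ((r _).sub (r i)).det (h.2.lk i (Finset.mem_range.1 hi)) _))
    fun _ _ h => Finset.prod_ne_zero_iff.2 fun i hi => mul_ne_zero
      (Finset.prod_ne_zero_iff.2 fun μ hμ =>
        zpow_ne_zero _ (h.2.pt i (Finset.mem_range.1 hi) μ hμ))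
      (zpow_ne_zero _ (h.2.lk i (Finset.mem_range.1 hi)))

/-- Chains of matrices with the characteristic polynomial of the last one. -/
@[reducible] def Xv : PV k where
  S := Xs d n w
  c _ Y _ := (Y n).charpoly
  hc _ _ _ _ _ _ _ _ r := (r n).charpoly

variable (k) in
/-- The nilpotent parts. -/
@[reducible] def Wn : Pt k :=
  (msq k (Fin w) (Fin w) n).restr (fun K N => N 0 = sup K w ∧ ∀ i, IsNil (N i))
    (Closed.conv fun _ _ _ _ _ _ _ r h => ⟨(r 0).eq mr_sup h.1, fun i => (r i).isNil (h.2 i)⟩)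

variable (k) in
/-- The upper right blocks. -/
@[reducible] def Mn : Pt k :=
  (msq k (Fin j) (Fin l) n).restr (fun K C => C 0 = corner K j l)
    (Closed.conv fun _ _ _ _ _ _ _ r h => (r 0).eq mr_corner h)

/-- Chains of triangular matrices. -/
@[reducible] def As : Pt k := ((St d n).pi (Fin w)).prod (Wn k n w)

section Maps
variable {w} {K : Type} [Field K]

/-- The triangular matrices. -/
def um (x : (Fin w → ℕ → K) × (ℕ → Mx w K)) (i : ℕ) : Mx w K :=
  diagonal (fun a => x.1 a i) + x.2 i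

/-- From triangular chains to chains that start with a companion matrix. -/
def qm (x : (Fin w → ℕ → K) × (ℕ → Mx w K)) (i : ℕ) : Mx w K :=
  cj (Rx fun a => x.1 a 0) (um x i)

/-- From block triangular chains to chains that start with a companion matrix. -/
def qqm (x : ((ℕ → Mx j K) × (ℕ → Mx l K)) × (ℕ → Matrix (Fin j) (Fin l) K)) (i : ℕ) :
    Mx (j + l) K :=
  cj (Rj j l (x.1.1 0).charpoly) (blk (x.1.1 i) (x.2 i) (x.1.2 i))

/-- The blocks of a triangular chain. -/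
def kam (x : (Fin (j + l) → ℕ → K) × (ℕ → Mx (j + l) K)) :
    (((Fin j → ℕ → K) × (ℕ → Mx j K)) × (Fin l → ℕ → K) × (ℕ → Mx l K)) ×
      (ℕ → Matrix (Fin j) (Fin l) K) :=
  ((((G.cut j l x.1).1, fun i => ul j l (x.2 i)), (G.cut j l x.1).2, fun i => lr j l (x.2 i)),
    fun i => ur j l (x.2 i))

/-- The permutation of the strands. -/
def pmm {α : Type} (σ : Equiv.Perm (Fin w)) (x : (Fin w → α) × (ℕ → Mx w K)) :
    (Fin w → α) × (ℕ → Mx w K) := (fun a => x.1 (σ.symm a), x.2)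

end Maps

/-- The values of the polynomial with index `w` at the points of `Λ` are the coordinates of a
torus. -/
def Tf (Λ : Finset k) (a : k → ℤ) : PC (mt k fun μ : Λ => a μ) where
  T K c u := ∀ μ : Λ, u μ = (c w).eval (algebraMap k K μ)
  conv _ _ _ φ _ _ _ _ _ _ _ _ _ _ h _ r _ t _ μ :=
    (r μ).eq_of ((h w).eval (φ.alg μ)) (t μ)

theorem dep_Tf (Λ : Finset k) (a : k → ℤ) : (Tf w Λ a).Dep {w} :=
  fun _ _ _ _ e h μ => e w rfl ▸ h μ

end

end Pool.Agent.Lib.MP_fc2ced_ag.T.C
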