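import Pool.Agent.Lib.MP_fc2ced_ag.C.Q

/-! The map from triangular chains factors through two blocks. -/

open CategoryTheory Function Polynomial Matrix

namespace Pool.Agent.Lib.MP_fc2ced_ag.T.C

open K

noncomputable section

variable {k : Type} [Field k] {F : Type} [Field F] {χ : Chr k F}

open MP_fc2ced_ag.T.Pt hiding X

/-- Two proper maps that are joined by a family of proper maps agree. -/
theorem null_of_fam {S S' : Pt k} {m : ∀ ⦃K : Fld k⦄, K → S.X K → S'.X K}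
    (live : ∀ ⦃K : Fld k⦄ (s : K) (x : S.X K), S.L x → S'.L (m s x))
    (f : ∀ ⦃K : Fld k⦄ (s : K) (x : S.X K), S.L x → S'.f (m s x) = S.f x)
    (reg : ∀ ⦃K K'⦄ (φ : Place K K') (s : K) (s' : K') (x : S.X K) (y : S.X K'), φ s s' → S.L x →
      S.L y → S.R φ x y → S'.R φ (m s x) (m s' y))
    (pr : ∀ ⦃K K'⦄ (φ : Place K K') (s : K) (s' : K') (x : S.X K) (z : S'.X K'), φ s s' → S.L x →
      S'.L z → S'.R φ (m s x) z → ∃ y, S.L y ∧ S.R φ x y) {u v : S.E χ ⟶ S'.E χ}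
    (hu : ∀ ⦃K⦄ (x : S.X K), S.L x → u.1 K (S.cl F x) = S'.cl F (m 0 x))
    (hv : ∀ ⦃K⦄ (x : S.X K), S.L x → v.1 K (S.cl F x) = S'.cl F (m 1 x)) : Null (u - v) :=
  IsFam.null_sub (m := fun _ s x => {m s x})
    ⟨fun _ r x hx _ hz _ => Multiset.mem_singleton.1 hz ▸ f r x hx,
      fun _ _ φ r r' x y hr hx hy h => Multiset.Rel.cons
        (.of_R (live r x hx) (live r' y hy) (reg φ r r' x y hr hx hy h)) Multiset.Rel.zero,
      fun _ _ φ r r' x hr hx hd _ hz => Multiset.mem_singleton.1 hz ▸ fun _ w hw h =>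
        (pr φ r r' x w hr hx hw h).elim fun y hy => hd hx y hy.1 hy.2⟩
    (fun _ x hx => (hu x hx).trans (cls_singleton _).symm)
    fun _ x hx => (hv x hx).trans (cls_singleton _).symm

variable {d : Dat k} {n j l : ℕ}

variable (j l) in
/-- The family of maps to two blocks. -/
def thm {K : Type} [Field K] (s : K) (x : (Fin (j + l) → ℕ → K) × (ℕ → Mx (j + l) K)) :
    ((ℕ → Mx j K) × (ℕ → Mx l K)) × (ℕ → Matrix (Fin j) (Fin l) K) :=
  ((qm (kam j l x).1.1, qm (kam j l x).1.2), fun i =>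
    (seg s (Rx fun a => (kam j l x).1.1.1 a 0))⁻¹ * (kam j l x).2 i *
      seg s (Rx fun a => (kam j l x).1.2.1 a 0))

section Alg
variable {K K' : Fld k} {φ : Place K K'} {s : K} {s' : K'} {x : (As d n (j + l)).X K}

theorem thm_zero :
    thm j l 0 x = ((qm (kam j l x).1.1, qm (kam j l x).1.2), (kam j l x).2) :=
  Prod.ext rfl (funext fun i => by
    simp only [thm, seg_zero, inv_one, Matrix.one_mul, Matrix.mul_one])

theorem fac_det {K : Type} [Field K] {w : ℕ} {R : Mx w K} (h : LUni R) : R.det ≠ 0 :=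
  h.det ▸ one_ne_zero

theorem fac_um (h : (As d n (j + l)).L x) (i : ℕ) :
    blk (um (kam j l x).1.1 i) ((kam j l x).2 i) (um (kam j l x).1.2 i) = um x i := by
  rw [um, um, um, ← blk_diagonal, ← (h.2.2.2 i).blk_eq, blk_add, zero_add]
  rfl

theorem qqm_thm_one (h : (As d n (j + l)).L x) : qqm j l (thm j l 1 x) = qm x := by
  funext i
  have h1 := charpoly_qm (lka d n j l x h).1.1 0
  have a := fac_det (luni_Rx fun a => (kam j l x).1.1.1 a 0)
  have b := fac_det (luni_Rx fun a => (kam j l x).1.2.1 a 0)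
  change cj (Rj j l (qm (kam j l x).1.1 0).charpoly) (blk (cj _ (um (kam j l x).1.1 i))
    ((seg 1 _)⁻¹ * (kam j l x).2 i * seg 1 _) (cj _ (um (kam j l x).1.2 i))) = cj (Rx _) (um x i)
  rw [seg_one, seg_one, ← cj_blk a b, cj_cj (by rw [det_blk]; exact mul_ne_zero a b)
    (fac_det (luni_Rj (charpoly_monic _)
      ((charpoly_natDegree_eq_dim _).trans (Fintype.card_fin _)))),
    fac_um h, h1, Rx_add]
  rfl

theorem live_thm (h : (As d n (j + l)).L x) :
    (((Xs d n j).prod (Xs d n l)).prod (Mn k n j l)).L (thm j l s x) := by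
  obtain ⟨⟨a, b⟩, c, c'⟩ := lka d n j l x h
  refine ⟨⟨lq a, lq b⟩, fun i hi => ?_, ?_⟩
  · change _ * (kam j l x).2 i * _ = 0
    rw [c i hi, Matrix.mul_zero, Matrix.zero_mul]
  · change _ * (kam j l x).2 0 * _ = _
    rw [c']
    exact ((luni_Rx _).seg s).inv.corner ((luni_Rx _).seg s)

theorem rel_thm {y : (As d n (j + l)).X K'} (hs : φ s s') (r : (As d n (j + l)).R φ x y) :
    (((Xs d n j).prod (Xs d n l)).prod (Mn k n j l)).R φ (thm j l s x) (thm j l s' y) :=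
  ⟨⟨mr_qm (d := d) (n := n) (x := (kam j l x).1.1) (y := (kam j l y).1.1)
      ⟨fun _ => r.1 _, fun i _ _ => r.2 i _ _⟩,
    mr_qm (d := d) (n := n) (x := (kam j l x).1.2) (y := (kam j l y).1.2)
      ⟨fun _ => r.1 _, fun i _ _ => r.2 i _ _⟩⟩, fun i =>
    MR.mul (MR.mul ((MR.seg hs (mr_Rx fun _ => r.1 _ 0)).inv (fac_det ((luni_Rx _).seg s')))
      (show MR φ ((kam j l x).2 i) ((kam j l y).2 i) from fun _ _ => r.2 i _ _))
      (MR.seg hs (mr_Rx fun _ => r.1 _ 0))⟩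

theorem thm_lim {z : (((Xs d n j).prod (Xs d n l)).prod (Mn k n j l)).X K'} (hs : φ s s')
    (h : (As d n (j + l)).L x) (hz : (((Xs d n j).prod (Xs d n l)).prod (Mn k n j l)).L z)
    (r : (((Xs d n j).prod (Xs d n l)).prod (Mn k n j l)).R φ (thm j l s x) z) :
    ∃ y, (As d n (j + l)).L y ∧ (As d n (j + l)).R φ x y := by
  have lx := lka d n j l x h
  obtain ⟨a, la, ra⟩ := qm_lim lx.1.1 hz.1.1 r.1.1
  obtain ⟨b, lb, rb⟩ := qm_lim lx.1.2 hz.1.2 r.1.2
  refine (R_or_Dd φ x).resolve_right fun hd => (mka d n j l).dead φ x h hd lx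
    ((a, b), fun i => seg s' (Rx fun c => a.1 c 0) * z.2 i * (seg s' (Rx fun c => b.1 c 0))⁻¹)
    ⟨⟨la, lb⟩, fun i hi => ?_, ?_⟩ ⟨⟨ra, rb⟩, fun i => ?_⟩
  · change _ * z.2 i * _ = 0
    rw [hz.2.1 i hi, Matrix.mul_zero, Matrix.zero_mul]
  · change _ * z.2 0 * _ = _
    rw [hz.2.2]
    exact ((luni_Rx _).seg s').corner ((luni_Rx _).seg s').inv
  · have h1 := MR.mul (MR.mul (MR.seg hs (mr_Rx fun c => ra.1 c 0)) (r.2 i))
      ((MR.seg hs (mr_Rx fun c => rb.1 c 0)).inv (fac_det ((luni_Rx _).seg s')))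
    change MR φ (_ * (_ * (kam j l x).2 i * _) * _) _ at h1
    rwa [Matrix.mul_assoc, Matrix.mul_nonsing_inv_cancel_right _ _
      (fac_det ((luni_Rx _).seg s)).isUnit, Matrix.mul_nonsing_inv_cancel_left _ _
      (fac_det ((luni_Rx _).seg s)).isUnit] at h1

theorem fac_charpoly (h : (As d n (j + l)).L x) (i : ℕ) :
    (qqm j l (thm j l s x) i).charpoly = (qm x i).charpoly := by
  rw [← qqm_thm_one h, charpoly_qqm (live_thm h), charpoly_qqm (live_thm h)]
  rfl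

theorem fac_f (h : (As d n (j + l)).L x) :
    fX d n (qqm j l (thm j l s x)) = (As d n (j + l)).f x := by
  rw [← fX_qm h, ← qqm_thm_one h, fX_qqm (live_thm h), fX_qqm (live_thm h)]
  rfl

theorem fac_cond {P : Pt k} {T : PC P} (hT : T.Dep {j + l}) {p : P.X K}
    (h : (As d n (j + l)).L x) :
    T.T ((Aw d n (j + l)).c x) p ↔ T.T ((Xv d n (j + l)).c (qqm j l (thm j l s x))) p := by
  rw [(pq d n (j + l)).cond hT h (lq h)]
  change T.T (fun _ => (qm x n).charpoly) p ↔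
    T.T (fun _ => (qqm j l (thm j l s x) n).charpoly) p
  rw [fac_charpoly h]

end Alg

theorem fac : (tow d n).Fac χ := fun j l P T hj hl hT => by
  refine Null.symm (null_of_fam (S := (Aw d n (j + l)).over T) (S' := (Xv d n (j + l)).over T)
    (m := fun _ s x => (qqm j l (thm j l s x.1), x.2))
    (fun _ s x h => ⟨⟨lqq (live_thm h.1.1), h.1.2⟩, (fac_cond hT h.1.1).1 h.2⟩)
    (fun _ s x h => congrArg (· * P.f x.2) (fac_f h.1.1))
    (fun _ _ φ s s' x y hs _ _ r => ⟨mr_qqm (rel_thm hs r.1), r.2⟩)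
    (fun _ _ φ s s' x z hs h hz r => ?_) (fun K x h => ?_) fun K x h => ?_)
  · obtain ⟨w, lw, rw'⟩ := qqm_lim (live_thm h.1.1) hz.1.1 r.1
    obtain ⟨y, ly, ry⟩ := thm_lim hs h.1.1 lw rw'
    have e := (Xs d n (j + l)).func φ _ _ _ (lqq (live_thm h.1.1)) hz.1.1 (lqq (live_thm ly)) r.1
      (mr_qqm (rel_thm hs ry))
    exact ⟨(y, z.2), ⟨⟨ly, hz.1.2⟩, (fac_cond (s := s') hT ly).2 (e ▸ hz.2)⟩, ry, r.2⟩
  · have p1 := (tow d n).pka j l
    have p2 := ((pq d n j).ten (pq d n l) rfl).tw (Mn k n j l)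
    have d1 : T.Dep Set.univ := hT.mono (Set.subset_univ _)
    have d2 : T.Dep (addJ j {j} {l}) := hT.mono fun m hm => .inr (by
      rw [show m = j + l from hm]
      exact ⟨by omega, Nat.add_sub_cancel_left _ _⟩)
    have a := lka d n j l x.1 h.1.1
    have l1 : (((tow d n).Bv j l).over T).L (kam j l x.1, x.2) :=
      ⟨⟨a, h.1.2⟩, (p1.cond d1 h.1.1 a).1 h.2⟩
    have b : ((tow d n).Zv j l).S.L
        ((qm (kam j l x.1).1.1, qm (kam j l x.1).1.2), (kam j l x.1).2) :=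
      ⟨⟨lq a.1.1, lq a.1.2⟩, a.2⟩
    have l2 : (((tow d n).Zv j l).over T).L
        (((qm (kam j l x.1).1.1, qm (kam j l x.1).1.2), (kam j l x.1).2), x.2) :=
      ⟨⟨b, h.1.2⟩, (p2.cond d2 a b).1 l1.2⟩
    rw [Ob.comp_apply, Ob.comp_apply, p1.ov_cl d1 h, p2.ov_cl d2 l1, thm_zero]
    exact (pqq d n j l hj hl).ov_cl hT l2
  · rw [qqm_thm_one h.1.1]
    exact (pq d n (j + l)).ov_cl hT h

end

end Pool.Agent.Lib.MP_fc2ced_ag.T.C
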