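import Pool.Agent.Lib.MP_fc2ced_ag.C.Arr
import Pool.Agent.Lib.MP_fc2ced_ag.C.Core

/-! Coverings of the affine space that are branched along a chain of hyperplanes. -/

open CategoryTheory Function

namespace Pool.Agent.Lib.MP_fc2ced_ag.T.C.Rd

open K

noncomputable section

variable {k : Type} [Field k] {F : Type} [Field F] [CharZero F] {n : ℕ}

open MP_fc2ced_ag.T.Pt hiding X

theorem coreH (h2 : (2 : k) ≠ 0) : CoreH k F := fun χ _ _ n Λ Λ' a b o h0 hs ho hb hσ =>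
  ss_core h2 h0 (fun i hi => if_neg hi.ne) (by simpa) (o := o) (by simpa) hb fun i hi m => by
    rw [Finset.sum_add_distrib, add_right_comm, ← Finset.sum_Ico_succ_top hi]
    exact hσ i hi (or_iff_not_imp_left.2 fun e => by simpa [e] using m)

variable (n) in
/-- The hyperplanes. -/
def hyp (g : (ℕ × k) ⊕ ℕ) ⦃K : Fld k⦄ (x : (sq k n).X K) : K :=
  g.elim (fun p => algebraMap k K p.2 - x p.1) fun i => x (i + 1) - x i

theorem regF_hyp (g : (ℕ × k) ⊕ ℕ) : (sq k n).RegF (hyp n g) := fun _ _ φ _ _ _ _ r => by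
  cases g
  exacts [(φ.alg _).sub (r _), (r _).sub (r _)]

variable (n) in
/-- The indices of the hyperplanes. -/
def idx (M : Finset k) : Finset ((ℕ × k) ⊕ ℕ) :=
  (Finset.range (n + 1) ×ˢ M).disjSum (Finset.range n)

omit [Field k] in
theorem prod_idx {K : Type} [CommMonoid K] (M : Finset k) (g : (ℕ × k) ⊕ ℕ → K) :
    ∏ c ∈ idx n M, g c = (∏ i ∈ Finset.range (n + 1), ∏ μ ∈ M, g (.inl (i, μ))) *
      ∏ i ∈ Finset.range n, g (.inr i) := by
  rw [idx, Finset.prod_disjSum, Finset.prod_product]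

variable [IsAlgClosed k]

theorem exists_lin {M : Finset k} (p : Polynomial k) (h : ∀ μ ∈ p.roots, μ ∈ M) :
    ∃ (c : k) (e : k → ℕ), ∀ ⦃K : Fld k⦄ (x : K),
      Polynomial.aeval x p = algebraMap k K c * ∏ μ ∈ M, (algebraMap k K μ - x) ^ e μ := by
  classical
  refine ⟨p.leadingCoeff * ∏ μ ∈ M, (-1) ^ p.roots.count μ, fun μ => p.roots.count μ,
    fun K x => ?_⟩
  conv_lhs => rw [(IsAlgClosed.splits p).eq_prod_roots, Finset.prod_multiset_map_count,
    Finset.prod_subset (s₂ := M) (fun μ hμ => h μ (Multiset.mem_toFinset.1 hμ)) fun μ _ hμ => by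
      rw [Multiset.count_eq_zero.2 (mt Multiset.mem_toFinset.2 hμ), pow_zero]]
  simp [mul_assoc, ← Finset.prod_mul_distrib, ← mul_pow]

theorem exists_mon {M : Finset k} (p : Fin (n + 1) → Polynomial k) (b : Fin n → ℕ)
    (h : ∀ i, ∀ μ ∈ (p i).roots, μ ∈ M) : ∃ (c : k) (e : (ℕ × k) ⊕ ℕ → ℕ),
    ∀ ⦃K : Fld k⦄ (x : ℕ → K), mon (hyp n) (idx n M) c e x =
      (∏ i, Polynomial.aeval (x i.1) (p i)) * ∏ i : Fin n, (x (i.1 + 1) - x i.1) ^ b i := by
  choose c e he using fun i => exists_lin (p i) (h i)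
  refine ⟨∏ i, c i, Sum.elim (fun q => if h : q.1 < n + 1 then e ⟨q.1, h⟩ q.2 else 0)
    fun i => if h : i < n then b ⟨i, h⟩ else 0, fun K x => ?_⟩
  rw [mon, prod_idx, Finset.prod_range, Finset.prod_range]
  simp [he, hyp, Finset.prod_mul_distrib, mul_assoc, Fin.is_le]

variable [IsAlgClosed F]

theorem ss_arr (h2 : (2 : k) ≠ 0) (M : Finset k) (χ : Chr k F) (hχ : χ.Prim)
    (B : Finset ((ℕ × k) ⊕ ℕ)) (hB : B ⊆ idx n M) (e : (ℕ × k) ⊕ ℕ → ℤ) :
    SS ((arr (hyp n) regF_hyp B e).E χ) := by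
  classical
  refine Pt.ss_of_inv (ss_ch h2 (coreH h2) n χ hχ (fun i => M.filter fun μ => .inl (i, μ) ∈ B)
    (fun i μ => e (.inl (i, μ))) (fun i => e (.inr i)) fun i => .inr i ∈ B) (fun _ x => x)
    (fun _ x => x) ⟨fun _ _ a => ⟨a.1, fun i _ μ hμ => a.2 (.inl (i, μ)) (Finset.mem_filter.1 hμ).2,
      fun i _ hi => a.2 (.inr i) hi⟩, fun _ _ _ _ _ _ _ r => r⟩
    ⟨fun _ _ a => ⟨a.1, ?_⟩, fun _ _ _ _ _ _ _ r => r⟩ (fun _ x _ => ?_) (fun _ _ _ => rfl)
    fun _ _ _ => rfl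
  · rintro (⟨i, μ⟩ | i) h
    · have := hB h
      simp only [idx, Finset.inl_mem_disjSum, Finset.mem_product, Finset.mem_range] at this
      exact a.2.1 i (by omega) μ (Finset.mem_filter.2 ⟨this.2, h⟩)
    · exact a.2.2 i (by simpa [idx] using hB h) h
  · change fCh _ _ _ _ _ x = ∏ g ∈ B, _
    conv_rhs => rw [← Finset.filter_mem_eq_of_subset hB, Finset.prod_filter, prod_idx]
    simp only [fCh, Finset.prod_filter, hyp, Sum.elim_inl, Sum.elim_inr]

open MvPolynomial in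
theorem main_fin (h2 : (2 : k) ≠ 0) {N : ℕ} (hN : (N : k) ≠ 0) {ρ : Type} [Fintype ρ]
    (p q : ρ → Fin (n + 1) → Polynomial k) (b c : ρ → Fin n → ℕ)
    (f : ρ → MvPolynomial (Option (Fin (n + 1) ⊕ ρ)) k) (hf : ∀ l, ∃ d, (f l).IsHomogeneous d)
    (he : ∀ l, aeval (fun o => o.elim 1 X) (f l) =
      X (.inr l) ^ N * ((∏ i, Polynomial.aeval (X (.inl i)) (q l i)) *
        ∏ i : Fin n, (X (.inl i.succ) - X (.inl i.castSucc)) ^ c l i) -
      (∏ i, Polynomial.aeval (X (.inl i)) (p l i)) *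
        ∏ i : Fin n, (X (.inl i.succ) - X (.inl i.castSucc) :
          MvPolynomial (Fin (n + 1) ⊕ ρ) k) ^ b l i) :
    P.TwFinite f fun _ : Unit => X none := by
  classical
  let M : Finset k := Finset.univ.biUnion fun a : ρ × Fin (n + 1) =>
    (p a.1 a.2).roots.toFinset ∪ (q a.1 a.2).roots.toFinset
  choose u e hp using fun l => exists_mon (M := M) (p l) (b l) fun i μ h =>
    Finset.mem_biUnion.2 ⟨(l, i), Finset.mem_univ _, by simp [h]⟩
  choose u' e' hq using fun l => exists_mon (M := M) (q l) (c l) fun i μ h =>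
    Finset.mem_biUnion.2 ⟨(l, i), Finset.mem_univ _, by simp [h]⟩
  have ev {K : Fld k} (x : ℕ → K) (y : ρ → K) (l : ρ) :
      aeval (fun o => Option.elim o 1 (Sum.elim (fun i : Fin (n + 1) => x i) y)) (f l) = 0 ↔
      y l ^ N * mon (hyp n) (idx n M) (u' l) (e' l) x = mon (hyp n) (idx n M) (u l) (e l) x := by
    have := congrArg (aeval (Sum.elim (fun i : Fin (n + 1) => x i) y)) (he l)
    rw [← AlgHom.comp_apply, comp_aeval] at this
    rw [hp, hq, ← sub_eq_zero (a := _ * _)]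
    refine Eq.congr_left (Eq.trans ?_ (this.trans ?_))
    · congr 2
      funext o
      cases o <;> simp
    · simp [← Polynomial.aeval_algHom_apply]
  have e1 {K : Fld k} (x : Fin (n + 1) ⊕ ρ → K) : Sum.elim (fun i : Fin (n + 1) =>
      if h : i.1 < n + 1 then x (.inl ⟨i, h⟩) else 0) (fun l => x (.inr l)) = x :=
    funext (Sum.rec (fun i => dif_pos i.2) fun _ => rfl)
  refine tw_of_aff (F := ℂ) hf (Pt.ss_of_inv (ss_cov (hyp n) regF_hyp hN (fun _ _ _ => rfl)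
    (ss_arr h2 M) u u' e e' (Closed.conv fun _ _ φ x y a b r h l =>
      (((r.2 l).pow N).mul (regF_mon _ regF_hyp _ _ _ φ _ _ a.1 b.1 r.1)).eq_of
        (regF_mon _ regF_hyp _ _ _ φ _ _ a.1 b.1 r.1) (h l)))
    (fun _ x => (fun i => if h : i < n + 1 then x (.inl ⟨i, h⟩) else 0, fun l => x (.inr l)))
    (fun _ y => Sum.elim (fun i => y.1 i) y.2)
    ⟨fun _ x a => ⟨⟨fun i hi => dif_neg (by omega), fun _ => trivial⟩, fun l =>
        (ev _ _ l).1 ((e1 x).symm ▸ a.2 l)⟩, fun _ _ φ _ _ _ _ r => ⟨fun i => ?_, fun _ => r _⟩⟩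
    ⟨fun _ y a => ⟨fun _ => trivial, fun l => (ev _ _ l).2 (a.2 l)⟩,
      fun _ _ _ _ _ _ _ r => Sum.rec (fun _ => r.1 _) r.2⟩
    (fun _ _ _ => by simp) (fun _ x _ => e1 x) fun _ y a => Prod.ext (funext fun i => ?_) rfl)
  · dsimp only
    split_ifs
    exacts [r _, φ.zero]
  · dsimp only
    split_ifs with h
    exacts [rfl, (a.1.1 i (by omega)).symm]

end

end Pool.Agent.Lib.MP_fc2ced_ag.T.C.Rd
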