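import Pool.Agent.Lib.MP_fc2ced_ag.C.Defs
import Pool.Agent.Lib.MP_fc2ced_ag.G.Ord
import Pool.Agent.Lib.MP_fc2ced_ag.G.PPt

/-! Operations on chains of numbers. -/

open CategoryTheory Function

namespace Pool.Agent.Lib.MP_fc2ced_ag.T.C

open K

noncomputable section

variable {k : Type} [Field k] {F : Type} [Field F] [CharZero F] [IsAlgClosed k] [IsAlgClosed F]
  {χ : Chr k F} {n i : ℕ} {Λ : ℕ → Finset k} {a : ℕ → k → ℤ} {b : ℕ → ℤ} {L : ℕ → Prop}

open MP_fc2ced_ag.T.Pt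

variable (χ n) in
/-- All chains of length `n` are Schur-finite after a twist. -/
def All : Prop := ∀ (Λ : ℕ → Finset k) (a : ℕ → k → ℤ) (b : ℕ → ℤ) (L : ℕ → Prop),
  SS ((ch n Λ a b L).E χ)

omit [IsAlgClosed k] in
/-- The product of two local systems of rank one. -/
theorem exists_mul [DecidableEq k] (s t : Finset k) (c e : k → ℤ) : ∃ g : k → ℤ,
    ∀ (K : Fld k) (x : K), (∀ μ ∈ s ∪ t, algebraMap k K μ - x ≠ 0) →
      ∏ μ ∈ s ∪ t, (algebraMap k K μ - x) ^ g μ =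
        (∏ μ ∈ s, (algebraMap k K μ - x) ^ c μ) * ∏ μ ∈ t, (algebraMap k K μ - x) ^ e μ := sorry

omit [IsAlgClosed k] in
theorem closed_fib (i : ℕ) (μ : k) : (ch n Λ a b L).Closed fun K x => x i = algebraMap k K μ :=
  fun _ _ φ _ _ _ _ r => (r i).eq_of (φ.alg μ)

omit [IsAlgClosed k] in
theorem closed_diag (i : ℕ) : (ch n Λ a b L).Closed fun _ x => x (i + 1) = x i :=
  fun _ _ _ _ _ _ _ r => (r _).eq_of (r i)

omit [IsAlgClosed k] in
theorem rb_f {Λ' : ℕ → Finset k} {a' : ℕ → k → ℤ} {b' : ℕ → ℤ} {L' : ℕ → Prop}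
    (hΛ : ∀ i ≤ n, Λ i = Λ' i) (ha : ∀ i ≤ n, ∀ μ ∈ Λ i, a i μ = a' i μ)
    (hL : ∀ i < n, L i ↔ L' i) (hb : ∀ i < n, L i → b i = b' i) {K : Fld k} {x x' : ℕ → K}
    (hx : ∀ i ≤ n, x i = x' i) : fCh n Λ a b L x = fCh n Λ' a' b' L' x' := by
  unfold fCh
  refine congrArg₂ _ (Finset.prod_congr rfl fun i hi => ?_) (Finset.prod_congr rfl fun i hi => ?_)
  · have hi := Nat.lt_succ_iff.1 (Finset.mem_range.1 hi)
    rw [← hΛ i hi, hx i hi]
    exact Finset.prod_congr rfl fun μ hμ => by rw [ha i hi μ hμ]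
  · have hi := Finset.mem_range.1 hi
    by_cases l : L i
    · rw [if_pos l, if_pos ((hL i hi).1 l), hb i hi l, hx i hi.le, hx (i + 1) hi]
    · rw [if_neg l, if_neg fun k => l ((hL i hi).2 k)]

omit [IsAlgClosed k] in
theorem rb_fx {K : Fld k} {x x' : ℕ → K} (hx : ∀ i ≤ n, x i = x' i) :
    fCh n Λ a b L x = fCh n Λ a b L x' :=
  rb_f (fun _ _ => rfl) (fun _ _ _ _ => rfl) (fun _ _ => Iff.rfl) (fun _ _ _ => rfl) hx

omit [IsAlgClosed k] in
theorem rb_lx {K : Fld k} {x x' : ℕ → K} (hx : ∀ i ≤ n, x' i = x i) (h : LCh n Λ L x) :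
    LCh n Λ L x' :=
  ⟨fun i hi μ hμ => hx i hi ▸ h.1 i hi μ hμ, fun i hi l => by
    rw [hx i hi.le, hx (i + 1) hi]
    exact h.2 i hi l⟩

open Classical in
omit [IsAlgClosed k] in
theorem rb_succ {K : Fld k} (x : ℕ → K) : fCh (n + 1) Λ a b L x = fCh n Λ a b L x *
    ((∏ μ ∈ Λ (n + 1), (algebraMap k K μ - x (n + 1)) ^ a (n + 1) μ) *
      if L n then (x (n + 1) - x n) ^ b n else 1) := by
  unfold fCh
  rw [Finset.prod_range_succ _ (n + 1), mul_mul_mul_comm, ← Finset.prod_range_succ _ n]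

omit [IsAlgClosed k] in
theorem rb_lsucc {K : Fld k} {x : ℕ → K} : LCh (n + 1) Λ L x ↔ LCh n Λ L x ∧
    (∀ μ ∈ Λ (n + 1), algebraMap k K μ - x (n + 1) ≠ 0) ∧ (L n → x (n + 1) - x n ≠ 0) := by
  refine ⟨fun h => ⟨⟨fun i hi => h.1 i (by omega), fun i hi => h.2 i (by omega)⟩, h.1 _ le_rfl,
    h.2 n n.lt_succ_self⟩, fun h => ⟨fun i hi => ?_, fun i hi => ?_⟩⟩
  · rcases hi.eq_or_lt with rfl | hi
    exacts [h.2.1, h.1.1 i (by omega)]
  · rcases (Nat.lt_succ_iff.1 hi).eq_or_lt with rfl | hi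
    exacts [h.2.2, h.1.2 i hi]

omit [IsAlgClosed k] [IsAlgClosed F] in
theorem ch_congr {Λ' : ℕ → Finset k} {a' : ℕ → k → ℤ} {b' : ℕ → ℤ} {L' : ℕ → Prop}
    (hΛ : ∀ i ≤ n, Λ i = Λ' i) (ha : ∀ i ≤ n, ∀ μ ∈ Λ i, a i μ = a' i μ)
    (hL : ∀ i < n, L i ↔ L' i) (hb : ∀ i < n, L i → b i = b' i) :
    Eqv ((ch n Λ a b L).E χ) ((ch n Λ' a' b' L').E χ) :=
  eqv_of_inv (e := fun _ x => x) (g := fun _ x => x)
    ⟨fun _ _ l => ⟨l.1, fun i hi μ hμ => l.2.1 i hi μ (hΛ i hi ▸ hμ),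
      fun i hi k => l.2.2 i hi ((hL i hi).2 k)⟩, fun _ _ _ _ _ _ _ h => h⟩
    ⟨fun _ _ l => ⟨l.1, fun i hi μ hμ => l.2.1 i hi μ (hΛ i hi ▸ hμ),
      fun i hi k => l.2.2 i hi ((hL i hi).1 k)⟩, fun _ _ _ _ _ _ _ h => h⟩
    (fun _ _ _ => rb_f (fun i hi => (hΛ i hi).symm) (fun i hi μ hμ => (ha i hi μ (hΛ i hi ▸ hμ)).symm)
      (fun i hi => (hL i hi).symm) (fun i hi k => (hb i hi ((hL i hi).2 k)).symm) fun _ _ => rfl)
    (fun _ _ _ => rfl) fun _ _ _ => rfl

theorem all_zero : All χ 0 := fun Λ a b L => by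
  refine .of_eqv (eqv_const (S' := cv (fun μ : Λ 0 => (μ : k)) fun μ => a 0 μ)
    (e := fun _ x => x 0) (g := fun _ y i => if i = 0 then y else 0)
    ⟨fun _ x l => ⟨trivial, fun μ => (sub_ne_zero.1 (l.2.1 0 le_rfl μ μ.2)).symm⟩,
      fun _ _ _ _ _ _ _ h => h 0⟩
    ⟨fun _ y l => ⟨fun i hi => if_neg hi.ne', fun i hi μ hμ => ?_, fun i hi => absurd hi i.not_lt_zero⟩,
      fun _ _ φ _ _ _ _ h i => rel_ite h φ.zero⟩
    (∏ μ ∈ Λ 0, (-1) ^ a 0 μ) regF_one (fun K x _ => ?_) (fun _ x l => funext fun i => ?_)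
    fun _ _ _ => rfl) (ss_cv _ _)
  · obtain rfl := Nat.le_zero.1 hi
    exact sub_ne_zero.2 (l.2 ⟨μ, hμ⟩).symm
  · change ∏ μ : Λ 0, (x 0 - algebraMap k K μ) ^ a 0 μ = fCh 0 Λ a b L x * _
    rw [Finset.prod_coe_sort (Λ 0) fun μ => (x 0 - algebraMap k K μ) ^ a 0 μ, fCh,
      Finset.prod_range_one, Finset.prod_range_zero, mul_one, one_pow, mul_one, map_prod,
      ← Finset.prod_mul_distrib]
    refine Finset.prod_congr rfl fun μ _ => ?_
    rw [map_zpow₀, map_neg, map_one, ← mul_zpow, mul_neg_one, neg_sub]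
  · split_ifs with e
    · rw [e]
    · exact (l.1 i (Nat.pos_of_ne_zero e)).symm

/-- A free link. -/
theorem ss_cut (h : ∀ m < n, All χ m) (hi : i < n) (hL : ¬ L i) : SS ((ch n Λ a b L).E χ) := by
  classical
  obtain ⟨m, rfl⟩ := Nat.exists_eq_add_of_lt hi
  refine .of_eqv (eqv_of_inv (S' := (ch i Λ a b L).prod (ch m (fun l => Λ (i + 1 + l))
      (fun l => a (i + 1 + l)) (fun l => b (i + 1 + l)) fun l => L (i + 1 + l)))
    (e := fun _ x => (fun l => if l ≤ i then x l else 0, fun l => x (i + 1 + l)))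
    (g := fun _ y l => if l ≤ i then y.1 l else y.2 (l - (i + 1)))
    ⟨fun _ x l => ⟨⟨fun j hj => if_neg hj.not_ge, rb_lx (fun j hj => if_pos hj)
        ⟨fun j hj => l.2.1 j (by omega), fun j hj => l.2.2 j (by omega)⟩⟩,
        fun j hj => l.1 _ (by omega), fun j hj => l.2.1 _ (by omega),
        fun j hj => l.2.2 (i + 1 + j) (by omega)⟩,
      fun _ _ φ _ _ _ _ r => ⟨fun j => rel_ite (r j) φ.zero, fun j => r _⟩⟩
    ⟨fun _ y l => ⟨fun j hj => (if_neg (by omega)).trans (l.2.1 _ (by omega)),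
        fun j hj μ hμ => ?_, fun j hj k => ?_⟩,
      fun _ _ φ _ _ _ _ r j => rel_ite (r.1 j) (r.2 _)⟩
    (fun K x _ => ?_) (fun _ x _ => funext fun j => ?_) fun _ y l => Prod.ext (funext fun j => ?_)
      (funext fun j => ?_)) (ss_prod (h i (by omega) _ _ _ _) (h m (by omega) _ _ _ _))
  · beta_reduce
    split_ifs with e
    · exact l.1.2.1 j e μ hμ
    · obtain ⟨j, rfl⟩ := Nat.exists_eq_add_of_le (show i + 1 ≤ j by omega)
      rw [Nat.add_sub_cancel_left]
      exact l.2.2.1 j (by omega) μ hμ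
  · beta_reduce
    rcases lt_trichotomy j i with e | rfl | e
    · rw [if_pos e.le, if_pos (show j + 1 ≤ i from e)]
      exact l.1.2.2 j e k
    · exact (hL k).elim
    · obtain ⟨j, rfl⟩ := Nat.exists_eq_add_of_le (show i + 1 ≤ j by omega)
      rw [if_neg (by omega), if_neg (by omega), Nat.add_sub_cancel_left, add_assoc (i + 1),
        Nat.add_sub_cancel_left]
      exact l.2.2.2 j (by omega) k
  · change fCh i Λ a b L _ * fCh m _ _ _ _ _ = fCh (i + m + 1) Λ a b L x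
    rw [rb_fx (x' := x) fun j hj => if_pos hj]
    unfold fCh
    rw [show i + m + 1 + 1 = i + 1 + (m + 1) by omega, show i + m + 1 = i + 1 + m by omega,
      Finset.prod_range_add _ (i + 1) (m + 1), Finset.prod_range_add _ (i + 1) m,
      Finset.prod_range_succ (fun l => ite (L l) _ _) i, if_neg hL, mul_one, mul_mul_mul_comm]
    rfl
  · change (if j ≤ i then (if j ≤ i then x j else 0) else x (i + 1 + (j - (i + 1)))) = x j
    split_ifs with e
    · rfl
    · exact congrArg x (by omega)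
  · change (if j ≤ i then (if j ≤ i then _ else _) else _) = _
    split_ifs with e
    · rfl
    · exact (l.1.1 j (by omega)).symm
  · exact (if_neg (by omega)).trans (by rw [Nat.add_sub_cancel_left])

/-- A fibre is a shorter chain with a free link. -/
theorem fib_eqv (hi : i ≤ n + 1) {μ : k} (hμ : μ ∉ Λ i) :
    ∃ (Λ' : ℕ → Finset k) (a' : ℕ → k → ℤ) (b' : ℕ → ℤ) (L' : ℕ → Prop),
      (0 < i → ¬ L' (i - 1)) ∧ Eqv (((ch (n + 1) Λ a b L).restr _ (closed_fib i μ).conv).E χ)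
        ((ch n Λ' a' b' L').E χ) := sorry

theorem ss_fib (h : All χ n) (hi : i ≤ n + 1) (μ : k) :
    SS (((ch (n + 1) Λ a b L).restr _ (closed_fib i μ).conv).E χ) := sorry

open Classical in
/-- The fibre at the last node. -/
theorem last_eqv {μ : k} (hμ : μ ∈ Λ n) (hμ' : μ ∉ Λ (n + 1)) :
    Eqv (((ch (n + 1) Λ a b fun _ => True).restr _ (closed_fib (n + 1) μ).conv).E χ)
      ((ch n Λ (update a n (update (a n) μ (a n μ + b n))) b fun _ => True).E χ) := sorry

/-- A diagonal is a shorter chain. -/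
theorem ss_diag (h : All χ n) (hi : i ≤ n) :
    SS (((ch (n + 1) Λ a b L).restr _ (closed_diag i).conv).E χ) := sorry

/-- A link with trivial character. -/
theorem ss_triv (h : ∀ m < n, All χ m) (hi : i < n) (hb : χ.ψ (b i) = 1) :
    SS ((ch n Λ a b L).E χ) := by
  by_cases hL : L i
  swap
  · exact ss_cut h hi hL
  obtain ⟨n, rfl⟩ := Nat.exists_eq_succ_of_ne_zero (show n ≠ 0 by omega)
  refine .of_eqv (Eqv.symm (eqv_twist (S := (ch (n + 1) Λ a b fun j => L j ∧ j ≠ i).restr _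
    (closed_diag i).not.conv) hb (e := fun _ x => x) (g := fun _ x => x)
    (w := fun _ x => x (i + 1) - x i)
    ⟨fun _ x l => ⟨l.1.1, l.1.2.1, fun j hj k => ?_⟩, fun _ _ _ _ _ _ _ h => h⟩
    ⟨fun _ x l => ⟨⟨l.1, l.2.1, fun j hj k => l.2.2 j hj k.1⟩, sub_ne_zero.1 (l.2.2 i hi hL)⟩,
      fun _ _ _ _ _ _ _ h => h⟩
    (fun _ _ _ _ _ _ _ r => (r _).sub (r i)) (fun _ x l => sub_ne_zero.2 l.2) (fun K x _ => ?_)
    (fun _ _ _ => rfl) fun _ _ _ => rfl))
    (ss_open (closed_diag i)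
      (ss_diag (h n n.lt_succ_self) (Nat.lt_succ_iff.1 hi)) (ss_cut h hi fun k => k.2 rfl))
  · by_cases e : j = i
    · exact e ▸ sub_ne_zero.2 l.2
    · exact l.1.2.2 j hj ⟨k, e⟩
  · change fCh _ Λ a b L x = fCh _ Λ a b _ x * _
    have hi' := Finset.mem_range.2 hi
    unfold fCh
    rw [mul_assoc, ← Finset.prod_erase_mul _ _ hi', ← Finset.prod_erase_mul _ _ hi', if_pos hL,
      if_neg fun k => k.2 rfl, mul_one]
    congr 2
    refine Finset.prod_congr rfl fun j hj => ?_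
    by_cases l : L j
    · rw [if_pos l, if_pos ⟨l, Finset.ne_of_mem_erase hj⟩]
    · rw [if_neg l, if_neg fun k => l k.1]

open Classical in
/-- One more point is removed. -/
theorem open_eqv {μ : k} (hi : i ≤ n) (hμ : μ ∉ Λ i) :
    Eqv (((ch n Λ a b L).restr _ (closed_fib i μ).not.conv).E χ)
      ((ch n (update Λ i (insert μ (Λ i))) (update a i (update (a i) μ 0)) b L).E χ) := by
  refine eqv_of_inv (e := fun _ x => x) (g := fun _ x => x)
    ⟨fun _ x l => ⟨l.1.1, fun j hj ν hν => ?_, l.1.2.2⟩, fun _ _ _ _ _ _ _ h => h⟩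
    ⟨fun _ x l => ⟨⟨l.1, fun j hj ν hν => l.2.1 j hj ν ?_, l.2.2⟩, (sub_ne_zero.1 (l.2.1 i hi μ
      (by rw [update_self]; exact Finset.mem_insert_self _ _))).symm⟩, fun _ _ _ _ _ _ _ h => h⟩
    (fun K x _ => ?_) (fun _ _ _ => rfl) fun _ _ _ => rfl
  · by_cases e : j = i
    · subst e
      rw [update_self] at hν
      rcases Finset.mem_insert.1 hν with rfl | hν
      exacts [sub_ne_zero.2 (Ne.symm l.2), l.1.2.1 j hj ν hν]
    · rw [update_of_ne e] at hν
      exact l.1.2.1 j hj ν hν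
  · by_cases e : j = i
    · subst e
      rw [update_self]
      exact Finset.mem_insert_of_mem hν
    · rwa [update_of_ne e]
  · change fCh n _ _ b L x = fCh n Λ a b L x
    unfold fCh
    refine congrArg (· * _) (Finset.prod_congr rfl fun j _ => ?_)
    by_cases e : j = i
    · subst e
      rw [update_self, update_self, Finset.prod_insert hμ, update_self, zpow_zero, one_mul]
      exact Finset.prod_congr rfl fun ν hν => by rw [update_of_ne (ne_of_mem_of_not_mem hν hμ)]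
    · rw [update_of_ne e, update_of_ne e]

/-- More points are removed. -/
theorem ss_grow (h : All χ n) {Λ' : ℕ → Finset k} (hs : ∀ i ≤ n + 1, Λ i ⊆ Λ' i)
    (H : ∀ a', SS ((ch (n + 1) Λ' a' b L).E χ)) : SS ((ch (n + 1) Λ a b L).E χ) := by
  classical
  generalize hm : ∑ i ∈ Finset.range (n + 2), (Λ' i \ Λ i).card = m
  induction m using Nat.strong_induction_on generalizing Λ a with | _ m ih => ?_
  by_cases e : ∀ i ≤ n + 1, Λ' i ⊆ Λ i
  · exact .of_eqv (ch_congr (fun i hi => (hs i hi).antisymm (e i hi)) (fun _ _ _ _ => rfl)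
      (fun _ _ => Iff.rfl) fun _ _ _ => rfl) (H a)
  simp only [not_forall, Finset.not_subset] at e
  obtain ⟨i, hi, μ, h1, h2⟩ := e
  refine ss_of_closed (closed_fib i μ) (ss_fib h hi μ) (.of_eqv (open_eqv hi h2)
    (ih _ ?_ (fun j hj => ?_) rfl))
  · rw [← hm]
    refine Finset.sum_lt_sum (fun j _ => Finset.card_le_card (Finset.sdiff_subset_sdiff le_rfl ?_))
      ⟨i, Finset.mem_range.2 (by omega), Finset.card_lt_card ⟨Finset.sdiff_subset_sdiff le_rfl ?_,
        fun k => ?_⟩⟩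
    · by_cases e : j = i
      · subst e
        rw [update_self]
        exact Finset.subset_insert _ _
      · rw [update_of_ne e]
    · rw [update_self]
      exact Finset.subset_insert _ _
    · have := Finset.mem_sdiff.1 (k (Finset.mem_sdiff.2 ⟨h1, h2⟩))
      rw [update_self] at this
      exact this.2 (Finset.mem_insert_self _ _)
  · by_cases e : j = i
    · subst e
      rw [update_self]
      exact Finset.insert_subset h1 (hs j hj)
    · rw [update_of_ne e]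
      exact hs j hj

/-- Desuspension. -/
theorem ss_desusp (hχ : χ.ψ (1 : ℤ) ≠ 1) {S : Pt k}
    (h : SS ((S.prod ((gmX k).restr _ closed_one.not.conv)).E χ)) : SS (S.E χ) := by
  have hC : UZero ((gmX k).E χ) :=
    Pt.Flow.uzero (τ := fun _ r x => x * r) hχ ⟨fun _ _ _ h hx => ⟨trivial, mul_ne_zero hx.2 h⟩,
      fun _ x _ => mul_one x, fun _ _ x h _ => mul_inv_cancel_right₀ h x,
      fun _ r x _ _ => by rw [zpow_one], fun _ _ _ _ _ _ _ h _ _ _ h' => h'.mul h⟩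
  obtain ⟨j, T⟩ := (Pt.ses_closed (χ := χ) closed_one).of_eqv
    (eqv_point (S := (gmX k).restr _ closed_one.conv) (fun _ => 1)
      (fun _ => ⟨⟨trivial, one_ne_zero⟩, rfl⟩) (fun _ _ φ => φ.one) (fun _ _ h => h.2)
      fun _ => rfl).symm
  obtain ⟨m, h⟩ := h
  exact ⟨m, SSA.sf_desusp (SSA.faith_susp T hC) (SSA.null_susp χ hχ) (.of_eqv
    ((((Eqv.assoc _ _ _).symm.trans ((Eqv.refl _).ten (.swap _ _))).trans (.assoc _ _ _)).trans
      ((Eqv.symm ⟨_, bij_ten⟩).ten (.refl _))) h)⟩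

open Classical in
/-- A last node that gives a suspension. -/
theorem susp_eqv {ν : k} (h : Λ (n + 1) = {ν}) (ha : a (n + 1) ν = -1) (hb : b n = 1) :
    Eqv (((ch (n + 1) Λ a b fun _ => True).restr _ (closed_fib n ν).not.conv).E χ)
      ((((ch n Λ a b fun _ => True).restr _ (closed_fib n ν).not.conv).prod
        ((gmX k).restr _ closed_one.not.conv)).E χ) := by
  have u : ∀ {K : Fld k} (x : ℕ → K) (y : K), ∀ i ≤ n, update x (n + 1) y i = x i :=
    fun x y i hi => update_of_ne (by omega) _ _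
  have p : ∀ ⦃K : Fld k⦄ (x : ℕ → K), LCh (n + 1) Λ (fun _ => True) x →
      x (n + 1) - algebraMap k K ν ≠ 0 := fun K x l =>
    sub_ne_zero.2 (sub_ne_zero.1 (l.1 _ le_rfl ν (h ▸ Finset.mem_singleton_self ν))).symm
  have ru : ∀ {K K' : Fld k} {φ : Place K K'} {x : ℕ → K} {x' : ℕ → K'} {y : K} {y' : K'},
      (∀ i, φ (x i) (x' i)) → φ y y' → ∀ i, φ (update x (n + 1) y i) (update x' (n + 1) y' i) :=
    fun r r' i => by
      rw [update_apply, update_apply]
      exact rel_ite r' (r i)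
  refine eqv_const
    (e := fun K x => (update x (n + 1) 0, (x (n + 1) - x n) / (x (n + 1) - algebraMap k K ν)))
    (g := fun K y => update y.1 (n + 1) ((y.1 n - y.2 * algebraMap k K ν) / (1 - y.2)))
    ⟨fun K x l => ⟨⟨⟨fun i hi => ?_, rb_lx (u x 0) (rb_lsucc.1 l.1.2).1⟩, ?_⟩,
        ⟨trivial, div_ne_zero ((rb_lsucc.1 l.1.2).2.2 trivial) (p x l.1.2)⟩, fun e => l.2 ?_⟩,
      fun _ _ φ _ y _ l r => ⟨ru r φ.zero, ((r _).sub (r _)).div ((r _).sub (φ.alg ν)) (p y l.1.2)⟩⟩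
    ⟨fun K y l => ?_, fun _ _ φ _ y _ l r => ru r.1 (((r.1 n).sub (r.2.mul (φ.alg ν))).div
      (φ.one.sub r.2) (sub_ne_zero.2 (Ne.symm l.2.2)))⟩
    (-1) regF_one (fun K x l => ?_) (fun K x l => ?_) fun K y l => ?_
  · change update x (n + 1) 0 i = 0
    by_cases e : i = n + 1
    · rw [e, update_self]
    · rw [update_of_ne e]
      exact l.1.1 i (by omega)
  · exact fun e => l.2 ((u x 0 n le_rfl).symm.trans e)
  · have := (div_eq_one_iff_eq (p x l.1.2)).1 e
    linear_combination -this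
  · have h1 : 1 - y.2 ≠ 0 := sub_ne_zero.2 (Ne.symm l.2.2)
    have h2 : y.1 n - algebraMap k K ν ≠ 0 := sub_ne_zero.2 l.1.2
    refine ⟨⟨fun i hi => (update_of_ne hi.ne' _ _).trans (l.1.1.1 i (by omega)),
      rb_lsucc.2 ⟨rb_lx (u _ _) l.1.1.2, fun μ hμ => ?_, fun _ => ?_⟩⟩, ?_⟩
    · rw [h, Finset.mem_singleton] at hμ
      rw [hμ, update_self, show algebraMap k K ν - (y.1 n - y.2 * algebraMap k K ν) / (1 - y.2) =
        -((y.1 n - algebraMap k K ν) / (1 - y.2)) by field_simp; ring]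
      exact neg_ne_zero.2 (div_ne_zero h2 h1)
    · rw [update_self, u _ _ n le_rfl, show (y.1 n - y.2 * algebraMap k K ν) / (1 - y.2) - y.1 n =
        y.2 * (y.1 n - algebraMap k K ν) / (1 - y.2) by field_simp; ring]
      exact div_ne_zero (mul_ne_zero l.2.1.2 h2) h1
    · exact fun e => l.1.2 ((u _ _ n le_rfl).symm.trans e)
  · have h1 := p x l.1.2
    have h2 : algebraMap k K ν - x (n + 1) ≠ 0 := sub_ne_zero.2 (sub_ne_zero.1 h1).symm
    change fCh n Λ a b _ _ * (_ / _) = fCh (n + 1) Λ a b _ x * _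
    rw [rb_fx (u x 0), rb_succ, h, Finset.prod_singleton, ha, hb, if_pos trivial, zpow_one,
      zpow_neg_one, one_pow, map_neg, map_one]
    field_simp
    ring
  · have h1 := p x l.1.2
    have h2 : x n - algebraMap k K ν ≠ 0 := sub_ne_zero.2 l.2
    dsimp only
    rw [update_idem, update_eq_self_iff, u x 0 n le_rfl,
      show 1 - (x (n + 1) - x n) / (x (n + 1) - algebraMap k K ν) =
        (x n - algebraMap k K ν) / (x (n + 1) - algebraMap k K ν) by field_simp; ring]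
    field_simp
    ring
  · have h1 : 1 - y.2 ≠ 0 := sub_ne_zero.2 (Ne.symm l.2.2)
    have h2 : y.1 n - algebraMap k K ν ≠ 0 := sub_ne_zero.2 l.1.2
    refine Prod.ext ?_ ?_
    · change update (update y.1 (n + 1) _) (n + 1) 0 = y.1
      rw [update_idem, update_eq_self_iff]
      exact (l.1.1.1 _ n.lt_succ_self).symm
    · change (update y.1 (n + 1) _ (n + 1) - update y.1 (n + 1) _ n) /
        (update y.1 (n + 1) _ (n + 1) - _) = y.2
      rw [update_self, u _ _ n le_rfl,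
        show (y.1 n - y.2 * algebraMap k K ν) / (1 - y.2) - algebraMap k K ν =
          (y.1 n - algebraMap k K ν) / (1 - y.2) by field_simp; ring]
      field_simp
      ring

end

end Pool.Agent.Lib.MP_fc2ced_ag.T.C
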