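import Pool.Agent.Lib.MP_fc2ced_ag.C.Core
import Pool.Agent.Lib.MP_fc2ced_ag.C.Red

/-! All chains. -/

open CategoryTheory Function

namespace Pool.Agent.Lib.MP_fc2ced_ag.T.C

open K

noncomputable section

variable {k : Type} [Field k] {F : Type} [Field F] [CharZero F] [IsAlgClosed k] [IsAlgClosed F]
  {χ : Chr k F} {n : ℕ} {Λ : ℕ → Finset k} {a : ℕ → k → ℤ} {b : ℕ → ℤ} {L : ℕ → Prop}

open MP_fc2ced_ag.T.Pt

theorem exists_lift (h2 : (2 : k) ≠ 0) (hχ : χ.Prim) : ∃ χ' : Chr k F, χ'.Prim ∧ χ'.N = χ.N * 2 ∧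
    ∀ (n : ℕ) (Λ : ℕ → Finset k) (a : ℕ → k → ℤ) (b : ℕ → ℤ) (L : ℕ → Prop),
      Eqv ((ch n Λ a b L).E χ) ((ch n Λ (fun i μ => 2 * a i μ) (fun i => 2 * b i) L).E χ') := by
  obtain ⟨χ', h1, h3, h4⟩ := hχ.exists_lift (g := 2) (by exact_mod_cast h2)
  refine ⟨χ', h1, h3, fun n Λ a b L => h4 (ch n Λ a b L)
    (fCh n Λ (fun i μ => 2 * a i μ) (fun i => 2 * b i) L) (regF_fCh n Λ _ _ L)
    (fun _ x h => fCh_ne n Λ _ _ L x h.2) fun K x _ => ?_⟩
  change fCh n Λ _ _ L x = fCh n Λ a b L x ^ 2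
  have e (y : K) (t : ℤ) : y ^ (2 * t) = (y ^ t) ^ 2 := by
    rw [mul_comm, zpow_mul, zpow_ofNat]
  simp only [fCh, mul_pow, ← Finset.prod_pow, e, ite_pow, one_pow]

omit [CharZero F] [IsAlgClosed k] [IsAlgClosed F] in
theorem ne_one_of_odd (hχ : χ.Prim) (hN : 2 ∣ χ.N) {t : ℤ} (ht : ¬ 2 ∣ t) : χ.ψ t ≠ 1 := fun e =>
  ht ((Int.natCast_dvd_natCast.2 hN).trans ((hχ.eq_one_iff t).1 e))

open Classical in
omit [CharZero F] [IsAlgClosed k] [IsAlgClosed F] in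
/-- More points with exponent zero are removed at the last node. -/
theorem more_eqv {R : Finset k} (h0 : ∀ μ ∈ R, μ ∉ Λ n → a n μ = 0)
    (c : (ch n Λ a b L).Conv fun K x => ∀ μ ∈ R, x n ≠ algebraMap k K μ) :
    Eqv (((ch n Λ a b L).restr _ c).E χ) ((ch n (update Λ n (Λ n ∪ R)) a b L).E χ) := by
  refine eqv_of_inv (e := fun _ x => x) (g := fun _ x => x)
    ⟨fun _ x l => ⟨l.1.1, fun i hi μ hμ => ?_, l.1.2.2⟩, fun _ _ _ _ _ _ _ h => h⟩
    ⟨fun _ x l => ⟨⟨l.1, fun i hi μ hμ => l.2.1 i hi μ ?_, l.2.2⟩, fun μ hμ => ?_⟩,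
      fun _ _ _ _ _ _ _ h => h⟩
    (fun K x _ => ?_) (fun _ _ _ => rfl) fun _ _ _ => rfl
  · by_cases e : i = n
    · subst e
      rw [update_self, Finset.mem_union] at hμ
      exact hμ.elim (l.1.2.1 i hi μ) fun h => sub_ne_zero.2 (l.2 μ h).symm
    · rw [update_of_ne e] at hμ
      exact l.1.2.1 i hi μ hμ
  · by_cases e : i = n
    · subst e
      rw [update_self]
      exact Finset.mem_union_left _ hμ
    · rwa [update_of_ne e]
  · exact (sub_ne_zero.1 (l.2.1 n le_rfl μ (by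
      rw [update_self]; exact Finset.mem_union_right _ hμ))).symm
  · change fCh n _ a b L x = fCh n Λ a b L x
    unfold fCh
    congr 1
    refine Finset.prod_congr rfl fun i _ => ?_
    by_cases e : i = n
    · subst e
      rw [update_self]
      refine (Finset.prod_subset Finset.subset_union_left fun μ hμ hμ' => ?_).symm
      rw [h0 μ ((Finset.mem_union.1 hμ).resolve_left hμ') hμ', zpow_zero]
    · rw [update_of_ne e]

/-- Even exponents. -/
theorem ss_even (h2 : (2 : k) ≠ 0) (hχ : χ.Prim) (hN : 2 ∣ χ.N) (h : ∀ m ≤ n, All χ m)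
    {Λ₀ : Finset k} (h0 : 0 ∈ Λ₀) (ha : ∀ i μ, 2 ∣ a i μ) (hb : ∀ i, 2 ∣ b i)
    (hb' : ∀ i ≤ n, χ.ψ (b i) ≠ 1) :
    SS ((ch (n + 1) (fun _ => Λ₀) a b fun _ => True).E χ) := by
  classical
  obtain ⟨ν, hν⟩ := Infinite.exists_notMem_finset Λ₀
  obtain ⟨Λ₂, hΛ, hΛ'⟩ : ∃ Λ₂ : ℕ → Finset k, (∀ i ≤ n + 1, Λ₂ i = Λ₀) ∧ Λ₂ (n + 1 + 1) = {ν} :=
    ⟨update (fun _ => Λ₀) (n + 1 + 1) {ν}, fun i hi => update_of_ne (by omega) _ _,
      update_self _ _ _⟩
  obtain ⟨a₂, hA, hA'⟩ : ∃ a₂ : ℕ → k → ℤ, (∀ i ≤ n + 1, a₂ i = a i) ∧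
      a₂ (n + 1 + 1) = fun μ => if μ = ν then -1 else 0 :=
    ⟨update a (n + 1 + 1) _, fun i hi => update_of_ne (by omega) _ _, update_self _ _ _⟩
  obtain ⟨b₂, hB, hB'⟩ : ∃ b₂ : ℕ → ℤ, (∀ i ≤ n, b₂ i = b i) ∧ b₂ (n + 1) = 1 :=
    ⟨update b (n + 1) 1, fun i hi => update_of_ne (by omega) _ _, update_self _ _ _⟩
  have h1 : χ.ψ (1 : ℤ) ≠ 1 := ne_one_of_odd hχ hN (by decide)
  have hb₂ : ∀ i < n + 1 + 1, χ.ψ (b₂ i) ≠ 1 := fun i hi => by
    rcases Nat.lt_succ_iff_lt_or_eq.1 hi with hi | rfl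
    · rw [hB i (by omega)]; exact hb' i (by omega)
    · rw [hB']; exact h1
  have s1 : SS ((ch (n + 1 + 1) Λ₂ a₂ b₂ fun _ => True).E χ) := by
    have ht : (ch (n + 1 + 1) Λ₂ a₂ b₂ fun _ => True).RegF fun _ x => x (n + 1 + 1) :=
      fun _ _ _ _ _ _ _ r => r _
    have c : (ch (n + 1 + 1) Λ₂ a₂ b₂ fun _ => True).Conv
        fun K x => ∀ μ ∈ Λ₀, x (n + 1 + 1) ≠ algebraMap k K μ :=
      Open.conv fun _ _ φ x y u v r l μ hμ => ht.ne (regF_const μ) φ x y u v r (l μ hμ)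
    refine ss_of_fibres ht Λ₀ (fun μ hμ => ?_) (c := c) ?_
    · have hne : μ ≠ ν := fun e => hν (e ▸ hμ)
      refine .of_eqv (last_eqv (n := n + 1) (by rw [hΛ _ le_rfl]; exact hμ)
        (by rw [hΛ', Finset.mem_singleton]; exact hne)) ?_
      refine ss_core h2 h0 (fun i hi => hΛ i hi.le) (hΛ _ le_rfl).ge (o := μ)
        (by rw [hΛ _ le_rfl]; exact hμ) (fun i hi => hb₂ i (by omega)) fun i _ _ => ?_
      refine ne_one_of_odd hχ hN fun e => ?_
      rw [update_self, update_self, hB', hA _ le_rfl, ← add_assoc, Int.dvd_add_right] at e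
      · exact absurd e (by decide)
      · refine dvd_add (Finset.dvd_sum fun l hl => ?_) (ha _ _)
        have hl' := (Finset.mem_Ico.1 hl).2
        rw [update_of_ne hl'.ne, hA l hl'.le, hB l (by omega)]
        exact dvd_add (ha _ _) (hb _)
    · refine .of_eqv (more_eqv (fun μ hμ _ => ?_) c) ?_
      · rw [hA']
        exact if_neg fun e : μ = ν => hν (e ▸ hμ)
      · refine ss_core h2 h0 (fun i hi => ?_) ?_ (o := ν) ?_ hb₂ fun i hi hi' => ?_
        · rw [update_of_ne hi.ne, hΛ i (by omega)]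
        · rw [update_self]
          exact Finset.subset_union_right
        · rw [update_self, hΛ']
          exact Finset.mem_union_left _ (Finset.mem_singleton_self ν)
        · rcases hi.lt_or_eq with hi | rfl
          · rw [update_of_ne hi.ne, hΛ i (by omega)] at hi'
            exact absurd hi' hν
          · refine ne_one_of_odd hχ hN ?_
            rw [Finset.Ico_self, Finset.sum_empty, zero_add, hA']
            simp
  have s2 : SS (((ch (n + 1 + 1) Λ₂ a₂ b₂ fun _ => True).restr _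
      (closed_fib (n + 1) ν).conv).E χ) := by
    obtain ⟨Λ', a', b', L', hL, e⟩ := fib_eqv (χ := χ) (n := n + 1) (i := n + 1) (Λ := Λ₂)
      (a := a₂) (b := b₂) (L := fun _ => True) (Nat.le_succ _) (μ := ν)
      (by rw [hΛ _ le_rfl]; exact hν)
    exact .of_eqv e (ss_cut (fun m hm => h m (by omega)) n.lt_succ_self (hL n.succ_pos))
  have s3 := ss_desusp h1 (.of_eqv (susp_eqv (n := n + 1) hΛ' (by rw [hA']; exact if_pos rfl)
    hB').symm (ss_open (closed_fib (n + 1) ν) s2 s1))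
  have s4 := ss_of_closed (closed_fib (n + 1) ν) (ss_fib (h n le_rfl) le_rfl ν) s3
  exact .of_eqv (ch_congr (fun i hi => (hΛ i hi).symm) (fun i hi μ _ => by rw [hA i hi])
    (fun _ _ => Iff.rfl) fun i hi _ => (hB i (by omega)).symm) s4

theorem ss_full (h2 : (2 : k) ≠ 0) (h : ∀ χ : Chr k F, χ.Prim → ∀ m ≤ n, All χ m) (hχ : χ.Prim)
    {Λ₀ : Finset k} (h0 : 0 ∈ Λ₀) (hb : ∀ i ≤ n, χ.ψ (b i) ≠ 1) :
    SS ((ch (n + 1) (fun _ => Λ₀) a b fun _ => True).E χ) := by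
  obtain ⟨χ', h1, h3, h4⟩ := exists_lift h2 hχ
  refine .of_eqv (h4 _ _ _ _ _) (ss_even h2 h1 (h3 ▸ dvd_mul_left _ _) (h χ' h1) h0
    (fun _ _ => dvd_mul_right _ _) (fun _ => dvd_mul_right _ _) fun i hi e => hb i hi ?_)
  rw [h1.eq_one_iff, h3, Nat.cast_mul, mul_comm] at e
  rw [hχ.eq_one_iff]
  exact (mul_dvd_mul_iff_left two_ne_zero).1 e

theorem all_ch (h2 : (2 : k) ≠ 0) (n : ℕ) (hχ : χ.Prim) : All χ n := by
  classical
  induction n using Nat.strong_induction_on generalizing χ with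
  | _ n ih =>
  cases n with
  | zero => exact all_zero
  | succ n =>
    intro Λ a b L
    by_cases hL : ∃ i < n + 1, ¬ L i
    · obtain ⟨i, hi, hL⟩ := hL
      exact ss_cut (fun m hm => ih m hm hχ) hi hL
    by_cases hb : ∃ i < n + 1, χ.ψ (b i) = 1
    · obtain ⟨i, hi, hb⟩ := hb
      exact ss_triv (fun m hm => ih m hm hχ) hi hb
    refine .of_eqv (ch_congr (L' := fun _ => True) (fun _ _ => rfl) (fun _ _ _ _ => rfl)
      (fun i hi => iff_of_true (by_contra fun e => hL ⟨i, hi, e⟩) trivial) fun _ _ _ => rfl) ?_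
    refine ss_grow (ih n n.lt_succ_self hχ)
      (Λ' := fun _ => insert 0 ((Finset.range (n + 2)).biUnion Λ)) (fun i hi μ hμ => ?_) fun a' =>
      ss_full h2 (fun χ' h' m hm => ih m (by omega) h') hχ (Finset.mem_insert_self _ _)
        fun i hi e => hb ⟨i, by omega, e⟩
    exact Finset.mem_insert_of_mem
      (Finset.mem_biUnion.2 ⟨i, Finset.mem_range.2 (by omega), hμ⟩)

end

end Pool.Agent.Lib.MP_fc2ced_ag.T.C
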