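import Pool.Agent.Lib.MP_fc2ced_ag.C.Full
import Pool.Agent.Lib.MP_fc2ced_ag.T.MCov
import Pool.Agent.Lib.MP_fc2ced_ag.G.Cur

/-! The coverings of chains. -/

open CategoryTheory Function

namespace Pool.Agent.Lib.MP_fc2ced_ag.T.C

open K

noncomputable section

variable {k : Type} [Field k] {F : Type} [Field F] [CharZero F]

open MP_fc2ced_ag.T.Pt hiding X

open Ob MCovAux in
theorem ss_mcov {S : Pt k} {ρ : Type} [Fintype ρ] {g : ρ → ∀ ⦃K⦄, S.X K → K}
    (hg : ∀ j, S.RegF (g j)) (h0 : ∀ j ⦃K⦄ (x : S.X K), S.L x → g j x ≠ 0) (χ : Chr k F)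
    (hχ : χ.Prim) (h : ∀ t : ρ → ZMod χ.N, SS ((S.mono g hg h0 fun j => (t j).val).E χ)) :
    SS ((S.mcov g hg χ.N).E (Chr.triv k F)) := by
  classical
  have h₀ : (Chr.triv k F).ψ = 1 := rfl
  refine SS.of_sum h (fun t => (mdown S g hg h0 χ h₀ _).hom)
    (fun t => (mup S g hg h0 χ h₀ _).hom) ?_
  have e : ∑ t : ρ → ZMod χ.N, (mdown S g hg h0 χ h₀ fun j => (t j).val).hom ≫
      (mup S g hg h0 χ h₀ fun j => (t j).val).hom =
      ((χ.N : F) ^ Fintype.card ρ) • 𝟙 ((S.mcov g hg χ.N).E (Chr.triv k F)) := by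
    refine Pt.hom_ext fun K z hz => ?_
    choose d hd using fun j =>
      χ.exists_cast (Chr.div_fix (hz.2 j) (χ.rt_spec _) (h0 j z.1 hz.1.1))
    have e2 : z.2 = fun j => χ.rt (g j z.1) * χ.cst K (d j) := funext fun j => by
      rw [← hd, mul_div_cancel₀ _ (χ.rt_ne (h0 j z.1 hz.1.1))]
    have h1 (t : ρ → ZMod χ.N) : ((mdown S g hg h0 χ h₀ fun j => (t j).val).hom ≫
        (mup S g hg h0 χ h₀ fun j => (t j).val).hom).1 K ((S.mcov g hg χ.N).cl F z) =
        ∑ c : ρ → ZMod χ.N, (∏ j, χ.ψ (t j * (d j - c j))) •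
          (S.mcov g hg χ.N).cl F (z.1, fun j => χ.rt (g j z.1) * χ.cst K (c j)) := by
      rw [Ob.comp_apply, IsLift.hom_cl _ hz, map_smul,
        (mup S g hg h0 χ h₀ fun j => (t j).val).hom_cl hz.1.1, Finset.smul_sum]
      refine Finset.sum_congr rfl fun c _ => ?_
      rw [smul_smul, ev_div χ (pow_prod χ _ hz.2) (χ.rt_spec _)
        (pow_prod χ _ fun j => rt_cst χ (g j z.1) (c j))
        ((S.mono g hg h0 fun j => (t j).val).ne _ hz.1.1), ← Finset.prod_div_distrib,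
        Finset.prod_congr rfl fun j _ => show _ = χ.cst K (t j * (d j - c j)) from ?_,
        Chr.ev_prod _ fun j => χ.cst_pow _]
      · simp only [Chr.ev_cast]
      · rw [e2, ← div_pow, mul_div_mul_left _ _ (χ.rt_ne (h0 j z.1 hz.1.1)),
          ← AddChar.map_sub_eq_div, ← AddChar.map_nsmul_eq_pow, nsmul_eq_mul, ZMod.natCast_zmod_val]
    rw [sum_app, LinearMap.sum_apply, Finset.sum_congr rfl fun t _ => h1 t, Finset.sum_comm]
    have h2 (c : ρ → ZMod χ.N) : ∑ t : ρ → ZMod χ.N, ∏ j, χ.ψ (t j * (d j - c j)) =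
        ∏ j, ∑ s, χ.ψ (s * (d j - c j)) := (Fintype.prod_sum fun j s => χ.ψ (s * (d j - c j))).symm
    simp only [← Finset.sum_smul, h2, AddChar.sum_mulShift _ hχ, sub_eq_zero]
    rw [Finset.sum_eq_single d (fun c _ hc => ?_) fun h => absurd (Finset.mem_univ d) h, ← e2]
    · simp only [if_true, ZMod.card, Finset.prod_const, Finset.card_univ]
      rfl
    · obtain ⟨j, hj⟩ := Function.ne_iff.1 hc
      rw [Finset.prod_eq_zero (Finset.mem_univ j) (by rw [if_neg hj.symm, Nat.cast_zero]), zero_smul]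
  rw [e]
  exact UIso.id.smul (pow_ne_zero _ χ.ne)

open MvPolynomial Prj in
theorem twFinite_of_aff {σ ι : Type} [Fintype σ] {f : ι → MvPolynomial (Option σ) k}
    (hf : ∀ j, ∃ d, (f j).IsHomogeneous d) (h : SS ((aff f).E (Chr.triv k F))) :
    P.TwFinite f fun _ : Unit => X none := by
  have hg (_ : Unit) : ∃ d, (X none : MvPolynomial (Option σ) k).IsHomogeneous d :=
    ⟨1, isHomogeneous_X _ _⟩
  have lv {K : Fld k} {x : Proj f K} : (qp hf hg).L x ↔ nr none x none ≠ 0 := by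
    obtain ⟨o, ho⟩ := exists_nr x
    rw [Ne, ← nr_eq_zero ho]
    change True ∧ ¬ P.OnH _ x ↔ _
    rw [onH_iff hg ho]
    simp
  have eq {K : Fld k} {x : Proj f K} (h : (qp hf hg).L x) :
      nr none x = fun o => o.elim 1 fun i => nr none x (some i) := funext fun o => by
    cases o
    exacts [nr_one (lv.1 h), rfl]
  have l1 ⦃K : Fld k⦄ (x : Proj f K) (h : (qp hf hg).L x) :
      (aff f).L fun i => nr none x (some i) :=
    ⟨fun _ => trivial, fun j => eq h ▸ root_nr hf (lv.1 h) j⟩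
  have sur {K : Fld k} (w : σ → K) (hw : (aff f).L w) :
      ∃ x, (qp hf hg).L x ∧ nr none x = fun o => o.elim 1 w :=
    ⟨Quot.mk _ (ofV (fun o => o.elim 1 w) ⟨none, one_ne_zero⟩ hw.2),
      lv.2 (div_ne_zero one_ne_zero one_ne_zero), funext fun _ => div_one _⟩
  refine schurFinite_of_qp hf hg (.of_eqv ⟨_, IsMap.bij (S := qp hf hg) (S' := aff f)
    (e := fun _ x i => nr none x (some i)) (.of_proper ⟨l1, fun _ _ _ _ _ _ b r _ => R.nr r (lv.1 b) _⟩
      (fun _ _ _ => Finset.prod_const_one) fun _ _ φ x z a b r => ?_) l1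
    (fun _ x y a b e => nr_inj (lv.1 a) (by rw [eq a, eq b, e])) fun _ w a =>
      (sur w a).imp fun _ c => ⟨c.1, _root_.funext fun i => congrFun c.2 (some i)⟩⟩ h)
  obtain ⟨y, e1, e2⟩ := sur z b
  refine ⟨y, e1, R.of_nr hf (lv.1 e1) fun o => ?_⟩
  rw [eq a, e2]
  cases o
  exacts [φ.one, r _]

variable [IsAlgClosed k] [IsAlgClosed F] {n r : ℕ} (p : Fin r → Fin (n + 1) → Polynomial k)
  (b : Fin r → Fin n → ℕ)

/-- The functions of which roots are taken. -/
def gch {K : Fld k} (l : Fin r) (x : Fin (n + 1) → K) : K :=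
  (∏ i, Polynomial.aeval (x i) (p l i)) * ∏ i : Fin n, (x i.succ - x i.castSucc) ^ b l i

omit [IsAlgClosed k] in
theorem rel_gch {K K' : Fld k} {φ : Place K K'} {x : Fin (n + 1) → K} {y : Fin (n + 1) → K'}
    (h : ∀ i, φ (x i) (y i)) (l : Fin r) : φ (gch p b l x) (gch p b l y) :=
  (Place.prod fun i _ => rel_aeval φ (h i) _).mul (Place.prod fun _ _ => ((h _).sub (h _)).pow _)

/-- The open set where the functions are invertible. -/
@[reducible] def Uo : Pt k :=
  ((line k).pi (Fin (n + 1))).restr (fun _ x => ∀ l, gch p b l x ≠ 0)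
    (Open.conv fun _ _ _ _ _ _ _ r h l => (rel_gch p b r l).ne_zero (h l))

omit [IsAlgClosed k] in
theorem reg_inv (l : Fin r) : (Uo p b).RegF fun _ x => (gch p b l x)⁻¹ :=
  fun _ _ _ _ _ _ h r => (rel_gch p b r l).inv (h.2 l)

open Polynomial in
theorem exists_fac [DecidableEq k] {q : k[X]} (hq : q ≠ 0) : ∃ c : k, c ≠ 0 ∧
    ∀ s : Finset k, q.roots.toFinset ⊆ s → ∀ (K : Fld k) (x : K), aeval x q =
      algebraMap k K c * ∏ μ ∈ s, (algebraMap k K μ - x) ^ q.roots.count μ := by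
  refine ⟨q.leadingCoeff * (-1) ^ q.roots.card, mul_ne_zero (leadingCoeff_ne_zero.2 hq)
    (pow_ne_zero _ (neg_ne_zero.2 one_ne_zero)), fun s hs K x => ?_⟩
  rw [← Finset.prod_subset hs fun μ _ h => by
    rw [Multiset.count_eq_zero.2 (mt Multiset.mem_toFinset.2 h), pow_zero],
    ← Finset.prod_multiset_map_count]
  conv_lhs => rw [(IsAlgClosed.splits q).eq_prod_roots]
  rw [map_mul, aeval_C, map_multiset_prod, Multiset.map_map, map_mul, mul_assoc, map_pow, map_neg,
    map_one, ← q.roots.card_map fun μ => algebraMap k K μ - x, ← Multiset.prod_map_neg,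
    Multiset.map_map]
  simp only [Function.comp_def, map_sub, aeval_X, aeval_C, neg_sub]

theorem ss_mono (h2 : (2 : k) ≠ 0) {χ : Chr k F} (hχ : χ.Prim) (t : Fin r → ℕ) :
    SS (((Uo p b).mono _ (reg_inv p b) (fun l _ _ h => inv_ne_zero (h.2 l)) t).E χ) := by
  classical
  by_cases hp : ∃ l i, p l i = 0
  · obtain ⟨l, i, hp⟩ := hp
    exact ss_empty fun _ x h => left_ne_zero_of_mul (h.2 l)
      (Finset.prod_eq_zero (Finset.mem_univ i) (by rw [hp, map_zero]))
  push Not at hp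
  choose c hc e using fun l i => exists_fac (hp l i)
  obtain ⟨P, hP⟩ : ∃ P : Fin r → ℕ → Multiset k, ∀ l (i : Fin (n + 1)), P l i = (p l i).roots :=
    ⟨fun l i => if h : i < n + 1 then (p l ⟨i, h⟩).roots else 0, fun _ i => dif_pos i.2⟩
  obtain ⟨B, hB⟩ : ∃ B : Fin r → ℕ → ℕ, ∀ l (i : Fin n), B l i = b l i :=
    ⟨fun l i => if h : i < n then b l ⟨i, h⟩ else 0, fun _ i => dif_pos i.2⟩
  let Λ (i : ℕ) : Finset k := Finset.univ.biUnion fun l => (P l i).toFinset
  have key {K : Fld k} (l : Fin r) (x : ℕ → K) : gch p b l (fun i => x i) =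
      algebraMap k K (∏ i, c l i) * ((∏ i ∈ Finset.range (n + 1), ∏ μ ∈ Λ i,
        (algebraMap k K μ - x i) ^ (P l i).count μ) *
        ∏ i ∈ Finset.range n, (x (i + 1) - x i) ^ B l i) := by
    rw [← mul_assoc, Finset.prod_range, Finset.prod_range, map_prod, ← Finset.prod_mul_distrib]
    refine congrArg₂ _ (Finset.prod_congr rfl fun i _ => ?_)
      (Finset.prod_congr rfl fun i _ => by rw [hB]; rfl)
    rw [hP, e l i (Λ i) (hP l i ▸ Finset.subset_biUnion_of_mem (fun l => (P l i).toFinset)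
      (Finset.mem_univ l))]
  have lv {K : Fld k} (x : ℕ → K) :
      LCh n Λ (fun i => ∃ l, B l i ≠ 0) x ↔ ∀ l, gch p b l (fun i => x i) ≠ 0 := by
    simp only [key, mul_ne_zero_iff, Finset.prod_ne_zero_iff, Finset.mem_range]
    refine ⟨fun h l => ⟨(_root_.map_ne_zero _).2 (Finset.prod_ne_zero_iff.2 fun i _ => hc l i),
      fun i hi μ hμ => pow_ne_zero _ (h.1 i (by omega) μ hμ), fun i hi z => ?_⟩,
      fun h => ⟨fun i hi μ hμ z => ?_, fun i hi ⟨l, hl⟩ z => (h l).2.2 i hi ?_⟩⟩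
    · exact h.2 i hi ⟨l, (pow_eq_zero_iff'.1 z).2⟩ (pow_eq_zero_iff'.1 z).1
    · obtain ⟨l, -, hl⟩ := Finset.mem_biUnion.1 hμ
      refine (h l).2.1 i (by omega) μ hμ ?_
      rw [z, zero_pow (Multiset.count_ne_zero.2 (Multiset.mem_toFinset.1 hl))]
    · rw [z, zero_pow hl]
  have pw {K : Fld k} (y : K) (m : Fin r → ℕ) :
      y ^ (-((∑ l, m l * t l : ℕ) : ℤ)) = ∏ l, (y ^ m l)⁻¹ ^ t l := by
    simp only [zpow_neg, zpow_natCast, inv_pow, Finset.prod_inv_distrib, ← pow_mul,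
      Finset.prod_pow_eq_pow_sum]
  have ex {K : Fld k} (y : Fin (n + 1) → K) :
      (fun i : Fin (n + 1) => if h : (i : ℕ) < n + 1 then y ⟨i, h⟩ else 0) = y :=
    funext fun i => dif_pos i.2
  refine .of_eqv (eqv_const (S := ch n Λ (fun i μ => -((∑ l, (P l i).count μ * t l : ℕ) : ℤ))
    (fun i => -((∑ l, B l i * t l : ℕ) : ℤ)) fun i => ∃ l, B l i ≠ 0)
    (S' := (Uo p b).mono _ (reg_inv p b) (fun l _ _ h => inv_ne_zero (h.2 l)) t)
    (e := fun _ x i => x i)
    (g := fun _ y i => if h : i < n + 1 then y ⟨i, h⟩ else 0)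
    ⟨fun _ x h => ⟨fun _ => trivial, (lv x).1 h.2⟩, fun _ _ _ _ _ _ _ r _ => r _⟩
    ⟨fun _ y h => ⟨fun i hi => dif_neg (by omega), (lv _).2 ((ex y).symm ▸ h.2)⟩,
      fun _ _ φ _ _ _ _ r i => ?_⟩ (∏ l, (∏ i, c l i)⁻¹ ^ t l) regF_one (fun K x _ => ?_)
    (fun _ x h => funext fun i => ?_) fun _ y _ => ex y).symm (all_ch h2 n hχ _ _ _ _)
  · split_ifs
    exacts [r _, φ.zero]
  · change ∏ l, (gch p b l fun i => x i)⁻¹ ^ t l = fCh _ _ _ _ _ x * _
    simp only [key, fCh, pw, mul_inv, mul_pow, Finset.prod_mul_distrib, map_prod, map_pow, map_inv₀,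
      one_pow, mul_one, ← Finset.prod_inv_distrib, ← Finset.prod_pow]
    refine (mul_comm _ _).trans (congrArg₂ _ (congrArg₂ _ (Finset.prod_comm.trans
      (Finset.prod_congr rfl fun i _ => Finset.prod_comm)) (Finset.prod_comm.trans
      (Finset.prod_congr rfl fun i _ => (ite_eq_left_iff.2 fun h => ?_).symm))) rfl)
    exact (Finset.prod_eq_one fun l _ => by simp [not_not.1 (not_exists.1 h l)]).symm
  · beta_reduce
    split_ifs with hi
    exacts [rfl, (h.1 i (by omega)).symm]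

open MvPolynomial in
theorem main (h2 : (2 : k) ≠ 0) {N : ℕ} (hN : (N : k) ≠ 0) :
    P.TwFinite (k := k) (σ := Fin (n + 1) ⊕ Fin r)
      (fun l : Fin r => X (some (.inr l)) ^ N *
          (∏ i, aeval ![X (some (.inl i)), X none] ((p l i).homogenize (p l i).natDegree)) *
          ∏ i : Fin n, (X (some (.inl i.succ)) - X (some (.inl i.castSucc))) ^ b l i -
        X none ^ (N + ∑ i, (p l i).natDegree + ∑ i, b l i))
      fun _ : Unit => X none := by
  obtain ⟨χ, hχ, e, -⟩ := (Chr.prim_triv (k := k) (F := ℂ)).exists_lift hN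
  obtain rfl : χ.N = N := e.trans (one_mul N)
  have hm (i : Fin (n + 1)) (q : Polynomial k) : IsHomogeneous (aeval ![X (some (.inl i)), X none]
      (q.homogenize q.natDegree) : MvPolynomial (Option (Fin (n + 1) ⊕ Fin r)) k) q.natDegree :=
    (congrArg _ (one_mul _)).mp ((Polynomial.isHomogeneous_homogenize q).aeval _
      (Fin.forall_fin_two.2 ⟨isHomogeneous_X _ _, isHomogeneous_X _ _⟩))
  have he {K : Fld k} (x : Fin (n + 1) ⊕ Fin r → K) (i : Fin (n + 1)) (q : Polynomial k) :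
      aeval (fun o => Option.elim o 1 x) (aeval ![X (some (.inl i)), X none]
        (q.homogenize q.natDegree) : MvPolynomial (Option (Fin (n + 1) ⊕ Fin r)) k) =
      Polynomial.aeval (x (.inl i)) q := by
    rw [← AlgHom.comp_apply, comp_aeval, Polynomial.aeval_homogenize_of_eq_one le_rfl _ (by simp)]
    simp
  have hl {K : Fld k} (x : Fin (n + 1) ⊕ Fin r → K) (l : Fin r) :
      aeval (fun o => Option.elim o 1 x) (X (some (.inr l)) ^ χ.N *
          (∏ i, aeval ![X (some (.inl i)), X none] ((p l i).homogenize (p l i).natDegree)) *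
          ∏ i : Fin n, (X (some (.inl i.succ)) - X (some (.inl i.castSucc))) ^ b l i -
        X none ^ (χ.N + ∑ i, (p l i).natDegree + ∑ i, b l i) :
        MvPolynomial (Option (Fin (n + 1) ⊕ Fin r)) k) = 0 ↔
      x (.inr l) ^ χ.N * gch p b l (fun i => x (.inl i)) = 1 := by
    simp only [map_sub, map_mul, map_prod, he]
    simp [sub_eq_zero, mul_assoc, gch]
  refine twFinite_of_aff (F := ℂ) (fun l => ⟨_, IsHomogeneous.sub (((isHomogeneous_X_pow _ _).mul
    (IsHomogeneous.prod Finset.univ _ _ fun i _ => hm i _)).mul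
    (IsHomogeneous.prod Finset.univ _ (b l) fun i _ => ?_)) (isHomogeneous_X_pow _ _)⟩)
    (.of_eqv (eqv_of_inv (S := aff _) (S' := (Uo p b).mcov _ (reg_inv p b) χ.N)
      (e := fun _ x => (fun i => x (.inl i), fun j => x (.inr j)))
      (g := fun _ x => Sum.elim x.1 x.2)
      ⟨fun _ x h => ⟨⟨⟨fun _ => trivial, fun l => right_ne_zero_of_mul
        (((hl x l).1 (h.2 l)).trans_ne one_ne_zero)⟩, fun _ => trivial⟩, fun l =>
        eq_inv_of_mul_eq_one_left ((hl x l).1 (h.2 l))⟩,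
        fun _ _ _ _ _ _ _ h => ⟨fun _ => h _, fun _ => h _⟩⟩
      ⟨fun _ x h => ⟨fun _ => trivial, fun l => (hl _ l).2
        ((congrArg (· * _) (h.2 l)).trans (inv_mul_cancel₀ (h.1.1.2 l)))⟩,
        fun _ _ _ _ _ _ _ h => Sum.rec h.1 h.2⟩
      (fun _ _ _ => by simp) (fun _ x _ => funext fun o => by cases o <;> rfl) fun _ _ _ => rfl)
      (ss_mcov _ _ χ hχ fun _ => ss_mono p b h2 hχ _))
  simpa using ((isHomogeneous_X k (some (Sum.inl i.succ : Fin (n + 1) ⊕ Fin r))).sub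
    (isHomogeneous_X k (some (Sum.inl i.castSucc)))).pow (b l i)

end

end Pool.Agent.Lib.MP_fc2ced_ag.T.C
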