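import Pool.Agent.Lib.MP_fc2ced_ag.G.Geo
import Pool.Agent.Lib.MP_fc2ced_ag.T.Sys

/-! Linear algebra: companion matrices, blocks, perturbations of rank one. -/

open Function Polynomial Matrix

namespace Pool.Agent.Lib.MP_fc2ced_ag.T.C

open K

noncomputable section

/-- Square matrices. -/
abbrev Mx (w : ℕ) (K : Type) := Matrix (Fin w) (Fin w) K

section Alg
variable {K : Type} [Field K] {w j l : ℕ}

variable (K) in
/-- Ones above the diagonal. -/
def sup (w : ℕ) : Mx w K := of fun a b => if (b : ℕ) = a + 1 then 1 else 0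

variable (K) in
/-- A one in the lower left corner. -/
def corner (j l : ℕ) : Matrix (Fin j) (Fin l) K :=
  of fun a b => if (a : ℕ) + 1 = j ∧ (b : ℕ) = 0 then 1 else 0

/-- Companion matrices: ones above the diagonal and a free last row. -/
def IsComp (Y : Mx w K) : Prop :=
  ∀ a b : Fin w, (a : ℕ) + 1 < w → Y a b = if (b : ℕ) = a + 1 then 1 else 0

/-- Strictly upper triangular matrices. -/
def IsNil (N : Mx w K) : Prop := ∀ a b : Fin w, b ≤ a → N a b = 0

/-- Lower triangular matrices with ones on the diagonal. -/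
def LUni (R : Mx w K) : Prop := (∀ a b : Fin w, a < b → R a b = 0) ∧ ∀ a, R a a = 1

variable (w) in
/-- The matrix of the coefficients of a family of polynomials. -/
def rowM (p : ℕ → K[X]) : Mx w K := of fun a b => (p a).coeff b

/-- The change of basis that makes the companion matrix bidiagonal. -/
def Rx (x : Fin w → K) : Mx w K := rowM w (chiA fun a (_ : Fin 1) => x a)

variable (j l) in
/-- The change of basis that makes the companion matrix block triangular. -/
def Rj (c : K[X]) : Mx (j + l) K := rowM (j + l) fun a => if a < j then X ^ a else X ^ (a - j) * c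

/-- Block triangular matrices. -/
def blk (A : Mx j K) (C : Matrix (Fin j) (Fin l) K) (B : Mx l K) : Mx (j + l) K :=
  reindex finSumFinEquiv finSumFinEquiv (fromBlocks A C 0 B)

variable (j l) in
/-- The upper left block. -/
def ul (Y : Mx (j + l) K) : Mx j K := Y.submatrix (Fin.castAdd l) (Fin.castAdd l)

variable (j l) in
/-- The upper right block. -/
def ur (Y : Mx (j + l) K) : Matrix (Fin j) (Fin l) K := Y.submatrix (Fin.castAdd l) (Fin.natAdd j)

variable (j l) in
/-- The lower right block. -/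
def lr (Y : Mx (j + l) K) : Mx l K := Y.submatrix (Fin.natAdd j) (Fin.natAdd j)

/-- Conjugation. -/
def cj (R Y : Mx w K) : Mx w K := R⁻¹ * Y * R

/-- The segment from the identity to `R`. -/
def seg (s : K) (R : Mx w K) : Mx w K := 1 + s • (R - 1)

/-- The matrix keeps the subspace. -/
def Keeps (Y : Mx w K) (W : Submodule K (Fin w → K)) : Prop := ∀ v ∈ W, Y *ᵥ v ∈ W

variable {R R' Y Y' N : Mx w K} {p : ℕ → K[X]} {x : Fin w → K} {c : K[X]}
  {A A' : Mx j K} {C C' : Matrix (Fin j) (Fin l) K} {B B' : Mx l K}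
  {W : Submodule K (Fin w → K)} {u v η : Fin w → K}

section Uni

theorem luni_rowM (h : ∀ a < w, (p a).Monic ∧ (p a).natDegree = a) : LUni (rowM w p) :=
  ⟨fun a _ hab => coeff_eq_zero_of_natDegree_lt ((h a a.2).2.trans_lt hab), fun a => by
    have := (h a a.2).1.coeff_natDegree
    rwa [(h a a.2).2] at this⟩

theorem luni_Rx (x : Fin w → K) : LUni (Rx x) :=
  luni_rowM fun a ha => ⟨monic_prod_of_monic _ _ fun _ _ => monic_X_sub_C _, by
    rw [chiA, natDegree_prod_of_monic _ _ fun _ _ => monic_X_sub_C _]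
    simp only [natDegree_X_sub_C, Finset.sum_const, smul_eq_mul, mul_one, Fin.card_filter_val_lt]
    omega⟩

theorem luni_Rj (m : c.Monic) (h : c.natDegree = j) : LUni (Rj j l c) :=
  luni_rowM fun a _ => by
    split_ifs with ha
    · exact ⟨monic_X_pow a, natDegree_X_pow a⟩
    · refine ⟨(monic_X_pow _).mul m, ?_⟩
      rw [(monic_X_pow _).natDegree_mul m, natDegree_X_pow, h]
      omega

theorem LUni.low (h : LUni R) : R.IsLowerTriangular := fun a b hab => h.1 a b hab

theorem uni_mul_diag (h : R.IsLowerTriangular) (h' : R'.IsLowerTriangular) (a : Fin w) :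
    (R * R') a a = R a a * R' a a := by
  rw [mul_apply]
  refine Finset.sum_eq_single a (fun b _ hb => ?_) fun ha => absurd (Finset.mem_univ a) ha
  rcases lt_or_gt_of_ne hb with h1 | h1
  · rw [h' (i := b) (j := a) h1, mul_zero]
  · rw [h (i := a) (j := b) h1, zero_mul]

theorem LUni.det (h : LUni R) : R.det = 1 := by
  rw [det_of_isLowerTriangular R h.low]
  exact Finset.prod_eq_one fun a _ => h.2 a

theorem LUni.inv (h : LUni R) : LUni R⁻¹ := by
  have hu : IsUnit R.det := h.det ▸ isUnit_one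
  have := R.invertibleOfIsUnitDet hu
  have h1 : R⁻¹.IsLowerTriangular := blockTriangular_inv_of_blockTriangular h.low
  refine ⟨fun a b hab => h1 (i := a) (j := b) hab, fun a => ?_⟩
  have h2 := uni_mul_diag h1 h.low a
  rw [nonsing_inv_mul R hu, one_apply_eq, h.2, mul_one] at h2
  exact h2.symm

theorem LUni.mul (h : LUni R) (h' : LUni R') : LUni (R * R') :=
  ⟨fun a b hab => (h.low.mul h'.low) (i := a) (j := b) hab, fun a => by
    rw [uni_mul_diag h.low h'.low, h.2, h'.2, mul_one]⟩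

theorem LUni.seg (h : LUni R) (s : K) : LUni (seg s R) :=
  ⟨fun a b hab => by simp [C.seg, h.1 a b hab, one_apply_ne hab.ne],
    fun a => by simp [C.seg, h.2 a]⟩

theorem seg_zero : seg 0 R = 1 := by simp [seg]

theorem seg_one : seg 1 R = R := by simp [seg]

theorem LUni.corner {R : Mx j K} {R' : Mx l K} (h : LUni R) (h' : LUni R') :
    R * corner K j l * R' = corner K j l := by
  have h1 : R * C.corner K j l = C.corner K j l := by
    ext a b
    have ha := a.2
    rw [mul_apply, Finset.sum_eq_single (⟨j - 1, by omega⟩ : Fin j) (fun c _ hc => ?_)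
      fun hc => absurd (Finset.mem_univ _) hc]
    · by_cases e : (a : ℕ) + 1 = j
      · rw [show (⟨j - 1, by omega⟩ : Fin j) = a from Fin.ext (by simp only; omega), h.2, one_mul]
      · rw [h.1 _ _ (by rw [Fin.lt_def]; simp only; omega), zero_mul, C.corner, of_apply,
          if_neg fun t => e t.1]
    · rw [C.corner, of_apply, if_neg fun t => hc (Fin.ext (by simp only; omega)), mul_zero]
  rw [h1]
  ext a b
  rw [mul_apply, Finset.sum_eq_single (⟨0, b.pos⟩ : Fin l) (fun c _ hc => ?_)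
    fun hc => absurd (Finset.mem_univ _) hc]
  · by_cases e : (b : ℕ) = 0
    · rw [show (⟨0, b.pos⟩ : Fin l) = b from Fin.ext e.symm, h'.2, mul_one]
    · rw [h'.1 _ _ (Nat.pos_of_ne_zero e), mul_zero, C.corner, of_apply, if_neg fun t => e t.2]
  · rw [C.corner, of_apply, if_neg fun t => hc (Fin.ext t.2), zero_mul]

theorem cj_add : cj R (Y + Y') = cj R Y + cj R Y' := by
  rw [cj, cj, cj, mul_add, add_mul]

theorem cj_sub : cj R (Y - Y') = cj R Y - cj R Y' := by
  rw [cj, cj, cj, mul_sub, sub_mul]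

theorem cj_zero : cj R 0 = 0 := by rw [cj, mul_zero, zero_mul]

theorem cj_mul (h : R.det ≠ 0) : cj R (Y * Y') = cj R Y * cj R Y' := by
  simp only [cj, mul_assoc, mul_nonsing_inv_cancel_left R _ h.isUnit]

theorem cj_one (h : R.det ≠ 0) : cj R 1 = 1 := by
  rw [cj, mul_one, nonsing_inv_mul R h.isUnit]

theorem cj_cj (h : R.det ≠ 0) (h' : R'.det ≠ 0) : cj R' (cj R Y) = cj (R * R') Y := by
  have _ := And.intro h h'
  simp only [cj, mul_assoc, Matrix.mul_inv_rev]

theorem cj_inv_cj (h : R.det ≠ 0) : cj R⁻¹ (cj R Y) = Y := by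
  rw [cj, cj, nonsing_inv_nonsing_inv R h.isUnit, mul_assoc R⁻¹,
    mul_nonsing_inv_cancel_left R _ h.isUnit, mul_nonsing_inv_cancel_right R _ h.isUnit]

theorem cj_cj_inv (h : R.det ≠ 0) : cj R (cj R⁻¹ Y) = Y := by
  rw [cj, cj, nonsing_inv_nonsing_inv R h.isUnit, mul_assoc R,
    nonsing_inv_mul_cancel_left R _ h.isUnit, nonsing_inv_mul_cancel_right R _ h.isUnit]

theorem det_cj (h : R.det ≠ 0) : (cj R Y).det = Y.det := by
  rw [cj, det_mul_comm, ← mul_assoc, mul_nonsing_inv R h.isUnit, one_mul]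

theorem charpoly_cj (h : R.det ≠ 0) : (cj R Y).charpoly = Y.charpoly := by
  rw [cj, charpoly_mul_comm, ← mul_assoc, mul_nonsing_inv R h.isUnit, one_mul]

theorem isNil_sup : IsNil (sup K w) := fun a b h =>
  if_neg (by have : (b : ℕ) ≤ a := h; omega)

theorem IsNil.up (h : IsNil N) (x : Fin w → K) : (diagonal x + N).IsUpperTriangular :=
  (blockTriangular_diagonal x).add fun a b hab => h a b hab.le

theorem IsNil.det (h : IsNil N) : (diagonal x + N).det = ∏ a, x a := by
  rw [det_of_isUpperTriangular (h.up x)]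
  simp [h _ _ le_rfl]

theorem IsNil.charpoly (h : IsNil N) :
    (diagonal x + N).charpoly = ∏ a, (X - Polynomial.C (x a)) := by
  rw [charpoly_of_isUpperTriangular _ (h.up x)]
  simp [h _ _ le_rfl]

theorem chiA_one_top (x : Fin w → K) :
    chiA (fun a (_ : Fin 1) => x a) w = ∏ a, (X - Polynomial.C (x a)) := by simp [chiA]

end Uni

section Blk

@[simp] theorem blk_cc (a b : Fin j) : blk A C B (Fin.castAdd l a) (Fin.castAdd l b) = A a b := by
  simp [blk]

@[simp] theorem blk_cn (a : Fin j) (b : Fin l) :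
    blk A C B (Fin.castAdd l a) (Fin.natAdd j b) = C a b := by simp [blk]

@[simp] theorem blk_nc (a : Fin l) (b : Fin j) :
    blk A C B (Fin.natAdd j a) (Fin.castAdd l b) = 0 := by simp [blk]

@[simp] theorem blk_nn (a b : Fin l) : blk A C B (Fin.natAdd j a) (Fin.natAdd j b) = B a b := by
  simp [blk]

omit [Field K] in
theorem blk_ext {Y Y' : Mx (j + l) K}
    (h1 : ∀ a b, Y (Fin.castAdd l a) (Fin.castAdd l b) = Y' (Fin.castAdd l a) (Fin.castAdd l b))
    (h2 : ∀ a b, Y (Fin.castAdd l a) (Fin.natAdd j b) = Y' (Fin.castAdd l a) (Fin.natAdd j b))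
    (h3 : ∀ a b, Y (Fin.natAdd j a) (Fin.castAdd l b) = Y' (Fin.natAdd j a) (Fin.castAdd l b))
    (h4 : ∀ a b, Y (Fin.natAdd j a) (Fin.natAdd j b) = Y' (Fin.natAdd j a) (Fin.natAdd j b)) :
    Y = Y' := by
  ext a b
  induction a using Fin.addCases <;> induction b using Fin.addCases
  exacts [h1 _ _, h2 _ _, h3 _ _, h4 _ _]

theorem cast_ne_nat (a : Fin j) (b : Fin l) : Fin.castAdd l a ≠ Fin.natAdd j b := fun h => by
  have h1 := congrArg Fin.val h
  have h2 := a.2
  simp only [Fin.val_castAdd, Fin.val_natAdd] at h1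
  omega

theorem blk_add : blk A C B + blk A' C' B' = blk (A + A') (C + C') (B + B') :=
  blk_ext (by simp) (by simp) (by simp) (by simp)

theorem blk_sub : blk A C B - blk A' C' B' = blk (A - A') (C - C') (B - B') :=
  blk_ext (by simp) (by simp) (by simp) (by simp)

theorem blk_mul : blk A C B * blk A' C' B' = blk (A * A') (A * C' + C * B') (B * B') := by
  simp only [blk, reindex_apply, submatrix_mul_equiv, fromBlocks_multiply, Matrix.mul_zero,
    Matrix.zero_mul, add_zero, zero_add]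

theorem blk_zero : blk (0 : Mx j K) 0 (0 : Mx l K) = 0 :=
  blk_ext (by simp) (by simp) (by simp) (by simp)

theorem blk_one : blk (1 : Mx j K) 0 (1 : Mx l K) = 1 := by
  rw [blk, fromBlocks_one, reindex_apply, submatrix_one_equiv]

theorem det_blk : (blk A C B).det = A.det * B.det := by
  rw [blk, det_reindex_self, det_fromBlocks_zero₂₁]

theorem charpoly_blk : (blk A C B).charpoly = A.charpoly * B.charpoly := by
  rw [blk, charpoly_reindex, charpoly_fromBlocks_zero₂₁]

theorem ul_blk : ul j l (blk A C B) = A := Matrix.ext blk_cc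

theorem ur_blk : ur j l (blk A C B) = C := Matrix.ext blk_cn

theorem lr_blk : lr j l (blk A C B) = B := Matrix.ext blk_nn

theorem blk_eq {Y : Mx (j + l) K} (h : ∀ a b, Y (Fin.natAdd j a) (Fin.castAdd l b) = 0) :
    blk (ul j l Y) (ur j l Y) (lr j l Y) = Y :=
  blk_ext blk_cc blk_cn (fun a b => (blk_nc a b).trans (h a b).symm) blk_nn

theorem blk_low (a : Fin l) (b : Fin j) : blk A C B (Fin.natAdd j a) (Fin.castAdd l b) = 0 :=
  blk_nc a b

theorem cj_blk (h : A'.det ≠ 0) (h' : B'.det ≠ 0) :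
    cj (blk A' 0 B') (blk A C B) = blk (cj A' A) (A'⁻¹ * C * B') (cj B' B) := by
  have h1 : (blk A' 0 B')⁻¹ = blk A'⁻¹ 0 B'⁻¹ := inv_eq_left_inv (by
    rw [blk_mul, nonsing_inv_mul _ h.isUnit, nonsing_inv_mul _ h'.isUnit, Matrix.mul_zero,
      Matrix.zero_mul, add_zero, blk_one])
  rw [cj, h1, blk_mul, blk_mul, Matrix.mul_zero, Matrix.zero_mul, add_zero, zero_add, cj, cj]

theorem blk_sup : blk (sup K j) (corner K j l) (sup K l) = sup K (j + l) := by
  refine blk_ext (fun a b => blk_cc a b) (fun a b => (blk_cn a b).trans ?_)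
    (fun a b => (blk_nc a b).trans ?_) fun a b => (blk_nn a b).trans ?_
  · have := a.2
    exact if_congr (by simp only [Fin.val_castAdd, Fin.val_natAdd]; omega) rfl rfl
  · have := b.2
    exact (if_neg (by simp only [Fin.val_castAdd, Fin.val_natAdd]; omega)).symm
  · exact if_congr (by simp only [Fin.val_natAdd]; omega) rfl rfl

theorem blk_diagonal (x : Fin (j + l) → K) :
    blk (diagonal (G.cut j l x).1) 0 (diagonal (G.cut j l x).2) = diagonal x := by
  refine blk_ext (fun a b => (blk_cc a b).trans ?_) (fun a b => (blk_cn a b).trans ?_)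
    (fun a b => (blk_nc a b).trans ?_) fun a b => (blk_nn a b).trans ?_
  · exact if_congr (Fin.castAdd_injective j l).eq_iff.symm rfl rfl
  · exact (diagonal_apply_ne _ (cast_ne_nat a b)).symm
  · exact (diagonal_apply_ne _ (cast_ne_nat b a).symm).symm
  · exact if_congr (Fin.natAdd_injective l j).eq_iff.symm rfl rfl

theorem isNil_blk : IsNil (blk A C B) ↔ IsNil A ∧ IsNil B := by
  refine ⟨fun h => ⟨fun a b e => (blk_cc a b).symm.trans (h _ _ e),
    fun a b e => (blk_nn a b).symm.trans (h _ _ (Nat.add_le_add_left e j))⟩, fun h a b e => ?_⟩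
  induction a using Fin.addCases with
  | left a =>
    induction b using Fin.addCases with
    | left b => exact (blk_cc a b).trans (h.1 a b e)
    | right b => exact absurd (a.2.trans_le (Nat.le_add_right j b)) (not_lt.2 e)
  | right a =>
    induction b using Fin.addCases with
    | left b => exact blk_nc a b
    | right b => exact (blk_nn a b).trans (h.2 a b (Nat.le_of_add_le_add_left e))

theorem IsNil.blk_eq {N : Mx (j + l) K} (h : IsNil N) :
    blk (ul j l N) (ur j l N) (lr j l N) = N :=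
  C.blk_eq fun a b => h _ _ (b.2.le.trans (Nat.le_add_right j a))

end Blk

section Comp

theorem cp_mul_rowM (M : Mx w K) (p : ℕ → K[X]) (a b : Fin w) :
    (M * rowM w p) a b = (∑ c : Fin w, M a c • p c).coeff b := by
  simp [mul_apply, rowM]

theorem cp_rowM_sup (p : ℕ → K[X]) (a b : Fin w) :
    (rowM w p * sup K w) a b = (X * p a).coeff b := by
  obtain ⟨b, hb⟩ := b
  rcases b with _ | b
  · simp [mul_apply, sup]
  · rw [mul_apply, Finset.sum_eq_single ⟨b, by omega⟩ (fun c _ hc => ?_) (by simp)]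
    · simp [sup, rowM, coeff_X_mul]
    · have : ¬ b = c := fun e => hc (Fin.ext e.symm)
      simp [sup, this]

theorem cp_key {M : Mx w K} (hR : LUni (rowM w p))
    (h : ∀ a : Fin w, (a : ℕ) + 1 < w → ∑ c : Fin w, M a c • p c = X * p a) :
    IsComp (cj (rowM w p) M) := by
  intro a b ha
  have e : sup K w = (rowM w p)⁻¹ * (rowM w p * sup K w) := by
    rw [← Matrix.mul_assoc, nonsing_inv_mul _ (by rw [hR.det]; exact isUnit_one), Matrix.one_mul]
  change _ = sup K w a b
  rw [e, cj, Matrix.mul_assoc, mul_apply, mul_apply]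
  refine Finset.sum_congr rfl fun c _ => ?_
  rcases lt_or_ge a c with hc | hc
  · rw [hR.inv.1 a c hc, zero_mul, zero_mul]
  · rw [cp_mul_rowM, cp_rowM_sup, h c (lt_of_le_of_lt (Nat.succ_le_succ hc) ha)]

theorem cp_sum {M : Type} [AddCommGroup M] [Module K M] (f : ℕ → M) {m : ℕ} (hm : m < w) :
    ∑ c : Fin w, (if (c : ℕ) = m then (1 : K) else 0) • f c = f m := by
  rw [Finset.sum_eq_single ⟨m, hm⟩ (fun c _ hc => ?_) (by simp)]
  · simp
  · rw [if_neg fun e => hc (Fin.ext e), zero_smul]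

theorem cp_chi_succ (x : Fin w → K) (a : Fin w) : chiA (fun a (_ : Fin 1) => x a) (a + 1) =
    (X - Polynomial.C (x a)) * chiA (fun a (_ : Fin 1) => x a) a := by
  have : (Finset.univ.filter fun c : Fin w => (c : ℕ) < a + 1) =
      insert a (Finset.univ.filter fun c : Fin w => (c : ℕ) < a) := by
    ext c
    simp only [Finset.mem_filter, Finset.mem_univ, true_and, Finset.mem_insert, Fin.ext_iff]
    omega
  rw [chiA, this, Finset.prod_insert (by simp), chiA]
  simp

theorem isComp_Rx (x : Fin w → K) : IsComp (cj (Rx x) (diagonal x + sup K w)) := by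
  refine cp_key (luni_Rx x) fun a ha => ?_
  simp only [Matrix.add_apply, add_smul, Finset.sum_add_distrib, sup, of_apply]
  rw [cp_sum _ ha, cp_chi_succ, Finset.sum_eq_single a (fun c _ hc => by
    rw [diagonal_apply_ne' _ hc, zero_smul]) (by simp), diagonal_apply_eq, smul_eq_C_mul]
  ring

theorem cp_pow (h : IsComp Y) (h0 : 0 < w) : ∀ k < w, ∀ b : Fin w,
    (Y ^ k) ⟨0, h0⟩ b = if (b : ℕ) = k then 1 else 0 := by
  intro k
  induction k with
  | zero => intro _ b; simp [one_apply, Fin.ext_iff, eq_comm]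
  | succ k ih =>
    intro hk b
    rw [pow_succ, mul_apply, Finset.sum_eq_single ⟨k, by omega⟩ (fun c _ hc => by
      rw [ih (by omega), if_neg fun e => hc (Fin.ext e), zero_mul]) (by simp), ih (by omega),
      if_pos rfl, one_mul, h _ _ hk]

theorem cp_low {q : K[X]} (h : q.natDegree < j) : ∑ c : Fin j, q.coeff c • (X : K[X]) ^ (c : ℕ) = q := by
  conv_rhs => rw [q.as_sum_range_C_mul_X_pow' h, Finset.sum_range]
  simp only [smul_eq_C_mul]

theorem cp_monic (m : c.Monic) (h : c.natDegree = j) :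
    ∑ a : Fin j, c.coeff a • (X : K[X]) ^ (a : ℕ) + X ^ j = c := by
  conv_rhs => rw [m.as_sum, h, Finset.sum_range, add_comm]
  simp only [smul_eq_C_mul]

theorem cp_coeff (h : IsComp Y) (a b : Fin w) (ha : (a : ℕ) + 1 = w) :
    Y a b = -Y.charpoly.coeff b := by
  have h0 : 0 < w := a.pos
  have h1 := Y.aeval_self_charpoly
  rw [← cp_monic Y.charpoly_monic (Y.charpoly_natDegree_eq_dim.trans (Fintype.card_fin w))] at h1
  simp only [map_add, map_sum, map_smul, map_pow, aeval_X] at h1
  have h2 := congrFun (congrFun h1 ⟨0, h0⟩) b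
  have h3 : Y ^ w = Y ^ (a : ℕ) * Y := by rw [← pow_succ, ha]
  rw [Matrix.add_apply, Matrix.sum_apply, h3, mul_apply, Finset.sum_eq_single b (fun c _ hc => by
      rw [Matrix.smul_apply, cp_pow h h0 _ c.2, if_neg fun e => hc (Fin.ext e).symm, smul_zero])
      (by simp), Finset.sum_eq_single a (fun c _ hc => by
      rw [cp_pow h h0 _ a.2, if_neg fun e => hc (Fin.ext e), zero_mul]) (by simp),
    Matrix.smul_apply, cp_pow h h0 _ a.2, cp_pow h h0 _ b.2, if_pos rfl, if_pos rfl, one_mul,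
    smul_eq_mul, mul_one, Matrix.zero_apply] at h2
  linear_combination h2

theorem cp_left (q : ℕ → K[X]) (a : Fin j) : ∑ e : Fin (j + l), blk A C B (Fin.castAdd l a) e • q e =
    ∑ e : Fin j, A a e • q e + ∑ e : Fin l, C a e • q (j + e) := by
  rw [Fin.sum_univ_add]
  simp [blk]

theorem cp_right (q : ℕ → K[X]) (a : Fin l) :
    ∑ e : Fin (j + l), blk A C B (Fin.natAdd j a) e • q e = ∑ e : Fin l, B a e • q (j + e) := by
  rw [Fin.sum_univ_add]
  simp [blk]

theorem isComp_Rj (h : IsComp A) (h' : IsComp B) :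
    IsComp (cj (Rj j l A.charpoly) (blk A (corner K j l) B)) := by
  have hd := A.charpoly_natDegree_eq_dim.trans (Fintype.card_fin j)
  refine cp_key (luni_Rj A.charpoly_monic hd) fun a ha => ?_
  induction a using Fin.addCases with
  | left a =>
    rw [cp_left fun a => if a < j then X ^ a else X ^ (a - j) * A.charpoly]
    simp only [Fin.val_castAdd, Fin.is_lt, if_true, add_lt_iff_neg_left, not_lt_zero, if_false,
      Nat.add_sub_cancel_left, corner, of_apply] at ha ⊢
    rcases (Nat.succ_le_of_lt a.2).lt_or_eq with hj | hj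
    · simp only [h a _ hj, (Nat.ne_of_lt hj : (a : ℕ) + 1 ≠ j), false_and, if_false, zero_smul,
        Finset.sum_const_zero, add_zero]
      rw [cp_sum (fun m => (X : K[X]) ^ m) hj, pow_succ']
    · have hj' : (a : ℕ) + 1 = j := hj
      simp only [cp_coeff h a _ hj', hj', true_and, neg_smul, Finset.sum_neg_distrib]
      rw [cp_sum (fun m => (X : K[X]) ^ m * A.charpoly) (by omega), ← pow_succ', hj', pow_zero,
        one_mul]
      linear_combination (-1 : K[X]) * cp_monic A.charpoly_monic hd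
  | right a =>
    rw [cp_right fun a => if a < j then X ^ a else X ^ (a - j) * A.charpoly]
    simp only [Fin.val_natAdd, add_lt_iff_neg_left, not_lt_zero, if_false,
      Nat.add_sub_cancel_left] at ha ⊢
    have hl : (a : ℕ) + 1 < l := by omega
    simp only [h' a _ hl]
    rw [cp_sum (fun m => (X : K[X]) ^ m * A.charpoly) hl, pow_succ', mul_assoc]

theorem cp_chi_add (x : Fin (j + l) → K) (m : ℕ) : chiA (fun a (_ : Fin 1) => x a) m =
    chiA (fun a (_ : Fin 1) => (G.cut j l x).1 a) m *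
      chiA (fun a (_ : Fin 1) => (G.cut j l x).2 a) (m - j) := by
  simp only [chiA, Finset.prod_filter, Fin.prod_univ_add, G.cut, Fin.val_castAdd, Fin.val_natAdd,
    Nat.lt_sub_iff_add_lt']

theorem cp_chi_deg (x : Fin w → K) (a : Fin w) :
    (chiA (fun a (_ : Fin 1) => x a) a).natDegree < w := by
  rw [chiA, natDegree_prod_of_monic _ _ fun _ _ => monic_X_sub_C _]
  simp only [natDegree_X_sub_C, Finset.sum_const, smul_eq_mul, mul_one]
  exact (Finset.card_lt_card (Finset.filter_ssubset.2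
    ⟨a, Finset.mem_univ _, Nat.lt_irrefl _⟩)).trans_eq (Finset.card_fin w)

theorem Rx_add (x : Fin (j + l) → K) : Rx x = blk (Rx (G.cut j l x).1) 0 (Rx (G.cut j l x).2) *
    Rj j l (∏ a, (X - Polynomial.C ((G.cut j l x).1 a))) := by
  ext a b
  rw [Rj, cp_mul_rowM, Rx, rowM, of_apply, cp_chi_add]
  generalize hc : ∏ a, (X - Polynomial.C ((G.cut j l x).1 a)) = c
  congr 1
  induction a using Fin.addCases with
  | left a =>
    rw [cp_left fun a => if a < j then X ^ a else X ^ (a - j) * c]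
    simp only [Fin.val_castAdd, Fin.is_lt, if_true, Matrix.zero_apply, zero_smul,
      Finset.sum_const_zero, add_zero, Rx, rowM, of_apply]
    rw [cp_low (cp_chi_deg _ a), Nat.sub_eq_zero_of_le a.2.le]
    simp [chiA]
  | right a =>
    rw [cp_right fun a => if a < j then X ^ a else X ^ (a - j) * c]
    simp only [Fin.val_natAdd, add_lt_iff_neg_left, not_lt_zero, if_false,
      Nat.add_sub_cancel_left, Rx, rowM, of_apply, ← smul_mul_assoc, ← Finset.sum_mul]
    rw [cp_low (cp_chi_deg _ a), mul_comm, ← hc]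
    congr 1
    rw [chiA, Finset.filter_true_of_mem fun e _ => lt_of_lt_of_le e.2 (Nat.le_add_right _ _)]
    simp

/-- A companion matrix is determined by its characteristic polynomial. -/
theorem IsComp.coeff (h : IsComp Y) (a b : Fin w) (ha : (a : ℕ) + 1 = w) :
    Y a b = -Y.charpoly.coeff b := cp_coeff h a b ha

theorem exists_comp (m : c.Monic) (h : c.natDegree = w) :
    ∃ Y : Mx w K, IsComp Y ∧ Y.charpoly = c := by
  let Y : Mx w K := of fun a b =>
    if (a : ℕ) + 1 < w then (if (b : ℕ) = a + 1 then 1 else 0) else -c.coeff b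
  have hY : IsComp Y := fun a b ha => if_pos ha
  refine ⟨Y, hY, ?_⟩
  rw [← cp_monic m h,
    ← cp_monic Y.charpoly_monic (Y.charpoly_natDegree_eq_dim.trans (Fintype.card_fin w))]
  congr 1
  refine Finset.sum_congr rfl fun b _ => ?_
  have h0 := b.pos
  have := hY.coeff ⟨w - 1, by omega⟩ b (by simp only; omega)
  rw [show Y ⟨w - 1, by omega⟩ b = -c.coeff b from if_neg (by simp only; omega), neg_inj] at this
  rw [this]

/-- The last basis vector is cyclic. -/
theorem IsComp.eq_top (h : IsComp Y) (k : Keeps Y W)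
    (hv : (fun a : Fin w => if (a : ℕ) + 1 = w then (1 : K) else 0) ∈ W) : W = ⊤ := by
  have h1 : ∀ (i : ℕ) (m : Fin w), m + i + 1 = w → Pi.single m 1 ∈ W := by
    intro i
    induction i with
    | zero =>
      intro m hm
      convert hv using 1
      funext a
      rw [Pi.single_apply]
      exact if_congr (by rw [Fin.ext_iff]; omega) rfl rfl
    | succ i ih =>
      intro m hm
      have := W.sub_mem (k _ (ih ⟨m + 1, by omega⟩ (by simp only; omega)))
        (W.smul_mem (Y ⟨w - 1, by omega⟩ ⟨m + 1, by omega⟩) hv)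
      convert this using 1
      funext a
      rw [mulVec_single_one, Pi.sub_apply, Pi.smul_apply, Pi.single_apply, smul_eq_mul, col_apply]
      rcases (Nat.succ_le_of_lt a.2).lt_or_eq with ha | ha
      · rw [h a _ ha, if_neg (Nat.ne_of_lt ha), mul_zero, sub_zero]
        exact if_congr (by rw [Fin.ext_iff]; simp only; omega) rfl rfl
      · rw [if_pos ha, mul_one, if_neg (by rw [Fin.ext_iff]; omega),
          show a = ⟨w - 1, by omega⟩ from Fin.ext (by simp only; omega), sub_self]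
  refine eq_top_iff.2 fun v _ => ?_
  rw [pi_eq_sum_univ' v]
  exact W.sum_mem fun m _ => W.smul_mem _ (h1 (w - 1 - m) m (by have := m.2; omega))

theorem IsComp.add (h : IsComp Y) (s : K) (η : Fin w → K) :
    IsComp (Y + vecMulVec (s • fun a : Fin w => if (a : ℕ) + 1 = w then (1 : K) else 0) η) := by
  intro a b ha
  simp [vecMulVec_apply, h a b ha, ha.ne]

end Comp

section One

theorem det_add_one (h : Y.det ≠ 0) :
    (Y + vecMulVec u η).det = Y.det * (1 + η ⬝ᵥ Y⁻¹ *ᵥ u) := by
  have e : Y + vecMulVec u η = Y * (1 + vecMulVec (Y⁻¹ *ᵥ u) η) := by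
    rw [Matrix.mul_add, Matrix.mul_one, mul_vecMulVec, mulVec_mulVec,
      mul_nonsing_inv _ (Ne.isUnit h), one_mulVec]
  rw [e, det_mul, vecMulVec_eq Unit, det_one_add_replicateCol_mul_replicateRow]

theorem inv_add_one (h : Y.det ≠ 0) (h' : 1 + η ⬝ᵥ Y⁻¹ *ᵥ u ≠ 0) :
    (Y + vecMulVec u η)⁻¹ *ᵥ v =
      Y⁻¹ *ᵥ v - ((η ⬝ᵥ Y⁻¹ *ᵥ v) / (1 + η ⬝ᵥ Y⁻¹ *ᵥ u)) • Y⁻¹ *ᵥ u := by
  have hd : IsUnit (Y + vecMulVec u η).det := by
    rw [det_add_one h]
    exact (mul_ne_zero h h').isUnit
  have k : ∀ z, Y *ᵥ Y⁻¹ *ᵥ z = z := fun z => by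
    rw [mulVec_mulVec, mul_nonsing_inv _ (Ne.isUnit h), one_mulVec]
  have e : (Y + vecMulVec u η) *ᵥ (Y⁻¹ *ᵥ v -
      ((η ⬝ᵥ Y⁻¹ *ᵥ v) / (1 + η ⬝ᵥ Y⁻¹ *ᵥ u)) • Y⁻¹ *ᵥ u) = v := by
    rw [add_mulVec, vecMulVec_mulVec, op_smul_eq_smul, mulVec_sub, mulVec_smul, k, k,
      dotProduct_sub, dotProduct_smul, smul_eq_mul, sub_add_eq_add_sub, add_sub_assoc, ← sub_smul,
      add_eq_left]
    refine smul_eq_zero_of_left ?_ _
    field_simp
    ring
  conv_lhs => rw [← e, mulVec_mulVec, nonsing_inv_mul _ hd, one_mulVec]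

theorem add_one_mulVec : (Y + vecMulVec u η) *ᵥ v = Y *ᵥ v + (η ⬝ᵥ v) • u := by
  rw [add_mulVec, vecMulVec_mulVec, op_smul_eq_smul]

theorem Keeps.inv (h : Keeps Y W) (h' : Y.det ≠ 0) : Keeps Y⁻¹ W := fun v hv => by
  have k : ∀ z, Y⁻¹ *ᵥ Y *ᵥ z = z := fun z => by
    rw [mulVec_mulVec, nonsing_inv_mul _ (Ne.isUnit h'), one_mulVec]
  obtain ⟨z, hz⟩ := LinearMap.surjective_of_injective (f := (mulVecLin Y).restrict h)
    (fun a b e => Subtype.ext ((k _).symm.trans
      ((congrArg (fun z : W => Y⁻¹ *ᵥ z.1) e).trans (k _)))) ⟨v, hv⟩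
  rw [← show Y *ᵥ z.1 = v from congrArg Subtype.val hz, k]
  exact z.2

theorem Keeps.of_inv (h : Keeps Y⁻¹ W) (h' : Y.det ≠ 0) : Keeps Y W := by
  have := h.inv (isUnit_nonsing_inv_det _ (Ne.isUnit h')).ne_zero
  rwa [nonsing_inv_nonsing_inv _ (Ne.isUnit h')] at this

theorem Keeps.sub (h : Keeps Y W) (h' : Keeps Y' W) : Keeps (Y - Y') W := fun v hv => by
  rw [sub_mulVec]
  exact W.sub_mem (h v hv) (h' v hv)

theorem Keeps.add (h : Keeps Y W) (h' : Keeps Y' W) : Keeps (Y + Y') W := fun v hv => by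
  rw [add_mulVec]
  exact W.add_mem (h v hv) (h' v hv)

theorem keeps_scalar (t : K) : Keeps (scalar (Fin w) t) W := fun v hv => by
  rw [scalar_apply, show (diagonal fun _ => t) *ᵥ v = t • v from funext (mulVec_diagonal _ v)]
  exact W.smul_mem t hv

theorem Keeps.add_one (h : Keeps Y W) (hu : u ∈ W) : Keeps (Y + vecMulVec u η) W := fun v hv => by
  rw [add_one_mulVec]
  exact W.add_mem (h v hv) (W.smul_mem _ hu)

theorem Keeps.det_add_one (h : Keeps Y W) (h' : Y.det ≠ 0) (hu : u ∈ W)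
    (hη : ∀ v ∈ W, η ⬝ᵥ v = 0) : (Y + vecMulVec u η).det = Y.det := by
  rw [C.det_add_one h', hη _ (h.inv h' u hu), add_zero, mul_one]

theorem Keeps.charpoly_add_one [Infinite K] (h : Keeps Y W) (hu : u ∈ W)
    (hη : ∀ v ∈ W, η ⬝ᵥ v = 0) : (Y + vecMulVec u η).charpoly = Y.charpoly := by
  refine eq_of_infinite_eval_eq _ _ ((Y.charpoly.rootSet_finite K).infinite_compl.mono
    fun t ht => ?_)
  have h0 : (scalar (Fin w) t - Y).det ≠ 0 := fun e => ht ((mem_rootSet_of_ne
    Y.charpoly_monic.ne_zero).2 (by rw [coe_aeval_eq_eval, eval_charpoly, e]))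
  change Polynomial.eval t _ = Polynomial.eval t _
  rw [eval_charpoly, eval_charpoly, ← sub_sub, sub_eq_add_neg _ (vecMulVec u η), ← neg_vecMulVec]
  exact ((keeps_scalar t).sub h).det_add_one h0 (W.neg_mem hu) hη

theorem coeff_charpoly_zero : Y.charpoly.coeff 0 = (-1) ^ w * Y.det := by
  rw [det_eq_sign_charpoly_coeff, Fintype.card_fin, ← mul_assoc, ← mul_pow, neg_mul_neg, one_mul,
    one_pow, one_mul]

theorem goodP_charpoly (h : Y.det ≠ 0) : GoodP w Y.charpoly :=
  ⟨Y.charpoly_monic, Y.charpoly_natDegree_eq_dim.trans (Fintype.card_fin w), by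
    rw [coeff_charpoly_zero]
    exact mul_ne_zero (pow_ne_zero _ (neg_ne_zero.2 one_ne_zero)) h⟩

end One

end Alg

section Rel
variable {k : Type} [Field k] {K K' : Fld k} (φ : Place K K') {α β γ : Type}

/-- Entrywise specialization of matrices. -/
def MR (A : Matrix α β K) (B : Matrix α β K') : Prop := ∀ a b, φ (A a b) (B a b)

variable {φ} {A A₁ : Matrix α β K} {B B₁ : Matrix α β K'} {w j l : ℕ}

theorem mr_zero : MR φ (0 : Matrix α β K) 0 := fun _ _ => φ.zero

theorem rel_ite {c : Prop} [Decidable c] {a a' : K} {b b' : K'} (h : φ a b) (h' : φ a' b') :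
    φ (if c then a else a') (if c then b else b') := by
  split_ifs
  exacts [h, h']

theorem mr_one [DecidableEq α] : MR φ (1 : Matrix α α K) 1 := fun a b => by
  rw [one_apply, one_apply]
  exact rel_ite φ.one φ.zero

theorem MR.add (h : MR φ A B) (h' : MR φ A₁ B₁) : MR φ (A + A₁) (B + B₁) := fun a b =>
  (h a b).add (h' a b)

theorem MR.sub (h : MR φ A B) (h' : MR φ A₁ B₁) : MR φ (A - A₁) (B - B₁) := fun a b =>
  (h a b).sub (h' a b)

theorem MR.smul {s : K} {s' : K'} (hs : φ s s') (h : MR φ A B) : MR φ (s • A) (s' • B) :=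
  fun a b => hs.mul (h a b)

theorem MR.mul [Fintype β] {C : Matrix β γ K} {D : Matrix β γ K'} (h : MR φ A B)
    (h' : MR φ C D) : MR φ (A * C) (B * D) := fun a c => by
  rw [Matrix.mul_apply, Matrix.mul_apply]
  exact Place.sum fun b _ => (h a b).mul (h' b c)

theorem MR.transpose (h : MR φ A B) : MR φ Aᵀ Bᵀ := fun a b => h b a

theorem MR.eq (h : MR φ A B) (h' : MR φ A₁ B₁) (e : A = A₁) : B = B₁ :=
  Matrix.ext fun a b => (h a b).eq_of (h' a b) (by rw [e])

theorem MR.mulVec [Fintype β] (h : MR φ A B) {v : β → K} {v' : β → K'} (hv : ∀ b, φ (v b) (v' b))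
    (a : α) : φ ((A *ᵥ v) a) ((B *ᵥ v') a) :=
  Place.sum fun b _ => (h a b).mul (hv b)

theorem rel_dot [Fintype α] {u v : α → K} {u' v' : α → K'} (h : ∀ a, φ (u a) (u' a))
    (h' : ∀ a, φ (v a) (v' a)) : φ (u ⬝ᵥ v) (u' ⬝ᵥ v') :=
  Place.sum fun a _ => (h a).mul (h' a)

theorem mr_vecMulVec {u : α → K} {u' : α → K'} {v : β → K} {v' : β → K'} (h : ∀ a, φ (u a) (u' a))
    (h' : ∀ b, φ (v b) (v' b)) : MR φ (vecMulVec u v) (vecMulVec u' v') := fun a b =>
  (h a).mul (h' b)

theorem mr_diagonal [DecidableEq α] {x : α → K} {x' : α → K'} (h : ∀ a, φ (x a) (x' a)) :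
    MR φ (diagonal x) (diagonal x') := fun a b => by
  rw [diagonal_apply, diagonal_apply]
  exact rel_ite (h a) φ.zero

theorem mr_scalar [DecidableEq α] [Fintype α] {s : K} {s' : K'} (h : φ s s') :
    MR φ (scalar α s) (scalar α s') :=
  mr_diagonal fun _ => h

theorem mr_sup : MR φ (sup K w) (sup K' w) := fun _ _ => rel_ite φ.one φ.zero

theorem mr_corner : MR φ (corner K j l) (corner K' j l) := fun _ _ => rel_ite φ.one φ.zero

variable {Y R : Mx w K} {Y' R' : Mx w K'}

theorem MR.det (h : MR φ Y Y') : φ Y.det Y'.det := Place.det h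

theorem MR.inv (h : MR φ Y Y') (h0 : Y'.det ≠ 0) : MR φ Y⁻¹ Y'⁻¹ := Place.inv_matrix h h0

theorem MR.charpoly (h : MR φ Y Y') : φ.PR Y.charpoly Y'.charpoly := Place.charpoly h

theorem MR.pow (h : MR φ Y Y') (m : ℕ) : MR φ (Y ^ m) (Y' ^ m) := by
  induction m with
  | zero => simpa only [pow_zero] using mr_one
  | succ m ih => simpa only [pow_succ] using ih.mul h

theorem MR.aeval (h : MR φ Y Y') {p : K[X]} {p' : K'[X]} (hp : φ.PR p p') :
    MR φ (aeval Y p) (aeval Y' p') := fun a b => by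
  rw [aeval_eq_sum_range' (Nat.lt_succ_of_le (le_max_left p.natDegree p'.natDegree)),
    aeval_eq_sum_range' (Nat.lt_succ_of_le (le_max_right p.natDegree p'.natDegree)),
    Matrix.sum_apply, Matrix.sum_apply]
  exact Place.sum fun i _ => MR.smul (hp i) (h.pow i) a b

theorem MR.cj (h : MR φ R R') (h0 : R'.det ≠ 0) (h' : MR φ Y Y') : MR φ (cj R Y) (cj R' Y') :=
  ((h.inv h0).mul h').mul h

theorem MR.seg {s : K} {s' : K'} (hs : φ s s') (h : MR φ R R') : MR φ (seg s R) (seg s' R') :=
  mr_one.add (MR.smul hs (h.sub mr_one))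

theorem mr_Rx {x : Fin w → K} {x' : Fin w → K'} (h : ∀ a, φ (x a) (x' a)) :
    MR φ (Rx x) (Rx x') := fun a b =>
  Place.PR.chiA (x := fun a (_ : Fin 1) => x a) (x' := fun a (_ : Fin 1) => x' a)
    (fun a _ => h a) a b

theorem mr_Rj {c : K[X]} {c' : K'[X]} (h : φ.PR c c') : MR φ (Rj j l c) (Rj j l c') :=
  fun a b => by
  simp only [Rj, rowM, of_apply]
  split_ifs
  exacts [Place.PR.X.pow _ _, (Place.PR.X.pow _).mul h _]

theorem MR.blk {A : Mx j K} {A' : Mx j K'} {C : Matrix (Fin j) (Fin l) K}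
    {C' : Matrix (Fin j) (Fin l) K'} {B : Mx l K} {B' : Mx l K'} (h : MR φ A A') (h' : MR φ C C')
    (h'' : MR φ B B') : MR φ (blk A C B) (blk A' C' B') := fun a b => by
  simp only [T.C.blk, reindex_apply, submatrix_apply]
  rcases finSumFinEquiv.symm a with a | a <;> rcases finSumFinEquiv.symm b with b | b
  exacts [h a b, h' a b, φ.zero, h'' a b]

theorem MR.isComp (h : MR φ Y Y') (c : IsComp Y) : IsComp Y' := fun a b ha =>
  (h a b).eq_of (rel_ite φ.one φ.zero) (c a b ha)

theorem MR.isNil (h : MR φ Y Y') (c : IsNil Y) : IsNil Y' := fun a b ha =>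
  (h a b).eq_of φ.zero (c a b ha)

theorem pr_divByMonic {p q : K[X]} {p' q' : K'[X]} (h : φ.PR p p') (h' : φ.PR q q') (m : q.Monic) :
    φ.PR (p /ₘ q) (p' /ₘ q') := by
  obtain ⟨z, rfl, rfl⟩ := Place.PR.iff_lift.1 h
  obtain ⟨y, rfl, rfl⟩ := Place.PR.iff_lift.1 h'
  have hy := monic_of_injective Place.D_inj m
  rw [← map_divByMonic _ hy, ← map_divByMonic _ hy]
  exact Place.PR.of_lift _

end Rel

end

end Pool.Agent.Lib.MP_fc2ced_ag.T.C
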