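import Pool.Agent.Lib.MP_fc2ced_ag.C.Defs
import Pool.Agent.Lib.MP_fc2ced_ag.G.Ord
import Pool.Agent.Lib.MP_fc2ced_ag.G.PPt

/-! Elementary operations on chains of numbers. -/

open CategoryTheory Function

namespace Pool.Agent.Lib.MP_fc2ced_ag.T.C.Rd

open K

noncomputable section

variable {k : Type} [Field k] {F : Type} [Field F] {χ : Chr k F}

open MP_fc2ced_ag.T.Pt

variable {n : ℕ} {Λ Λ' : ℕ → Finset k} {a a' : ℕ → k → ℤ} {b b' : ℕ → ℤ} {L L' : ℕ → Prop}

/-- The factor of one node. -/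
def nf (M : Finset k) (e : k → ℤ) {K : Fld k} (x : K) : K := ∏ μ ∈ M, (algebraMap k K μ - x) ^ e μ

open Classical in
/-- The factor of one link. -/
def lf (p : Prop) (t : ℤ) {K : Fld k} (x y : K) : K := if p then (y - x) ^ t else 1

open Classical in
variable (Λ) in
/-- One more point is removed at the node `j`. -/
def addP (j : ℕ) (μ : k) (l : ℕ) : Finset k := if l = j then insert μ (Λ l) else Λ l

open Classical in
variable (Λ a) in
/-- The exponent of the new point. -/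
def addE (j : ℕ) (μ : k) (t : ℤ) (l : ℕ) (ν : k) : ℤ :=
  (if ν ∈ Λ l then a l ν else 0) + if l = j ∧ ν = μ then t else 0

variable (L) in
/-- One link is removed. -/
def cutL (l m : ℕ) : Prop := L m ∧ m ≠ l

section Alg
variable {K : Fld k} {x y : ℕ → K} {i j l : ℕ} {μ : k} {t : ℤ}

theorem fCh_eq (x : ℕ → K) : fCh n Λ a b L x =
    (∏ i ∈ Finset.range (n + 1), nf (Λ i) (a i) (x i)) *
      ∏ i ∈ Finset.range n, lf (L i) (b i) (x i) (x (i + 1)) := rfl

omit [Field k] in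
theorem mem_addP {ν : k} : ν ∈ addP Λ j μ l ↔ ν ∈ Λ l ∨ l = j ∧ ν = μ := by
  unfold addP
  split_ifs with h <;> simp [h, or_comm]

theorem lCh_add (hj : j ≤ n) :
    LCh n (addP Λ j μ) L x ↔ LCh n Λ L x ∧ algebraMap k K μ - x j ≠ 0 :=
  ⟨fun h => ⟨⟨fun i hi ν hν => h.1 i hi ν (mem_addP.2 (.inl hν)), h.2⟩,
    h.1 j hj μ (mem_addP.2 (.inr ⟨rfl, rfl⟩))⟩, fun h => ⟨fun i hi ν hν =>
      (mem_addP.1 hν).elim (h.1.1 i hi ν) fun e => e.1 ▸ e.2 ▸ h.2, h.1.2⟩⟩

theorem nf_add (h : algebraMap k K μ - x j ≠ 0) (l : ℕ) :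
    nf (addP Λ j μ l) (addE Λ a j μ t l) (x l) =
      nf (Λ l) (a l) (x l) * if l = j then (algebraMap k K μ - x j) ^ t else 1 := by
  classical
  unfold nf addP addE
  split_ifs with e
  · subst e
    rw [← Finset.insert_erase (Finset.mem_insert_self μ (Λ l)),
      Finset.prod_insert (Finset.notMem_erase _ _), Finset.erase_insert_eq_erase, zpow_add₀ h,
      Finset.prod_congr rfl (g := fun ν => (algebraMap k K ν - x l) ^ a l ν) fun ν hν => by
        simp [Finset.mem_erase.1 hν]]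
    by_cases m : μ ∈ Λ l
    · rw [← Finset.mul_prod_erase _ _ m]
      simp [m, mul_right_comm]
    · simp [m, mul_comm]
  · rw [mul_one]
    exact Finset.prod_congr rfl fun ν hν => by simp [e, hν]

theorem fCh_add (hj : j ≤ n) (h : algebraMap k K μ - x j ≠ 0) :
    fCh n (addP Λ j μ) (addE Λ a j μ t) b L x =
      fCh n Λ a b L x * (algebraMap k K μ - x j) ^ t := by
  simp only [fCh_eq, nf_add h, Finset.prod_mul_distrib, Finset.prod_ite_eq', Finset.mem_range,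
    Nat.lt_succ_iff, hj, if_true]
  ring

theorem lCh_cut (hl : l < n) (h : L l) :
    LCh n Λ L x ↔ LCh n Λ (cutL L l) x ∧ x (l + 1) - x l ≠ 0 :=
  ⟨fun c => ⟨⟨c.1, fun i hi e => c.2 i hi e.1⟩, c.2 l hl h⟩, fun c => ⟨c.1.1, fun i hi e => by
    by_cases m : i = l
    exacts [m ▸ c.2, c.1.2 i hi ⟨e, m⟩]⟩⟩

theorem fCh_cut (hl : l < n) (h : L l) :
    fCh n Λ a b L x = fCh n Λ a b (cutL L l) x * (x (l + 1) - x l) ^ b l := by
  have e (i : ℕ) : lf (L i) (b i) (x i) (x (i + 1)) = lf (cutL L l i) (b i) (x i) (x (i + 1)) *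
      if i = l then (x (l + 1) - x l) ^ b l else 1 := by
    by_cases m : i = l <;> by_cases m' : L i <;> simp_all [lf, cutL]
  simp only [fCh_eq, e, Finset.prod_mul_distrib, Finset.prod_ite_eq', Finset.mem_range, hl,
    if_true, mul_assoc]

theorem lCh_succ : LCh (n + 1) Λ L x ↔ LCh n Λ L x ∧
    (∀ μ ∈ Λ (n + 1), algebraMap k K μ - x (n + 1) ≠ 0) ∧ (L n → x (n + 1) - x n ≠ 0) := by
  simp only [LCh, Nat.le_succ_iff, Nat.lt_succ_iff_lt_or_eq, or_imp, forall_and, forall_eq]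
  tauto

theorem fCh_succ : fCh (n + 1) Λ a b L x = fCh n Λ a b L x *
    (nf (Λ (n + 1)) (a (n + 1)) (x (n + 1)) * lf (L n) (b n) (x n) (x (n + 1))) := by
  rw [fCh_eq, fCh_eq, Finset.prod_range_succ _ (n + 1), Finset.prod_range_succ (fun i => lf _ _ _ _),
    mul_mul_mul_comm]

theorem lCh_congr (e : ∀ i ≤ n, x i = y i) (h : LCh n Λ L x) : LCh n Λ L y :=
  ⟨fun i hi => e i hi ▸ h.1 i hi, fun i hi => e i hi.le ▸ e (i + 1) hi ▸ h.2 i hi⟩

theorem fCh_congr (e : ∀ i ≤ n, x i = y i) : fCh n Λ a b L x = fCh n Λ a b L y :=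
  congrArg₂ _ (Finset.prod_congr rfl fun i hi => by
    rw [e i (Nat.lt_succ_iff.1 (Finset.mem_range.1 hi))]) (Finset.prod_congr rfl fun i hi => by
      rw [e i (Finset.mem_range.1 hi).le, e (i + 1) (Finset.mem_range.1 hi)])

/-- The index `i` is skipped. -/
def sk (i l : ℕ) : ℕ := if l < i then l else l + 1

theorem prod_sk {M : Type} [CommMonoid M] (g : ℕ → M) (h : i ≤ n) :
    ∏ l ∈ Finset.range (n + 1), g l = g i * ∏ l ∈ Finset.range n, g (sk i l) := by
  induction n, h using Nat.le_induction with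
  | base =>
    rw [Finset.prod_range_succ, mul_comm]
    exact congrArg _ (Finset.prod_congr rfl fun l hl => by rw [sk, if_pos (Finset.mem_range.1 hl)])
  | succ n h ih =>
    rw [Finset.prod_range_succ, ih, Finset.prod_range_succ, sk, if_neg h.not_gt, mul_assoc]

end Alg

variable [CharZero F]

variable (k F) in
/-- The statement for generic chains. -/
def CoreH : Prop := ∀ (χ : Chr k F), χ.Prim → 2 ∣ χ.N →
  ∀ (n : ℕ) (Λ Λ' : Finset k) (a : ℕ → k → ℤ) (b : ℕ → ℤ) (o : k), 0 ∈ Λ → Λ ⊆ Λ' → o ∈ Λ' →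
  (∀ i < n, χ.ψ (b i) ≠ 1) → (∀ j ≤ n, j = n ∨ o ∈ Λ →
    χ.ψ (∑ l ∈ Finset.Icc j n, a l o + ∑ l ∈ Finset.Ico j n, b l : ℤ) ≠ 1) →
  SS ((ch n (fun i => if i = n then Λ' else Λ) a b fun _ => True).E χ)

variable [IsAlgClosed k]

/-- Parts of chains with the same points. -/
theorem ss_same {T T' : ∀ ⦃K : Fld k⦄, (ℕ → K) → Prop} {c : (ch n Λ a b L).Conv T}
    {c' : (ch n Λ' a' b' L').Conv T'} (u : k)
    (e : ∀ ⦃K : Fld k⦄ (x : ℕ → K), LCh n Λ L x ∧ T x ↔ LCh n Λ' L' x ∧ T' x)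
    (f : ∀ ⦃K : Fld k⦄ (x : ℕ → K), LCh n Λ L x → T x →
      fCh n Λ a b L x = fCh n Λ' a' b' L' x * algebraMap k K u) :
    SS (((ch n Λ a b L).restr T c).E χ) ↔ SS (((ch n Λ' a' b' L').restr T' c').E χ) := by
  have m : Eqv (((ch n Λ' a' b' L').restr T' c').E χ) (((ch n Λ a b L).restr T c).E χ) :=
    eqv_const (e := fun _ x => x) (g := fun _ x => x)
      ⟨fun _ x h => have := (e x).2 ⟨h.1.2, h.2⟩; ⟨⟨h.1.1, this.1⟩, this.2⟩,
        fun _ _ _ _ _ _ _ r => r⟩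
      ⟨fun _ x h => have := (e x).1 ⟨h.1.2, h.2⟩; ⟨⟨h.1.1, this.1⟩, this.2⟩,
        fun _ _ _ _ _ _ _ r => r⟩ u regF_one
      (fun _ x h => have := (e x).2 ⟨h.1.2, h.2⟩; (f x this.1 this.2).trans (by simp))
      (fun _ _ _ => rfl) fun _ _ _ => rfl
  exact ⟨.of_eqv m, .of_eqv m.symm⟩

theorem ss_part {T : ∀ ⦃K : Fld k⦄, (ℕ → K) → Prop} {c : (ch n Λ a b L).Conv T}
    (e : ∀ ⦃K : Fld k⦄ (x : ℕ → K), LCh n Λ L x ∧ T x ↔ LCh n Λ' L' x)
    (f : ∀ ⦃K : Fld k⦄ (x : ℕ → K), LCh n Λ L x → T x → fCh n Λ a b L x = fCh n Λ' a' b' L' x) :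
    SS (((ch n Λ a b L).restr T c).E χ) ↔ SS ((ch n Λ' a' b' L').E χ) :=
  (ss_same (T' := fun _ _ => True) (c' := fun _ _ _ _ _ _ _ _ _ _ _ _ _ _ _ => trivial) 1
    (fun _ x => (e x).trans (and_iff_left trivial).symm) fun _ x h h' => by
      rw [f x h h', map_one, mul_one]).trans (ss_all fun _ _ _ => trivial)

theorem ss_ch_congr (h : SS ((ch n Λ' a' b' L').E χ)) (h1 : ∀ i ≤ n, Λ i = Λ' i)
    (h2 : ∀ i ≤ n, ∀ μ ∈ Λ i, a i μ = a' i μ) (h3 : ∀ i < n, L i ↔ L' i)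
    (h4 : ∀ i < n, b i = b' i) : SS ((ch n Λ a b L).E χ) :=
  (ss_all (c := fun _ _ _ _ _ _ _ _ _ _ _ _ _ _ _ => trivial) fun _ _ _ => trivial).1
    ((ss_part (fun _ x => by
      simp only [and_true, LCh]
      exact and_congr (forall₂_congr fun i hi => by rw [h1 i hi])
        (forall₂_congr fun i hi => by rw [h3 i hi])) fun _ x _ _ => congrArg₂ _
      (Finset.prod_congr rfl fun i hi => by
        have hi := Nat.lt_succ_iff.1 (Finset.mem_range.1 hi)
        exact Finset.prod_congr (h1 i hi) fun μ hμ => by rw [h2 i hi μ (h1 i hi ▸ hμ)])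
      (Finset.prod_congr rfl fun i hi => by
        rw [propext (h3 i (Finset.mem_range.1 hi)), h4 i (Finset.mem_range.1 hi)])).2 h)

omit [IsAlgClosed k] in
/-- A free link gives a product. -/
theorem ss_split {i m : ℕ} (hi : ¬ L i) (h : SS ((ch i Λ a b L).E χ))
    (h' : SS ((ch m (fun l => Λ (i + 1 + l)) (fun l => a (i + 1 + l)) (fun l => b (i + 1 + l))
      fun l => L (i + 1 + l)).E χ)) : SS ((ch (i + 1 + m) Λ a b L).E χ) := by
  have lv {K : Fld k} (x : ℕ → K) : LCh (i + 1 + m) Λ L x ↔ LCh i Λ L x ∧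
      LCh m (fun l => Λ (i + 1 + l)) (fun l => L (i + 1 + l)) fun l => x (i + 1 + l) := by
    refine ⟨fun c => ⟨⟨fun l hl => c.1 l (by omega), fun l hl => c.2 l (by omega)⟩,
      fun l hl => c.1 _ (by omega), fun l hl => c.2 _ (by omega)⟩,
      fun c => ⟨fun l hl => ?_, fun l hl => ?_⟩⟩
    · rcases le_or_gt l i with e | e
      · exact c.1.1 l e
      · obtain ⟨l, rfl⟩ := Nat.exists_eq_add_of_le (Nat.succ_le_of_lt e)
        exact c.2.1 l (by omega)
    · rcases lt_trichotomy l i with e | rfl | e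
      · exact c.1.2 l e
      · exact fun e => absurd e hi
      · obtain ⟨l, rfl⟩ := Nat.exists_eq_add_of_le (Nat.succ_le_of_lt e)
        exact c.2.2 l (by omega)
  have e1 {K : Fld k} (y z : ℕ → K) (l : ℕ) :
      (if i + 1 + l ≤ i then y (i + 1 + l) else z (i + 1 + l - (i + 1))) = z l := by
    rw [if_neg (by omega), Nat.add_sub_cancel_left]
  refine Pt.ss_of_inv (ss_prod h h')
    (fun _ x => (fun l => if l ≤ i then x l else 0, fun l => x (i + 1 + l)))
    (fun _ y l => if l ≤ i then y.1 l else y.2 (l - (i + 1)))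
    ⟨fun _ x c => ⟨⟨fun l hl => if_neg hl.not_ge,
        lCh_congr (fun l hl => (if_pos hl).symm) ((lv x).1 c.2).1⟩,
        fun l hl => c.1 _ (by omega), ((lv x).1 c.2).2⟩,
      fun _ _ φ _ _ _ _ r => ⟨fun l => ?_, fun l => r _⟩⟩
    ⟨fun _ y c => ⟨fun l hl => (if_neg (by omega)).trans (c.2.1 _ (by omega)),
        (lv _).2 ⟨lCh_congr (fun l hl => (if_pos hl).symm) c.1.2,
          lCh_congr (fun l _ => (e1 _ _ l).symm) c.2.2⟩⟩, fun _ _ φ _ _ _ _ r l => ?_⟩
    (fun _ x _ => ?_) (fun _ x _ => funext fun l => ?_)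
    fun _ y c => Prod.ext (funext fun l => ?_) (funext (e1 _ _))
  · dsimp only
    split_ifs
    exacts [r l, φ.zero]
  · split_ifs
    exacts [r.1 l, r.2 _]
  · change fCh i Λ a b L _ * fCh m _ _ _ _ _ = fCh _ Λ a b L x
    rw [fCh_congr (y := x) fun l hl => if_pos hl, fCh_eq, fCh_eq, fCh_eq, add_assoc (i + 1),
      Finset.prod_range_add _ (i + 1) (m + 1), Finset.prod_range_add _ (i + 1) m, Finset.prod_range_succ (fun i => lf _ _ _ _), lf,
      if_neg hi, mul_one, mul_mul_mul_comm]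
    rfl
  · dsimp only
    split_ifs with e
    · rfl
    · rw [Nat.add_sub_cancel' (by omega)]
  · dsimp only
    split_ifs with e
    exacts [rfl, (c.1.1 l (by omega)).symm]

/-- Chains of length zero are curves. -/
theorem ss_zero [IsAlgClosed F] : SS ((ch 0 Λ a b L).E χ) :=
  .of_eqv (Eqv.symm (eqv_const (S := cv (fun μ : Λ 0 => μ.1) fun μ => a 0 μ)
    (e := fun _ x l => if l = 0 then x else 0) (g := fun _ x => x 0)
    ⟨fun _ x h => ⟨fun l hl => if_neg hl.ne', fun l hl μ hμ => by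
        obtain rfl := Nat.le_zero.1 hl
        exact sub_ne_zero.2 (h.2 ⟨μ, hμ⟩).symm, fun _ hl => absurd hl (Nat.not_lt_zero _)⟩,
      fun _ _ φ _ _ _ _ r l => by
        split_ifs
        exacts [r, φ.zero]⟩
    ⟨fun _ x h => ⟨trivial, fun μ => (sub_ne_zero.1 (h.2.1 0 le_rfl μ μ.2)).symm⟩,
      fun _ _ _ _ _ _ _ r => r 0⟩ (∏ μ : Λ 0, (-1) ^ a 0 μ) regF_one
    (fun K x _ => by
      change fCh 0 Λ a b L _ = (∏ μ : Λ 0, _) * _
      simp only [fCh, zero_add, Finset.range_one, Finset.prod_singleton, Finset.range_zero,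
        Finset.prod_empty, mul_one, if_true, one_pow, map_prod, map_zpow₀, map_neg, map_one,
        ← Finset.prod_mul_distrib, ← mul_zpow, mul_neg, neg_sub]
      exact (Finset.prod_coe_sort _ _).symm)
    (fun _ _ _ => rfl) fun _ x h => funext fun l => by
      split_ifs with e
      exacts [e ▸ rfl, (h.1 l (Nat.pos_of_ne_zero e)).symm])) (ss_cv _ _)

omit [IsAlgClosed k] in
theorem closed_at (i : ℕ) (μ : k) : (ch n Λ a b L).Closed fun K x => x i = algebraMap k K μ :=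
  fun _ _ φ _ _ _ _ r e => (r i).eq_of (φ.alg μ) e

theorem part_add {i : ℕ} (hi : i ≤ n) (μ : k) :
    SS (((ch n Λ a b L).restr _ (closed_at i μ).not.conv).E χ) ↔
      SS ((ch n (addP Λ i μ) (addE Λ a i μ 0) b L).E χ) :=
  ss_part (fun _ x => by rw [lCh_add hi, sub_ne_zero, ne_comm]) fun _ x _ h => by
    rw [fCh_add hi (sub_ne_zero.2 (Ne.symm h)), zpow_zero, mul_one]

/-- On a fibre, a link that ends at the fixed node is a point of the other node. -/
theorem ss_cut {i j l : ℕ} {μ u : k} (hl : l < n) (hj : j ≤ n) (h : L l) (hu : u ≠ 0)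
    (e : ∀ ⦃K : Fld k⦄ (x : ℕ → K), x i = algebraMap k K μ →
      x (l + 1) - x l = (algebraMap k K μ - x j) * algebraMap k K u)
    (H : SS (((ch n (addP Λ j μ) (addE Λ a j μ (b l)) b (cutL L l)).restr _
      (closed_at i μ).conv).E χ)) : SS (((ch n Λ a b L).restr _ (closed_at i μ).conv).E χ) :=
  (ss_same (u ^ b l) (fun K x => by
    rw [lCh_add hj, lCh_cut hl h]
    refine and_congr_left fun m => and_congr_right fun _ => ?_
    rw [e x m, mul_ne_zero_iff, and_iff_left ((map_ne_zero _).2 hu)]) fun K x c m => by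
      have := ((lCh_cut hl h).1 c).2
      rw [e x m] at this
      rw [fCh_cut hl h, fCh_add hj (left_ne_zero_of_mul this), e x m, mul_zpow, map_zpow₀,
        mul_assoc]).2 H

variable [IsAlgClosed F]

variable (χ n) in
/-- The chains in which the node `i` is isolated are Schur-finite. -/
def Fr (i : ℕ) : Prop := ∀ (Λ : ℕ → Finset k) (a : ℕ → k → ℤ) (b : ℕ → ℤ) (L : ℕ → Prop),
  (i < n → ¬ L i) → (∀ l, l + 1 = i → ¬ L l) → SS ((ch n Λ a b L).E χ)

theorem ss_fibre {i : ℕ} (hi : i ≤ n) (H : Fr χ n i) (μ : k) :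
    SS (((ch n Λ a b L).restr _ (closed_at i μ).conv).E χ) := by
  have h1 Λ a L (c : i < n → ¬ L i) (c' : ∀ l, l + 1 = i → ¬ L l) :
      SS (((ch n Λ a b L).restr _ (closed_at i μ).conv).E χ) :=
    ss_closed (closed_at i μ) (H Λ a b L c c') ((part_add hi μ).2 (H _ _ b L c c'))
  have h2 Λ a L (c : i < n → ¬ L i) :
      SS (((ch n Λ a b L).restr _ (closed_at i μ).conv).E χ) := by
    by_cases c' : ∀ l, l + 1 = i → ¬ L l
    · exact h1 Λ a L c c'
    simp only [not_forall, not_not] at c'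
    obtain ⟨l, rfl, c'⟩ := c'
    exact ss_cut (j := l) hi (by omega) c' one_ne_zero (fun _ x e => by rw [e, map_one, mul_one])
      (h1 _ _ _ (fun e m => c e m.1) fun l' e m => m.2 (by omega))
  by_cases c : i < n → ¬ L i
  · exact h2 Λ a L c
  simp only [not_forall, not_not] at c
  obtain ⟨c, c'⟩ := c
  exact ss_cut (j := i + 1) (u := -1) c c c' (by simp) (fun _ x e => by simp [e])
    (h2 _ _ _ fun _ m => m.2 rfl)

theorem ss_add {i : ℕ} (hi : i ≤ n) (H : Fr χ n i) (μ : k) :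
    SS ((ch n Λ a b L).E χ) ↔ SS ((ch n (addP Λ i μ) (addE Λ a i μ 0) b L).E χ) :=
  ⟨fun h => (part_add hi μ).1 (ss_open (closed_at i μ) (ss_fibre hi H μ) h),
    fun h => ss_of_closed (closed_at i μ) (ss_fibre hi H μ) ((part_add hi μ).2 h)⟩

/-- Reduction to the case of the same points at all the nodes. -/
theorem ss_of_const (H : ∀ i ≤ n, Fr χ n i)
    (h : ∀ (M : Finset k) (a : ℕ → k → ℤ), 0 ∈ M → SS ((ch n (fun _ => M) a b L).E χ)) :
    SS ((ch n Λ a b L).E χ) := by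
  classical
  obtain ⟨M, h0, hM⟩ : ∃ M : Finset k, 0 ∈ M ∧ ∀ l ≤ n, Λ l ⊆ M :=
    ⟨insert 0 ((Finset.range (n + 1)).biUnion Λ), by simp, fun l hl μ hμ =>
      Finset.mem_insert_of_mem (Finset.mem_biUnion.2 ⟨l, by simpa [Nat.lt_succ_iff], hμ⟩)⟩
  have key (D : Finset (ℕ × k)) : ∀ (Λ : ℕ → Finset k) (a : ℕ → k → ℤ), (∀ l ≤ n, Λ l ⊆ M) →
      (∀ l ≤ n, ∀ μ ∈ M, μ ∈ Λ l ∨ (l, μ) ∈ D) → SS ((ch n Λ a b L).E χ) := by
    induction D using Finset.induction_on with
    | empty =>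
      exact fun Λ a h1 h2 => ss_ch_congr (h M a h0) (fun l hl => (h1 l hl).antisymm fun μ hμ =>
        by simpa using h2 l hl μ hμ) (fun _ _ _ _ => rfl) (fun _ _ => Iff.rfl) fun _ _ => rfl
    | insert p D _ ih =>
      intro Λ a h1 h2
      by_cases c : p.1 ≤ n ∧ p.2 ∈ M
      · refine (ss_add c.1 (H _ c.1) p.2).2 (ih _ _ (fun l hl μ hμ =>
          (mem_addP.1 hμ).elim (h1 l hl ·) fun e => e.2 ▸ c.2) fun l hl μ hμ => ?_)
        have := h2 l hl μ hμ
        rw [Finset.mem_insert, Prod.ext_iff] at this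
        rw [mem_addP, or_assoc]
        exact this
      · refine ih Λ a h1 fun l hl μ hμ => (h2 l hl μ hμ).imp_right fun e => ?_
        exact (Finset.mem_insert.1 e).resolve_left fun e' => c (e' ▸ ⟨hl, hμ⟩)
  exact key (Finset.range (n + 1) ×ˢ M) Λ a hM fun l hl μ hμ => .inr (by
    simpa [Nat.lt_succ_iff] using ⟨hl, hμ⟩)

end

end Pool.Agent.Lib.MP_fc2ced_ag.T.C.Rd
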