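import Pool.Agent.Lib.MP_fc2ced_ag.C.RedA

/-! Reduction of all chains to generic chains. -/

open CategoryTheory Function

namespace Pool.Agent.Lib.MP_fc2ced_ag.T.C.Rd

open K

noncomputable section

variable {k : Type} [Field k] {F : Type} [Field F] [CharZero F] {χ : Chr k F}

open MP_fc2ced_ag.T.Pt

variable {n : ℕ} {Λ : ℕ → Finset k} {a : ℕ → k → ℤ} {b : ℕ → ℤ} {L : ℕ → Prop}

theorem ss_to {S S' : Pt k} (h : SS (S.E χ)) (e : ∀ ⦃K⦄, S.X K → S'.X K)
    (g : ∀ ⦃K⦄, S'.X K → S.X K) (h1 : S.Reg S' e) (h2 : S'.Reg S g) [IsAlgClosed k] (u : k)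
    (f : ∀ ⦃K⦄ (x : S.X K), S.L x → S'.f (e x) = S.f x * algebraMap k K u)
    (l : ∀ ⦃K⦄ (x : S.X K), S.L x → g (e x) = x) (r : ∀ ⦃K⦄ (y : S'.X K), S'.L y → e (g y) = y) :
    SS (S'.E χ) :=
  .of_eqv (eqv_const h1 h2 u regF_one (fun _ x c => by rw [f x c, one_pow, mul_one]) l r).symm h

theorem closed_dg (i : ℕ) : (ch n Λ a b L).Closed fun _ x => x (i + 1) - x i = 0 :=
  fun _ _ φ _ _ _ _ r e => ((r _).sub (r i)).eq_of φ.zero e

/-- The diagonal is a shorter chain. -/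
theorem ss_diag {M : Finset k} {i : ℕ} (hi : i ≤ n) (h : ¬ L i)
    (H : SS ((ch n (fun _ => M) (fun l μ => a (sk i l) μ + if l = i then a i μ else 0)
      (fun l => b (sk i l)) fun l => L (sk i l)).E χ)) :
    SS (((ch (n + 1) (fun _ => M) a b L).restr _ (closed_dg i).conv).E χ) := by
  have s1 {K : Fld k} {x : ℕ → K} (e : x (i + 1) - x i = 0) (l : ℕ) :
      x (sk i (l + 1)) = x (sk i l + 1) := by
    unfold sk
    split_ifs with h1 h2 h2
    · rfl
    · omega
    · obtain rfl : i = l + 1 := by omega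
      exact sub_eq_zero.1 e
    · rfl
  have s2 {l : ℕ} : sk i l ≤ n + 1 ↔ l ≤ n := by unfold sk; split_ifs <;> omega
  have s3 {l : ℕ} : sk i l < n + 1 ↔ l < n := by unfold sk; split_ifs <;> omega
  have s4 (l : ℕ) : (if sk i l ≤ i then sk i l else sk i l - 1) = l := by
    unfold sk; split_ifs <;> omega
  refine Pt.ss_of_inv H (fun _ x l => x (sk i l)) (fun _ y l => y (if l ≤ i then l else l - 1))
    ⟨fun _ x c => ⟨fun l hl => c.1.1 _ (not_le.1 fun e => hl.not_ge (s2.1 e)),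
        fun l hl => c.1.2.1 _ (s2.2 hl), fun l hl e => ?_⟩, fun _ _ _ _ _ _ _ r l => r _⟩
    ⟨fun _ y c => ⟨⟨fun l hl => c.1 _ (by split_ifs <;> omega),
        fun l hl => c.2.1 _ (by split_ifs <;> omega), fun l hl e => ?_⟩, by simp⟩,
      fun _ _ _ _ _ _ _ r l => r _⟩
    (fun K x c => ?_) (fun _ x c => funext fun l => ?_) fun _ y _ => funext fun l =>
      congrArg y (s4 l)
  · exact (congrArg (· - _) (s1 c.2 l)).trans_ne (c.1.2.2 _ (s3.2 hl) e)
  · rcases lt_trichotomy l i with m | rfl | m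
    · have := c.2.2 l (by omega) (by simpa [sk, m])
      simpa [m.le, Nat.succ_le_of_lt m]
    · exact absurd e h
    · obtain ⟨l, rfl⟩ := Nat.exists_eq_add_one_of_ne_zero (m.ne_bot)
      have := c.2.2 l (by omega) (by simpa [sk, show ¬ l < i by omega])
      simpa [m.not_ge, show ¬ l + 1 + 1 ≤ i by omega]
  · have e (l : ℕ) (hl : l ∈ Finset.range (n + 1)) :
        nf M (fun μ => a (sk i l) μ + if l = i then a i μ else 0) (x (sk i l)) =
        nf M (a (sk i l)) (x (sk i l)) * if l = i then nf M (a i) (x i) else 1 := by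
      split_ifs with m
      · subst m
        rw [nf, nf, nf, ← Finset.prod_mul_distrib]
        refine Finset.prod_congr rfl fun μ hμ => ?_
        rw [zpow_add₀ (c.1.2.1 _ (s2.2 hi) μ hμ), ← sub_eq_zero.1 c.2, sk, if_neg (lt_irrefl _)]
      · simp
    change fCh n _ _ _ _ _ = fCh _ _ a b L x
    rw [fCh_eq, fCh_eq, prod_sk (i := i) _ (hi.trans n.le_succ), prod_sk (n := n) (fun l => lf _ _ _ _) hi,
      Finset.prod_congr rfl e, Finset.prod_mul_distrib, Finset.prod_ite_eq',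
      if_pos (by simpa [Nat.lt_succ_iff]), lf, if_neg h, one_mul, mul_comm (nf _ _ _)]
    simp only [s1 c.2]
  · dsimp only
    rcases lt_trichotomy l i with m | rfl | m
    · rw [if_pos m.le, sk, if_pos m]
    · rw [if_pos le_rfl, sk, if_neg (lt_irrefl _)]
      exact sub_eq_zero.1 c.2
    · rw [if_neg m.not_ge, sk, if_neg (by omega), Nat.sub_add_cancel (by omega)]

variable [IsAlgClosed k]

/-- A fibre at the last node is a shorter chain. -/
theorem ss_last {μ : k} (h : L n)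
    (H : SS ((ch n (addP Λ n μ) (addE Λ a n μ (b n)) b L).E χ)) :
    SS (((ch (n + 1) Λ a b L).restr _ (closed_at (n + 1) μ).conv).E χ) := by
  by_cases m : μ ∈ Λ (n + 1)
  · exact ss_empty fun _ x c => c.1.2.1 _ le_rfl μ m (sub_eq_zero.2 c.2.symm)
  have e {K : Fld k} (y : ℕ → K) (t : K) (l : ℕ) (hl : l ≤ n) : y l = update y (n + 1) t l :=
    (update_of_ne (by omega) _ _).symm
  refine ss_to H (fun K y => update y (n + 1) (algebraMap k K μ)) (fun _ x => update x (n + 1) 0)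
    ⟨fun K y c => ⟨⟨fun l hl => (update_of_ne hl.ne' _ _).trans (c.1 l (by omega)),
        lCh_succ.2 ⟨lCh_congr (e y _) ((lCh_add le_rfl).1 c.2).1, fun ν hν => ?_, fun _ => ?_⟩⟩,
        update_self ..⟩, fun _ _ φ _ _ _ _ r l => ?_⟩
    ⟨fun _ x c => ⟨fun l hl => ?_, lCh_congr (e x _) ((lCh_add le_rfl).2
        ⟨(lCh_succ.1 c.1.2).1, c.2 ▸ (lCh_succ.1 c.1.2).2.2 h⟩)⟩, fun _ _ φ _ _ _ _ r l => ?_⟩
    (∏ ν ∈ Λ (n + 1), (ν - μ) ^ a (n + 1) ν) (fun K y c => ?_)
    (fun _ y c => by rw [update_idem, ← c.1 _ n.lt_succ_self, update_eq_self])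
    fun _ x c => by rw [update_idem, ← show x (n + 1) = _ from c.2, update_eq_self]
  · rw [update_self, ← map_sub]
    exact (map_ne_zero _).2 (sub_ne_zero.2 fun e => m (e ▸ hν))
  · rw [update_self, ← e y _ n le_rfl]
    exact ((lCh_add le_rfl).1 c.2).2
  · rcases eq_or_ne l (n + 1) with rfl | e
    · simpa using φ.alg μ
    · simpa [e] using r l
  · rcases eq_or_ne l (n + 1) with rfl | e
    · simp
    · simpa [e] using c.1.1 l (by omega)
  · rcases eq_or_ne l (n + 1) with rfl | e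
    · simpa using φ.zero
    · simpa [e] using r l
  · change fCh _ Λ a b L _ = fCh n _ _ b L y * _
    rw [fCh_succ, fCh_add le_rfl ((lCh_add le_rfl).1 c.2).2, ← fCh_congr (e y _), update_self,
      ← e y _ n le_rfl, lf, if_pos h, nf, mul_assoc, mul_comm (_ ^ b n)]
    simp

variable [IsAlgClosed F]

/-- A link with a trivial exponent is removed. -/
theorem ss_triv {i : ℕ} (hi : i < n) (h : L i) (hb : χ.ψ (b i) = 1)
    (h₁ : SS (((ch n Λ a b (cutL L i)).restr _ (closed_dg i).conv).E χ))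
    (h₂ : SS ((ch n Λ a b (cutL L i)).E χ)) : SS ((ch n Λ a b L).E χ) :=
  .of_eqv (Eqv.symm (eqv_twist hb (S := (ch n Λ a b (cutL L i)).restr _ (closed_dg i).not.conv)
    (S' := ch n Λ a b L) (e := fun _ x => x) (g := fun _ x => x)
    ⟨fun _ _ c => ⟨c.1.1, (lCh_cut hi h).2 ⟨c.1.2, c.2⟩⟩, fun _ _ _ _ _ _ _ r => r⟩
    ⟨fun _ _ c => ⟨⟨c.1, ((lCh_cut hi h).1 c.2).1⟩, ((lCh_cut hi h).1 c.2).2⟩,
      fun _ _ _ _ _ _ _ r => r⟩ (w := fun _ x => x (i + 1) - x i)
    (fun _ _ _ _ _ _ _ r => (r _).sub (r i)) (fun _ _ c => c.2) (fun _ _ _ => fCh_cut hi h)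
    (fun _ _ _ => rfl) fun _ _ _ => rfl)) (ss_open (closed_dg i) h₁ h₂)

/-- The last node gives a suspension. -/
theorem ss_susp (hχ : χ.ψ (1 : ℤ) ≠ 1) {ν : k} (hν : ν ∈ Λ n) (h1 : Λ (n + 1) = {ν})
    (h2 : a (n + 1) ν = -1) (h3 : b n = 1) (h4 : L n) (H : SS ((ch (n + 1) Λ a b L).E χ)) :
    SS ((ch n Λ a b L).E χ) := by
  have c : ((ch n Λ a b L).prod (gmX k)).Closed fun _ x => x.2 = 1 := reg_snd.closed closed_one
  have e {K : Fld k} (y : ℕ → K) (t : K) (l : ℕ) (hl : l ≤ n) : y l = update y (n + 1) t l :=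
    (update_of_ne (by omega) _ _).symm
  have lv {K : Fld k} {x : ℕ → K} (h : LCh (n + 1) Λ L x) : LCh n Λ L x ∧
      x (n + 1) - algebraMap k K ν ≠ 0 ∧ x (n + 1) - x n ≠ 0 ∧ algebraMap k K ν - x n ≠ 0 :=
    have := lCh_succ.1 h
    ⟨this.1, sub_ne_zero.2 (sub_ne_zero.1 (this.2.1 ν (by simp [h1]))).symm, this.2.2 h4,
      this.1.1 n le_rfl ν hν⟩
  have z : UZero (((ch n Λ a b L).prod (gmX k)).E χ) :=
    Flow.uzero hχ (τ := fun _ r x => (x.1, x.2 * r))
      ⟨fun _ _ _ h hx => ⟨hx.1, trivial, mul_ne_zero hx.2.2 h⟩,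
        fun _ x _ => Prod.ext rfl (mul_one _),
        fun _ _ x h _ => Prod.ext rfl (mul_inv_cancel_right₀ h _),
        fun _ r x _ _ => by rw [zpow_one]; exact (mul_assoc _ _ _).symm,
        fun _ _ _ _ _ _ _ h _ _ _ h' => ⟨h'.1, h'.2.mul h⟩⟩
  suffices o : SS ((((ch n Λ a b L).prod (gmX k)).restr _ c.not.conv).E χ) from
    Pt.ss_of_inv (ss_closed c (.of_uzero z) o) (fun _ x => (x, 1)) (fun _ x => x.1)
      ⟨fun _ _ h => ⟨⟨h, trivial, one_ne_zero⟩, rfl⟩, fun _ _ φ _ _ _ _ r => ⟨r, φ.one⟩⟩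
      ⟨fun _ _ h => h.1.1, fun _ _ _ _ _ _ _ r => r.1⟩ (fun _ _ _ => mul_one _)
      (fun _ _ _ => rfl) fun _ _ h => Prod.ext rfl h.2.symm
  refine ss_to H
    (fun K x => (update x (n + 1) 0, (x (n + 1) - x n) / (x (n + 1) - algebraMap k K ν)))
    (fun K y => update y.1 (n + 1) ((y.2 * algebraMap k K ν - y.1 n) / (y.2 - 1)))
    ⟨fun K x h => ⟨⟨⟨fun l hl => ?_, lCh_congr (e x _) (lv h.2).1⟩, trivial,
        div_ne_zero (lv h.2).2.2.1 (lv h.2).2.1⟩, fun m => (lv h.2).2.2.2 ?_⟩,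
      fun _ _ φ _ _ _ h r => ⟨fun l => ?_,
        ((r _).sub (r _)).div ((r _).sub (φ.alg ν)) (lv h.2).2.1⟩⟩
    ⟨fun K y h => ⟨fun l hl => (update_of_ne hl.ne' _ _).trans (h.1.1.1 l (by omega)),
        lCh_succ.2 ⟨lCh_congr (e _ _) h.1.1.2, ?_⟩⟩, fun _ _ φ _ _ _ h r l => ?_⟩
    (-1) (fun K x h => ?_) (fun K x h => ?_) fun K y h => ?_
  · rcases eq_or_ne l (n + 1) with rfl | e
    · simp
    · simpa [e] using h.1 l (by omega)
  · linear_combination (div_eq_one_iff_eq (lv h.2).2.1).1 m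
  · rcases eq_or_ne l (n + 1) with rfl | e
    · simpa using φ.zero
    · simpa [e] using r l
  · have h5 := sub_ne_zero.2 h.2
    have h6 := h.1.1.2.1 n le_rfl ν hν
    rw [update_self, ← e _ _ n le_rfl, h1]
    refine ⟨fun μ hμ m => h6 ?_, fun _ m => mul_ne_zero h.1.2.2 h6 ?_⟩
    · rw [Finset.mem_singleton.1 hμ, sub_eq_zero, eq_div_iff h5] at m
      linear_combination -m
    · rw [sub_eq_zero, div_eq_iff h5] at m
      linear_combination m
  · rcases eq_or_ne l (n + 1) with rfl | e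
    · simpa using ((r.2.mul (φ.alg ν)).sub (r.1 n)).div (r.2.sub φ.one) (sub_ne_zero.2 h.2)
    · simpa [e] using r.1 l
  · change fCh n Λ a b L _ * _ = fCh _ Λ a b L x * _
    rw [fCh_succ, ← fCh_congr (e x _), nf, h1, Finset.prod_singleton, h2, h3, lf, if_pos h4,
      ← neg_sub (x (n + 1)) (algebraMap k K ν), zpow_neg_one, inv_neg]
    simp [div_eq_mul_inv, mul_comm]
  · obtain ⟨-, h5, h6, h7⟩ := lv h.2
    have : (x (n + 1) - x n) / (x (n + 1) - algebraMap k K ν) - 1 ≠ 0 := by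
      rw [div_sub_one h5]
      exact div_ne_zero (by simpa using h7) h5
    dsimp only
    rw [update_idem, ← e _ _ n le_rfl, update_eq_self_iff, div_eq_iff this]
    field_simp
    ring
  · have h5 := sub_ne_zero.2 h.2
    have h6 := h.1.1.2.1 n le_rfl ν hν
    dsimp only
    rw [update_idem, ← h.1.1.1 _ n.lt_succ_self, update_eq_self, update_self, ← e _ _ n le_rfl]
    refine Prod.ext rfl ((div_eq_iff ?_).2 ?_)
    · rw [div_sub' h5]
      exact div_ne_zero (fun m => h6 (by linear_combination m)) h5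
    · field_simp
      ring

variable (k F n) in
/-- All the chains of a given length are Schur-finite. -/
def All : Prop := ∀ χ : Chr k F, χ.Prim → ∀ (Λ : ℕ → Finset k) (a : ℕ → k → ℤ) (b : ℕ → ℤ)
  (L : ℕ → Prop), SS ((ch n Λ a b L).E χ)

omit [IsAlgClosed k] [IsAlgClosed F] in
theorem ss_free (ih : ∀ m < n, All k F m) (hχ : χ.Prim) {i : ℕ} (hi : i < n) (h : ¬ L i) :
    SS ((ch n Λ a b L).E χ) := by
  obtain ⟨m, rfl⟩ := Nat.exists_eq_add_of_le (Nat.succ_le_of_lt hi)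
  exact ss_split h (ih _ hi χ hχ _ _ _ _) (ih _ (by omega) χ hχ _ _ _ _)

omit [IsAlgClosed k] [IsAlgClosed F] in
theorem fr_succ (ih : ∀ m < n + 1, All k F m) (hχ : χ.Prim) {i : ℕ} (hi : i ≤ n + 1) :
    Fr χ (n + 1) i := fun _ _ _ _ h h' => by
  rcases hi.eq_or_lt with rfl | hi
  exacts [ss_free ih hχ n.lt_succ_self (h' n rfl), ss_free ih hχ hi (h hi)]

/-- Arbitrary exponents at the nodes. -/
theorem ss_gen (h2 : (2 : k) ≠ 0) (core : CoreH k F) (ih : ∀ m < n + 1, All k F m) (hχ : χ.Prim)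
    {M : Finset k} (h0 : 0 ∈ M) (hb : ∀ i < n + 1, χ.ψ (b i) ≠ 1) :
    SS ((ch (n + 1) (fun _ => M) a b fun _ => True).E χ) := by
  classical
  obtain ⟨χ', p, hN, H⟩ := hχ.exists_lift (g := 2) (by simpa using h2)
  obtain ⟨ν, hν⟩ := Infinite.exists_notMem_finset M
  have ev : 2 ∣ χ'.N := hN ▸ dvd_mul_left _ _
  have odd {t : ℤ} (ht : ¬ 2 ∣ t) : χ'.ψ t ≠ 1 := fun e =>
    ht ((Int.natCast_dvd_natCast.2 ev).trans ((p.eq_one_iff t).1 e))
  let P (l : ℕ) : Finset k := if l = n + 1 + 1 then {ν} else M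
  let A (l : ℕ) (μ : k) : ℤ := if l = n + 1 + 1 then (if μ = ν then -1 else 0) else 2 * a l μ
  let B (l : ℕ) : ℤ := if l = n + 1 then 1 else 2 * b l
  have hB (i : ℕ) (hi : i < n + 1 + 1) : χ'.ψ (B i) ≠ 1 := by
    by_cases e : i = n + 1
    · exact odd (by simp [B, e])
    refine fun m => hb i (by omega) ((hχ.eq_one_iff _).2 ?_)
    rw [p.eq_one_iff, hN, show B i = b i * 2 by simp [B, e, mul_comm]] at m
    exact Int.dvd_of_mul_dvd_mul_right two_ne_zero (by exact_mod_cast m)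
  have k1 : SS ((ch (n + 1 + 1) P A B fun _ => True).E χ') := by
    refine ss_of_fibres (t := fun _ x => x (n + 1 + 1)) (fun _ _ _ _ _ _ _ r => r _) M
      (fun μ hμ => ss_last trivial (ss_ch_congr (core χ' p ev (n + 1) M M
        (addE P A (n + 1) μ (B (n + 1))) B μ h0 le_rfl hμ (fun i hi => hB i (by omega))
        fun j hj _ => odd ?_) (fun i hi => ?_) (fun _ _ _ _ => rfl) (fun _ _ => Iff.rfl)
        fun _ _ => rfl))
      (c := Open.conv fun _ _ φ _ _ _ _ r h μ hμ e => h μ hμ ((r _).eq_of (φ.alg μ) e))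
      ((ss_part (fun K x => ?_) fun K x _ _ => ?_).2 (core χ' p ev (n + 1 + 1) M (insert ν M) A B
        ν h0 (Finset.subset_insert _ _) (by simp) hB fun j _ e => odd ?_))
    · rw [Finset.sum_congr rfl (g := fun l => 2 * a l μ + if l = n + 1 then 1 else 0) fun l hl => by
          have : l ≠ n + 1 + 1 := by have := (Finset.mem_Icc.1 hl).2; omega
          simp [addE, P, A, B, this, hμ],
        Finset.sum_congr (s₁ := Finset.Ico _ _) rfl (g := fun l => 2 * b l) fun l hl => by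
          simp [B, (Finset.mem_Ico.1 hl).2.ne]]
      simp only [Finset.sum_add_distrib, ← Finset.mul_sum, Finset.sum_ite_eq', Finset.mem_Icc, hj,
        le_rfl, and_self, if_true]
      omega
    · have : i ≠ n + 1 + 1 := by omega
      simp [addP, P, this, hμ]
    · have e (l : ℕ) (hl : l ≤ n + 1) : P l = if l = n + 1 + 1 then insert ν M else M := by
        simp [P, show l ≠ n + 1 + 1 by omega]
      simp only [lCh_succ (n := n + 1), if_true, Finset.forall_mem_insert, P, Finset.mem_singleton,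
        forall_eq, sub_ne_zero, ne_comm (a := x (n + 1 + 1))]
      rw [show LCh (n + 1) (fun i => if i = n + 1 + 1 then insert ν M else M) (fun _ => True) x ↔
        LCh (n + 1) P (fun _ => True) x from and_congr_left' (forall₂_congr fun l hl => by
          rw [e l hl])]
      tauto
    · rw [fCh_succ (n := n + 1), fCh_succ (n := n + 1)]
      refine congrArg₂ _ ?_ (congrArg (· * _) ?_)
      · exact congrArg (· * _) (Finset.prod_congr rfl fun l hl => by
          simp [P, show l ≠ n + 1 + 1 by have := Finset.mem_range.1 hl; omega])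
      · simp only [nf, P, if_true, Finset.prod_singleton, Finset.prod_insert hν]
        rw [Finset.prod_eq_one fun μ hμ => by simp [A, show μ ≠ ν from fun e => hν (e ▸ hμ)],
          mul_one]
    · obtain rfl := e.resolve_right hν
      simp [A]
  have fr : Fr χ' (n + 1 + 1) (n + 1) := fun _ _ _ _ h h' => ss_split (m := 0)
    (h (by omega)) (ss_free ih p n.lt_succ_self (h' n rfl)) ss_zero
  have k2 := (ss_add le_rfl (fr_succ ih p le_rfl) ν).2 (ss_susp (odd (by simp)) (ν := ν)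
    (mem_addP.2 (.inr ⟨rfl, rfl⟩)) (by simp [addP, P]) (by simp [addE, P, A]) (by simp [B]) trivial
    ((ss_add (n + 1).le_succ fr ν).1 k1))
  refine .of_eqv (H (ch (n + 1) (fun _ => M) a b fun _ => True) (fCh (n + 1) (fun _ => M) (fun l μ => 2 * a l μ) (fun l => 2 * b l)
    fun _ => True) (regF_fCh _ _ _ _ _) (fun _ x h => fCh_ne _ _ _ _ _ x h.2) fun K x _ => ?_)
    (ss_ch_congr (a := fun l μ => 2 * a l μ) (b := fun l => 2 * b l) k2 (fun i hi => ?_)
      (fun i hi _ _ => ?_) (fun _ _ => Iff.rfl) fun i hi => ?_)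
  · simp only [fCh, if_true, mul_pow, ← Finset.prod_pow, zpow_mul', zpow_ofNat]
  · simp [P, show i ≠ n + 1 + 1 by omega]
  · simp [A, show i ≠ n + 1 + 1 by omega]
  · simp [B, hi.ne]

/-- All chains are Schur-finite. -/
theorem ss_ch (h2 : (2 : k) ≠ 0) (core : CoreH k F) (n : ℕ) : All k F n := by
  induction n using Nat.strong_induction_on with | _ n ih => ?_
  intro χ hχ Λ a b L
  rcases n with _ | n
  · exact ss_zero
  refine ss_of_const (fun i hi => fr_succ ih hχ hi) fun M a h0 => ?_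
  by_cases h : ∃ i < n + 1, ¬ L i
  · obtain ⟨i, hi, h⟩ := h
    exact ss_free ih hχ hi h
  simp only [not_exists, not_and, not_not] at h
  by_cases hb : ∃ i < n + 1, χ.ψ (b i) = 1
  · obtain ⟨i, hi, hb⟩ := hb
    exact ss_triv hi (h i hi) hb (ss_diag (by omega) (fun e => e.2 rfl)
      (ih n n.lt_succ_self χ hχ _ _ _ _)) (ss_free ih hχ hi fun e => e.2 rfl)
  exact ss_ch_congr (ss_gen h2 core ih hχ h0 fun i hi e => hb ⟨i, hi, e⟩) (fun _ _ => rfl)
    (fun _ _ _ _ => rfl) (fun i hi => iff_true_intro (h i hi)) fun _ _ => rfl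

end

end Pool.Agent.Lib.MP_fc2ced_ag.T.C.Rd
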