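import Pool.Agent.Lib.MP_fc2ced_ag.C.Tow

/-! The twist of a tower by the powers of a variety. -/

open CategoryTheory Function Polynomial

namespace Pool.Agent.Lib.MP_fc2ced_ag.T.C

open K

noncomputable section

variable {k : Type} [Field k] {F : Type} [Field F] {χ : Chr k F}

open MP_fc2ced_ag.T.Pt hiding X
open G (Nm cut)

theorem pmap_cmp {V V' V'' : PV k} {J : Set ℕ} {e : ∀ ⦃K⦄, V.S.X K → V'.S.X K}
    {e' : ∀ ⦃K⦄, V'.S.X K → V''.S.X K} (h : PMap V V' J e) (h' : PMap V' V'' J e')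
    (l : ∀ ⦃K⦄ (x : V.S.X K), V.S.L x → V'.S.L (e x)) : PMap V V'' J fun _ x => e' (e x) :=
  ⟨h.map.comp h'.map fun _ x a _ => l x a,
    fun _ x a b m hm => (h'.c _ (l x a) b m hm).trans (h.c x a (l x a) m hm)⟩

theorem dep_univ {P : Pt k} (T : PC P) : T.Dep Set.univ :=
  fun _ _ _ _ e h => funext (fun m => e m trivial) ▸ h

theorem uiso_sq {A₀ A B₀ B C₀ C Y Z : Ob k F} {g : A₀ ⟶ A} {g₁ : B₀ ⟶ B} {g₂ : C₀ ⟶ C}
    {s : A ⟶ B} {s₀ : A₀ ⟶ B₀} {a : B ⟶ C} {a₀ : B₀ ⟶ C₀} {u : B ⟶ Y} {v : A ⟶ Y} {r : C ⟶ Z}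
    {b : Y ⟶ Z} (e1 : s ≫ u = v) (e2 : g ≫ s = s₀ ≫ g₁) (e3 : g₁ ≫ a = a₀ ≫ g₂)
    (e4 : a ≫ r = u ≫ b) (hs : UIso s₀) (ha : UIso a₀) (hb : UIso b) (h : UIso (g₂ ≫ r)) :
    UIso (g ≫ v) := by
  have h2 := hs.comp (ha.comp h)
  rw [← reassoc_of% e3, e4, ← reassoc_of% e2, reassoc_of% e1, ← Category.assoc] at h2
  exact .of_comp_right hb h2

section Shuffle

variable (A B M Q : Pt k) (j l : ℕ)

theorem reg_sh : (((A.prod (Q.pi (Fin j))).prod (B.prod (Q.pi (Fin l)))).prod M).Reg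
    (((A.prod B).prod M).prod (Q.pi (Fin (j + l))))
    fun _ x => (((x.1.1.1, x.1.2.1), x.2), fun c => Fin.addCases x.1.1.2 x.1.2.2 c) := by
  refine ⟨fun _ x a => ⟨⟨⟨a.1.1.1, a.1.2.1⟩, a.2⟩,
      G.live_addCases (y := (x.1.1.2, x.1.2.2)) ⟨a.1.1.2, a.1.2.2⟩⟩,
    fun _ _ _ _ _ _ _ r => ⟨⟨⟨r.1.1.1, r.1.2.1⟩, r.2⟩, fun c => ?_⟩⟩
  induction c using Fin.addCases with
  | left c => simpa only [Fin.addCases_left] using r.1.1.2 c
  | right c => simpa only [Fin.addCases_right] using r.1.2.2 c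

theorem reg_hs : (((A.prod B).prod M).prod (Q.pi (Fin (j + l)))).Reg
    (((A.prod (Q.pi (Fin j))).prod (B.prod (Q.pi (Fin l)))).prod M)
    fun _ y => (((y.1.1.1, (cut j l y.2).1), y.1.1.2, (cut j l y.2).2), y.1.2) :=
  ⟨fun _ _ a => ⟨⟨⟨a.1.1.1, fun _ => a.2 _⟩, a.1.1.2, fun _ => a.2 _⟩, a.1.2⟩,
    fun _ _ _ _ _ _ _ a => ⟨⟨⟨a.1.1.1, fun _ => a.2 _⟩, a.1.1.2, fun _ => a.2 _⟩, a.1.2⟩⟩

theorem isMap_hs : IsMap (((A.prod B).prod M).prod (Q.pi (Fin (j + l))))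
    (((A.prod (Q.pi (Fin j))).prod (B.prod (Q.pi (Fin l)))).prod M)
    fun _ y => (((y.1.1.1, (cut j l y.2).1), y.1.1.2, (cut j l y.2).2), y.1.2) :=
  .of_inv (reg_hs A B M Q j l) (reg_sh A B M Q j l)
    (fun _ _ _ => by simp only [Fin.prod_univ_add, cut]; ring)
    fun _ y _ => Prod.ext rfl (G.addCases_cut y.2)

theorem isMap_sh : IsMap (((A.prod (Q.pi (Fin j))).prod (B.prod (Q.pi (Fin l)))).prod M)
    (((A.prod B).prod M).prod (Q.pi (Fin (j + l))))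
    fun _ x => (((x.1.1.1, x.1.2.1), x.2), fun c => Fin.addCases x.1.1.2 x.1.2.2 c) :=
  .of_inv (reg_sh A B M Q j l) (reg_hs A B M Q j l)
    (fun _ _ _ => by simp only [Fin.prod_univ_add, Fin.addCases_left, Fin.addCases_right]; ring)
    fun _ x _ => by simp only [G.cut_addCases (x.1.1.2, x.1.2.2)]

variable (V W : PV k)

theorem pmap_sh : PMap (((V.tw (Q.pi (Fin j))).ten j (W.tw (Q.pi (Fin l)))).tw M)
    (((V.ten j W).tw M).tw (Q.pi (Fin (j + l)))) Set.univ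
    fun _ x => (((x.1.1.1, x.1.2.1), x.2), fun c => Fin.addCases x.1.1.2 x.1.2.2 c) :=
  ⟨isMap_sh _ _ _ _ _ _, fun _ _ _ _ _ _ => rfl⟩

theorem bij_sh {P : Pt k} (T : PC P) :
    Bij (ov χ (((V.tw (Q.pi (Fin j))).ten j (W.tw (Q.pi (Fin l)))).tw M)
      (((V.ten j W).tw M).tw (Q.pi (Fin (j + l)))) T
      fun _ x => (((x.1.1.1, x.1.2.1), x.2), fun c => Fin.addCases x.1.1.2 x.1.2.2 c)) := by
  refine (pmap_sh M Q j l V W).ov_bij (dep_univ T) (reg_sh _ _ _ _ _ _).live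
    (fun _ x y _ _ e => ?_) fun _ y a =>
      ⟨_, (reg_hs _ _ _ _ _ _).live y a, Prod.ext rfl (G.addCases_cut y.2)⟩
  have := congrArg (fun y => (((y.1.1.1, (cut j l y.2).1), y.1.1.2, (cut j l y.2).2), y.1.2)) e
  simpa only [G.cut_addCases (x.1.1.2, x.1.2.2), G.cut_addCases (y.1.1.2, y.1.2.2)] using this

end Shuffle

namespace Tow

variable (D : Tow k) (Q : Pt k)

theorem tw_pqq {j l : ℕ} (hj : 0 < j) (hl : 0 < l) :
    PMap ((((D.X j).tw (Q.pi (Fin j))).ten j ((D.X l).tw (Q.pi (Fin l)))).tw (D.M j l))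
      ((D.X (j + l)).tw (Q.pi (Fin (j + l)))) {j + l} fun _ x =>
      (D.qq j l ((x.1.1.1, x.1.2.1), x.2), fun c => Fin.addCases x.1.1.2 x.1.2.2 c) :=
  pmap_cmp ((pmap_sh _ Q j l _ _).mono (Set.subset_univ _)) ((D.pqq j l hj hl).tw _)
    (reg_sh _ _ _ _ _ _).live

theorem tw_mka (j l : ℕ) : IsMap ((D.A (j + l)).prod (Q.pi (Fin (j + l))))
    ((((D.A j).prod (Q.pi (Fin j))).prod ((D.A l).prod (Q.pi (Fin l)))).prod (D.M j l))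
    fun _ x => ((((D.ka j l x.1).1.1, (cut j l x.2).1), (D.ka j l x.1).1.2, (cut j l x.2).2),
      (D.ka j l x.1).2) :=
  ((D.mka j l).prod isMap_id).comp (isMap_hs _ _ _ Q j l) fun _ x a _ => ⟨D.lka j l x.1 a.1, a.2⟩

theorem tw_ika (j l : ℕ) ⦃K : Fld k⦄ (x x' : (D.A (j + l)).X K × (Fin (j + l) → Q.X K))
    (h : ((D.A (j + l)).prod (Q.pi (Fin (j + l)))).L x)
    (h' : ((D.A (j + l)).prod (Q.pi (Fin (j + l)))).L x')
    (e : ((((D.ka j l x.1).1.1, (cut j l x.2).1), (D.ka j l x.1).1.2, (cut j l x.2).2),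
      (D.ka j l x.1).2) = ((((D.ka j l x'.1).1.1, (cut j l x'.2).1), (D.ka j l x'.1).1.2,
        (cut j l x'.2).2), (D.ka j l x'.1).2)) : x = x' := by
  simp only [Prod.mk.injEq] at e
  obtain ⟨⟨⟨a, b⟩, c, d⟩, f⟩ := e
  refine Prod.ext (D.ika j l _ _ h.1 h'.1 (Prod.ext (Prod.ext a c) f)) ?_
  rw [← G.addCases_cut x.2, b, d, G.addCases_cut]

theorem tw_ska (j l : ℕ) ⦃K : Fld k⦄ (y : (((D.A j).X K × (Fin j → Q.X K)) ×
      (D.A l).X K × (Fin l → Q.X K)) × (D.M j l).X K)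
    (h : ((((D.A j).prod (Q.pi (Fin j))).prod ((D.A l).prod (Q.pi (Fin l)))).prod (D.M j l)).L y) :
    ∃ x : (D.A (j + l)).X K × (Fin (j + l) → Q.X K),
      ((D.A (j + l)).prod (Q.pi (Fin (j + l)))).L x ∧
      ((((D.ka j l x.1).1.1, (cut j l x.2).1), (D.ka j l x.1).1.2, (cut j l x.2).2),
        (D.ka j l x.1).2) = y := by
  obtain ⟨h1, h2⟩ := (reg_sh _ _ _ _ _ _).live y h
  obtain ⟨x, a, e⟩ := D.ska j l _ h1
  exact ⟨(x, _), ⟨a, h2⟩, by simp only [e, G.cut_addCases (y.1.1.2, y.1.2.2)]⟩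

/-- The twisted tower. -/
@[reducible] def tw : Tow k where
  A w := (D.A w).prod (Q.pi (Fin w))
  ev w _ x := D.ev w x.1
  hev w a := reg_fst.regF (D.hev w a)
  ne w _ x h := D.ne w x.1 h.1
  pm σ _ x := (D.pm σ x.1, x.2)
  pm_reg σ := ⟨fun _ x h => ⟨(D.pm_reg σ).live x.1 h.1, h.2⟩,
    fun _ _ φ x y a b r => ⟨(D.pm_reg σ).reg φ x.1 y.1 a.1 b.1 r.1, r.2⟩⟩
  pm_f σ _ x h := congrArg (· * _) (D.pm_f σ x.1 h.1)
  pm_one x := Prod.ext (D.pm_one x.1) rfl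
  pm_mul σ τ _ x := Prod.ext (D.pm_mul σ τ x.1) rfl
  ev_pm σ _ x := D.ev_pm σ x.1
  X w := (D.X w).tw (Q.pi (Fin w))
  good w _ x h := D.good w x.1 h.1
  M := D.M
  q w _ x := (D.q w x.1, x.2)
  pq w := (D.pq w).tw _
  lq w _ x h := ⟨D.lq w x.1 h.1, h.2⟩
  qq j l _ x := (D.qq j l ((x.1.1.1, x.1.2.1), x.2), fun c => Fin.addCases x.1.1.2 x.1.2.2 c)
  pqq _ _ := D.tw_pqq Q
  lqq j l hj hl _ x h := ⟨D.lqq j l hj hl _ ⟨⟨h.1.1.1, h.1.2.1⟩, h.2⟩,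
    G.live_addCases (y := (x.1.1.2, x.1.2.2)) ⟨h.1.1.2, h.1.2.2⟩⟩
  ka j l _ x := ((((D.ka j l x.1).1.1, (cut j l x.2).1), (D.ka j l x.1).1.2, (cut j l x.2).2),
    (D.ka j l x.1).2)
  mka := D.tw_mka Q
  lka j l _ x h := have := D.lka j l x.1 h.1
    ⟨⟨⟨this.1.1, fun _ => h.2 _⟩, this.1.2, fun _ => h.2 _⟩, this.2⟩
  ika := D.tw_ika Q
  ska := D.tw_ska Q
  ev_ka j l _ x := D.ev_ka j l x.1
  ka_pm j l σ τ _ x := by simp only [D.ka_pm]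
  d := D.d

variable {D Q} {w : ℕ} {P : Pt k} {T : PC P}

theorem tw_op (hT : T.Dep {w}) (σ : Equiv.Perm (Fin w)) :
    (isMap_tw (D.Av w) (Q.pi (Fin w)) T).hom χ ≫ D.op χ (T.tw (Q.pi (Fin w))) σ =
      (D.tw Q).op χ T σ ≫ (isMap_tw (D.Av w) (Q.pi (Fin w)) T).hom χ :=
  (pend_top σ).toPMap.comm_tw _ hT

theorem tw_oq (hT : T.Dep {w}) :
    (isMap_tw (D.Av w) (Q.pi (Fin w)) T).hom χ ≫ D.oq χ w (T.tw (Q.pi (Fin w))) =
      (D.tw Q).oq χ w T ≫ (isMap_tw (D.X w) (Q.pi (Fin w)) T).hom χ :=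
  (D.pq w).comm_tw _ hT

theorem tw_ha (hT : T.Dep {w}) {σ : Equiv.Perm (Fin w)} :
    (D.tw Q).Ha χ T σ ↔ D.Ha χ (T.tw (Q.pi (Fin w))) σ := by
  have e : ((D.tw Q).op χ T σ ≫ (D.tw Q).oq χ w T - eps F D.d w σ • (D.tw Q).oq χ w T) ≫
      (isMap_tw (D.X w) (Q.pi (Fin w)) T).hom χ = (isMap_tw (D.Av w) (Q.pi (Fin w)) T).hom χ ≫
        (D.op χ (T.tw (Q.pi (Fin w))) σ ≫ D.oq χ w (T.tw (Q.pi (Fin w))) -
          eps F D.d w σ • D.oq χ w (T.tw (Q.pi (Fin w)))) := by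
    rw [Preadditive.comp_sub, Linear.comp_smul, ← Category.assoc, tw_op hT, Category.assoc,
      tw_oq hT, Preadditive.sub_comp, Linear.smul_comp, Category.assoc]
  exact ⟨fun h => .of_uiso_comp (bij_tw _ _ T).uiso (e ▸ Null.comp h _),
    fun h => .of_comp_uiso (bij_tw _ _ T).uiso (e ▸ Null.precomp _ h)⟩

theorem tw_hb (hT : T.Dep {w}) : (D.tw Q).Hb χ w T ↔ D.Hb χ w (T.tw (Q.pi (Fin w))) := by
  refine Quo.uiso_iff .id .id ((Category.comp_id _).trans (Category.id_comp _).symm) (tw_oq hT)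
    (bij_tw _ _ T).uiso (bij_tw _ _ T).uiso ?_
  rw [Preadditive.sum_comp, Preadditive.comp_sum]
  exact Finset.sum_congr rfl fun σ _ => by rw [Linear.smul_comp, Linear.comp_smul, tw_op hT]

theorem fac_eq {j l : ℕ} (hj : 0 < j) (hl : 0 < l) :
    PMap (D.Av (j + l)) (D.X (j + l)) {j + l} (fun _ x => D.qq j l
      ((D.q j (D.ka j l x).1.1, D.q l (D.ka j l x).1.2), (D.ka j l x).2)) ∧
    ∀ {P : Pt k} {T : PC P}, T.Dep {j + l} → ov χ (D.Av (j + l)) (D.Bv j l) T (D.ka j l) ≫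
      ov χ (D.Bv j l) (D.Zv j l) T (fun _ x => ((D.q j x.1.1, D.q l x.1.2), x.2)) ≫
      ov χ (D.Zv j l) (D.X (j + l)) T (D.qq j l) = ov χ (D.Av (j + l)) (D.X (j + l)) T
        fun _ x => D.qq j l ((D.q j (D.ka j l x).1.1, D.q l (D.ka j l x).1.2), (D.ka j l x).2) := by
  have p1 := (pka (D := D) j l).mono (Set.subset_univ {j + l})
  have p2 : PMap (D.Bv j l) (D.Zv j l) {j + l} fun _ x => ((D.q j x.1.1, D.q l x.1.2), x.2) :=
    (((D.pq j).ten (D.pq l) rfl).tw (D.M j l)).mono fun m hm =>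
      Or.inr ⟨by rw [hm]; omega, by rw [hm]; exact Nat.add_sub_cancel_left _ _⟩
  have l2 : ∀ ⦃K⦄ (x : (D.Bv j l).S.X K), (D.Bv j l).S.L x →
      (D.Zv j l).S.L ((D.q j x.1.1, D.q l x.1.2), x.2) :=
    fun _ x a => ⟨⟨D.lq j _ a.1.1, D.lq l _ a.1.2⟩, a.2⟩
  have p3 := pmap_cmp p2 (D.pqq j l hj hl) l2
  have p4 := pmap_cmp p1 p3 (D.lka j l)
  refine ⟨p4, fun hT => ?_⟩
  rw [p2.ov_comp (D.pqq j l hj hl) hT p3 (fun _ x a _ => l2 x a) fun _ _ _ _ => rfl,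
    p1.ov_comp p3 hT p4 (fun _ x a _ => D.lka j l x a) fun _ _ _ _ => rfl]

theorem tw_fac (h : D.Fac χ) : (D.tw Q).Fac χ := fun j l P T hj hl hT => by
  have h1 := h j l _ _ hj hl (hT.tw (Q.pi (Fin (j + l))))
  obtain ⟨p, e⟩ := fac_eq (D := D) (χ := χ) hj hl
  rw [e (hT.tw _)] at h1
  rw [(fac_eq hj hl).2 hT]
  refine .of_comp_uiso (bij_tw _ _ T).uiso ?_
  have h2 := h1.precomp ((isMap_tw (D.Av (j + l)) (Q.pi (Fin (j + l))) T).hom χ)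
  rw [Preadditive.comp_sub, tw_oq hT, p.comm_tw _ hT, ← Preadditive.sub_comp] at h2
  simpa only [G.addCases_cut] using h2

theorem tw_clean (h : D.Clean χ) : (D.tw Q).Clean χ :=
  fun j l P T t ht hj hl hT hc => by
  have h1 := h j l _ (T.tw (Q.pi (Fin (j + l)))) (fun _ y => t y.2) (reg_snd.regF ht) hj hl
    (hT.tw _) fun _ c p a b d => hc c p.2 a b.2 d
  have s := pmap_sh (D.M j l) Q j l (D.X j) (D.X l)
  have e1 := (s.mono (Set.subset_univ _)).ov_comp (χ := χ) ((D.pqq j l hj hl).tw _) hT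
    (D.tw_pqq Q hj hl) (fun _ x a _ => (reg_sh _ _ _ _ _ _).live x a) fun _ _ _ _ => rfl
  have e2 := EigA.gen_nat (χ := χ) (j := j) ht s (dep_univ T) (dep_univ _)
  have e3 : (EigA.isMap_gen j T ht ((D.Zv j l).tw (Q.pi (Fin (j + l))))).hom χ ≫
      (isMap_tw (D.Zv j l) (Q.pi (Fin (j + l))) T).hom χ =
      (isMap_tw (D.Zv j l) (Q.pi (Fin (j + l))) (EigA.gen j T ht)).hom χ ≫
        (EigA.isMap_gen j (T.tw (Q.pi (Fin (j + l)))) (reg_snd.regF ht) (D.Zv j l)).hom χ :=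
    IsMap.comm _ _ _ _ (fun _ _ a => and_congr_left fun _ => iff_of_true ⟨a.1, a.2.1⟩
      ⟨⟨a.1.1.1, a.1.1.2, a.1.2⟩, a.2⟩) fun _ _ _ _ _ => rfl
  exact uiso_sq e1 e2 e3 ((D.pqq j l hj hl).comm_tw _ hT) (bij_sh _ _ _ _ _ _ _).uiso
    (bij_tw _ _ _).uiso (bij_tw _ _ _).uiso h1

/-- The main theorem over twisted spaces of parameters. -/
theorem hb_tw [CharZero F] (Q : Pt k) (hf : D.Fac χ) (hc : D.Clean χ)
    (two : ∀ (P : Pt k) (T : PC P), T.Dep {2} →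
      D.Ha χ (T.tw (Q.pi (Fin 2))) (Equiv.swap (0 : Fin 2) 1))
    (norm : ∀ (w : ℕ) (P : Pt k) (T : PC P), 0 < w → Nm w T → D.Hb χ w (T.tw (Q.pi (Fin w))))
    (hw : 0 < w) (hT : T.Dep {w}) : D.Hb χ w (T.tw (Q.pi (Fin w))) :=
  (tw_hb hT).1 (hb (tw_fac hf) (tw_clean hc) (fun P T h => (tw_ha h).2 (two P T h))
    (fun w P T h h' => (tw_hb fun _ c c' p e => h' c c' p (by rw [e w rfl])).2 (norm w P T h h'))
    hw hT)

end Tow

end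

end Pool.Agent.Lib.MP_fc2ced_ag.T.C
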